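import Pool.Agent.H26.SG.SelZ
import Pool.Agent.H10.Iso3

/-!
Cocycles with values in the two-torsion and triples.

PROOF.

`triple_unique`. By `T.hf` and `T'.hf` (with `Q = 0`) and `map_zero` we have
`f σ = hb.tau (a σ)` and `g σ = hb.tau (b σ)`, so it is enough that `a σ = b σ` for all `σ`.
Let `d₂ * d₂' = y * y` and `d₃ * d₃' = z * z`. Then `(r₂ * r₂')^2 = algebraMap (y)^2`, so
`r₂ * r₂' = ± algebraMap y` is fixed by `σ`; but `σ (r₂ * r₂') = (a σ).1 * (b σ).1 * (r₂ * r₂')`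
by `T.sg`, `T'.sg`, and `r₂ * r₂' ≠ 0`, so `((a σ).1 * (b σ).1 : Ω) = 1` and `(a σ).1 = (b σ).1`
(units of the integers are `1` or `-1`; the characteristic is not two, cf. the proof of
`Pool.Agent.H10.Sg.unique`). In the same way for the second component.

`card_selZ`. Let `G = Lˣ × Lˣ × Lˣ`. For `f ∈ SelZ L V` the theorem `exists_triple_half` with
`Q = 0` (the hypothesis is `f σ + f σ = 0`, and `map_zero`) gives `a r₁ r₂ r₃ d₁ d₂ d₃ c` with
`T : Triple h f a 0 r₁ r₂ r₃ d₁ d₂ d₃ c`. The `d i` are not zero (`T.hd`, `T.hc`). So there is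
`t : SelZ L V → G` with `∃ a r₁ r₂ r₃ c, Triple h f a 0 r₁ r₂ r₃ (t f).1 (t f).2.1 (t f).2.2 c`
(use `Units.mk0` and `choose`). Let `F f = QuotientGroup.mk (t f) : G ⧸ sqT L`.
* `F` is injective: `F f = F g` gives `(t f)⁻¹ * t g ∈ sqT L`, so the products of the components
  are squares (`x * y = (x⁻¹ * y) * x^2`), and `triple_unique` applies.
* The range of `F` is the image of `selT h`: `t f ∈ selT h` because the product is a square by
  `T.hd`, and it is soluble at all places by `Triple.local_cpt` with `exists_embedding` (as in the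
  proof of `sha2Trivial_of_hasse` in `Pool.Agent.H10.Hasse`). Conversely if `s ∈ selT h` then
  `exists_sha_of_triple` gives `f ∈ SelZ L V` with a `Triple` for `s`; with `t f` it has two
  triples with the same `f`. It remains that `F f = mk s`, that is that `(t f)⁻¹ * s` consists of
  squares: this is `triple_sq` below (with `f = g`).
* Hence `Nat.card (SelZ L V) = Nat.card ((selT h).map (QuotientGroup.mk' (sqT L)))`
  (`Nat.card_congr` of `Equiv.ofInjective` and an equality of sets), and by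
  `Subgroup.relIndex_ker` applied to `QuotientGroup.mk' (sqT L)` with `QuotientGroup.ker_mk'`
  the right hand side is `(sqT L).relIndex (selT h)`.

`triple_sq`. If the same `f` has two triples with `Q = 0` then `hb.tau (a σ) = hb.tau (b σ)`, so
`a σ = b σ` by `IsCub.tau_injective`. Then `r₂ * r₂'` is fixed by all `σ` (`units_cast_sq`), hence
equal to `algebraMap y` by `fixed_of_galois`, and `d₂ * d₂' = y^2` as `algebraMap` is injective
(see the end of the proof of `count_classes` in `Pool.Agent.H10.GrCoh`). The same for the other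
two components (for the first one `(a σ).1 * (a σ).2` in place of `(a σ).1`).
-/

set_option autoImplicit false
set_option linter.style.haveILetI false
open scoped Classical

open WeierstrassCurve IsDedekindDomain NumberField WithZero

namespace Pool.Agent.H26.SG

open Pool.Agent.H10

variable {L : Type} [Field L] [NumberField L] {V : WeierstrassCurve L} {e₁ e₂ e₃ : L}

lemma CardA_ueq {K Ω : Type*} [Field K] [Field Ω] [Algebra K Ω] (two : (2 : Ω) ≠ 0)
    {σ : Ω ≃ₐ[K] Ω} {u v : ℤˣ} {r r' : Ω} {d d' : K} (n : r ≠ 0) (n' : r' ≠ 0)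
    (q : r ^ 2 = algebraMap K Ω d) (q' : r' ^ 2 = algebraMap K Ω d')
    (s : σ r = ((u : ℤ) : Ω) * r) (s' : σ r' = ((v : ℤ) : Ω) * r') (hs : IsSquare (d * d')) :
    u = v := by
  obtain ⟨y, hy⟩ := hs
  have h1 : (r * r') ^ 2 = (algebraMap K Ω y) ^ 2 := by
    rw [mul_pow, q, q', ← map_mul, hy, map_mul, pow_two]
  have h2 : σ (r * r') = r * r' := by
    rcases sq_eq_sq_iff_eq_or_eq_neg.mp h1 with h | h
    · rw [h, σ.commutes]
    · rw [h, map_neg, σ.commutes]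
  have h3 : (((u : ℤ) : Ω) * ((v : ℤ) : Ω) - 1) * (r * r') = 0 := by
    rw [map_mul, s, s'] at h2
    linear_combination h2
  have h4 : ((u : ℤ) : Ω) * ((v : ℤ) : Ω) - 1 = 0 := by
    rcases mul_eq_zero.mp h3 with h | h
    · exact h
    · exact absurd h (mul_ne_zero n n')
  rcases Int.units_eq_one_or u with rfl | rfl <;> rcases Int.units_eq_one_or v with rfl | rfl
  · rfl
  · exfalso
    apply two
    simp at h4
    linear_combination -h4
  · exfalso
    apply two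
    simp at h4
    linear_combination -h4
  · rfl

lemma CardA_sq {r r' : AlgebraicClosure L} {d d' : L}
    (q : r ^ 2 = algebraMap L (AlgebraicClosure L) d)
    (q' : r' ^ 2 = algebraMap L (AlgebraicClosure L) d')
    (s : ∀ σ : AlgebraicClosure L ≃ₐ[L] AlgebraicClosure L, ∃ u : ℤˣ,
      σ r = ((u : ℤ) : AlgebraicClosure L) * r ∧ σ r' = ((u : ℤ) : AlgebraicClosure L) * r') :
    IsSquare (d * d') := by
  obtain ⟨y, hy⟩ := fixed_of_galois (k := L) (r * r') (fun σ => by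
    obtain ⟨u, h1, h2⟩ := s σ
    rw [map_mul, h1, h2]
    have := units_cast_sq (Ω := AlgebraicClosure L) u
    linear_combination (r * r') * this)
  refine ⟨y, ?_⟩
  apply (algebraMap L (AlgebraicClosure L)).injective
  rw [map_mul, map_mul, hy, ← q, ← q']
  ring

theorem triple_unique {h : IsCub V e₁ e₂ e₃} {f g : Coch L V}
    {a b : (AlgebraicClosure L ≃ₐ[L] AlgebraicClosure L) → ℤˣ × ℤˣ}
    {r₁ r₂ r₃ r₁' r₂' r₃' : AlgebraicClosure L} {d₁ d₂ d₃ c d₁' d₂' d₃' c' : L}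
    (T : Triple h f a 0 r₁ r₂ r₃ d₁ d₂ d₃ c) (T' : Triple h g b 0 r₁' r₂' r₃' d₁' d₂' d₃' c')
    (h2 : IsSquare (d₂ * d₂')) (h3 : IsSquare (d₃ * d₃')) : f = g := by
  have two : (2 : AlgebraicClosure L) ≠ 0 := (h.bc (Ω := AlgebraicClosure L)).two
  funext σ
  have e1 := T.hf σ
  have e2 := T'.hf σ
  rw [map_zero, sub_zero, zero_add] at e1 e2
  have e3 : a σ = b σ := Prod.ext
    (CardA_ueq two T.n2 T'.n2 T.q2 T'.q2 (T.sg σ).2.1 (T'.sg σ).2.1 h2)
    (CardA_ueq two T.n3 T'.n3 T.q3 T'.q3 (T.sg σ).2.2 (T'.sg σ).2.2 h3)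
  rw [e1, e2, e3]

theorem triple_sq {h : IsCub V e₁ e₂ e₃} {f : Coch L V}
    {a b : (AlgebraicClosure L ≃ₐ[L] AlgebraicClosure L) → ℤˣ × ℤˣ}
    {r₁ r₂ r₃ r₁' r₂' r₃' : AlgebraicClosure L} {d₁ d₂ d₃ c d₁' d₂' d₃' c' : L}
    (T : Triple h f a 0 r₁ r₂ r₃ d₁ d₂ d₃ c) (T' : Triple h f b 0 r₁' r₂' r₃' d₁' d₂' d₃' c') :
    IsSquare (d₁ * d₁') ∧ IsSquare (d₂ * d₂') ∧ IsSquare (d₃ * d₃') := by
  have hb := h.bc (Ω := AlgebraicClosure L)
  have hab : ∀ σ, a σ = b σ := by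
    intro σ
    apply hb.tau_injective
    have e1 := T.hf σ
    have e2 := T'.hf σ
    rw [map_zero, sub_zero, zero_add] at e1 e2
    rw [← e1, ← e2]
  refine ⟨CardA_sq T.q1 T'.q1 fun σ => ⟨(a σ).1 * (a σ).2, (T.sg σ).1, ?_⟩,
    CardA_sq T.q2 T'.q2 fun σ => ⟨(a σ).1, (T.sg σ).2.1, ?_⟩,
    CardA_sq T.q3 T'.q3 fun σ => ⟨(a σ).2, (T.sg σ).2.2, ?_⟩⟩
  · rw [hab σ]
    exact (T'.sg σ).1
  · rw [hab σ]
    exact (T'.sg σ).2.1
  · rw [hab σ]
    exact (T'.sg σ).2.2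

omit [NumberField L] in
lemma CardA_isSq {x y : Lˣ} (hq : IsSquare ((x⁻¹ * y : Lˣ) : L)) : IsSquare ((x : L) * (y : L)) := by
  obtain ⟨z, hz⟩ := hq
  refine ⟨z * x, ?_⟩
  have hx : (x : L) ≠ 0 := x.ne_zero
  rw [Units.val_mul, Units.val_inv_eq_inv_val] at hz
  have : (x : L) * y = ((x : L)⁻¹ * y) * (x : L) ^ 2 := by field_simp
  rw [this, hz]
  ring

omit [NumberField L] in
lemma CardA_isSq' {x y : Lˣ} (hq : IsSquare ((x : L) * (y : L))) : IsSquare ((x⁻¹ * y : Lˣ) : L) := by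
  obtain ⟨z, hz⟩ := hq
  refine ⟨z * (x : L)⁻¹, ?_⟩
  have hx : (x : L) ≠ 0 := x.ne_zero
  rw [Units.val_mul, Units.val_inv_eq_inv_val]
  have : (x : L)⁻¹ * y = ((x : L) * y) * ((x : L)⁻¹ * (x : L)⁻¹) := by field_simp
  rw [this, hz]
  ring

theorem card_selZ (h : IsCub V e₁ e₂ e₃) :
    Nat.card (SelZ L V) = (sqT L).relIndex (selT h) := by
  have ex : ∀ f : SelZ L V, ∃ (t : Lˣ × Lˣ × Lˣ)
      (a : (AlgebraicClosure L ≃ₐ[L] AlgebraicClosure L) → ℤˣ × ℤˣ)
      (r₁ r₂ r₃ : AlgebraicClosure L) (c : L),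
      Triple h f.1 a 0 r₁ r₂ r₃ (t.1 : L) (t.2.1 : L) (t.2.2 : L) c := by
    intro f
    obtain ⟨hf1, hf2, hf3⟩ := mem_selZ.mp f.2
    obtain ⟨a, r₁, r₂, r₃, d₁, d₂, d₃, c, T⟩ := exists_triple_half h f.1 hf1 0 (by
      intro σ
      rw [hf3, add_zero, map_zero, sub_zero])
    have hn : d₁ * d₂ * d₃ ≠ 0 := by rw [T.hd]; exact pow_ne_zero 2 T.hc
    have n1 : d₁ ≠ 0 := fun e => hn (by rw [e]; ring)
    have n2 : d₂ ≠ 0 := fun e => hn (by rw [e]; ring)
    have n3 : d₃ ≠ 0 := fun e => hn (by rw [e]; ring)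
    exact ⟨(Units.mk0 d₁ n1, Units.mk0 d₂ n2, Units.mk0 d₃ n3), a, r₁, r₂, r₃, c, T⟩
  choose t a r₁ r₂ r₃ c T using ex
  have tsel : ∀ f, t f ∈ selT h := by
    intro f
    obtain ⟨hf1, hf2, hf3⟩ := mem_selZ.mp f.2
    refine ⟨⟨c f, by rw [(T f).hd, pow_two]⟩, fun v => ?_, fun v => ?_⟩
    · obtain ⟨ι⟩ := exists_embedding L (v.adicCompletion L)
      exact (T f).local_cpt ι (hf2.1 v ι)
    · obtain ⟨ι⟩ := exists_embedding L v.Completion
      exact (T f).local_cpt ι (hf2.2 v ι)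
  set F : SelZ L V → (Lˣ × Lˣ × Lˣ) ⧸ sqT L := fun f => QuotientGroup.mk (t f) with hF
  have Finj : Function.Injective F := by
    intro f g hfg
    have h1 : (t f)⁻¹ * t g ∈ sqT L := QuotientGroup.eq.mp hfg
    rw [mem_sqT] at h1
    obtain ⟨-, h2, h3⟩ := h1
    exact Subtype.ext (triple_unique (T f) (T g) (CardA_isSq h2) (CardA_isSq h3))
  have Frange : Set.range F =
      (((selT h).map (QuotientGroup.mk' (sqT L)) : Subgroup ((Lˣ × Lˣ × Lˣ) ⧸ sqT L)) :
        Set ((Lˣ × Lˣ × Lˣ) ⧸ sqT L)) := by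
    ext z
    rw [SetLike.mem_coe, Subgroup.mem_map]
    constructor
    · rintro ⟨f, rfl⟩
      exact ⟨t f, tsel f, rfl⟩
    · rintro ⟨s, hs, rfl⟩
      obtain ⟨cs, hcs, ecs⟩ := isSquare_triple hs.1
      obtain ⟨f, a', r₁', r₂', r₃', hf1, hf2, hf3, T'⟩ :=
        exists_sha_of_triple h ecs hcs hs.2.1 hs.2.2
      have hfm : f ∈ SelZ L V := mem_selZ.mpr ⟨hf1, hf2, hf3⟩
      obtain ⟨s1, s2, s3⟩ := triple_sq (T ⟨f, hfm⟩) T'
      refine ⟨⟨f, hfm⟩, ?_⟩
      rw [hF]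
      refine QuotientGroup.eq.mpr ?_
      rw [mem_sqT]
      exact ⟨CardA_isSq' s1, CardA_isSq' s2, CardA_isSq' s3⟩
  have h1 := Subgroup.relIndex_ker (selT h) (QuotientGroup.mk' (sqT L))
  rw [QuotientGroup.ker_mk'] at h1
  rw [h1, Nat.card_congr (Equiv.ofInjective F Finj), Frange]
  rfl

end Pool.Agent.H26.SG
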