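import Pool.Agent.H26.SG.SelZ
import Pool.Agent.H10.Iso3

/-!
The number of cocycles with values in the two-torsion.

PROOF. Write `Ω` for the algebraic closure, `iL = inv_bc L V`, `hL : V.map (algebraMap L Ω) =
V.baseChange Ω := rfl`, `j₀ = pm (algebraMap L Ω) hL : E(L) →+ E(Ω)` (injective, `pm_injective`
or by cases) and `act iL σ` for the action (see `Pool.Agent.H10.Func4` and following and the file
`Pool.Agent.H10.GrCoh`, where all the facts below are used; `isCobound_iff` says
`IsCobound L V f ↔ ∃ Q, ∀ σ, f σ = act iL σ Q - Q`). Facts: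
(T) if `D + D = 0` in `E(Ω)` then `act iL σ D = D` (`IsCub.exists_tau` and `IsCub.map_tau`, see
    `hDinv` in `GrCoh`);
(I) `act iL σ (j₀ Y) = j₀ Y` (see `hinv` in `GrCoh`);
(D) if `act iL σ R = R` for all `σ` then `R = j₀ X` for some `X` (`pm_descent hL iL`);
(H) every `Q ∈ E(Ω)` is `R + R` (`IsCub.exists_two_nsmul`).

1. For `P ∈ E(L)` choose `R P` with `R P + R P = j₀ P` by (H). Let `κ P σ = act iL σ (R P) - R P`.
   It is in `SelZ L V`: it is a cocycle and locally trivial by `shaB_le` (a coboundary), and its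
   double is `act iL σ (j₀ P) - j₀ P = 0` by (I). It is additive in `P`: `R (P + Q) - R P - R Q`
   is killed by two, hence fixed, by (T). So `κ : E(L) →+ SelZ L V`.
2. The kernel of `κ` is the range of `nsmulAddMonoidHom 2`: if `κ P = 0` then `R P = j₀ X` by (D)
   and `j₀ (X + X) = j₀ P`, so `P = X + X`. If `P = X + X` then `R P - j₀ X` is killed by two,
   hence fixed, so `R P` is fixed and `κ P = 0`.
3. Let `q : SelZ L V →+ Sha L V`, `q f = Sha.mk ⟨f, _⟩`. The kernel of `q` is the range of `κ`:
   `Sha.mk_eq_zero`; if `f σ = act iL σ Q - Q` is killed by two then `Q + Q` is fixed, hence equal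
   to `j₀ P`, and `Q - R P` is killed by two hence fixed, so `f = κ P`. The converse is clear.
4. The range of `q` is `{x | x + x = 0}`: clearly contained; if `x = Sha.mk g` with `x + x = 0`
   then `g σ + g σ = act iL σ Q₀ - Q₀` (`Sha.mk_eq_zero` for `g + g`, `Sha.mk` is additive), and
   with `Q + Q = Q₀` the cochain `f σ = g σ - (act iL σ Q - Q)` is in `SelZ L V` and
   `q f = x`.
5. `Nat.card (SelZ L V) = Nat.card q.ker * Nat.card q.range` (`AddSubgroup.card_mul_index`,
   `AddSubgroup.index_ker`), `Nat.card q.ker = Nat.card κ.range = κ.ker.index`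
   (`AddSubgroup.index_ker`).
-/

set_option autoImplicit false
set_option linter.style.haveILetI false
open scoped Classical

open WeierstrassCurve IsDedekindDomain NumberField WithZero

namespace Pool.Agent.H26.SG

open Pool.Agent.H10

section abs

variable {A M G : Type*} [AddCommGroup A] [AddCommGroup M]

theorem CardB_abs (act : G → A →+ A) (j : M →+ A) (hj : Function.Injective j)
    (hT : ∀ D : A, D + D = 0 → ∀ σ, act σ D = D)
    (hI : ∀ σ Y, act σ (j Y) = j Y)
    (hD : ∀ R, (∀ σ, act σ R = R) → ∃ X, j X = R)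
    (hH : ∀ Q : A, ∃ R, R + R = Q)
    (Z B : AddSubgroup (G → A)) (hB : ∀ f, f ∈ B ↔ ∃ Q, ∀ σ, f σ = act σ Q - Q) (hBZ : B ≤ Z) :
    Nat.card (Z ⊓ (nsmulAddMonoidHom 2 : (G → A) →+ (G → A)).ker : AddSubgroup (G → A)) =
      (nsmulAddMonoidHom 2 : M →+ M).range.index *
        Nat.card {x : Z ⧸ B.addSubgroupOf Z // x + x = 0} := by
  set S : AddSubgroup (G → A) := Z ⊓ (nsmulAddMonoidHom 2 : (G → A) →+ (G → A)).ker with hSdef
  have hS : ∀ f : G → A, f ∈ S ↔ f ∈ Z ∧ ∀ σ, f σ + f σ = 0 := by
    intro f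
    rw [hSdef, AddSubgroup.mem_inf, AddMonoidHom.mem_ker]
    constructor
    · rintro ⟨h1, h3⟩
      refine ⟨h1, fun σ => ?_⟩
      have h4 := congrFun h3 σ
      rw [← two_nsmul]
      exact h4
    · rintro ⟨h1, h3⟩
      refine ⟨h1, ?_⟩
      funext σ
      change (2 : ℕ) • f σ = 0
      rw [two_nsmul]
      exact h3 σ
  choose R hR using fun P => hH (j P)
  have hκS : ∀ P, (fun σ => act σ (R P) - R P) ∈ S := by
    intro P
    rw [hS]
    refine ⟨hBZ ((hB _).2 ⟨R P, fun σ => rfl⟩), fun σ => ?_⟩
    have h1 := hI σ P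
    rw [← hR P, map_add] at h1
    calc (act σ (R P) - R P) + (act σ (R P) - R P) =
        (act σ (R P) + act σ (R P)) - (R P + R P) := by abel
      _ = 0 := by rw [h1, sub_self]
  let κ : M →+ S := AddMonoidHom.mk' (fun P => (⟨_, hκS P⟩ : S)) (by
    intro P Q
    apply Subtype.ext
    funext σ
    change act σ (R (P + Q)) - R (P + Q) = (act σ (R P) - R P) + (act σ (R Q) - R Q)
    have h1 : (R (P + Q) - R P - R Q) + (R (P + Q) - R P - R Q) = 0 := by
      calc (R (P + Q) - R P - R Q) + (R (P + Q) - R P - R Q) =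
          (R (P + Q) + R (P + Q)) - (R P + R P) - (R Q + R Q) := by abel
        _ = 0 := by
          rw [hR, hR, hR, map_add]
          abel
    have h2 := hT _ h1 σ
    rw [map_sub, map_sub] at h2
    calc act σ (R (P + Q)) - R (P + Q) =
        (act σ (R (P + Q)) - act σ (R P) - act σ (R Q)) + act σ (R P) + act σ (R Q)
          - R (P + Q) := by abel
      _ = (act σ (R P) - R P) + (act σ (R Q) - R Q) := by
        rw [h2]
        abel)
  have hκ : ∀ P σ, (κ P : G → A) σ = act σ (R P) - R P := fun P σ => rfl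
  have hker : κ.ker = (nsmulAddMonoidHom 2 : M →+ M).range := by
    ext P
    rw [AddMonoidHom.mem_ker, AddMonoidHom.mem_range]
    constructor
    · intro h
      have h1 : ∀ σ, act σ (R P) = R P := by
        intro σ
        have h2 := congrFun (congrArg Subtype.val h) σ
        rw [hκ] at h2
        exact sub_eq_zero.1 h2
      obtain ⟨X, hX⟩ := hD _ h1
      refine ⟨X, hj ?_⟩
      change j ((2 : ℕ) • X) = j P
      rw [two_nsmul, map_add, hX, hR]
    · rintro ⟨X, hX⟩
      have hX' : X + X = P := by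
        rw [← two_nsmul]
        exact hX
      apply Subtype.ext
      funext σ
      rw [hκ]
      have h1 : (R P - j X) + (R P - j X) = 0 := by
        calc (R P - j X) + (R P - j X) = (R P + R P) - (j X + j X) := by abel
          _ = 0 := by rw [hR, ← map_add, hX', sub_self]
      have h2 := hT _ h1 σ
      rw [map_sub, hI] at h2
      have h3 : act σ (R P) = R P := sub_left_injective h2
      change act σ (R P) - R P = 0
      rw [h3, sub_self]
  let q : S →+ Z ⧸ B.addSubgroupOf Z :=
    (QuotientAddGroup.mk' (B.addSubgroupOf Z)).comp (AddSubgroup.inclusion inf_le_left)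
  have hq0 : ∀ z : Z, QuotientAddGroup.mk' (B.addSubgroupOf Z) z = 0 ↔ (z : G → A) ∈ B := by
    intro z
    rw [← AddMonoidHom.mem_ker, QuotientAddGroup.ker_mk', AddSubgroup.mem_addSubgroupOf]
  have hqker : q.ker = κ.range := by
    ext f
    rw [AddMonoidHom.mem_ker, AddMonoidHom.mem_range]
    have h0 : q f = 0 ↔ (f : G → A) ∈ B := by
      change QuotientAddGroup.mk' (B.addSubgroupOf Z) (AddSubgroup.inclusion inf_le_left f) = 0 ↔ _
      rw [hq0]
      rfl
    rw [h0, hB]
    have hf2 := ((hS _).1 f.2).2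
    constructor
    · rintro ⟨Q, hQ⟩
      have h1 : ∀ σ, act σ (Q + Q) = Q + Q := by
        intro σ
        have h2 := hf2 σ
        rw [hQ] at h2
        rw [map_add, ← sub_eq_zero, ← h2]
        abel
      obtain ⟨P, hP⟩ := hD _ h1
      refine ⟨P, ?_⟩
      apply Subtype.ext
      funext σ
      rw [hκ, hQ]
      have h3 : (R P - Q) + (R P - Q) = 0 := by
        calc (R P - Q) + (R P - Q) = (R P + R P) - (Q + Q) := by abel
          _ = 0 := by rw [hR, hP, sub_self]
      have h4 := hT _ h3 σ
      rw [map_sub] at h4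
      calc act σ (R P) - R P = (act σ (R P) - act σ Q) + act σ Q - R P := by abel
        _ = act σ Q - Q := by
          rw [h4]
          abel
    · rintro ⟨P, rfl⟩
      exact ⟨R P, fun σ => hκ P σ⟩
  have hqrange : ∀ x : Z ⧸ B.addSubgroupOf Z, x ∈ q.range ↔ x + x = 0 := by
    intro x
    rw [AddMonoidHom.mem_range]
    constructor
    · rintro ⟨f, rfl⟩
      rw [← map_add]
      have hf2 := ((hS _).1 f.2).2
      have h1 : f + f = 0 := by
        apply Subtype.ext
        funext σ
        exact hf2 σ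
      rw [h1, map_zero]
    · intro hx
      obtain ⟨g, rfl⟩ := QuotientAddGroup.mk'_surjective (B.addSubgroupOf Z) x
      rw [← map_add, hq0, hB] at hx
      obtain ⟨Q₀, hQ₀⟩ := hx
      obtain ⟨Q, hQ⟩ := hH Q₀
      have hb : (fun σ => act σ Q - Q) ∈ B := (hB _).2 ⟨Q, fun σ => rfl⟩
      have hf : (g : G → A) - (fun σ => act σ Q - Q) ∈ S := by
        rw [hS]
        refine ⟨Z.sub_mem g.2 (hBZ hb), fun σ => ?_⟩
        have h1 : (g : G → A) σ + (g : G → A) σ = act σ Q₀ - Q₀ := hQ₀ σ
        rw [← hQ, map_add] at h1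
        change ((g : G → A) σ - (act σ Q - Q)) + ((g : G → A) σ - (act σ Q - Q)) = 0
        calc ((g : G → A) σ - (act σ Q - Q)) + ((g : G → A) σ - (act σ Q - Q)) =
            ((g : G → A) σ + (g : G → A) σ) - ((act σ Q + act σ Q) - (Q + Q)) := by abel
          _ = 0 := by rw [h1, sub_self]
      refine ⟨⟨_, hf⟩, ?_⟩
      change QuotientAddGroup.mk' (B.addSubgroupOf Z)
        (AddSubgroup.inclusion inf_le_left (⟨_, hf⟩ : S)) = _
      rw [← sub_eq_zero, ← map_sub, hq0]
      have h5 : ((AddSubgroup.inclusion inf_le_left (⟨_, hf⟩ : S) - g : Z) : G → A) =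
          -(fun σ => act σ Q - Q) := by
        rw [AddSubgroup.coe_sub, AddSubgroup.coe_inclusion]
        exact sub_sub_cancel_left _ _
      rw [h5]
      exact B.neg_mem hb
  have h1 := AddSubgroup.card_mul_index q.ker
  rw [AddSubgroup.index_ker] at h1
  have h2 : Nat.card q.range = Nat.card {x : Z ⧸ B.addSubgroupOf Z // x + x = 0} :=
    Nat.card_congr (Equiv.subtypeEquivRight hqrange)
  have h3 : Nat.card q.ker = (nsmulAddMonoidHom 2 : M →+ M).range.index := by
    rw [hqker, ← hker, AddSubgroup.index_ker]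
  rw [← h1, h2, h3]

end abs

variable {L : Type} [Field L] [NumberField L] {V : WeierstrassCurve L} {e₁ e₂ e₃ : L}

theorem card_selZ_sha (h : IsCub V e₁ e₂ e₃) :
    Nat.card (SelZ L V) =
      (nsmulAddMonoidHom 2 : V.toAffine.Point →+ V.toAffine.Point).range.index *
        Nat.card {x : Sha L V // x + x = 0} := by
  have hb := h.bc (Ω := AlgebraicClosure L)
  have hL : V.map (algebraMap L (AlgebraicClosure L)) = V.baseChange (AlgebraicClosure L) := rfl
  refine CardB_abs (act (inv_bc (Ω := AlgebraicClosure L) L V))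
    (pm (algebraMap L (AlgebraicClosure L)) hL) ?_ ?_ ?_ ?_ ?_ (ShaZ L V) (ShaB L V) ?_
    (shaB_le L V)
  · exact pm_injective _ _
  · intro D hDD σ
    obtain ⟨c, hc⟩ := hb.exists_tau D hDD
    have e1 := h.map_tau σ.toAlgHom c
    rw [hc]
    have e2 : act (inv_bc (Ω := AlgebraicClosure L) L V) σ (hb.tau c) =
        (Affine.Point.map σ.toAlgHom :
          (V.baseChange (AlgebraicClosure L)).toAffine.Point →+
            (V.baseChange (AlgebraicClosure L)).toAffine.Point) (hb.tau c) := by
      rw [map_eq_pm]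
      rfl
    rw [e2]
    exact e1
  · intro σ Y
    unfold act
    rw [pm_pm]
    exact pm_congr _ _ (fun x => σ.commutes x) _
  · intro R hR
    exact pm_descent hL (inv_bc (Ω := AlgebraicClosure L) L V) R hR
  · intro Q
    obtain ⟨R, hR⟩ := hb.exists_two_nsmul Q
    exact ⟨R, hR⟩
  · intro f
    exact isCobound_iff f

end Pool.Agent.H26.SG
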