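import Pool.Agent.H26.SG.Dat
import Pool.Agent.H10.ClassCrit

/-!
The classes are trivial when the class number is odd and the units behave.

PROOF. `clsA_triv`: copy the proof of `noNewPositive_of` in `Pool.Agent.H10.ClassCrit` without the
hypothesis on the norm: by `exists_unit_mul_sq hcl` the element is `ε * z ^ 2` with a unit `ε`, which
is totally positive, hence a square. With `mem_clsA` (for `S = ∅` all real embeddings) and `mem_sq`.

`clsB_triv`: copy the proof of `noNewUnramified_of` in the same file; it does not use the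
hypothesis on the norm. (`FourSq x` unfolds to the hypothesis of `NoNewUnramified` on the primes
above two.)
-/

set_option autoImplicit false
set_option linter.style.haveILetI false
open scoped Classical

open WeierstrassCurve IsDedekindDomain NumberField WithZero

namespace Pool.Agent.H26.SG

open Pool.Agent.H10

private lemma posT {L : Type} [Field L] [NumberField L] (hcl : Odd (NumberField.classNumber L))
    (hU : ∀ u : (𝓞 L)ˣ, (∀ φ : L →+* ℝ, 0 < φ ((u : 𝓞 L) : L)) → IsSquare u)
    (x : L) (hx : x ≠ 0) (hev : ∀ w : HeightOneSpectrum (𝓞 L), Even (log (w.valuation L x)))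
    (hpos : ∀ φ : L →+* ℝ, 0 < φ x) : IsSquare x := by
  obtain ⟨ε, c, hc, hxc⟩ := exists_unit_mul_sq hcl hx hev
  obtain ⟨η, hη⟩ := hU ε (fun φ => by
    have h1 := hpos φ
    rw [hxc, map_mul, map_pow] at h1
    have hc' : φ c ≠ 0 := by rw [Ne, map_eq_zero]; exact hc
    exact (mul_pos_iff_of_pos_right (by positivity)).mp h1)
  refine ⟨((η : 𝓞 L) : L) * c, ?_⟩
  rw [hxc, hη]
  push_cast
  ring

private lemma unrT {L : Type} [Field L] [NumberField L] (hcl : Odd (NumberField.classNumber L))
    (hU : ∀ u : (𝓞 L)ˣ, (∃ s : 𝓞 L, (4 : 𝓞 L) ∣ (u : 𝓞 L) - s ^ 2) → IsSquare u)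
    (x : L) (hx : x ≠ 0) (hev : ∀ w : HeightOneSpectrum (𝓞 L), Even (log (w.valuation L x)))
    (hloc : ∀ w : HeightOneSpectrum (𝓞 L), (2 : 𝓞 L) ∈ w.asIdeal →
      ∃ t m : L, t ≠ 0 ∧ w.valuation L m = 1 ∧
        w.valuation L (x * t ^ 2 - m ^ 2) ≤ w.valuation L 4) : IsSquare x := by
  obtain ⟨ε, c, hc, hxc⟩ := exists_unit_mul_sq hcl hx hev
  have e4 : ((4 : 𝓞 L) : L) = 4 := map_ofNat (algebraMap (𝓞 L) L) 4
  have h40 : ∀ w : HeightOneSpectrum (𝓞 L), w.valuation L 4 ≠ 0 := fun w =>
    (Valuation.ne_zero_iff _).mpr (by norm_num)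
  have h4le : ∀ w : HeightOneSpectrum (𝓞 L), w.valuation L 4 ≤ 1 := fun w => by
    have := w.valuation_le_one (K := L) (4 : 𝓞 L)
    rwa [← e4]
  -- local square roots which are integers
  have hsw : ∀ w : HeightOneSpectrum (𝓞 L), ∃ s : 𝓞 L,
      w.valuation L (((ε : 𝓞 L) : L) - (s : L) ^ 2) ≤ w.valuation L 4 := by
    intro w
    by_cases hw : (2 : 𝓞 L) ∈ w.asIdeal
    · obtain ⟨t, m, ht, hm, h⟩ := hloc w hw
      have h2lt : w.valuation L 4 < 1 := by
        have h1 : (4 : 𝓞 L) ∈ w.asIdeal := by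
          have : (4 : 𝓞 L) = 2 * 2 := by norm_num
          rw [this]; exact Ideal.mul_mem_left _ _ hw
        have := (w.valuation_lt_one_iff_mem (K := L) (4 : 𝓞 L)).mpr h1
        rwa [← e4]
      set T := c * t with hT
      have hT0 : T ≠ 0 := mul_ne_zero hc ht
      have hxT : x * t ^ 2 = ((ε : 𝓞 L) : L) * T ^ 2 := by rw [hxc, hT]; ring
      rw [hxT] at h
      have hVT : w.valuation L T = 1 := by
        apply val_eq_one_of_sq
        have h3 : w.valuation L (((ε : 𝓞 L) : L) * T ^ 2) = 1 := by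
          have h2 : ((ε : 𝓞 L) : L) * T ^ 2 = (((ε : 𝓞 L) : L) * T ^ 2 - m ^ 2) + m ^ 2 := by ring
          rw [h2, Valuation.map_add_eq_of_lt_right, map_pow, hm, one_pow]
          rw [map_pow, hm, one_pow]
          exact h.trans_lt h2lt
        rwa [map_mul, unit_val, one_mul] at h3
      have hq1 : w.valuation L (m / T) = 1 := by rw [map_div₀, hm, hVT, div_one]
      obtain ⟨s, hs⟩ := w.exists_valuation_sub_lt_of_integer hq1.le
        (Units.mk0 (w.valuation L 4) (h40 w))
      refine ⟨s, ?_⟩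
      change w.valuation L ((s : L) - m / T) < w.valuation L 4 at hs
      have h5 : w.valuation L (((ε : 𝓞 L) : L) - (m / T) ^ 2) ≤ w.valuation L 4 := by
        have h6 : ((ε : 𝓞 L) : L) - (m / T) ^ 2 = (((ε : 𝓞 L) : L) * T ^ 2 - m ^ 2) / T ^ 2 := by
          field_simp
        rw [h6, map_div₀, map_pow, hVT, one_pow, div_one]
        exact h
      have h7 : ((ε : 𝓞 L) : L) - (s : L) ^ 2 = (((ε : 𝓞 L) : L) - (m / T) ^ 2) -
          ((s : L) - m / T) * ((s : L) + m / T) := by ring
      rw [h7]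
      refine (Valuation.map_sub _ _ _).trans (max_le h5 ?_)
      rw [map_mul]
      have h8 : w.valuation L ((s : L) + m / T) ≤ 1 :=
        (Valuation.map_add _ _ _).trans (max_le (w.valuation_le_one (K := L) s) hq1.le)
      calc w.valuation L ((s : L) - m / T) * w.valuation L ((s : L) + m / T)
          ≤ w.valuation L 4 * 1 := mul_le_mul' hs.le h8
        _ = _ := mul_one _
    · refine ⟨0, ?_⟩
      have h2 : w.valuation L 2 = 1 := by
        have h3 := val_eq_one_of_notMem hw
        have e2 : ((2 : 𝓞 L) : L) = 2 := map_ofNat (algebraMap (𝓞 L) L) 2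
        rwa [e2] at h3
      have h4 : w.valuation L 4 = 1 := by
        have : (4 : L) = 2 * 2 := by norm_num
        rw [this, map_mul, h2, mul_one]
      rw [h4]
      have e0 : ((0 : 𝓞 L) : L) = 0 := map_zero (algebraMap (𝓞 L) L)
      rw [e0, zero_pow two_ne_zero, sub_zero, unit_val]
  choose s hs using hsw
  -- the Chinese remainder theorem
  have hfin : {w : HeightOneSpectrum (𝓞 L) | w.asIdeal ∣ Ideal.span {(4 : 𝓞 L)}}.Finite :=
    Ideal.finite_factors (by
      rw [Ideal.zero_eq_bot, Ne, Ideal.span_singleton_eq_bot]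
      norm_num)
  obtain ⟨y, hy⟩ := IsDedekindDomain.exists_forall_sub_mem_ideal (s := hfin.toFinset)
    (fun w : HeightOneSpectrum (𝓞 L) => w.asIdeal)
    (fun w => (-(log (w.valuation L 4))).toNat) (fun w _ => w.prime)
    (fun w _ w' _ hne h => hne (HeightOneSpectrum.ext h)) (fun w => s w.1)
  obtain ⟨η, hη⟩ := hU ε ⟨y, by
    have hmem : (((ε : 𝓞 L) : L) - (y : L) ^ 2) / 4 ∈ (algebraMap (𝓞 L) L).range := by
      apply HeightOneSpectrum.mem_integers_of_valuation_le_one
      intro w
      rw [map_div₀]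
      apply div_le_one_of_le₀ _ zero_le
      by_cases hw : w.asIdeal ∣ Ideal.span {(4 : 𝓞 L)}
      · have h1 := hy w (by simpa using hw)
        have h2 : w.valuation L ((y : L) - (s w : L)) ≤ w.valuation L 4 := by
          have h3 := (w.intValuation_le_pow_iff_mem _ _).mpr h1
          rw [← w.valuation_of_algebraMap (K := L)] at h3
          have e5 : ((y - s w : 𝓞 L) : L) = (y : L) - (s w : L) :=
            map_sub (algebraMap (𝓞 L) L) y (s w)
          change w.valuation L ((y - s w : 𝓞 L) : L) ≤ _ at h3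
          rw [e5] at h3
          refine h3.trans ?_
          conv_rhs => rw [← exp_log (h40 w)]
          rw [exp_le_exp]
          have h5 := h4le w
          rw [← exp_log (h40 w), ← exp_zero, exp_le_exp] at h5
          omega
        have h7 : ((ε : 𝓞 L) : L) - (y : L) ^ 2 = (((ε : 𝓞 L) : L) - (s w : L) ^ 2) -
          ((y : L) - s w) * ((y : L) + s w) := by ring
        rw [h7]
        refine (Valuation.map_sub _ _ _).trans (max_le (hs w) ?_)
        rw [map_mul]
        have h8 : w.valuation L ((y : L) + s w) ≤ 1 :=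
          (Valuation.map_add _ _ _).trans (max_le (w.valuation_le_one (K := L) y)
            (w.valuation_le_one (K := L) (s w)))
        calc w.valuation L ((y : L) - s w) * w.valuation L ((y : L) + s w)
            ≤ w.valuation L 4 * 1 := mul_le_mul' h2 h8
          _ = _ := mul_one _
      · have h1 : (4 : 𝓞 L) ∉ w.asIdeal := fun h => hw (Ideal.dvd_span_singleton.mpr h)
        have h2 := val_eq_one_of_notMem h1
        rw [e4] at h2
        rw [h2]
        exact (Valuation.map_sub _ _ _).trans (max_le (unit_val ε w).le (by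
          rw [map_pow]
          exact pow_le_one₀ zero_le (w.valuation_le_one (K := L) y)))
    obtain ⟨q, hq⟩ := hmem
    refine ⟨q, ?_⟩
    apply (RingOfIntegers.coe_injective (K := L))
    rw [map_sub, map_pow, map_mul, hq, map_ofNat]
    field_simp⟩
  refine ⟨((η : 𝓞 L) : L) * c, ?_⟩
  rw [hxc, hη]
  push_cast
  ring

theorem clsA_triv {L : Type} [Field L] [NumberField L] (hcl : Odd (NumberField.classNumber L))
    (hU : ∀ u : (𝓞 L)ˣ, (∀ φ : L →+* ℝ, 0 < φ ((u : 𝓞 L) : L)) → IsSquare u) :
    clsA (∅ : Set (L →+* ℝ)) ≤ sq L := by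
  intro x hx
  have h := mem_clsA.mp hx
  exact mem_sq.mpr (posT hcl hU (x : L) x.ne_zero h.1 (fun φ => h.2 φ (by simp)))

theorem clsB_triv {L : Type} [Field L] [NumberField L] (hcl : Odd (NumberField.classNumber L))
    (hU : ∀ u : (𝓞 L)ˣ, (∃ s : 𝓞 L, (4 : 𝓞 L) ∣ (u : 𝓞 L) - s ^ 2) → IsSquare u)
    (S : Set (L →+* ℝ)) : clsB S ≤ sq L := by
  intro x hx
  have h := mem_clsB.mp hx
  exact mem_sq.mpr (unrT hcl hU (x : L) x.ne_zero h.1 (fun w hw => h.2.1 w hw))

end Pool.Agent.H26.SG
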