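import Pool.Agent.H26.SG.Defs

/-!
The curve has four two-torsion points.

PROOF. `h.tau : ℤˣ × ℤˣ → E(L)` has values in the points `P` with `P + P = 0`
(`IsCub.tau_add_self`), is injective (`IsCub.tau_injective`) and every such `P` is a value
(`IsCub.exists_tau`). So `Nat.card {P // P + P = 0} = Nat.card (ℤˣ × ℤˣ) = 4`
(`Nat.card_congr (Equiv.ofBijective ..)`, `Nat.card_eq_fintype_card`, `rfl`/`decide`). See
`Pool.Agent.H10.Cub` for these lemmas. If the decidability instance in `E(L)` matters: with
`open scoped Classical` the instance is `Classical.propDecidable`; the lemmas of `Cub` are for an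
arbitrary instance.
-/

set_option autoImplicit false
open scoped Classical

open WeierstrassCurve

namespace Pool.Agent.H26.SG

open Pool.Agent.H10

theorem card_two_torsion {k : Type*} [Field k] {V : WeierstrassCurve k} {e₁ e₂ e₃ : k}
    (h : IsCub V e₁ e₂ e₃) : Nat.card {P : V.toAffine.Point // P + P = 0} = 4 := by
  have hb : Function.Bijective (fun a : ℤˣ × ℤˣ =>
      (⟨h.tau a, h.tau_add_self a⟩ : {P : V.toAffine.Point // P + P = 0})) := by
    constructor
    · intro a b hab
      exact h.tau_injective (Subtype.ext_iff.1 hab)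
    · rintro ⟨P, hP⟩
      obtain ⟨a, ha⟩ := h.exists_tau P hP
      exact ⟨a, Subtype.ext ha.symm⟩
  rw [← Nat.card_congr (Equiv.ofBijective _ hb), Nat.card_eq_fintype_card]
  rfl

end Pool.Agent.H26.SG
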