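import Pool.Agent.H26.SG.ChainLow
import Pool.Agent.H26.SG.CardA
import Pool.Agent.H26.SG.CardB
import Pool.Agent.H26.SG.TwoTors
import Pool.Agent.H26.SG.ClsTriv
import Pool.Agent.H11.MW

/-!
Assembly of the two-sided estimate.
-/

set_option autoImplicit false
set_option linter.style.haveILetI false
open scoped Classical

open WeierstrassCurve IsDedekindDomain NumberField WithZero

namespace Pool.Agent.H26.SG

open Pool.Agent.H10

variable {L : Type} [Field L] [NumberField L] {a c α : 𝓞 L}

lemma fg_points {V : WeierstrassCurve L} {e₁ e₂ e₃ : L} (h : IsCub V e₁ e₂ e₃) :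
    AddGroup.FG V.toAffine.Point := by
  have := h.isElliptic
  exact Pool.Agent.H11.mordell_weil V

/-- The order of the Selmer group. -/
theorem card_sel {V : WeierstrassCurve L} {e₁ e₂ e₃ : L} (h : IsCub V e₁ e₂ e₃) :
    (sqT L).relIndex (selT h) =
      2 ^ (Module.finrank ℤ V.toAffine.Point + 2) * Nat.card {x : Sha L V // x + x = 0} := by
  have := fg_points h
  rw [← card_selZ h, card_selZ_sha h, index_double, card_two_torsion h, pow_add]
  norm_num

/-- The number of classes modulo squares of the nonzero elements with the property `P`. -/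
noncomputable def classCount (L : Type) [Field L] (P : L → Prop) : ℕ :=
  ((QuotientGroup.mk : Lˣ → Lˣ ⧸ (powMonoidHom 2 : Lˣ →* Lˣ).range) '' {x | P (x : L)}).ncard

omit [NumberField L] in
lemma classCount_eq (P : L → Prop) (H : Subgroup Lˣ) (h : ∀ x : Lˣ, P (x : L) ↔ x ∈ H) :
    classCount L P = (sq L).relIndex H := by
  have h1 := Subgroup.relIndex_ker H (QuotientGroup.mk' (sq L))
  rw [QuotientGroup.ker_mk'] at h1
  rw [h1, classCount, ← Nat.card_coe_set_eq]
  have h2 : {x : Lˣ | P (x : L)} = (H : Set Lˣ) := by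
    ext x
    exact h x
  rw [h2]
  rfl

lemma sha2Trivial_of_card {V : WeierstrassCurve L} (h : Nat.card {x : Sha L V // x + x = 0} = 1) :
    Sha2Trivial L V := by
  have key : ∀ x : Sha L V, x + x = 0 → x = 0 := by
    intro x hx
    rw [Nat.card_eq_one_iff_unique] at h
    have h1 := h.1
    have h2 : (⟨x, hx⟩ : {x : Sha L V // x + x = 0}) = ⟨0, by rw [add_zero]⟩ :=
      Subsingleton.elim _ _
    exact congrArg Subtype.val h2
  rintro f hf hl ⟨m, hm⟩
  let F : ShaZ L V := ⟨f, hf, hl⟩
  have h2 : ∀ n : ℕ, ∀ x : Sha L V, (2 ^ n) • x = 0 → x = 0 := by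
    intro n
    induction n with
    | zero => intro x hx; simpa using hx
    | succ n ih =>
      intro x hx
      apply key
      apply ih
      rw [pow_succ, mul_nsmul', two_nsmul] at hx
      exact hx
  have h3 : (2 ^ m) • Sha.mk F = 0 := by
    rw [← Sha.mk_nsmul, Sha.mk_eq_zero]
    exact hm
  exact (Sha.mk_eq_zero F).mp (h2 m _ h3)

lemma finite_of_finrank {A : Type*} [AddCommGroup A] [AddGroup.FG A]
    (h : Module.finrank ℤ A = 0) : Finite A := by
  have h1 : Module.Finite ℤ A := Module.Finite.iff_addGroup_fg.mpr inferInstance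
  rw [Module.finrank_eq_zero_iff_isTorsion] at h
  exact Module.finite_of_fg_torsion A h

theorem estimate_up (D : Dat a c α) :
    2 ^ (Module.finrank ℤ (crv a c).toAffine.Point + 2) *
        Nat.card {x : Sha L (crv a c) // x + x = 0} ≤
      2 ^ ((primesOf (a * c)).ncard + (primesOf α).ncard) *
        ((sq L).relIndex (clsA (posSet a c)) * (sq L).relIndex (clsB (posSet a c))) := by
  rw [← card_sel D.isCub]
  exact (sel_upper D).2

theorem estimate_low (D : Dat a c α) :
    (sq L).relIndex (clsA (posSet a c)) ≤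
      2 ^ ((primesOf (a * c)).ncard + (primesOf α).ncard) *
      (2 ^ (Module.finrank ℤ (crv a c).toAffine.Point + 2) *
        Nat.card {x : Sha L (crv a c) // x + x = 0}) := by
  rw [← card_sel D.isCub]
  exact sel_lower D

theorem sha_card_ne_zero (D : Dat a c α) :
    Nat.card {x : Sha L (crv a c) // x + x = 0} ≠ 0 := by
  have h := (sel_upper D).1
  rw [card_sel D.isCub] at h
  exact fun h0 => h (by rw [h0, mul_zero])

end Pool.Agent.H26.SG
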