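import Pool.Agent.H26.SG.NC

/-!
The rationals have no classes.

PROOF. Let `[L : ℚ] = 1`: every element of `L` is the image of a rational number
(`algebraMap ℚ L` is bijective: `bot_eq_top_iff_finrank_eq_one` or `finrank_eq_one_iff'`), and
`𝓞 L` is the image of the integers (a rational number integral over the integers is an integer), so
`𝓞 L` is a principal ideal ring and `classNumber L = 1` (`NumberField.classNumber_eq_one_iff`; or
transport from `Rat.classNumber_eq`; or Minkowski's bound `RingOfIntegers.isPrincipalIdealRing_of_abs_discr_lt`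
with discriminant one), and the units are `1` and `-1`. Now `NC.of_units`: a totally positive unit
is `1 = 1 * 1` (there is a real embedding of `L`: `Algebra.algHom`/`IsAlgClosed` or because
`L ≃ ℚ`; `φ (-1) = -1 < 0`). A unit which is a square modulo four is `1`: if `-1 - s ^ 2 = 4 q` with
integers `s`, `q` then reducing modulo four gives a contradiction (`-1` is not a square modulo four:
`decide` in `ZMod 4`, or `omega`/`interval_cases`).
-/

set_option autoImplicit false
set_option linter.style.haveILetI false
open scoped Classical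

open IsDedekindDomain NumberField WithZero

namespace Pool.Agent.H26.SG

open Pool.Agent.H10

theorem Base0_surj {L : Type} [Field L] [NumberField L] (h : Module.finrank ℚ L = 1) (x : L) :
    ∃ q : ℚ, algebraMap ℚ L q = x := by
  have h1 : (⊥ : Subalgebra ℚ L) = ⊤ := Subalgebra.bot_eq_top_of_finrank_eq_one h
  have h2 : x ∈ (⊥ : Subalgebra ℚ L) := h1 ▸ Algebra.mem_top
  exact Algebra.mem_bot.1 h2

theorem Base0_int {L : Type} [Field L] [NumberField L] (h : Module.finrank ℚ L = 1)
    (x : 𝓞 L) : ∃ z : ℤ, (z : 𝓞 L) = x := by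
  obtain ⟨q, hq⟩ := Base0_surj h (x : L)
  have h1 : IsIntegral ℤ (algebraMap ℚ L q) := by
    rw [hq]
    exact x.isIntegral_coe
  have h2 : IsIntegral ℤ q := (isIntegral_algebraMap_iff (algebraMap ℚ L).injective).1 h1
  obtain ⟨z, hz⟩ := IsIntegrallyClosed.isIntegral_iff.1 h2
  refine ⟨z, RingOfIntegers.ext ?_⟩
  rw [← hq, ← hz]
  simp

theorem Base0_inj {L : Type} [Field L] [NumberField L] {a b : ℤ}
    (h : (a : 𝓞 L) = (b : 𝓞 L)) : a = b := by
  exact_mod_cast h

theorem Base0_unit {L : Type} [Field L] [NumberField L] (h : Module.finrank ℚ L = 1)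
    (u : (𝓞 L)ˣ) : u = 1 ∨ (u : 𝓞 L) = -1 := by
  obtain ⟨z, hz⟩ := Base0_int h (u : 𝓞 L)
  obtain ⟨z', hz'⟩ := Base0_int h ((u⁻¹ : (𝓞 L)ˣ) : 𝓞 L)
  have h1 : z * z' = 1 := by
    apply Base0_inj (L := L)
    push_cast
    rw [hz, hz', ← Units.val_mul, mul_inv_cancel, Units.val_one]
  rcases Int.eq_one_or_neg_one_of_mul_eq_one h1 with rfl | rfl
  · left
    apply Units.ext
    rw [← hz]
    simp
  · right
    rw [← hz]
    simp

theorem nc_rat {L : Type} [Field L] [NumberField L] (h : Module.finrank ℚ L = 1) : NC L := by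
  have hs : Function.Surjective (Int.castRingHom (𝓞 L)) := fun x => Base0_int h x
  have hP : IsPrincipalIdealRing (𝓞 L) := IsPrincipalIdealRing.of_surjective _ hs
  have hc : classNumber L = 1 := (classNumber_eq_one_iff).2 hP
  refine NC.of_units ?_ ?_ ?_
  · rw [hc]
    exact odd_one
  · intro u hu
    rcases Base0_unit h u with rfl | h1
    · exact IsSquare.one
    · exfalso
      have hb : Function.Bijective (algebraMap ℚ L) :=
        ⟨(algebraMap ℚ L).injective, Base0_surj h⟩
      let e : ℚ ≃+* L := RingEquiv.ofBijective _ hb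
      have h2 := hu ((algebraMap ℚ ℝ).comp e.symm.toRingHom)
      rw [h1] at h2
      simp at h2
      linarith
  · rintro u ⟨s, c, hc4⟩
    rcases Base0_unit h u with rfl | h1
    · exact IsSquare.one
    · exfalso
      obtain ⟨k, rfl⟩ := Base0_int h s
      obtain ⟨d, rfl⟩ := Base0_int h c
      rw [h1] at hc4
      have h2 : (-1 : ℤ) - k ^ 2 = 4 * d := by
        apply Base0_inj (L := L)
        push_cast
        exact hc4
      rcases Int.even_or_odd' k with ⟨m, rfl | rfl⟩
      · ring_nf at h2
        generalize m ^ 2 = t at h2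
        omega
      · ring_nf at h2
        generalize m ^ 2 = t at h2
        omega

end Pool.Agent.H26.SG
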