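import Mathlib

/-!
Counting cocycles with values in the two-torsion, without rational two-torsion (abstract).

MODEL: `CardB_abs` in `Pool.Agent.H26.SG.CardB` (there the two-torsion is fixed by the action; copy
the parts on `q`).

PROOF. `S = Z ⊓ ker` consists of the `f ∈ Z` with `f σ + f σ = 0`. Let `q : S →+ Z ⧸ B` be the
obvious map. Its range is `{x | x + x = 0}` (as in the model: part `hqrange`), so
`card S = card q.ker * card {x // x + x = 0}` (`AddSubgroup.card_mul_index`, `index_ker`).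
Let `H : AddSubgroup A` be the set of `Q` with `Q + Q ∈ j.range`, and `ψ : H →+ S`,
`ψ Q σ = act σ Q - Q` (it is in `S`: in `B ≤ Z` by `hB`, and `2 (act σ Q - Q) = act σ (j Y) - j Y = 0`
by `hI` if `Q + Q = j Y`). The range of `ψ` is `q.ker`: an element of `q.ker` is
`f σ = act σ Q - Q` with `f σ + f σ = 0`, so `Q + Q` is fixed, so in `j.range` by `hD`. The kernel of
`ψ` is `J = (j.range).addSubgroupOf H` (fixed elements are in `j.range` by `hD`; the elements of
`j.range` are fixed by `hI` and are in `H`). So `card q.ker = J.index`.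
It remains `J.index * card M[2] = index (2 M) * 4`. Let `f : H →+ M`, `f Q` is the `Y` with
`j Y = Q + Q` (`hj` makes it unique and additive). `f` is surjective (`hH`), its kernel `N` is
`{Q | Q + Q = 0}`, which has `4` elements (`h4`; it is contained in `H` since `0 = j 0`).
`f` maps `J` onto the range of `nsmul 2` (`f (j X) = X + X`), so by `AddSubgroup.index_map`
(`(J.map f).index = (J ⊔ f.ker).index * f.range.index`) `index (2 M) = (J ⊔ N).index`. Next
`J.index = J.relIndex (J ⊔ N) * (J ⊔ N).index` (`AddSubgroup.relIndex_mul_index`), and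
`J.relIndex (J ⊔ N) = J.relIndex N` (`AddSubgroup.relIndex_sup_left` or `_right`), and
`J.relIndex N * card (J ⊓ N) = card N = 4` (`AddSubgroup.card_mul_index` for
`J.addSubgroupOf N`), and `card (J ⊓ N) = card {x : M // x + x = 0}` by `j`
(`Nat.card_congr`). All the cardinals may be zero for infinite sets; only `N` and `J ⊓ N` need to be
finite, and they are.
-/

set_option autoImplicit false

namespace Pool.Agent.H26.SG

theorem CardG_abs {A M G : Type*} [AddCommGroup A] [AddCommGroup M] (act : G → A →+ A)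
    (j : M →+ A) (hj : Function.Injective j)
    (hI : ∀ σ Y, act σ (j Y) = j Y)
    (hD : ∀ R, (∀ σ, act σ R = R) → ∃ X, j X = R)
    (hH : ∀ Q : A, ∃ R, R + R = Q)
    (h4 : Nat.card {x : A // x + x = 0} = 4)
    (Z B : AddSubgroup (G → A)) (hB : ∀ f, f ∈ B ↔ ∃ Q, ∀ σ, f σ = act σ Q - Q) (hBZ : B ≤ Z) :
    Nat.card (Z ⊓ (nsmulAddMonoidHom 2 : (G → A) →+ (G → A)).ker : AddSubgroup (G → A)) *
        Nat.card {x : M // x + x = 0} =
      (nsmulAddMonoidHom 2 : M →+ M).range.index * 4 *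
        Nat.card {x : Z ⧸ B.addSubgroupOf Z // x + x = 0} := by
  set S : AddSubgroup (G → A) := Z ⊓ (nsmulAddMonoidHom 2 : (G → A) →+ (G → A)).ker with hSdef
  have hS : ∀ f : G → A, f ∈ S ↔ f ∈ Z ∧ ∀ σ, f σ + f σ = 0 := by
    intro f
    rw [hSdef, AddSubgroup.mem_inf, AddMonoidHom.mem_ker]
    constructor
    · rintro ⟨h1, h3⟩
      refine ⟨h1, fun σ => ?_⟩
      have h4 := congrFun h3 σ
      rw [← two_nsmul]
      exact h4
    · rintro ⟨h1, h3⟩
      refine ⟨h1, ?_⟩
      funext σ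
      change (2 : ℕ) • f σ = 0
      rw [two_nsmul]
      exact h3 σ
  let H : AddSubgroup A := (j.range).comap (nsmulAddMonoidHom 2 : A →+ A)
  have hHm : ∀ Q : A, Q ∈ H ↔ ∃ Y, j Y = Q + Q := by
    intro Q
    change (nsmulAddMonoidHom 2 : A →+ A) Q ∈ j.range ↔ _
    rw [AddMonoidHom.mem_range]
    have h1 : (nsmulAddMonoidHom 2 : A →+ A) Q = Q + Q := by
      change (2 : ℕ) • Q = _
      rw [two_nsmul]
    rw [h1]
  have hψS : ∀ Q : H, (fun σ => act σ (Q : A) - (Q : A)) ∈ S := by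
    intro Q
    rw [hS]
    refine ⟨hBZ ((hB _).2 ⟨Q, fun σ => rfl⟩), fun σ => ?_⟩
    obtain ⟨Y, hY⟩ := (hHm Q).1 Q.2
    have h1 := hI σ Y
    rw [hY, map_add] at h1
    calc (act σ (Q : A) - (Q : A)) + (act σ (Q : A) - (Q : A)) =
        (act σ (Q : A) + act σ (Q : A)) - ((Q : A) + (Q : A)) := by abel
      _ = 0 := by rw [h1, sub_self]
  let ψ : H →+ S := AddMonoidHom.mk' (fun Q => (⟨_, hψS Q⟩ : S)) (by
    intro P Q
    apply Subtype.ext
    funext σ
    change act σ ((P : A) + (Q : A)) - ((P : A) + (Q : A)) =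
      (act σ (P : A) - (P : A)) + (act σ (Q : A) - (Q : A))
    rw [map_add]
    abel)
  have hψ : ∀ Q σ, (ψ Q : G → A) σ = act σ (Q : A) - (Q : A) := fun Q σ => rfl
  let J : AddSubgroup H := (j.range).addSubgroupOf H
  have hJm : ∀ Q : H, Q ∈ J ↔ ∃ X, j X = (Q : A) := by
    intro Q
    change Q ∈ (j.range).addSubgroupOf H ↔ _
    rw [AddSubgroup.mem_addSubgroupOf, AddMonoidHom.mem_range]
  have hψker : ψ.ker = J := by
    ext Q
    rw [AddMonoidHom.mem_ker, hJm]
    constructor
    · intro h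
      refine hD Q (fun σ => ?_)
      have h2 := congrFun (congrArg Subtype.val h) σ
      rw [hψ] at h2
      exact sub_eq_zero.1 h2
    · rintro ⟨X, hX⟩
      apply Subtype.ext
      funext σ
      rw [hψ, ← hX, hI, sub_self]
      rfl
  let q : S →+ Z ⧸ B.addSubgroupOf Z :=
    (QuotientAddGroup.mk' (B.addSubgroupOf Z)).comp (AddSubgroup.inclusion inf_le_left)
  have hq0 : ∀ z : Z, QuotientAddGroup.mk' (B.addSubgroupOf Z) z = 0 ↔ (z : G → A) ∈ B := by
    intro z
    rw [← AddMonoidHom.mem_ker, QuotientAddGroup.ker_mk', AddSubgroup.mem_addSubgroupOf]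
  have hqker : q.ker = ψ.range := by
    ext f
    rw [AddMonoidHom.mem_ker, AddMonoidHom.mem_range]
    have h0 : q f = 0 ↔ (f : G → A) ∈ B := by
      change QuotientAddGroup.mk' (B.addSubgroupOf Z) (AddSubgroup.inclusion inf_le_left f) = 0 ↔ _
      rw [hq0]
      rfl
    rw [h0, hB]
    have hf2 := ((hS _).1 f.2).2
    constructor
    · rintro ⟨Q, hQ⟩
      have h1 : ∀ σ, act σ (Q + Q) = Q + Q := by
        intro σ
        have h2 := hf2 σ
        rw [hQ] at h2
        rw [map_add, ← sub_eq_zero, ← h2]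
        abel
      obtain ⟨P, hP⟩ := hD _ h1
      refine ⟨⟨Q, (hHm Q).2 ⟨P, hP⟩⟩, ?_⟩
      apply Subtype.ext
      funext σ
      rw [hψ, hQ]
    · rintro ⟨P, rfl⟩
      exact ⟨P, fun σ => hψ P σ⟩
  have hqrange : ∀ x : Z ⧸ B.addSubgroupOf Z, x ∈ q.range ↔ x + x = 0 := by
    intro x
    rw [AddMonoidHom.mem_range]
    constructor
    · rintro ⟨f, rfl⟩
      rw [← map_add]
      have hf2 := ((hS _).1 f.2).2
      have h1 : f + f = 0 := by
        apply Subtype.ext
        funext σ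
        exact hf2 σ
      rw [h1, map_zero]
    · intro hx
      obtain ⟨g, rfl⟩ := QuotientAddGroup.mk'_surjective (B.addSubgroupOf Z) x
      rw [← map_add, hq0, hB] at hx
      obtain ⟨Q₀, hQ₀⟩ := hx
      obtain ⟨Q, hQ⟩ := hH Q₀
      have hb : (fun σ => act σ Q - Q) ∈ B := (hB _).2 ⟨Q, fun σ => rfl⟩
      have hf : (g : G → A) - (fun σ => act σ Q - Q) ∈ S := by
        rw [hS]
        refine ⟨Z.sub_mem g.2 (hBZ hb), fun σ => ?_⟩
        have h1 : (g : G → A) σ + (g : G → A) σ = act σ Q₀ - Q₀ := hQ₀ σ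
        rw [← hQ, map_add] at h1
        change ((g : G → A) σ - (act σ Q - Q)) + ((g : G → A) σ - (act σ Q - Q)) = 0
        calc ((g : G → A) σ - (act σ Q - Q)) + ((g : G → A) σ - (act σ Q - Q)) =
            ((g : G → A) σ + (g : G → A) σ) - ((act σ Q + act σ Q) - (Q + Q)) := by abel
          _ = 0 := by rw [h1, sub_self]
      refine ⟨⟨_, hf⟩, ?_⟩
      change QuotientAddGroup.mk' (B.addSubgroupOf Z)
        (AddSubgroup.inclusion inf_le_left (⟨_, hf⟩ : S)) = _
      rw [← sub_eq_zero, ← map_sub, hq0]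
      have h5 : ((AddSubgroup.inclusion inf_le_left (⟨_, hf⟩ : S) - g : Z) : G → A) =
          -(fun σ => act σ Q - Q) := by
        rw [AddSubgroup.coe_sub, AddSubgroup.coe_inclusion]
        exact sub_sub_cancel_left _ _
      rw [h5]
      exact B.neg_mem hb
  have h1 := AddSubgroup.card_mul_index q.ker
  rw [AddSubgroup.index_ker] at h1
  have h2 : Nat.card q.range = Nat.card {x : Z ⧸ B.addSubgroupOf Z // x + x = 0} :=
    Nat.card_congr (Equiv.subtypeEquivRight hqrange)
  have h3 : Nat.card q.ker = J.index := by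
    rw [hqker, ← hψker, AddSubgroup.index_ker]
  choose Y hY using fun Q : H => (hHm Q).1 Q.2
  let f : H →+ M := AddMonoidHom.mk' Y (by
    intro P Q
    apply hj
    rw [hY, map_add, hY, hY, AddSubgroup.coe_add]
    abel)
  have hf : ∀ Q, j (f Q) = (Q : A) + (Q : A) := hY
  have hfsurj : Function.Surjective f := by
    intro X
    obtain ⟨R, hR⟩ := hH (j X)
    refine ⟨⟨R, (hHm R).2 ⟨X, hR.symm⟩⟩, hj ?_⟩
    rw [hf]
    exact hR
  have hfker : ∀ Q : H, Q ∈ f.ker ↔ (Q : A) + (Q : A) = 0 := by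
    intro Q
    rw [AddMonoidHom.mem_ker, ← hf Q]
    constructor
    · intro h
      rw [h, map_zero]
    · intro h
      apply hj
      rw [h, map_zero]
  have hmap : J.map f = (nsmulAddMonoidHom 2 : M →+ M).range := by
    ext X
    rw [AddSubgroup.mem_map, AddMonoidHom.mem_range]
    constructor
    · rintro ⟨Q, hQ, rfl⟩
      obtain ⟨X, hX⟩ := (hJm Q).1 hQ
      refine ⟨X, hj ?_⟩
      change j ((2 : ℕ) • X) = _
      rw [two_nsmul, map_add, hX, hf]
    · rintro ⟨X', hX'⟩
      have hX2 : X' + X' = X := by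
        rw [← two_nsmul]
        exact hX'
      refine ⟨⟨j X', (hHm _).2 ⟨X' + X', map_add j _ _⟩⟩, (hJm _).2 ⟨X', rfl⟩, hj ?_⟩
      rw [hf, ← hX2, map_add]
  have h5 : (nsmulAddMonoidHom 2 : M →+ M).range.index = (J ⊔ f.ker).index := by
    rw [← hmap, AddSubgroup.index_map, AddMonoidHom.range_eq_top.2 hfsurj, AddSubgroup.index_top,
      mul_one]
  have h6 : J.index = J.relIndex f.ker * (J ⊔ f.ker).index := by
    rw [← AddSubgroup.relIndex_mul_index (le_sup_left : J ≤ J ⊔ f.ker),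
      AddSubgroup.relIndex_sup_left]
  have h7 : Nat.card f.ker = 4 := by
    rw [← h4]
    refine Nat.card_congr (Equiv.ofBijective
      (fun x : f.ker => (⟨((x : H) : A), (hfker _).1 x.2⟩ : {x : A // x + x = 0})) ⟨?_, ?_⟩)
    · intro x y hxy
      apply Subtype.ext
      apply Subtype.ext
      exact congrArg (fun z : {x : A // x + x = 0} => (z : A)) hxy
    · rintro ⟨x, hx⟩
      refine ⟨⟨⟨x, (hHm x).2 ⟨0, ?_⟩⟩, (hfker _).2 hx⟩, rfl⟩
      rw [map_zero, hx]
  have h8 : Nat.card (J.addSubgroupOf f.ker) = Nat.card {x : M // x + x = 0} := by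
    symm
    have e1 : ∀ x : {x : M // x + x = 0}, j x + j x = 0 := fun x => by
      rw [← map_add, x.2, map_zero]
    refine Nat.card_congr (Equiv.ofBijective
      (fun x : {x : M // x + x = 0} => (⟨⟨⟨j x, (hHm _).2 ⟨(x : M) + x, map_add j _ _⟩⟩,
        (hfker _).2 (e1 x)⟩, (AddSubgroup.mem_addSubgroupOf).2 ((hJm _).2 ⟨x, rfl⟩)⟩ :
        J.addSubgroupOf f.ker)) ⟨?_, ?_⟩)
    · intro x y hxy
      apply Subtype.ext
      apply hj
      exact congrArg (fun z : J.addSubgroupOf f.ker => (((z : f.ker) : H) : A)) hxy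
    · rintro ⟨⟨⟨x, hx⟩, hx2⟩, hx3⟩
      obtain ⟨X, hX⟩ := (hJm _).1 ((AddSubgroup.mem_addSubgroupOf).1 hx3)
      have hX' : j X = x := hX
      have hx2' : x + x = 0 := (hfker _).1 hx2
      refine ⟨⟨X, hj ?_⟩, ?_⟩
      · rw [map_add, hX', hx2', map_zero]
      · apply Subtype.ext
        apply Subtype.ext
        apply Subtype.ext
        exact hX'
  have h9 : Nat.card {x : M // x + x = 0} * J.relIndex f.ker = 4 := by
    rw [← h8, ← h7]
    exact AddSubgroup.card_mul_index (J.addSubgroupOf f.ker)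
  rw [← h1, h2, h3, h6, h5]
  calc J.relIndex f.ker * (J ⊔ f.ker).index * Nat.card {x : Z ⧸ B.addSubgroupOf Z // x + x = 0} *
        Nat.card {x : M // x + x = 0} =
      (J ⊔ f.ker).index * (Nat.card {x : M // x + x = 0} * J.relIndex f.ker) *
        Nat.card {x : Z ⧸ B.addSubgroupOf Z // x + x = 0} := by ring
    _ = _ := by rw [h9]

end Pool.Agent.H26.SG
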