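import Mathlib

/-!
Subgroups of index at most two and their intersections.
-/

set_option autoImplicit false

namespace Pool.Agent.H26.SG

variable {G : Type*} [CommGroup G]

theorem index_two {H : Subgroup G} (h : ∀ x y, x ∉ H → y ∉ H → x * y ∈ H) :
    H.index ≠ 0 ∧ H.index ≤ 2 := by
  by_cases hH : H = ⊤
  · subst hH
    rw [Subgroup.index_top]
    omega
  · have hex : ∃ x₀ : G, x₀ ∉ H := by
      by_contra hne
      push Not at hne
      exact hH (eq_top_iff.mpr fun x _ => hne x)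
    obtain ⟨x₀, hx₀⟩ := hex
    have h2 : H.index = 2 := by
      rw [Subgroup.index_eq_two_iff]
      refine ⟨x₀, fun b => ?_⟩
      by_cases hb : b ∈ H
      · right
        refine ⟨hb, fun hbx => hx₀ ?_⟩
        exact (H.mul_mem_cancel_left hb).mp hbx
      · left
        exact ⟨h b x₀ hb hx₀, hb⟩
    omega

theorem relIndex_two {H K : Subgroup G}
    (h : ∀ x ∈ K, ∀ y ∈ K, x ∉ H → y ∉ H → x * y ∈ H) :
    H.relIndex K ≠ 0 ∧ H.relIndex K ≤ 2 := by
  apply index_two
  rintro ⟨x, hx⟩ ⟨y, hy⟩ h1 h2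
  rw [Subgroup.mem_subgroupOf] at h1 h2 ⊢
  exact h x hx y hy h1 h2

theorem relIndex_iInf_two {ι : Type*} [Finite ι] (f : ι → Subgroup G) (K : Subgroup G)
    (h : ∀ i, (f i).relIndex K ≠ 0 ∧ (f i).relIndex K ≤ 2) :
    (⨅ i, f i).relIndex K ≠ 0 ∧ (⨅ i, f i).relIndex K ≤ 2 ^ Nat.card ι := by
  haveI := Fintype.ofFinite ι
  refine ⟨Subgroup.relIndex_iInf_ne_zero fun i => (h i).1, (Subgroup.relIndex_iInf_le f).trans ?_⟩
  refine (Finset.prod_le_pow_card _ _ 2 fun i _ => (h i).2).trans ?_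
  rw [Finset.card_univ, Nat.card_eq_fintype_card]

end Pool.Agent.H26.SG
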