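import Pool.Agent.H26.SG.LocUnit
import Pool.Agent.H26.SG.Idx

/-!
The index of the local squares.
-/

set_option autoImplicit false
set_option linter.style.haveILetI false
open scoped Classical

open WeierstrassCurve IsDedekindDomain NumberField WithZero

namespace Pool.Agent.H26.SG

open Pool.Agent.H10

variable {L : Type} [Field L] [NumberField L] {a c α : 𝓞 L}

theorem locSq_index {w : HeightOneSpectrum (𝓞 L)} (hw : (2 : 𝓞 L) ∉ w.asIdeal) :
    (locSq w).relIndex (evenGrp L) ≠ 0 ∧ (locSq w).relIndex (evenGrp L) ≤ 2 := by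
  apply relIndex_two
  intro x hx y hy nx ny
  rw [mem_locSq] at nx ny ⊢
  obtain ⟨k, _, _, ρ, hρs, hρ⟩ := exists_resid w
  obtain ⟨z, hz0, hz⟩ := exists_local_unit w (mem_evenGrp.mp hx w)
  obtain ⟨z', hz0', hz'⟩ := exists_local_unit w (mem_evenGrp.mp hy w)
  let V : Valuation (w.adicCompletion L) (WithZero (Multiplicative ℤ)) := Valued.v
  let X : V.integer := ⟨algebraMap L (w.adicCompletion L) (x : L) * z ^ 2, hz.le⟩
  let Y : V.integer := ⟨algebraMap L (w.adicCompletion L) (y : L) * z' ^ 2, hz'.le⟩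
  have hX : ρ X ≠ 0 := by
    intro h
    rw [hρ] at h
    exact absurd hz h.ne
  have hY : ρ Y ≠ 0 := by
    intro h
    rw [hρ] at h
    exact absurd hz' h.ne
  have nX : ¬ IsSquare (X : w.adicCompletion L) := by
    rintro ⟨r, hr⟩
    apply nx
    have hr' : algebraMap L (w.adicCompletion L) (x : L) * z ^ 2 = r * r := hr
    refine ⟨r / z, ?_⟩
    field_simp
    linear_combination hr'
  have nY : ¬ IsSquare (Y : w.adicCompletion L) := by
    rintro ⟨r, hr⟩
    apply ny
    have hr' : algebraMap L (w.adicCompletion L) (y : L) * z' ^ 2 = r * r := hr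
    refine ⟨r / z', ?_⟩
    field_simp
    linear_combination hr'
  obtain ⟨r, hr⟩ := units_odd (V := V) (ρ := ρ) hρs hρ (hS_odd w hw) (res_two w hρ hw) hX hY nX nY
  have hr' : algebraMap L (w.adicCompletion L) (x : L) * z ^ 2 *
    (algebraMap L (w.adicCompletion L) (y : L) * z' ^ 2) = r * r := hr
  refine ⟨r / (z * z'), ?_⟩
  rw [Units.val_mul, map_mul]
  field_simp
  linear_combination hr'

end Pool.Agent.H26.SG
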