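import Pool.Agent.H26.SG.LocUnit

/-!
Solubility of the classes `(1, d, d)` at the odd primes of good reduction.

PROOF. Let `F = w.adicCompletion L`, `2 ∉ w`, `a * c ∉ w` and `α ∉ w`. `exists_local_unit` gives
`z : F`, `z ≠ 0`, with `V (d z ^ 2) = 1`; let `D' = d z ^ 2` as an element of the valuation ring.
As in `unit_good` (`Pool.Agent.H10.GrPlace`): `exists_resid`, and `cpt_good` with `e₁ = 0`,
`e₂ = a`, `e₃ = c`, `d₁ = 1`, `d₂ = d₃ = c' = D'`; `ρ a ≠ 0`, `ρ c ≠ 0` because `V a = V c = 1`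
(`val_eq_one_of_notMem`, `valued_algebraMap`), and `ρ a ≠ ρ c` because
`V (c - a) = V (16 α) = 1` (`(16 : 𝓞 L) ∉ w` since `w` is prime and `2 ∉ w`). Then `CPt.congr`
(`Pool.Agent.H10.SelDef`) with `s₁ = 1`, `s₂ = s₃ = z⁻¹` removes the square.
-/

set_option autoImplicit false
set_option linter.style.haveILetI false
open scoped Classical

open WeierstrassCurve IsDedekindDomain NumberField WithZero

namespace Pool.Agent.H26.SG

open Pool.Agent.H10

variable {L : Type} [Field L] [NumberField L] {a c α : 𝓞 L}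

theorem low_good (D : Dat a c α) {d : Lˣ} {w : HeightOneSpectrum (𝓞 L)} (hd : d ∈ evenAt w)
    (hw : (2 : 𝓞 L) ∉ w.asIdeal) (hac : a * c ∉ w.asIdeal) (hα : α ∉ w.asIdeal) :
    CPt (0 : w.adicCompletion L) (algebraMap L (w.adicCompletion L) (a : L))
      (algebraMap L (w.adicCompletion L) (c : L)) 1
      (algebraMap L (w.adicCompletion L) (d : L)) (algebraMap L (w.adicCompletion L) (d : L)) := by
  obtain ⟨k, _, _, ρ, hρs, hρ⟩ := exists_resid w
  obtain ⟨z, hz0, hz⟩ := exists_local_unit w hd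
  let V : Valuation (w.adicCompletion L) (WithZero (Multiplicative ℤ)) := Valued.v
  have nA : a ∉ w.asIdeal := fun h => hac (Ideal.mul_mem_right _ _ h)
  have nC : c ∉ w.asIdeal := fun h => hac (Ideal.mul_mem_left _ _ h)
  have nD : c - a ∉ w.asIdeal := by
    intro h
    have e : c - a = 16 * α := by rw [D.hc]; ring
    rw [e] at h
    rcases w.isPrime.mem_or_mem h with h1 | h1
    · have e2 : (16 : 𝓞 L) = 2 ^ 4 := by norm_num
      rw [e2] at h1
      exact hw (w.isPrime.mem_of_pow_mem 4 h1)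
    · exact hα h1
  have va : ∀ x : 𝓞 L, x ∉ w.asIdeal → V (algebraMap L (w.adicCompletion L) (x : L)) = 1 :=
    fun x hx => (valued_algebraMap w _).trans (val_eq_one_of_notMem hx)
  have vle : ∀ x : 𝓞 L, V (algebraMap L (w.adicCompletion L) (x : L)) ≤ 1 :=
    fun x => (valued_algebraMap w _).le.trans (w.valuation_le_one x)
  let I : 𝓞 L → V.integer := fun x => ⟨algebraMap L (w.adicCompletion L) (x : L), vle x⟩
  have hI : ∀ x, x ∉ w.asIdeal → ρ (I x) ≠ 0 := by
    intro x hx h
    rw [hρ] at h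
    exact absurd (va x hx) h.ne
  have hsub : I (c - a) = I c - I a := by
    apply Subtype.ext
    change algebraMap L (w.adicCompletion L) ((c - a : 𝓞 L) : L) =
      algebraMap L (w.adicCompletion L) (c : L) - algebraMap L (w.adicCompletion L) (a : L)
    rw [← map_sub]
    rfl
  let U : V.integer := ⟨algebraMap L (w.adicCompletion L) (d : L) * z ^ 2, hz.le⟩
  have hU : ρ U ≠ 0 := by
    intro h
    rw [hρ] at h
    exact absurd hz h.ne
  have key := cpt_good (V := V) (ρ := ρ) hρs hρ (hS_odd w hw) (res_two w hρ hw) (e₁ := 0)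
    (e₂ := I a) (e₃ := I c) (d₁ := 1) (d₂ := U) (d₃ := U) (c := U)
    (by rw [map_zero]; exact (hI a nA).symm) (by rw [map_zero]; exact (hI c nC).symm)
    (by
      intro h
      apply hI (c - a) nD
      rw [hsub, map_sub, h, sub_self])
    (by ring) hU
  have e : algebraMap L (w.adicCompletion L) (d : L) =
      algebraMap L (w.adicCompletion L) (d : L) * z ^ 2 * (z⁻¹) ^ 2 := by
    field_simp
  exact CPt.congr (s₁ := 1) (s₂ := z⁻¹) (s₃ := z⁻¹) one_ne_zero (inv_ne_zero hz0)
    (inv_ne_zero hz0) key (by rw [one_pow, mul_one]; rfl) e e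

end Pool.Agent.H26.SG
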