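import Pool.Agent.H26.SG.LocUnit

/-!
Solubility of the classes `(1, d, d)` at the infinite places.
-/

set_option autoImplicit false
set_option linter.style.haveILetI false
open scoped Classical

open WeierstrassCurve IsDedekindDomain NumberField WithZero

namespace Pool.Agent.H26.SG

open Pool.Agent.H10

variable {L : Type} [Field L] [NumberField L] {a c α : 𝓞 L}

omit [NumberField L] in
lemma real_cpt {A C y : ℝ} (h : 0 < y ∨ (0 < A ∧ 0 < C)) (hy : y ≠ 0) : CPt 0 A C 1 y y := by
  rcases lt_or_gt_of_ne hy with h0 | h0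
  · obtain ⟨hA, hC⟩ : 0 < A ∧ 0 < C := by
      rcases h with h | h
      · exact absurd h (not_lt.mpr h0.le)
      · exact h
    refine ⟨1, 0, Real.sqrt (A / (-y)), Real.sqrt (C / (-y)), Or.inl one_ne_zero, ?_, ?_⟩
    · rw [Real.sq_sqrt (div_nonneg hA.le (by linarith))]
      field_simp
      ring
    · rw [Real.sq_sqrt (div_nonneg hC.le (by linarith))]
      field_simp
      ring
  · exact CPt.of_isSquare ⟨Real.sqrt y, (Real.mul_self_sqrt h0.le).symm⟩

theorem low_inf {d : Lˣ} (hd : ∀ φ : L →+* ℝ, φ ∉ posSet a c → 0 < φ (d : L)) :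
    InfSol L 0 (a : L) (c : L) 1 (d : L) (d : L) := by
  intro v
  rw [map_zero, map_one]
  rcases v.isReal_or_isComplex with hv | hv
  · let e := InfinitePlace.Completion.ringEquivRealOfIsReal hv
    let φ : L →+* ℝ := e.toRingHom.comp (algebraMap L v.Completion)
    have hφ : ∀ x : L, e.symm.toRingHom (φ x) = algebraMap L v.Completion x := fun x =>
      e.symm_apply_apply _
    have hd0 : φ (d : L) ≠ 0 := by rw [Ne, map_eq_zero]; exact d.ne_zero
    have key : CPt (0 : ℝ) (φ (a : L)) (φ (c : L)) 1 (φ (d : L)) (φ (d : L)) := by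
      apply real_cpt _ hd0
      by_cases hS : φ ∈ posSet a c
      · exact Or.inr hS
      · exact Or.inl (hd φ hS)
    have key2 := key.map e.symm.toRingHom
    rw [hφ, hφ, hφ, map_zero, map_one] at key2
    exact key2
  · let e := InfinitePlace.Completion.ringEquivComplexOfIsComplex hv
    apply CPt.of_isSquare
    obtain ⟨z, hz⟩ := IsAlgClosed.exists_pow_nat_eq (e (algebraMap L v.Completion (d : L)))
      (n := 2) (by norm_num)
    refine ⟨e.symm z, ?_⟩
    rw [← map_mul, ← pow_two, hz]
    exact (e.symm_apply_apply _).symm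

end Pool.Agent.H26.SG
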