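import Pool.Agent.H26.SG.LocUnit

/-!
Solubility of the classes `(1, d, d)` at the primes above two.

PROOF. Let `F = w.adicCompletion L`, `2 ∈ w`. `exists_local_unit` gives `z : F`, `z ≠ 0`, with
`V (d z ^ 2) = 1`; let `D' = d z ^ 2` (in `F`). There is `h` with `V (h ^ 2 - D') < 1`: the residue
field is finite of characteristic two, so every element is a square (see `hroot` in the proof of
`unit_two` in `Pool.Agent.H10.GrPlace`, with `exists_resid`; the characteristic: `ρ 2 = 0` because
`V 2 < 1`, so `(2 : k) = 0`, `CharP k 2`, and `FiniteField.isSquare_of_char_two`). Let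
`a = s ^ 2 + 4 κ` with `s, κ : 𝓞 L` (`D.sq4`). `two_sol` (file `TwoSol`) gives
`CPt 0 a (a + 16 α) 1 D' D'` (`F` is complete: instance; `V 4 < 1` as `V 4 = V 2 * V 2`;
`V κ ≤ 1`, `V α ≤ 1` since they are integers: `valued_algebraMap` and `w.valuation_le_one`;
`V a = 1` since `a` is coprime to two: `a ∉ w`, `val_eq_one_of_notMem`). Then `CPt.congr`
(`Pool.Agent.H10.SelDef`) with `s₁ = 1`, `s₂ = s₃ = z⁻¹` removes the square.
-/

set_option autoImplicit false
set_option linter.style.haveILetI false
open scoped Classical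

open WeierstrassCurve IsDedekindDomain NumberField WithZero

namespace Pool.Agent.H26.SG

open Pool.Agent.H10

variable {L : Type} [Field L] [NumberField L] {a c α : 𝓞 L}

theorem low_two (D : Dat a c α) {d : Lˣ} {w : HeightOneSpectrum (𝓞 L)} (hd : d ∈ evenAt w)
    (hw : (2 : 𝓞 L) ∈ w.asIdeal) :
    CPt (0 : w.adicCompletion L) (algebraMap L (w.adicCompletion L) (a : L))
      (algebraMap L (w.adicCompletion L) (c : L)) 1
      (algebraMap L (w.adicCompletion L) (d : L)) (algebraMap L (w.adicCompletion L) (d : L)) := by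
  obtain ⟨z, hz0, hz⟩ := exists_local_unit w hd
  obtain ⟨k, _, _, ρ, hρs, hρ⟩ := exists_resid w
  have v2 : Valued.v (2 : w.adicCompletion L) < 1 := by
    rw [valued_ofNat w 2]
    have e2 : algebraMap (𝓞 L) L 2 = 2 := map_ofNat (algebraMap (𝓞 L) L) 2
    have h1 : w.valuation L (algebraMap (𝓞 L) L 2) < 1 :=
      (w.valuation_lt_one_iff_mem (K := L) 2).mpr hw
    rw [e2] at h1
    exact h1
  have v4 : Valued.v (4 : w.adicCompletion L) < 1 := by
    have e4 : (4 : w.adicCompletion L) = 2 * 2 := by norm_num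
    rw [e4, map_mul]
    exact mul_lt_one_of_nonneg_of_lt_one_left zero_le v2 v2.le
  have hch : CharP k 2 := by
    have h : ρ 2 = 0 := by
      rw [hρ]
      exact v2
    rw [map_ofNat] at h
    exact CharTwo.of_one_ne_zero_of_two_eq_zero one_ne_zero h
  -- the square root modulo the maximal ideal
  obtain ⟨h, hh⟩ : ∃ h : w.adicCompletion L,
      Valued.v (h ^ 2 - algebraMap L (w.adicCompletion L) (d : L) * z ^ 2) < 1 := by
    obtain ⟨r, hr⟩ := FiniteField.isSquare_of_char_two (ringChar.eq k 2)
      (ρ ⟨algebraMap L (w.adicCompletion L) (d : L) * z ^ 2, hz.le⟩)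
    obtain ⟨s, rfl⟩ := hρs r
    refine ⟨s, ?_⟩
    have := (hρ (s ^ 2 - ⟨algebraMap L (w.adicCompletion L) (d : L) * z ^ 2, hz.le⟩)).1 (by
      rw [map_sub, map_pow, hr, pow_two, sub_self])
    exact this
  obtain ⟨s, κ, hκ⟩ := D.sq4
  have int_le : ∀ x : 𝓞 L, Valued.v (algebraMap L (w.adicCompletion L) (x : L)) ≤ 1 := by
    intro x
    rw [valued_algebraMap]
    exact w.valuation_le_one (K := L) x
  have ha : algebraMap L (w.adicCompletion L) (a : L) =
      algebraMap L (w.adicCompletion L) (s : L) ^ 2 +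
        4 * algebraMap L (w.adicCompletion L) (κ : L) := by
    have h1 : a = s ^ 2 + 4 * κ := by linear_combination hκ
    have h2 : (a : L) = (s : L) ^ 2 + 4 * (κ : L) := by
      have := congrArg (algebraMap (𝓞 L) L) h1
      rw [map_add, map_pow, map_mul, map_ofNat] at this
      exact this
    rw [h2, map_add, map_pow, map_mul, map_ofNat]
  have hc : algebraMap L (w.adicCompletion L) (c : L) =
      algebraMap L (w.adicCompletion L) (a : L) +
        16 * algebraMap L (w.adicCompletion L) (α : L) := by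
    have h2 : (c : L) = (a : L) + 16 * (α : L) := by
      have := congrArg (algebraMap (𝓞 L) L) D.hc
      rw [map_add, map_mul, map_ofNat] at this
      exact this
    rw [h2, map_add, map_mul, map_ofNat]
  have hna : a ∉ w.asIdeal := by
    intro h3
    obtain ⟨u, v, huv⟩ := D.cop
    apply w.isPrime.ne_top
    rw [Ideal.eq_top_iff_one, ← huv]
    exact Ideal.add_mem _ (Ideal.mul_mem_left _ _ h3) (Ideal.mul_mem_left _ _ hw)
  have hva : Valued.v (algebraMap L (w.adicCompletion L) (a : L)) = 1 := by
    rw [valued_algebraMap]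
    exact val_eq_one_of_notMem hna
  have hsol := two_sol (F := w.adicCompletion L) two_ne_zero v4 ha (int_le κ) (int_le α) hva hz hh
  rw [← hc] at hsol
  refine CPt.congr (s₁ := 1) (s₂ := z⁻¹) (s₃ := z⁻¹) one_ne_zero (inv_ne_zero hz0)
    (inv_ne_zero hz0) hsol (by ring) ?_ ?_
  · field_simp
  · field_simp

end Pool.Agent.H26.SG
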