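import Mathlib

/-!
The index of the doubles in a finitely generated abelian group.

PROOF. By `AddCommGroup.equiv_free_prod_directSum_zmod` there are `n`, a finite type `ι`, primes
`p i` and exponents `e i` with `A ≃+ (Fin n →₀ ℤ) × ⨁ i, ZMod (p i ^ e i)`. Both sides are
invariant under isomorphisms (`LinearEquiv.finrank_eq`, `Nat.card_congr`, and the index by
`AddSubgroup.index_map_equiv` or by comparing quotients), so let `A = F × T` with
`F = Fin n →₀ ℤ` and `T` finite (`T` is a finite direct sum of the finite groups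
`ZMod (p i ^ e i)`). The rank of `F × T` is `n`: `Module.finrank_prod`-like statements need freeness,
so use `Module.finrank` of `F × T` through `finrank_quotient_torsion_eq` or
`rank_eq_zero_iff`/`LinearMap.rank`: the second factor is torsion; alternatively use
`Submodule.finrank_quotient_add_finrank` (which holds over domains: rank is additive in exact
sequences over an integral domain, `rank_quotient_add_rank_of_isDomain`) and
`Module.finrank_eq_zero_of_rank_eq_zero`/`rank_eq_zero_iff_isTorsion` for `T`.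
The doubles are `2F × 2T`, so the index is the product of the indices
(`AddSubgroup.index_prod`). For a finite group `T` the index of `2T` is `|T| / |2T|` and
`|2T| = |T| / |T[2]|` (kernel of doubling), so it is `|T[2]|`. For `F` the index of `2F` is `2 ^ n`:
`F ⧸ 2F ≃ (Fin n → ZMod 2)`: the map `F →+ (Fin n → ZMod 2)`, `x ↦ (x i : ZMod 2)` is surjective
with kernel `2F` (`ZMod.intCast_zmod_eq_zero_iff_dvd`), so the index is
`Nat.card (Fin n → ZMod 2) = 2 ^ n` (`AddSubgroup.index_ker`). Finally `(F × T)[2] ≃ T[2]`, as `F`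
has no torsion.
-/

set_option autoImplicit false
set_option linter.style.haveILetI false

namespace Pool.Agent.H26.SG

private lemma range_equiv {A B : Type*} [AddCommGroup A] [AddCommGroup B] (e : A ≃+ B) :
    (nsmulAddMonoidHom 2 : A →+ A).range.map (e : A →+ B) = (nsmulAddMonoidHom 2 : B →+ B).range := by
  ext x
  simp only [AddSubgroup.mem_map, AddMonoidHom.mem_range, nsmulAddMonoidHom_apply]
  constructor
  · rintro ⟨_, ⟨y, rfl⟩, rfl⟩
    exact ⟨e y, by simp⟩
  · rintro ⟨y, rfl⟩
    exact ⟨2 • e.symm y, ⟨e.symm y, rfl⟩, by simp⟩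

private lemma index_fin_free (n : ℕ) :
    (nsmulAddMonoidHom 2 : (Fin n →₀ ℤ) →+ (Fin n →₀ ℤ)).range.index = 2 ^ n := by
  let f : (Fin n →₀ ℤ) →+ (Fin n → ZMod 2) :=
    { toFun := fun x i => ((x i : ℤ) : ZMod 2)
      map_zero' := by ext; simp
      map_add' := by intro x y; ext; simp }
  have hk : f.ker = (nsmulAddMonoidHom 2 : (Fin n →₀ ℤ) →+ (Fin n →₀ ℤ)).range := by
    ext x
    rw [AddMonoidHom.mem_ker, AddMonoidHom.mem_range]
    constructor
    · intro h
      have h2 : ∀ i, ∃ m : ℤ, x i = 2 * m := by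
        intro i
        have := congrFun h i
        change ((x i : ℤ) : ZMod 2) = 0 at this
        exact (ZMod.intCast_zmod_eq_zero_iff_dvd _ _).mp this
      choose m hm using h2
      refine ⟨Finsupp.equivFunOnFinite.symm m, ?_⟩
      ext i
      simp [hm i]
    · rintro ⟨y, rfl⟩
      ext i
      change ((((2 : ℕ) • y) i : ℤ) : ZMod 2) = 0
      rw [Finsupp.smul_apply, nsmul_eq_mul, Int.cast_mul]
      simp only [Nat.cast_ofNat, Int.cast_ofNat]
      rw [show (2 : ZMod 2) = 0 from rfl, zero_mul]
  have hs : Function.Surjective f := by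
    intro y
    refine ⟨Finsupp.equivFunOnFinite.symm fun i => ((y i).val : ℤ), ?_⟩
    ext i
    change ((((y i).val : ℤ) : ℤ) : ZMod 2) = y i
    simp
  rw [← hk, AddSubgroup.index_ker, AddMonoidHom.range_eq_top.mpr hs]
  rw [Nat.card_congr (AddSubgroup.topEquiv (G := Fin n → ZMod 2)).toEquiv, Nat.card_fun]
  simp

private lemma index_finite (T : Type*) [AddCommGroup T] [Finite T] :
    (nsmulAddMonoidHom 2 : T →+ T).range.index = Nat.card {x : T // x + x = 0} := by
  have h1 := AddSubgroup.index_ker (nsmulAddMonoidHom 2 : T →+ T)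
  have h2 := AddSubgroup.index_mul_card (nsmulAddMonoidHom 2 : T →+ T).ker
  have h3 := AddSubgroup.index_mul_card (nsmulAddMonoidHom 2 : T →+ T).range
  have h4 : Nat.card (nsmulAddMonoidHom 2 : T →+ T).ker = Nat.card {x : T // x + x = 0} := by
    refine Nat.card_congr (Equiv.subtypeEquivRight fun x => ?_)
    rw [AddMonoidHom.mem_ker, nsmulAddMonoidHom_apply, two_nsmul]
  have h5 : 0 < Nat.card (nsmulAddMonoidHom 2 : T →+ T).range := Nat.card_pos
  rw [← h4]
  rw [h1, ← h3, mul_comm] at h2
  exact (Nat.eq_of_mul_eq_mul_right h5 h2).symm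

theorem index_double (A : Type*) [AddCommGroup A] [hA : AddGroup.FG A] :
    (nsmulAddMonoidHom 2 : A →+ A).range.index =
      2 ^ Module.finrank ℤ A * Nat.card {x : A // x + x = 0} := by
  classical
  obtain ⟨n, ι, hι, p, hp, e, ⟨E⟩⟩ := AddCommGroup.equiv_free_prod_directSum_zmod A
  haveI : Finite (DirectSum ι fun i => ZMod (p i ^ e i)) := by
    haveI : ∀ i, NeZero (p i ^ e i) := fun i => ⟨pow_ne_zero _ (hp i).ne_zero⟩
    haveI : ∀ i, Finite (ZMod (p i ^ e i)) := fun i => inferInstance
    haveI := Fintype.ofFinite ι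
    exact Finite.of_equiv _ (DirectSum.addEquivProd (fun i => ZMod (p i ^ e i))).symm.toEquiv
  set T := DirectSum ι fun i => ZMod (p i ^ e i) with hT
  have i1 : (nsmulAddMonoidHom 2 : A →+ A).range.index =
      (nsmulAddMonoidHom 2 : ((Fin n →₀ ℤ) × T) →+ ((Fin n →₀ ℤ) × T)).range.index := by
    rw [← range_equiv E, AddSubgroup.index_map_equiv]
  have i2 : (nsmulAddMonoidHom 2 : ((Fin n →₀ ℤ) × T) →+ ((Fin n →₀ ℤ) × T)).range =
      (nsmulAddMonoidHom 2 : (Fin n →₀ ℤ) →+ (Fin n →₀ ℤ)).range.prod
        (nsmulAddMonoidHom 2 : T →+ T).range := by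
    ext ⟨x, y⟩
    rw [AddSubgroup.mem_prod, AddMonoidHom.mem_range, AddMonoidHom.mem_range, AddMonoidHom.mem_range]
    constructor
    · rintro ⟨⟨a, b⟩, h⟩
      simp only [nsmulAddMonoidHom_apply, Prod.smul_mk, Prod.mk.injEq] at h
      exact ⟨⟨a, h.1⟩, ⟨b, h.2⟩⟩
    · rintro ⟨⟨a, ha⟩, ⟨b, hb⟩⟩
      refine ⟨(a, b), ?_⟩
      rw [nsmulAddMonoidHom_apply] at ha hb ⊢
      simp only [Prod.smul_mk, Prod.mk.injEq]
      exact ⟨ha, hb⟩
  have i3 : Module.finrank ℤ A = n := by
    rw [LinearEquiv.finrank_eq E.toIntLinearEquiv]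
    have h1 : LinearMap.ker (LinearMap.fst ℤ (Fin n →₀ ℤ) T) ≤
        Submodule.torsion ℤ ((Fin n →₀ ℤ) × T) := by
      rintro ⟨x, y⟩ hx
      have hx0 : x = 0 := hx
      rw [Submodule.mem_torsion_iff]
      haveI := Fintype.ofFinite T
      refine ⟨⟨(Nat.card T : ℤ), ?_⟩, ?_⟩
      · exact mem_nonZeroDivisors_of_ne_zero (by exact_mod_cast Nat.card_pos.ne')
      · change (Nat.card T : ℤ) • (x, y) = 0
        rw [hx0, Prod.smul_mk, smul_zero, natCast_zsmul]
        have : Nat.card T • y = 0 := card_nsmul_eq_zero'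
        rw [this]; rfl
    have h2 := finrank_quotient_eq_of_le_torsion h1
    rw [← h2]
    have E2 := LinearMap.quotKerEquivOfSurjective (LinearMap.fst ℤ (Fin n →₀ ℤ) T)
      LinearMap.fst_surjective
    rw [LinearEquiv.finrank_eq E2, Module.finrank_finsupp_self, Fintype.card_fin]
  have i4 : Nat.card {x : A // x + x = 0} = Nat.card {x : T // x + x = 0} := by
    refine Nat.card_congr ⟨fun x => ⟨(E x.1).2, ?_⟩, fun y => ⟨E.symm (0, y.1), ?_⟩, ?_, ?_⟩
    · have := congrArg (fun z => (E z).2) x.2
      simpa using this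
    · rw [← map_add, Prod.mk_add_mk, y.2, add_zero]
      exact map_zero E.symm
    · rintro ⟨x, hx⟩
      apply Subtype.ext
      change E.symm (0, (E x).2) = x
      have h1 : (E x).1 = 0 := by
        have := congrArg (fun z => (E z).1) hx
        simp only [map_add, Prod.fst_add, map_zero, Prod.fst_zero] at this
        ext i
        have h2 := DFunLike.congr_fun this i
        simp only [Finsupp.coe_add, Pi.add_apply, Finsupp.coe_zero, Pi.zero_apply] at h2
        simp only [Finsupp.coe_zero, Pi.zero_apply]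
        omega
      rw [← h1]
      simp
    · rintro ⟨y, hy⟩
      apply Subtype.ext
      simp
  rw [i1, i2, AddSubgroup.index_prod, index_fin_free, index_finite, i3, i4]

end Pool.Agent.H26.SG
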