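import Pool.Agent.H26.SG.Defs
import Pool.Agent.H26.SG.GrpFG
import Pool.Agent.H10.GrUnit
import Pool.Agent.H10.ClassCrit

/-!
The number of classes of units modulo squares.

PROOF. Let `j : (𝓞 L)ˣ →* Lˣ` be `Units.map (algebraMap (𝓞 L) L).toMonoidHom`, which is the
function in `unitGrp`. By `Subgroup.index_comap`, `(sq L).relIndex j.range = ((sq L).comap j).index`.
A unit which is a square in `L` is the square of a unit (`Pool.Agent.H10.isSquare_unit` in
`Pool.Agent.H10.GrUnit`, which may be imported), so `(sq L).comap j` is the group of squares of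
units. By `index_double` (file `GrpFG`, an independent row, use the statement only) for
`A = Additive (𝓞 L)ˣ`, whose rank is `Units.rank L` (`NumberField.Units.finrank_eq`), the index is
`2 ^ rank * Nat.card A[2]`, and `A[2]` contains `1` and `-1` and is finite (the roots of
`x ^ 2 = 1`; or `A[2]` is contained in the torsion), so `Nat.card A[2] = 2` (`x ^ 2 = 1` in a domain
gives `x = 1` or `x = -1`). With `rank + 1 = nrRealPlaces + nrComplexPlaces` (`Units.rank` is the
number of infinite places minus one, `InfinitePlace.card_eq_nrRealPlaces_add_nrComplexPlaces`,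
there is at least one infinite place) the claim follows. The translation between the
multiplicative and the additive notation: the subgroup of squares corresponds to
`(nsmulAddMonoidHom 2).range` (`Subgroup.toAddSubgroup`, `AddSubgroup` of `Additive`), the index is
the same.

`unitGrp_le`: units have valuation one at all primes (`Pool.Agent.H10.unit_val` in
`Pool.Agent.H10.ClassCrit`), whose logarithm is zero.

`card_real`: `L →+* ℝ` is in bijection with `{φ : L →+* ℂ // ComplexEmbedding.IsReal φ}`
(`φ ↦ Complex.ofRealHom.comp φ`, inverse `IsReal.embedding`; see the proof of `exists_completion`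
in `Pool.Agent.H10.RealPl`), whose cardinality is `InfinitePlace.nrRealPlaces L` by
`NumberField.InfinitePlace.card_real_embeddings`.
-/

set_option autoImplicit false
set_option linter.style.haveILetI false
open scoped Classical

open IsDedekindDomain NumberField WithZero

namespace Pool.Agent.H26.SG

open Pool.Agent.H10

/-- The units of the ring of integers as a subgroup. -/
def unitGrp (L : Type) [Field L] [NumberField L] : Subgroup Lˣ :=
  (Units.map (algebraMap (𝓞 L) L).toMonoidHom).range

theorem relIndex_unitGrp (L : Type) [Field L] [NumberField L] :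
    (sq L).relIndex (unitGrp L) =
      2 ^ (InfinitePlace.nrRealPlaces L + InfinitePlace.nrComplexPlaces L) := by
  haveI : Group.FG (𝓞 L)ˣ := Group.fg_iff_monoid_fg.mpr inferInstance
  haveI : AddGroup.FG (Additive (𝓞 L)ˣ) := inferInstance
  have h1 : (sq L).relIndex (unitGrp L) =
      ((sq L).comap (Units.map (algebraMap (𝓞 L) L).toMonoidHom)).index := by
    rw [Subgroup.index_comap]; rfl
  have h2 : (sq L).comap (Units.map (algebraMap (𝓞 L) L).toMonoidHom) =
      (powMonoidHom 2 : (𝓞 L)ˣ →* (𝓞 L)ˣ).range := by
    ext u
    rw [Subgroup.mem_comap, mem_sq, MonoidHom.mem_range]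
    constructor
    · intro h
      obtain ⟨v, hv⟩ := isSquare_unit (u := u) h
      exact ⟨v, by rw [powMonoidHom_apply, pow_two, hv]⟩
    · rintro ⟨v, rfl⟩
      refine ⟨((v : 𝓞 L) : L), ?_⟩
      rw [powMonoidHom_apply, map_pow, pow_two, Units.val_mul]
      rfl
  have h3 : (Subgroup.toAddSubgroup (powMonoidHom 2 : (𝓞 L)ˣ →* (𝓞 L)ˣ).range) =
      (nsmulAddMonoidHom 2 : Additive (𝓞 L)ˣ →+ Additive (𝓞 L)ˣ).range := by
    ext x
    constructor
    · rintro ⟨v, hv⟩
      exact ⟨Additive.ofMul v, hv⟩
    · rintro ⟨v, hv⟩
      exact ⟨Additive.toMul v, hv⟩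
  have h4 : Nat.card {x : Additive (𝓞 L)ˣ // x + x = 0} = 2 := by
    have e : {x : Additive (𝓞 L)ˣ // x + x = 0} ≃ Bool :=
      { toFun := fun x => decide (Additive.toMul x.1 = 1)
        invFun := fun b => if b then ⟨0, add_zero 0⟩ else ⟨Additive.ofMul (-1), by
          change Additive.ofMul ((-1 : (𝓞 L)ˣ) * (-1)) = Additive.ofMul 1
          rw [neg_mul_neg, one_mul]⟩
        left_inv := by
          rintro ⟨x, hx⟩
          have hx2 : (Additive.toMul x : (𝓞 L)ˣ) * Additive.toMul x = 1 := hx
          have hx3 : ((Additive.toMul x : (𝓞 L)ˣ) : 𝓞 L) * ((Additive.toMul x : (𝓞 L)ˣ) : 𝓞 L) = 1 := by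
            rw [← Units.val_mul, hx2, Units.val_one]
          by_cases h1 : Additive.toMul x = (1 : (𝓞 L)ˣ)
          · simp only [h1, decide_true, if_true]
            apply Subtype.ext
            exact h1.symm
          · simp only [h1, decide_false, Bool.false_eq_true, if_false]
            apply Subtype.ext
            rcases mul_self_eq_one_iff.mp hx3 with h5 | h5
            · exact absurd (Units.ext h5) h1
            · symm
              change (Additive.toMul x : (𝓞 L)ˣ) = -1
              exact Units.ext (by rw [h5]; rfl)
        right_inv := by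
          intro b
          cases b
          · simp only [Bool.false_eq_true, if_false, decide_eq_false_iff_not]
            intro h
            have h5 : ((-1 : (𝓞 L)ˣ) : 𝓞 L) = 1 := by
              have : (-1 : (𝓞 L)ˣ) = 1 := h
              rw [this]; rfl
            rw [Units.val_neg, Units.val_one] at h5
            have : (2 : 𝓞 L) = 0 := by linear_combination -h5
            exact two_ne_zero this
          · simp }
    rw [Nat.card_congr e, Nat.card_eq_fintype_card, Fintype.card_bool]
  rw [h1, h2, ← Subgroup.index_toAddSubgroup, h3, index_double, h4,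
    Units.finrank_eq, Units.rank, ← InfinitePlace.card_eq_nrRealPlaces_add_nrComplexPlaces,
    ← pow_succ, Nat.sub_add_cancel]
  exact Fintype.card_pos

theorem unitGrp_le (L : Type) [Field L] [NumberField L] : unitGrp L ≤ evenGrp L := by
  rintro _ ⟨u, rfl⟩
  rw [mem_evenGrp]
  intro w
  have h := unit_val u w
  have : w.valuation L ((Units.map (algebraMap (𝓞 L) L).toMonoidHom u : Lˣ) : L) = 1 := h
  rw [this, log_one]
  exact Even.zero

theorem card_real (L : Type) [Field L] [NumberField L] :
    Nat.card (L →+* ℝ) = InfinitePlace.nrRealPlaces L := by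
  rw [← InfinitePlace.card_real_embeddings, ← Nat.card_eq_fintype_card]
  refine Nat.card_congr ⟨fun φ => ⟨Complex.ofRealHom.comp φ, ?_⟩, fun φ => φ.2.embedding, ?_, ?_⟩
  · rw [ComplexEmbedding.isReal_iff]
    ext x
    simp
  · intro φ
    ext x
    have h := ComplexEmbedding.IsReal.coe_embedding_apply
      (φ := Complex.ofRealHom.comp φ) (by
        rw [ComplexEmbedding.isReal_iff]
        ext x
        simp) x
    have h2 : ((ComplexEmbedding.IsReal.embedding (φ := Complex.ofRealHom.comp φ) (by
        rw [ComplexEmbedding.isReal_iff]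
        ext x
        simp) x : ℝ) : ℂ) = ((φ x : ℝ) : ℂ) := h
    exact_mod_cast h2
  · rintro ⟨φ, hφ⟩
    apply Subtype.ext
    ext x
    exact ComplexEmbedding.IsReal.coe_embedding_apply hφ x

end Pool.Agent.H26.SG
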