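import Pool.Agent.H26.SG.ChainUp
import Pool.Agent.H26.SG.LowTwo
import Pool.Agent.H26.SG.LowGood
import Pool.Agent.H26.SG.LowInf
import Pool.Agent.H26.SG.LocSqI
import Pool.Agent.H26.SG.UnitLow

/-!
The lower bound for the Selmer group, and the number of classes with conditions on signs.
-/

set_option autoImplicit false
set_option linter.style.haveILetI false
open scoped Classical

open WeierstrassCurve IsDedekindDomain NumberField WithZero

namespace Pool.Agent.H26.SG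

open Pool.Agent.H10

variable {L : Type} [Field L] [NumberField L] {a c α : 𝓞 L}

theorem low_fin (D : Dat a c α) {d : Lˣ} (hd : d ∈ evenGrp L)
    (hb : ∀ w : HeightOneSpectrum (𝓞 L), (2 : 𝓞 L) ∉ w.asIdeal →
      a * c ∈ w.asIdeal ∨ α ∈ w.asIdeal → d ∈ locSq w) :
    FinSol L 0 (a : L) (c : L) 1 (d : L) (d : L) := by
  intro w
  have hdw : d ∈ evenAt w := mem_evenGrp.mp hd w
  rw [map_zero, map_one]
  by_cases h2 : (2 : 𝓞 L) ∈ w.asIdeal
  · exact low_two D hdw h2
  · by_cases hbad : a * c ∈ w.asIdeal ∨ α ∈ w.asIdeal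
    · exact CPt.of_isSquare (mem_locSq.mp (hb w h2 hbad))
    · rw [not_or] at hbad
      exact low_good D hdw h2 hbad.1 hbad.2

/-- The homomorphism `d ↦ (1, d, d)`. -/
def diag (L : Type) [Field L] : Lˣ →* Lˣ × Lˣ × Lˣ where
  toFun d := (1, d, d)
  map_one' := rfl
  map_mul' x y := by simp

omit [NumberField L] in
lemma comap_diag : (sqT L).comap (diag L) = sq L := by
  ext x
  rw [Subgroup.mem_comap, mem_sqT, mem_sq]
  constructor
  · rintro ⟨-, h, -⟩
    exact h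
  · intro h
    exact ⟨⟨1, by simp [diag]⟩, h, h⟩

/-- The bad odd primes. -/
def badSet (a c α : 𝓞 L) : Set (HeightOneSpectrum (𝓞 L)) :=
  {w | (2 : 𝓞 L) ∉ w.asIdeal ∧ (a * c ∈ w.asIdeal ∨ α ∈ w.asIdeal)}

lemma badSet_subset : badSet a c α ⊆ primesOf (a * c) ∪ primesOf α := fun _ h => h.2

lemma badSet_ncard (D : Dat a c α) : (badSet a c α).Finite ∧
    (badSet a c α).ncard ≤ (primesOf (a * c)).ncard + (primesOf α).ncard := by
  have hac : a * c ≠ 0 := mul_ne_zero D.a0 D.c0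
  have h1 := (primesOf_finite hac).union (primesOf_finite D.α0)
  refine ⟨h1.subset badSet_subset, ?_⟩
  exact (Set.ncard_le_ncard badSet_subset h1).trans (Set.ncard_union_le _ _)

theorem sel_lower (D : Dat a c α) :
    (sq L).relIndex (clsA (posSet a c)) ≤
      2 ^ ((primesOf (a * c)).ncard + (primesOf α).ncard) *
        (sqT L).relIndex (selT D.isCub) := by
  set A := clsA (posSet a c) with hA
  set Q : Subgroup Lˣ := ⨅ w : badSet a c α, locSq w.1 with hQ
  obtain ⟨hfin, hcard⟩ := badSet_ncard D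
  have : Finite (badSet a c α) := hfin
  have h1 : Q.relIndex (evenGrp L) ≠ 0 ∧ Q.relIndex (evenGrp L) ≤ 2 ^ (badSet a c α).ncard :=
    relIndex_iInf_two (fun w : badSet a c α => locSq w.1) (evenGrp L)
      fun w => locSq_index w.2.1
  have h2 : Q.relIndex A ≤ 2 ^ ((primesOf (a * c)).ncard + (primesOf α).ncard) :=
    ((Subgroup.relIndex_le_of_le_right (clsA_le _) h1.1).trans h1.2).trans
      (Nat.pow_le_pow_right (by norm_num) hcard)
  have hle : sq L ≤ Q ⊓ A := by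
    refine le_inf ?_ ?_
    · rw [hQ]
      exact le_iInf fun w => sq_le_locSq w.1
    · intro x hx
      refine mem_clsA.mpr ⟨mem_evenGrp.mp (sq_le_evenGrp hx), fun φ _ => ?_⟩
      obtain ⟨y, hy⟩ := mem_sq.mp hx
      have hy0 : φ y ≠ 0 := by
        rw [Ne, map_eq_zero]
        rintro rfl
        exact x.ne_zero (by rw [hy, mul_zero])
      rw [hy, map_mul]
      exact mul_self_pos.mpr hy0
  have h3 : (sq L).relIndex (Q ⊓ A) ≤ (sqT L).relIndex (selT D.isCub) := by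
    rw [← comap_diag, Subgroup.relIndex_comap]
    apply Subgroup.relIndex_le_of_le_right _ (sel_upper D).1
    rintro _ ⟨d, ⟨hdQ, hdA⟩, rfl⟩
    have hdA' := mem_clsA.mp hdA
    refine ⟨⟨(d : L), by simp [diag]⟩, ?_, ?_⟩
    · change FinSol L 0 (a : L) (c : L) ((1 : Lˣ) : L) (d : L) (d : L)
      rw [Units.val_one]
      refine low_fin D (mem_evenGrp.mpr hdA'.1) fun w h2 hw => ?_
      have hdQ' : d ∈ Q := hdQ
      rw [hQ, Subgroup.mem_iInf] at hdQ'
      exact hdQ' ⟨w, h2, hw⟩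
    · change InfSol L 0 (a : L) (c : L) ((1 : Lˣ) : L) (d : L) (d : L)
      rw [Units.val_one]
      exact low_inf hdA'.2
  have h4 := Subgroup.relIndex_mul_relIndex (sq L) (Q ⊓ A) A hle inf_le_right
  rw [Subgroup.inf_relIndex_right] at h4
  rw [← h4, mul_comm]
  exact Nat.mul_le_mul h2 h3

instance finiteReal : Finite (L →+* ℝ) :=
  inferInstanceAs (Finite (L →+* ℝ))

lemma pos_iInf (S : Set (L →+* ℝ)) (K : Subgroup Lˣ) :
    (⨅ φ : S, posAt φ.1).relIndex K ≠ 0 ∧ (⨅ φ : S, posAt φ.1).relIndex K ≤ 2 ^ S.ncard :=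
  relIndex_iInf_two (fun φ : S => posAt φ.1) K fun φ => posAt_index φ.1 K

theorem clsA_lower (S : Set (L →+* ℝ)) :
    2 ^ (S.ncard + InfinitePlace.nrComplexPlaces L) ≤ (sq L).relIndex (clsA S) := by
  set T : Set (L →+* ℝ) := Sᶜ with hT
  set Q : Subgroup Lˣ := ⨅ φ : T, posAt φ.1 with hQ
  have h1 : (sq L ⊔ unitGrp L) ≤ evenGrp L := sup_le sq_le_evenGrp (unitGrp_le L)
  have hcard : S.ncard + T.ncard = InfinitePlace.nrRealPlaces L := by
    rw [← card_real L, hT, Set.ncard_add_ncard_compl]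
  have h2 : (sq L).relIndex (sq L ⊔ unitGrp L) =
      2 ^ (InfinitePlace.nrRealPlaces L + InfinitePlace.nrComplexPlaces L) := by
    rw [Subgroup.relIndex_sup_left, relIndex_unitGrp]
  set M := sq L ⊔ unitGrp L with hM
  have h3 := pos_iInf T M
  have hsqQ : sq L ≤ Q := by
    rw [hQ]
    refine le_iInf fun φ => ?_
    intro x hx
    obtain ⟨y, hy⟩ := mem_sq.mp hx
    have hy0 : φ.1 y ≠ 0 := by
      rw [Ne, map_eq_zero]
      rintro rfl
      exact x.ne_zero (by rw [hy, mul_zero])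
    rw [mem_posAt, hy, map_mul]
    exact mul_self_pos.mpr hy0
  have h4 := Subgroup.relIndex_mul_relIndex (sq L) (Q ⊓ M) M (le_inf hsqQ le_sup_left) inf_le_right
  rw [Subgroup.inf_relIndex_right, h2] at h4
  have h5 : Q ⊓ M ≤ clsA S := by
    rintro x ⟨hxQ, hxM⟩
    refine mem_clsA.mpr ⟨mem_evenGrp.mp (h1 hxM), fun φ hφ => ?_⟩
    have hxQ' : x ∈ Q := hxQ
    rw [hQ, Subgroup.mem_iInf] at hxQ'
    exact hxQ' ⟨φ, hφ⟩
  have h6 := Subgroup.relIndex_le_of_le_right h5 (relIndex_clsA_ne_zero S)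
  have h7 : 2 ^ (S.ncard + InfinitePlace.nrComplexPlaces L) * 2 ^ T.ncard ≤
      (sq L).relIndex (clsA S) * 2 ^ T.ncard := by
    calc _ = 2 ^ (InfinitePlace.nrRealPlaces L + InfinitePlace.nrComplexPlaces L) := by
          rw [← hcard, ← pow_add]; congr 1; omega
      _ = (sq L).relIndex (Q ⊓ M) * Q.relIndex M := h4.symm
      _ ≤ _ := Nat.mul_le_mul h6 h3.2
  exact Nat.le_of_mul_le_mul_right h7 (by positivity)

theorem clsA_upper (S : Set (L →+* ℝ)) :
    (sq L).relIndex (clsA S) ≤ 2 ^ S.ncard * (sq L).relIndex (clsA (∅ : Set (L →+* ℝ))) := by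
  set Q : Subgroup Lˣ := ⨅ φ : S, posAt φ.1 with hQ
  have h3 := pos_iInf S (clsA S)
  have hsq : ∀ U : Set (L →+* ℝ), sq L ≤ clsA U := by
    intro U x hx
    refine mem_clsA.mpr ⟨mem_evenGrp.mp (sq_le_evenGrp hx), fun φ _ => ?_⟩
    obtain ⟨y, hy⟩ := mem_sq.mp hx
    have hy0 : φ y ≠ 0 := by
      rw [Ne, map_eq_zero]
      rintro rfl
      exact x.ne_zero (by rw [hy, mul_zero])
    rw [hy, map_mul]
    exact mul_self_pos.mpr hy0
  have h5 : Q ⊓ clsA S = clsA (∅ : Set (L →+* ℝ)) := by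
    ext x
    rw [Subgroup.mem_inf, mem_clsA, mem_clsA, hQ, Subgroup.mem_iInf]
    constructor
    · rintro ⟨h1, h2, h3⟩
      refine ⟨h2, fun φ _ => ?_⟩
      by_cases hφ : φ ∈ S
      · exact h1 ⟨φ, hφ⟩
      · exact h3 φ hφ
    · rintro ⟨h2, h3⟩
      exact ⟨fun φ => h3 φ.1 (Set.notMem_empty _), h2, fun φ _ => h3 φ (Set.notMem_empty _)⟩
  have h4 := Subgroup.relIndex_mul_relIndex (sq L) (Q ⊓ clsA S) (clsA S)
    (by rw [h5]; exact hsq _) inf_le_right
  rw [Subgroup.inf_relIndex_right, h5] at h4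
  rw [← h4, mul_comm]
  exact Nat.mul_le_mul h3.2 le_rfl

end Pool.Agent.H26.SG
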