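import Pool.Agent.H26.SG.Defs
import Pool.Agent.H10.Class

/-!
Finiteness of the group of elements with even valuations modulo squares.

PROOF. Let `U = {x : Lˣ | ∃ (ε : (𝓞 L)ˣ) (z : Lˣ), (x : L) = ε * z ^ 2}`, a subgroup with
`sq L ≤ U ≤ evenGrp L`.

(1) `(sq L).relIndex U ≠ 0`. Every element of `U` is congruent modulo `sq L` to a unit: with the
homomorphism `j : (𝓞 L)ˣ →* Lˣ` (`Units.map (algebraMap (𝓞 L) L)`), `U = sq L ⊔ j.range`, so
`(sq L).relIndex U = (sq L).relIndex (j.range)` (`Subgroup.relIndex_sup_right`-type lemma) or argue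
directly with `Subgroup.relIndex_le..`; and `(sq L).relIndex j.range = ((sq L).comap j).index`
(`Subgroup.index_comap`), where `(sq L).comap j` contains all squares of units, which have finite
index in `(𝓞 L)ˣ` because it is a finitely generated commutative group of exponent two modulo
squares. Finite index of the squares: `(𝓞 L)ˣ ⧸ squares` is a finitely generated (`Monoid.FG
(𝓞 L)ˣ` is an instance, quotients: `QuotientGroup.fg`) torsion commutative group, hence finite
(`CommGroup.finite_of_fg_torsion`). The theorem `index_double` of `Pool.Agent.H26.SG.GrpFG` may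
also be used (it is an independent row) but is not needed.

(2) `U.relIndex (evenGrp L) ≠ 0`. For `x` with even valuations write `x = y / z ^ 2` with
`y, z : 𝓞 L` not zero (`x = a / b = a b / b ^ 2`); `y` has even valuations, so
`Ideal.span {y} = J ^ 2` for an ideal `J ≠ 0` (this is the first part of the proof of
`exists_unit_mul_sq_int` in `Pool.Agent.H10.Class`: `Multiset.exists_smul_of_dvd_count`; the
valuations and multiplicities are compared in `exists_unit_mul_sq` of the same file). Choose such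
`y z J` for each `x` and let `κ x = ClassGroup.mk0 J`. If `κ x = κ x'` then there are nonzero
`p, q : 𝓞 L` with `span {p} * J = span {q} * J'` (`ClassGroup.mk0_eq_mk0_iff`), so
`span {p ^ 2 * y} = span {q ^ 2 * y'}` and `p ^ 2 y = ε q ^ 2 y'` for a unit `ε`
(`Ideal.span_singleton_eq_span_singleton`); hence `x / x'` is `ε` times a square and lies in `U`.
So the quotient `evenGrp L ⧸ (U.subgroupOf (evenGrp L))` injects into the finite class group
(choose representatives with `Quotient.out`), and it is finite, so its index is not zero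
(`Subgroup.index_ne_zero_of_finite`).

(3) `Subgroup.relIndex_ne_zero_trans`.
-/


set_option autoImplicit false
set_option linter.style.haveILetI false
open scoped Classical

open IsDedekindDomain NumberField WithZero

namespace Pool.Agent.H26.SG

open Pool.Agent.H10 nonZeroDivisors UniqueFactorizationMonoid

theorem FinEven_rep {L : Type} [Field L] [NumberField L] {x : Lˣ} (hx : x ∈ evenGrp L) :
    ∃ (y z : 𝓞 L) (J : (Ideal (𝓞 L))⁰), y ≠ 0 ∧ z ≠ 0 ∧ (x : L) * (z : L) ^ 2 = (y : L) ∧
      (J : Ideal (𝓞 L)) ^ 2 = Ideal.span {y} := by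
  rw [mem_evenGrp] at hx
  obtain ⟨a, b, hb, hab⟩ := IsFractionRing.div_surjective (A := 𝓞 L) (x : L)
  have hb0 : b ≠ 0 := nonZeroDivisors.ne_zero hb
  have ha0 : a ≠ 0 := by
    rintro rfl
    apply x.ne_zero
    rw [← hab]
    simp
  have haK : (a : L) ≠ 0 := RingOfIntegers.coe_ne_zero_iff.mpr ha0
  have hbK : (b : L) ≠ 0 := RingOfIntegers.coe_ne_zero_iff.mpr hb0
  have hy : a * b ≠ 0 := mul_ne_zero ha0 hb0
  have hev : ∀ v : HeightOneSpectrum (𝓞 L),
      Even (multiplicity v.asIdeal (Ideal.span {a * b})) := by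
    intro v
    have h1 := hx v
    rw [← hab] at h1
    have h2 : v.valuation L ((a * b : 𝓞 L) : L) =
        v.valuation L ((a : L) / (b : L)) * v.valuation L (b : L) ^ 2 := by
      rw [← map_pow, ← map_mul]
      congr 1
      push_cast
      field_simp
    have h3 := v.intValuation_eq_exp_neg_multiplicity (mul_ne_zero ha0 hb0)
    rw [← v.valuation_of_algebraMap (K := L)] at h3
    have h4 := congrArg WithZero.log h2
    change WithZero.log (v.valuation L (algebraMap (𝓞 L) L (a * b))) = _ at h4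
    rw [h3, WithZero.log_exp, WithZero.log_mul, WithZero.log_pow] at h4
    · rw [Int.even_iff] at h1
      have h5 : (multiplicity v.asIdeal (Ideal.span {a * b}) : ℤ) % 2 = 0 := by
        change WithZero.log (v.valuation L ((a : L) / (b : L))) % 2 = 0 at h1
        simp only [nsmul_eq_mul, Nat.cast_ofNat] at h4
        omega
      rw [Nat.even_iff]
      omega
    · rw [Valuation.ne_zero_iff]
      exact div_ne_zero haK hbK
    · exact pow_ne_zero _ ((Valuation.ne_zero_iff _).mpr hbK)
  have hI : Ideal.span {a * b} ≠ 0 := by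
    rw [Ideal.zero_eq_bot, Ne, Ideal.span_singleton_eq_bot]; exact hy
  obtain ⟨u, hu⟩ := Multiset.exists_smul_of_dvd_count (normalizedFactors (Ideal.span {a * b}))
    (k := 2) (by
      intro P hP
      have hirr := irreducible_of_normalized_factor P hP
      have hpr : Prime P := hirr.prime
      have hev' := hev ⟨P, Ideal.isPrime_of_prime hpr, hpr.ne_zero⟩
      rw [multiplicity_eq_count_normalizedFactors hirr hI, normalize_eq] at hev'
      exact hev'.two_dvd)
  have hJ2 : u.prod ^ 2 = Ideal.span {a * b} := by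
    rw [← Multiset.prod_nsmul, ← hu]
    exact Ideal.prod_normalizedFactors_eq_self hI
  have hJ0 : u.prod ≠ 0 := by
    intro h
    rw [h] at hJ2
    exact hI (by rw [← hJ2, zero_pow two_ne_zero])
  refine ⟨a * b, b, ⟨u.prod, mem_nonZeroDivisors_of_ne_zero hJ0⟩, hy, hb0, ?_, hJ2⟩
  rw [← hab]
  change (a : L) / (b : L) * (b : L) ^ 2 = _
  push_cast
  field_simp

/-- the units -/
noncomputable def FinEven_j (L : Type) [Field L] [NumberField L] : (𝓞 L)ˣ →* Lˣ :=
  Units.map (algebraMap (𝓞 L) L : 𝓞 L →* L)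

theorem FinEven_key {L : Type} [Field L] [NumberField L] {x x' : Lˣ} {y z y' z' : 𝓞 L}
    {J J' : (Ideal (𝓞 L))⁰} (hy' : y' ≠ 0) (hz : z ≠ 0) (hz' : z' ≠ 0)
    (h1 : (x : L) * (z : L) ^ 2 = (y : L)) (h1' : (x' : L) * (z' : L) ^ 2 = (y' : L))
    (h2 : (J : Ideal (𝓞 L)) ^ 2 = Ideal.span {y}) (h2' : (J' : Ideal (𝓞 L)) ^ 2 = Ideal.span {y'})
    (h : ClassGroup.mk0 J = ClassGroup.mk0 J') :
    x'⁻¹ * x ∈ sq L ⊔ (FinEven_j L).range := by
  obtain ⟨p, q, hp, hq, hpq⟩ := ClassGroup.mk0_eq_mk0_iff.1 h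
  have h3 : Ideal.span {p ^ 2 * y} = Ideal.span {q ^ 2 * y'} := by
    rw [← Ideal.span_singleton_mul_span_singleton, ← Ideal.span_singleton_mul_span_singleton,
      ← Ideal.span_singleton_pow, ← Ideal.span_singleton_pow, ← h2, ← h2', ← mul_pow, ← mul_pow,
      hpq]
  rw [Ideal.span_singleton_eq_span_singleton] at h3
  obtain ⟨ε, hε⟩ := h3.symm
  -- hε : q ^ 2 * y' * ε = p ^ 2 * y
  have hzL : (z : L) ≠ 0 := RingOfIntegers.coe_ne_zero_iff.mpr hz
  have hzL' : (z' : L) ≠ 0 := RingOfIntegers.coe_ne_zero_iff.mpr hz'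
  have hpL : (p : L) ≠ 0 := RingOfIntegers.coe_ne_zero_iff.mpr hp
  have hqL : (q : L) ≠ 0 := RingOfIntegers.coe_ne_zero_iff.mpr hq
  have hε' : (q : L) ^ 2 * (y' : L) * ((ε : 𝓞 L) : L) = (p : L) ^ 2 * (y : L) := by
    have := congrArg (algebraMap (𝓞 L) L) hε
    rw [map_mul, map_mul, map_mul, map_pow, map_pow] at this
    exact this
  rw [Subgroup.mem_sup]
  have hs0 : (q : L) * (z' : L) / ((p : L) * (z : L)) ≠ 0 :=
    div_ne_zero (mul_ne_zero hqL hzL') (mul_ne_zero hpL hzL)
  refine ⟨(Units.mk0 _ hs0) ^ 2, ⟨Units.mk0 _ hs0, rfl⟩, FinEven_j L ε, ⟨ε, rfl⟩, ?_⟩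
  apply Units.ext
  rw [Units.val_mul, Units.val_mul, Units.val_pow_eq_pow_val, Units.val_mk0,
    Units.val_inv_eq_inv_val]
  change ((q : L) * (z' : L) / ((p : L) * (z : L))) ^ 2 * ((ε : 𝓞 L) : L) = (x' : L)⁻¹ * (x : L)
  have hx' : (x' : L) ≠ 0 := x'.ne_zero
  rw [← h1, ← h1'] at hε'
  field_simp
  linear_combination hε'

theorem FinEven_unit (L : Type) [Field L] [NumberField L] :
    (sq L).relIndex (sq L ⊔ (FinEven_j L).range) ≠ 0 := by
  rw [Subgroup.relIndex_sup_left, ← Subgroup.index_comap]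
  set Q : Subgroup (𝓞 L)ˣ := (powMonoidHom 2 : (𝓞 L)ˣ →* (𝓞 L)ˣ).range with hQ
  have hle : Q ≤ (sq L).comap (FinEven_j L) := by
    rintro _ ⟨u, rfl⟩
    rw [Subgroup.mem_comap]
    exact ⟨FinEven_j L u, by simp [powMonoidHom_apply, map_pow]⟩
  have htor : ∀ g : (𝓞 L)ˣ ⧸ Q, IsOfFinOrder g := by
    intro g
    rw [isOfFinOrder_iff_pow_eq_one]
    refine ⟨2, two_pos, ?_⟩
    obtain ⟨u, rfl⟩ := QuotientGroup.mk_surjective g
    rw [← QuotientGroup.mk_pow, QuotientGroup.eq_one_iff]
    exact ⟨u, rfl⟩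
  haveI : Group.FG (𝓞 L)ˣ := Group.fg_iff_monoid_fg.2 inferInstance
  haveI : Group.FG ((𝓞 L)ˣ ⧸ Q) := QuotientGroup.fg Q
  haveI : Finite ((𝓞 L)ˣ ⧸ Q) := CommGroup.finite_of_fg_isMulTorsion _ (fun g => htor g)
  have h0 : Q.index ≠ 0 := Subgroup.index_ne_zero_of_finite
  intro h1
  have h2 := Subgroup.index_dvd_of_le hle
  rw [h1, zero_dvd_iff] at h2
  exact h0 h2

theorem relIndex_evenGrp_ne_zero (L : Type) [Field L] [NumberField L] :
    (sq L).relIndex (evenGrp L) ≠ 0 := by
  refine Subgroup.relIndex_ne_zero_trans (FinEven_unit L) ?_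
  rw [Subgroup.relIndex]
  choose y z J hy hz h1 h2 using fun x : evenGrp L => FinEven_rep x.2
  haveI : Finite ((evenGrp L) ⧸ ((sq L ⊔ (FinEven_j L).range).subgroupOf (evenGrp L))) := by
    refine Finite.of_injective
      (fun g : (evenGrp L) ⧸ ((sq L ⊔ (FinEven_j L).range).subgroupOf (evenGrp L)) =>
        ClassGroup.mk0 (J (Quotient.out g))) ?_
    intro g g' hgg
    have h3 := FinEven_key (hy (Quotient.out g')) (hz (Quotient.out g)) (hz (Quotient.out g'))
      (h1 (Quotient.out g)) (h1 (Quotient.out g')) (h2 (Quotient.out g)) (h2 (Quotient.out g')) hgg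
    rw [← QuotientGroup.out_eq' g, ← QuotientGroup.out_eq' g']
    symm
    rw [QuotientGroup.eq, Subgroup.mem_subgroupOf]
    exact h3
  exact Subgroup.index_ne_zero_of_finite

end Pool.Agent.H26.SG
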