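import Pool.Agent.H10.ValPar
import Pool.Agent.H10.RealPl

/-!
Permutations of the roots, translation, and the parity of the component of an isolated root.

PROOF of `even_of_isolated`. Let `V (e₂ - e₁) = 1 = V (e₃ - e₁)`. All `d i ≠ 0` (as in
`even_of_cpt` in `Pool.Agent.H10.ValPar`). Let `log_sum` be
`log (V d₁) + log (V d₂) + log (V d₃) = 2 * log (V c)` (see the same proof). Let
`(z₀, z₁, z₂, z₃)` be the point.
* `z₀ = 0`: then `d₁ z₁² = d₂ z₂² = d₃ z₃²` and none of the `z i` (`i = 1, 2, 3`) is zero (otherwise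
  all are). So `log V d₁ + 2 log V z₁ = log V d₂ + 2 log V z₂ = log V d₃ + 2 log V z₃`
  (`log_mul_sq`), all three `log V (d i)` have the same parity, and the sum is even, so all are
  even.
* `z₀ ≠ 0`: divide by `z₀`: with `y i = z i / z₀` and `x = d₁ y₁²` we have
  `x - A = d₂ y₂²` and `x - B = d₃ y₃²` where `A = e₂ - e₁`, `B = e₃ - e₁`, `V A = V B = 1`.
  - `V x < 1`: then `V (x - A) = 1 = V (x - B)` so `y₂, y₃ ≠ 0` and `log V d₂`, `log V d₃` are even
    (`log_mul_sq`, `log_one`), so `log V d₁` is even by the sum.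
  - `V x = 1`: then `y₁ ≠ 0` and `log V d₁ + 2 log V y₁ = 0`.
  - `V x > 1`: then `V (x - A) = V x = V (x - B)`, all `y i ≠ 0`, the three numbers
    `log V (d i) + 2 log V (y i)` are equal, so the `log V (d i)` have the same parity and, the sum
    being even, are even.
-/

set_option autoImplicit false

open WithZero

namespace Pool.Agent.H26.SG

open Pool.Agent.H10

section

variable {k : Type*} [Field k] {e₁ e₂ e₃ d₁ d₂ d₃ : k}

/-- Cyclic permutation. -/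
lemma CPt.rot (H : CPt e₁ e₂ e₃ d₁ d₂ d₃) : CPt e₂ e₃ e₁ d₂ d₃ d₁ := by
  obtain ⟨z₀, z₁, z₂, z₃, hz, E1, E2⟩ := H
  refine ⟨z₀, z₂, z₃, z₁, by tauto, ?_, ?_⟩
  · rw [← E1, ← E2]
  · rw [← E1]

/-- Exchange of the last two. -/
lemma CPt.swap (H : CPt e₁ e₂ e₃ d₁ d₂ d₃) : CPt e₁ e₃ e₂ d₁ d₃ d₂ := by
  obtain ⟨z₀, z₁, z₂, z₃, hz, E1, E2⟩ := H
  exact ⟨z₀, z₁, z₃, z₂, by tauto, E2, E1⟩

/-- Translation. -/
lemma CPt.shift (H : CPt e₁ e₂ e₃ d₁ d₂ d₃) (u : k) :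
    CPt (e₁ + u) (e₂ + u) (e₃ + u) d₁ d₂ d₃ := by
  obtain ⟨z₀, z₁, z₂, z₃, hz, E1, E2⟩ := H
  refine ⟨z₀, z₁, z₂, z₃, hz, ?_, ?_⟩
  · linear_combination E1
  · linear_combination E2

end

theorem even_of_isolated {F : Type*} [Field F] (V : Valuation F (WithZero (Multiplicative ℤ)))
    {e₁ e₂ e₃ d₁ d₂ d₃ c : F} (h12 : V (e₂ - e₁) = 1) (h13 : V (e₃ - e₁) = 1)
    (hd : d₁ * d₂ * d₃ = c ^ 2) (hc : c ≠ 0) (H : CPt e₁ e₂ e₃ d₁ d₂ d₃) :
    Even (log (V d₁)) := by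
  have hdn : d₁ * d₂ * d₃ ≠ 0 := by rw [hd]; exact pow_ne_zero 2 hc
  have hd1 : d₁ ≠ 0 := fun h => hdn (by rw [h]; ring)
  have hd2 : d₂ ≠ 0 := fun h => hdn (by rw [h]; ring)
  have hd3 : d₃ ≠ 0 := fun h => hdn (by rw [h]; ring)
  have w1 := (Valuation.ne_zero_iff V).mpr hd1
  have w2 := (Valuation.ne_zero_iff V).mpr hd2
  have w3 := (Valuation.ne_zero_iff V).mpr hd3
  have hsum : log (V d₁) + log (V d₂) + log (V d₃) = 2 * log (V c) := by
    have := congrArg (fun x => log (V x)) hd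
    simp only [map_mul, map_pow] at this
    rw [log_mul (mul_ne_zero w1 w2) w3, log_mul w1 w2, log_pow] at this
    simpa using this
  obtain ⟨z₀, z₁, z₂, z₃, hz, E1, E2⟩ := H
  have hAN : V ((e₂ - e₁) * z₀ ^ 2) = V (z₀ ^ 2) := by rw [map_mul, h12, one_mul]
  have hBN : V ((e₃ - e₁) * z₀ ^ 2) = V (z₀ ^ 2) := by rw [map_mul, h13, one_mul]
  have e2 : d₂ * z₂ ^ 2 = d₁ * z₁ ^ 2 - (e₂ - e₁) * z₀ ^ 2 := by linear_combination -E1
  have e3 : d₃ * z₃ ^ 2 = d₁ * z₁ ^ 2 - (e₃ - e₁) * z₀ ^ 2 := by linear_combination -E2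
  have hz0 : ∀ {z : F}, V (z ^ 2) ≠ 0 → z ≠ 0 := by
    intro z h h0
    apply h
    rw [h0]
    simp
  have hdz : ∀ {d z : F}, V (d * z ^ 2) ≠ 0 → z ≠ 0 := by
    intro d z h h0
    apply h
    rw [h0]
    simp
  have hlsq : ∀ z : F, log (V (z ^ 2)) = 2 * log (V z) := by
    intro z
    rw [map_pow, log_pow]
    simp
  rcases lt_trichotomy (V (d₁ * z₁ ^ 2)) (V (z₀ ^ 2)) with h | h | h
  · have hN : V (z₀ ^ 2) ≠ 0 := fun h0 => by
      rw [h0] at h
      exact absurd h not_lt_zero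
    have f2 : V (d₂ * z₂ ^ 2) = V (z₀ ^ 2) := by
      rw [e2, Valuation.map_sub_eq_of_lt_right V (by rwa [hAN]), hAN]
    have f3 : V (d₃ * z₃ ^ 2) = V (z₀ ^ 2) := by
      rw [e3, Valuation.map_sub_eq_of_lt_right V (by rwa [hBN]), hBN]
    have n2 : z₂ ≠ 0 := hdz (by rw [f2]; exact hN)
    have n3 : z₃ ≠ 0 := hdz (by rw [f3]; exact hN)
    have g2 := congrArg log f2
    have g3 := congrArg log f3
    rw [log_mul_sq V hd2 n2, hlsq] at g2
    rw [log_mul_sq V hd3 n3, hlsq] at g3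
    rw [Int.even_iff]
    omega
  · by_cases hN : V (z₀ ^ 2) = 0
    · exfalso
      have n0 : z₀ = 0 := by simpa using hN
      have a1 : d₁ * z₁ ^ 2 = 0 := by
        rw [hN] at h
        exact (Valuation.zero_iff V).mp h
      rw [a1, n0] at e2 e3
      have b1 : z₁ = 0 := by simpa [hd1] using a1
      have b2 : z₂ = 0 := by simpa [hd2] using e2
      have b3 : z₃ = 0 := by simpa [hd3] using e3
      rcases hz with h | h | h | h
      · exact h n0
      · exact h b1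
      · exact h b2
      · exact h b3
    · have n1 : z₁ ≠ 0 := hdz (by rw [h]; exact hN)
      have g1 := congrArg log h
      rw [log_mul_sq V hd1 n1, hlsq] at g1
      rw [Int.even_iff]
      omega
  · have hN : V (d₁ * z₁ ^ 2) ≠ 0 := fun h0 => by
      rw [h0] at h
      exact absurd h not_lt_zero
    have f2 : V (d₂ * z₂ ^ 2) = V (d₁ * z₁ ^ 2) := by
      rw [e2, Valuation.map_sub_eq_of_lt_left V (by rwa [hAN])]
    have f3 : V (d₃ * z₃ ^ 2) = V (d₁ * z₁ ^ 2) := by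
      rw [e3, Valuation.map_sub_eq_of_lt_left V (by rwa [hBN])]
    have n1 : z₁ ≠ 0 := hdz hN
    have n2 : z₂ ≠ 0 := hdz (by rw [f2]; exact hN)
    have n3 : z₃ ≠ 0 := hdz (by rw [f3]; exact hN)
    have g2 := congrArg log f2
    have g3 := congrArg log f3
    rw [log_mul_sq V hd2 n2, log_mul_sq V hd1 n1] at g2
    rw [log_mul_sq V hd3 n3, log_mul_sq V hd1 n1] at g3
    rw [Int.even_iff]
    omega

end Pool.Agent.H26.SG
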