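import Pool.Agent.H26.SG.Dat
import Pool.Agent.H26.SG.Iso

/-!
The second component at the finite places, when the first is a square.

NOTATION. Let `t ∈ selT D.isCub`, `d₁ = t.1`, `d₂ = t.2.1`, `d₃ = t.2.2` (elements of `L`
which are not zero), with `d₁ d₂ d₃ = q ^ 2`, `q ≠ 0` (`isSquare_triple`; `mem_selT`, `IsSel`). The
place `w` gives `CPt 0 a c d₁ d₂ d₃` over `F = w.adicCompletion L` (all through `algebraMap L F`,
first `map_zero`); the valuation of `F` restricts to `w.valuation L` (`valued_algebraMap`). The
file `Pool.Agent.H10.Semi` (proof of `newTrivial_semi`) is a model for all the translations between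
`F` and `L`. As `c = a + 16 α` (`D.hc`), in `L`: `(c : L) = a + 16 * α`.

PROOF of `up_three`: let `d₁` be a square, `α ∉ w`.
If `2 ∈ w`: `a ∉ w` (coprime to two), so `V a = 1`. Rotate (`CPt.rot`): `CPt a c 0 d₂ d₃ d₁`, and
shift by `-a` (`CPt.shift`): `CPt 0 (16 α) (-a) d₂ d₃ d₁`. `even_of_cpt_two`
(`Pool.Agent.H10.SemiTwo`) with `a := 16 α` (`V α = 1`), `b := -a`, and `s` with `4 ∣ a - s ^ 2`
gives `Even (log V d₂)`.
If `2 ∉ w` then `V 16 = 1` and `V (c - a) = V (16 α) = 1`. If `a ∈ w` then `c ∉ w` (otherwise
`16 α ∈ w`, and `w` is prime), so `V c = 1` and the root `c` is isolated: `V (0 - c) = 1 =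
V (a - c)`; from the permutation `CPt c 0 a d₃ d₁ d₂` (`CPt.rot` twice) and `even_of_isolated`,
`log V d₃` is even; `log V d₁` is even as `d₁` is a square, and the sum
`log V d₁ + log V d₂ + log V d₃ = 2 log V q` is even, so `log V d₂` is even. If `a ∉ w` then
`V a = 1` and the root `a` is isolated: `V (c - a) = 1 = V (0 - a)`, and `CPt a c 0 d₂ d₃ d₁`
gives directly that `log V d₂` is even.
-/

set_option autoImplicit false
set_option linter.style.haveILetI false
open scoped Classical

open WeierstrassCurve IsDedekindDomain NumberField WithZero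

namespace Pool.Agent.H26.SG

open Pool.Agent.H10

variable {L : Type} [Field L] [NumberField L] {a c α : 𝓞 L}

theorem up_three (D : Dat a c α) {t : Lˣ × Lˣ × Lˣ} (ht : t ∈ selT D.isCub) (h1 : t.1 ∈ sq L)
    {w : HeightOneSpectrum (𝓞 L)} (hw : α ∉ w.asIdeal) : t.2.1 ∈ evenAt w := by
  obtain ⟨q, hq0, hq⟩ := isSquare_triple ht.1
  have H := ht.2.1 w
  rw [mem_sq] at h1
  obtain ⟨r, hr⟩ := h1
  have hr0 : r ≠ 0 := by
    rintro rfl
    exact t.1.ne_zero (by rw [hr, mul_zero])
  have eM : ∀ x : L, Valued.v (algebraMap L (w.adicCompletion L) x) = w.valuation L x :=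
    fun x => valued_algebraMap w x
  have hdF : algebraMap L (w.adicCompletion L) (t.1 : L) *
      algebraMap L (w.adicCompletion L) (t.2.1 : L) *
      algebraMap L (w.adicCompletion L) (t.2.2 : L) = (algebraMap L (w.adicCompletion L) q) ^ 2 := by
    rw [← map_mul, ← map_mul, hq, map_pow]
  have hqF : algebraMap L (w.adicCompletion L) q ≠ 0 := by
    rw [Ne, map_eq_zero]; exact hq0
  have hcL : (c : L) = (a : L) + 16 * (α : L) := by
    have := congrArg (algebraMap (𝓞 L) L) D.hc
    rw [map_add, map_mul, map_ofNat] at this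
    exact this
  have e2 : ((2 : 𝓞 L) : L) = 2 := map_ofNat (algebraMap (𝓞 L) L) 2
  have vα : w.valuation L (α : L) = 1 := val_eq_one_of_notMem hw
  rw [mem_evenAt, ← eM]
  rw [map_zero] at H
  by_cases h2 : (2 : 𝓞 L) ∈ w.asIdeal
  · -- above two
    have ha : a ∉ w.asIdeal := by
      intro hmem
      obtain ⟨x, y, hxy⟩ := D.cop
      apply w.isPrime.ne_top
      rw [Ideal.eq_top_iff_one, ← hxy]
      exact Ideal.add_mem _ (Ideal.mul_mem_left _ _ hmem) (Ideal.mul_mem_left _ _ h2)
    have va : w.valuation L (a : L) = 1 := val_eq_one_of_notMem ha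
    have v2 : w.valuation L 2 < 1 := by
      have : w.valuation L ((2 : 𝓞 L) : L) < 1 :=
        (w.valuation_lt_one_iff_mem (K := L) (2 : 𝓞 L)).mpr h2
      rwa [e2] at this
    have v4 : w.valuation L 4 = w.valuation L 2 * w.valuation L 2 := by
      rw [← map_mul]; norm_num
    have v20 : w.valuation L 2 ≠ 0 := by
      rw [Valuation.ne_zero_iff]; exact two_ne_zero
    obtain ⟨s, k, hk⟩ := D.sq4
    have H1 : CPt (0 : w.adicCompletion L) (algebraMap L (w.adicCompletion L) (16 * (α : L)))
        (algebraMap L (w.adicCompletion L) (-(a : L)))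
        (algebraMap L (w.adicCompletion L) (t.2.1 : L))
        (algebraMap L (w.adicCompletion L) (t.2.2 : L))
        (algebraMap L (w.adicCompletion L) (t.1 : L)) := by
      have H2 := CPt.shift (CPt.rot H) (algebraMap L (w.adicCompletion L) (-(a : L)))
      rw [← map_add, ← map_add, zero_add] at H2
      have i1 : (a : L) + -(a : L) = 0 := add_neg_cancel _
      have i2 : (c : L) + -(a : L) = 16 * (α : L) := by rw [hcL]; ring
      rwa [i1, i2, map_zero] at H2
    refine even_of_cpt_two (V := Valued.v) (s := algebraMap L (w.adicCompletion L) (s : L))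
      (c := algebraMap L (w.adicCompletion L) q) ?_ ?_ ?_ ?_ ?_ ?_ ?_ hqF H1
    · rw [valued_ofNat, v4]; exact mul_ne_zero v20 v20
    · rw [valued_ofNat, v4]; exact mul_lt_one_of_lt_of_le v2 v2.le
    · rw [valued_ofNat, valued_ofNat, v4]
    · rw [valued_ofNat, eM, map_mul, vα, mul_one]
    · rw [eM, Valuation.map_neg, va]
    · rw [valued_ofNat, ← map_pow, ← map_add, eM]
      have h3 : -(a : L) + (s : L) ^ 2 = -(4 * (k : L)) := by
        have := congrArg (algebraMap (𝓞 L) L) hk
        rw [map_sub, map_pow, map_mul, map_ofNat] at this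
        have h5 : (a : L) - (s : L) ^ 2 = 4 * (k : L) := this
        linear_combination -h5
      rw [h3, Valuation.map_neg, map_mul]
      exact mul_le_of_le_one_right' (w.valuation_le_one (K := L) _)
    · rw [← hdF]; ring
  · -- prime to two
    have v2 : w.valuation L 2 = 1 := by
      rw [← e2]; exact val_eq_one_of_notMem h2
    have v16 : w.valuation L 16 = 1 := by
      have : (16 : L) = 2 ^ 4 := by norm_num
      rw [this, map_pow, v2, one_pow]
    have v16α : w.valuation L (16 * (α : L)) = 1 := by rw [map_mul, v16, vα, one_mul]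
    by_cases ha : a ∈ w.asIdeal
    · have hc : c ∉ w.asIdeal := by
        intro hc
        have h3 : (16 : 𝓞 L) * α ∈ w.asIdeal := by
          have : (16 : 𝓞 L) * α = c - a := by rw [D.hc]; ring
          rw [this]
          exact Ideal.sub_mem _ hc ha
        rcases w.isPrime.mem_or_mem h3 with h4 | h4
        · have : (16 : 𝓞 L) = 2 ^ 4 := by norm_num
          rw [this] at h4
          exact h2 (w.isPrime.mem_of_pow_mem _ h4)
        · exact hw h4
      have vc : w.valuation L (c : L) = 1 := val_eq_one_of_notMem hc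
      have E3 : Even (log (Valued.v (algebraMap L (w.adicCompletion L) (t.2.2 : L)))) := by
        refine even_of_isolated (Valued.v) (c := algebraMap L (w.adicCompletion L) q) ?_ ?_ ?_ hqF
          (CPt.rot (CPt.rot H))
        · rw [zero_sub, Valuation.map_neg, eM, vc]
        · rw [← map_sub, eM]
          have i1 : (a : L) - (c : L) = -(16 * (α : L)) := by rw [hcL]; ring
          rw [i1, Valuation.map_neg, v16α]
        · rw [← hdF]; ring
      have E1 : Even (log (Valued.v (algebraMap L (w.adicCompletion L) (t.1 : L)))) := by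
        rw [eM, hr, map_mul, log_mul ((Valuation.ne_zero_iff _).mpr hr0)
          ((Valuation.ne_zero_iff _).mpr hr0)]
        exact ⟨_, rfl⟩
      have hs : log (w.valuation L (t.1 : L)) + log (w.valuation L (t.2.1 : L)) +
          log (w.valuation L (t.2.2 : L)) = 2 * log (w.valuation L q) := by
        have n1 := (Valuation.ne_zero_iff (w.valuation L)).mpr t.1.ne_zero
        have n2 := (Valuation.ne_zero_iff (w.valuation L)).mpr t.2.1.ne_zero
        have n3 := (Valuation.ne_zero_iff (w.valuation L)).mpr t.2.2.ne_zero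
        have nq := (Valuation.ne_zero_iff (w.valuation L)).mpr hq0
        rw [← log_mul n1 n2, ← log_mul (mul_ne_zero n1 n2) n3, ← map_mul, ← map_mul, hq, pow_two,
          map_mul, log_mul nq nq, two_mul]
      rw [eM] at E1 E3 ⊢
      obtain ⟨x, hx⟩ := E1
      obtain ⟨y, hy⟩ := E3
      exact ⟨log (w.valuation L q) - x - y, by omega⟩
    · have va : w.valuation L (a : L) = 1 := val_eq_one_of_notMem ha
      refine even_of_isolated (Valued.v) (c := algebraMap L (w.adicCompletion L) q) ?_ ?_ ?_ hqF
          (CPt.rot H)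
      · rw [← map_sub, eM]
        have i1 : (c : L) - (a : L) = (16 * (α : L)) := by rw [hcL]; ring
        rw [i1, v16α]
      · rw [zero_sub, Valuation.map_neg, eM, va]
      · rw [← hdF]; ring

end Pool.Agent.H26.SG
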