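import Pool.Agent.H26.SG.Dat
import Pool.Agent.H26.SG.Iso

/-!
The components at the real embeddings.

NOTATION. Let `t ∈ selT D.isCub`, `d₁ = t.1`, `d₂ = t.2.1`, `d₃ = t.2.2` (elements of `L`
which are not zero), with `d₁ d₂ d₃ = q ^ 2`, `q ≠ 0` (`isSquare_triple`; `mem_selT`, `IsSel`). The
place `w` gives `CPt 0 a c d₁ d₂ d₃` over `F = w.adicCompletion L` (all through `algebraMap L F`,
first `map_zero`); the valuation of `F` restricts to `w.valuation L` (`valued_algebraMap`). The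
file `Pool.Agent.H10.Semi` (proof of `newTrivial_semi`) is a model for all the translations between
`F` and `L`. As `c = a + 16 α` (`D.hc`), in `L`: `(c : L) = a + 16 * α`.

PROOF of `up_four`: let `φ` be a real embedding with `0 < φ a`, `0 < φ c`. `exists_completion`
(`Pool.Agent.H10.RealPl`) gives a place `v` and `ψ`, and `(Hi v).map ψ` gives
`CPt 0 (φ a) (φ c) (φ d₁) (φ d₂) (φ d₃)` over the reals (see the end of `newTrivial_semi`);
`real_mp` with `h12 : 0 < φ a`, `h13 : 0 < φ c` gives `0 < φ d₁`.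

PROOF of `up_five`: let `d₁` be a square and `φ` a real embedding which is not in `posSet a c`. Note
`φ a ≠ 0`, `φ c ≠ 0`, `φ a ≠ φ c` (`D.isCub`). The least of `0, φ a, φ c` is not `0`, so it is
`φ a` or `φ c`. If it is `φ a` then `CPt.rot` and `real_mp` give `0 < φ d₂`. If it is `φ c` then
`CPt.rot` twice and `real_mp` give `0 < φ d₃`, and `φ d₁ > 0` (a nonzero square) and
`φ d₁ φ d₂ φ d₃ = (φ q) ^ 2 > 0` give `0 < φ d₂`.
-/

set_option autoImplicit false
set_option linter.style.haveILetI false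
open scoped Classical

open WeierstrassCurve IsDedekindDomain NumberField WithZero

namespace Pool.Agent.H26.SG

open Pool.Agent.H10

variable {L : Type} [Field L] [NumberField L] {a c α : 𝓞 L}

omit [NumberField L] in
lemma UpC_sq {t : Lˣ × Lˣ × Lˣ} (h : IsSquare ((t.1 : L) * (t.2.1 : L) * (t.2.2 : L))) :
    ∃ q : L, q ≠ 0 ∧ (t.1 : L) * (t.2.1 : L) * (t.2.2 : L) = q ^ 2 := by
  obtain ⟨q, hq⟩ := h
  refine ⟨q, ?_, by rw [hq, pow_two]⟩
  rintro rfl
  rw [mul_zero] at hq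
  exact mul_ne_zero (mul_ne_zero t.1.ne_zero t.2.1.ne_zero) t.2.2.ne_zero hq

/-- The real point. -/
lemma UpC_pt (D : Dat a c α) {t : Lˣ × Lˣ × Lˣ} (ht : t ∈ selT D.isCub) (φ : L →+* ℝ) :
    CPt 0 (φ (a : L)) (φ (c : L)) (φ (t.1 : L)) (φ (t.2.1 : L)) (φ (t.2.2 : L)) := by
  rw [mem_selT] at ht
  obtain ⟨v, ψ, hψ⟩ := exists_completion φ
  have h1 := (ht.2.2 v).map ψ
  rw [hψ, hψ, hψ, hψ, hψ, hψ, map_zero] at h1
  exact h1

theorem up_four (D : Dat a c α) {t : Lˣ × Lˣ × Lˣ} (ht : t ∈ selT D.isCub) {φ : L →+* ℝ}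
    (hφ : φ ∈ posSet a c) : 0 < φ (t.1 : L) := by
  have H := UpC_pt D ht φ
  obtain ⟨q, hq0, hq⟩ := UpC_sq (mem_selT.mp ht).1
  refine (real_mp (c := φ q) hφ.1 hφ.2 ?_ ?_ H).1
  · rw [← map_mul, ← map_mul, hq, map_pow]
  · rw [Ne, map_eq_zero]; exact hq0

theorem up_five (D : Dat a c α) {t : Lˣ × Lˣ × Lˣ} (ht : t ∈ selT D.isCub) (h1 : t.1 ∈ sq L)
    {φ : L →+* ℝ} (hφ : φ ∉ posSet a c) : 0 < φ (t.2.1 : L) := by
  have H := UpC_pt D ht φ
  obtain ⟨q, hq0, hq⟩ := UpC_sq (mem_selT.mp ht).1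
  have hqφ : φ (t.1 : L) * φ (t.2.1 : L) * φ (t.2.2 : L) = φ q ^ 2 := by
    rw [← map_mul, ← map_mul, hq, map_pow]
  have hq0φ : φ q ≠ 0 := by rw [Ne, map_eq_zero]; exact hq0
  have ha0 : φ (a : L) ≠ 0 := by
    rw [Ne, map_eq_zero]; exact D.isCub.h12.symm
  have hc0 : φ (c : L) ≠ 0 := by
    rw [Ne, map_eq_zero]; exact D.isCub.h13.symm
  have hac : φ (a : L) ≠ φ (c : L) := fun h => D.isCub.h23 (φ.injective h)
  have hd1 : 0 < φ (t.1 : L) := by
    rw [mem_sq] at h1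
    obtain ⟨y, hy⟩ := h1
    rw [hy, map_mul]
    have : φ y ≠ 0 := by
      rw [Ne, map_eq_zero]
      rintro rfl
      exact t.1.ne_zero (by rw [hy, mul_zero])
    exact mul_self_pos.mpr this
  rcases lt_or_gt_of_ne hac with hlt | hgt
  · -- the least root is the image of a
    have hneg : φ (a : L) < 0 := by
      rcases lt_or_gt_of_ne ha0 with h | h
      · exact h
      · exact absurd ⟨h, h.trans hlt⟩ hφ
    refine (real_mp (c := φ q) hlt hneg ?_ hq0φ (CPt.rot H)).1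
    rw [← hqφ]; ring
  · -- the least root is the image of c
    have hneg : φ (c : L) < 0 := by
      rcases lt_or_gt_of_ne hc0 with h | h
      · exact h
      · exact absurd ⟨h.trans hgt, h⟩ hφ
    have h3 := (real_mp (c := φ q) hneg hgt (by rw [← hqφ]; ring) hq0φ (CPt.rot (CPt.rot H))).1
    have hpos : 0 < φ (t.1 : L) * φ (t.2.2 : L) * φ (t.2.1 : L) := by
      have : φ (t.1 : L) * φ (t.2.2 : L) * φ (t.2.1 : L) = φ q ^ 2 := by rw [← hqφ]; ring
      rw [this]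
      positivity
    exact (mul_pos_iff_of_pos_left (mul_pos hd1 h3)).mp hpos

end Pool.Agent.H26.SG
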