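import Pool.Agent.H26.SG.UpA
import Pool.Agent.H26.SG.UpB
import Pool.Agent.H26.SG.UpC
import Pool.Agent.H26.SG.Idx
import Pool.Agent.H26.SG.FinEven

/-!
The upper bound for the Selmer group.
-/

set_option autoImplicit false
set_option linter.style.haveILetI false
open scoped Classical

open WeierstrassCurve IsDedekindDomain NumberField WithZero

namespace Pool.Agent.H26.SG

open Pool.Agent.H10

variable {L : Type} [Field L] [NumberField L] {a c α : 𝓞 L}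

lemma primesOf_finite {x : 𝓞 L} (hx : x ≠ 0) : (primesOf x).Finite := by
  have h0 : Ideal.span {x} ≠ 0 := by
    rw [Ne, Ideal.zero_eq_bot, Ideal.span_singleton_eq_bot]
    exact hx
  refine (Ideal.finite_factors h0).subset ?_
  intro w hw
  exact Ideal.dvd_span_singleton.mpr hw

lemma evenAt_index (w : HeightOneSpectrum (𝓞 L)) (K : Subgroup Lˣ) :
    (evenAt w).relIndex K ≠ 0 ∧ (evenAt w).relIndex K ≤ 2 := by
  apply relIndex_two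
  intro x _ y _ hx hy
  rw [mem_evenAt, Int.not_even_iff_odd] at hx hy
  rw [mem_evenAt, Units.val_mul, map_mul, log_mul ((Valuation.ne_zero_iff _).mpr x.ne_zero)
      ((Valuation.ne_zero_iff _).mpr y.ne_zero)]
  exact hx.add_odd hy

omit [NumberField L] in
lemma posAt_index (φ : L →+* ℝ) (K : Subgroup Lˣ) :
    (posAt φ).relIndex K ≠ 0 ∧ (posAt φ).relIndex K ≤ 2 := by
  apply relIndex_two
  intro x _ y _ hx hy
  rw [mem_posAt, not_lt] at hx hy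
  have hx' : φ (x : L) ≠ 0 := by rw [Ne, map_eq_zero]; exact x.ne_zero
  have hy' : φ (y : L) ≠ 0 := by rw [Ne, map_eq_zero]; exact y.ne_zero
  rw [mem_posAt, Units.val_mul, map_mul]
  exact mul_pos_of_neg_of_neg (lt_of_le_of_ne hx hx') (lt_of_le_of_ne hy hy')

lemma evenAt_iInf (P : Set (HeightOneSpectrum (𝓞 L))) (hP : P.Finite) (K : Subgroup Lˣ) :
    (⨅ w : P, evenAt w.1).relIndex K ≠ 0 ∧ (⨅ w : P, evenAt w.1).relIndex K ≤ 2 ^ P.ncard := by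
  have : Finite P := hP
  exact relIndex_iInf_two (fun w : P => evenAt w.1) K fun w => evenAt_index w.1 K

lemma clsA_le (S : Set (L →+* ℝ)) : clsA S ≤ evenGrp L := inf_le_left

lemma clsB_le (S : Set (L →+* ℝ)) : clsB S ≤ evenGrp L := fun _ hx => mem_evenGrp.mpr hx.1

lemma relIndex_clsA_ne_zero (S : Set (L →+* ℝ)) : (sq L).relIndex (clsA S) ≠ 0 := by
  intro h
  exact relIndex_evenGrp_ne_zero L (Subgroup.relIndex_eq_zero_of_le_right (clsA_le S) h)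

lemma relIndex_clsB_ne_zero (S : Set (L →+* ℝ)) : (sq L).relIndex (clsB S) ≠ 0 := by
  intro h
  exact relIndex_evenGrp_ne_zero L (Subgroup.relIndex_eq_zero_of_le_right (clsB_le S) h)

/-- Relative index of a preimage. -/
lemma comap_relIndex_le {G G' : Type*} [CommGroup G] [CommGroup G'] (f : G →* G')
    {H M : Subgroup G'} {K : Subgroup G} (hM : H.relIndex M ≠ 0) (hK : K.map f ≤ M) :
    (H.comap f).relIndex K ≠ 0 ∧ (H.comap f).relIndex K ≤ H.relIndex M := by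
  rw [Subgroup.relIndex_comap]
  refine ⟨fun h => hM (Subgroup.relIndex_eq_zero_of_le_right hK h), ?_⟩
  exact Subgroup.relIndex_le_of_le_right hK hM

theorem sel_upper (D : Dat a c α) :
    (sqT L).relIndex (selT D.isCub) ≠ 0 ∧
    (sqT L).relIndex (selT D.isCub) ≤
      2 ^ ((primesOf (a * c)).ncard + (primesOf α).ncard) *
        ((sq L).relIndex (clsA (posSet a c)) * (sq L).relIndex (clsB (posSet a c))) := by
  set S₀ := selT D.isCub with hS₀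
  set S := posSet a c with hS
  let p₁ : Lˣ × Lˣ × Lˣ →* Lˣ := MonoidHom.fst Lˣ (Lˣ × Lˣ)
  let p₂ : Lˣ × Lˣ × Lˣ →* Lˣ := (MonoidHom.fst Lˣ Lˣ).comp (MonoidHom.snd Lˣ (Lˣ × Lˣ))
  set E₁ : Subgroup Lˣ := ⨅ w : primesOf (a * c), evenAt w.1 with hE₁
  set E₂ : Subgroup Lˣ := ⨅ w : primesOf α, evenAt w.1 with hE₂
  set K₁ := E₁.comap p₁ with hK₁
  set K₂ := (sq L).comap p₁ with hK₂
  set K₃ := E₂.comap p₂ with hK₃
  set K₄ := (sq L).comap p₂ with hK₄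
  have m1 : ∀ t : Lˣ × Lˣ × Lˣ, t ∈ K₁ ⊓ S₀ → t.1 ∈ clsB S := by
    rintro t ⟨ht1, ht⟩
    have ht1' : t.1 ∈ E₁ := ht1
    refine mem_clsB.mpr ⟨fun w => ?_, up_two D ht, fun φ hφ => up_four D ht hφ⟩
    by_cases hw : a * c ∈ w.asIdeal
    · rw [hE₁, Subgroup.mem_iInf] at ht1'
      exact ht1' ⟨w, hw⟩
    · exact up_one D ht hw
  have m2 : ∀ t : Lˣ × Lˣ × Lˣ, t ∈ K₃ ⊓ (K₂ ⊓ (K₁ ⊓ S₀)) → t.2.1 ∈ clsA S := by
    rintro t ⟨ht3, ht2, -, ht⟩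
    have ht2' : t.1 ∈ sq L := ht2
    have ht3' : t.2.1 ∈ E₂ := ht3
    refine mem_clsA.mpr ⟨fun w => ?_, fun φ hφ => up_five D ht ht2' hφ⟩
    by_cases hw : α ∈ w.asIdeal
    · rw [hE₂, Subgroup.mem_iInf] at ht3'
      exact ht3' ⟨w, hw⟩
    · exact up_three D ht ht2' hw
  have hac : a * c ≠ 0 := mul_ne_zero D.a0 D.c0
  obtain ⟨i1, j1⟩ : K₁.relIndex S₀ ≠ 0 ∧ K₁.relIndex S₀ ≤ 2 ^ (primesOf (a * c)).ncard := by
    rw [hK₁, Subgroup.relIndex_comap]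
    exact evenAt_iInf _ (primesOf_finite hac) _
  obtain ⟨i2, j2⟩ : K₂.relIndex (K₁ ⊓ S₀) ≠ 0 ∧
      K₂.relIndex (K₁ ⊓ S₀) ≤ (sq L).relIndex (clsB S) := by
    apply comap_relIndex_le p₁ (relIndex_clsB_ne_zero S)
    rintro _ ⟨t, ht, rfl⟩
    exact m1 t ht
  obtain ⟨i3, j3⟩ : K₃.relIndex (K₂ ⊓ (K₁ ⊓ S₀)) ≠ 0 ∧
      K₃.relIndex (K₂ ⊓ (K₁ ⊓ S₀)) ≤ 2 ^ (primesOf α).ncard := by
    rw [hK₃, Subgroup.relIndex_comap]
    exact evenAt_iInf _ (primesOf_finite D.α0) _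
  obtain ⟨i4, j4⟩ : K₄.relIndex (K₃ ⊓ (K₂ ⊓ (K₁ ⊓ S₀))) ≠ 0 ∧
      K₄.relIndex (K₃ ⊓ (K₂ ⊓ (K₁ ⊓ S₀))) ≤ (sq L).relIndex (clsA S) := by
    apply comap_relIndex_le p₂ (relIndex_clsA_ne_zero S)
    rintro _ ⟨t, ht, rfl⟩
    exact m2 t ht
  have hprod : (K₄ ⊓ (K₃ ⊓ (K₂ ⊓ K₁))).relIndex S₀ = K₄.relIndex (K₃ ⊓ (K₂ ⊓ (K₁ ⊓ S₀))) *
      (K₃.relIndex (K₂ ⊓ (K₁ ⊓ S₀)) * (K₂.relIndex (K₁ ⊓ S₀) * K₁.relIndex S₀)) := by
    rw [← Subgroup.relIndex_inf_mul_relIndex K₄ (K₃ ⊓ (K₂ ⊓ K₁)) S₀,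
      ← Subgroup.relIndex_inf_mul_relIndex K₃ (K₂ ⊓ K₁) S₀,
      ← Subgroup.relIndex_inf_mul_relIndex K₂ K₁ S₀, inf_assoc, inf_assoc]
  have hne : (K₄ ⊓ (K₃ ⊓ (K₂ ⊓ K₁))).relIndex S₀ ≠ 0 := by
    rw [hprod]
    exact mul_ne_zero i4 (mul_ne_zero i3 (mul_ne_zero i2 i1))
  have hsub : (K₄ ⊓ (K₃ ⊓ (K₂ ⊓ K₁))) ⊓ S₀ ≤ sqT L := by
    rintro t ⟨⟨h4, -, h2, -⟩, ht⟩
    have h4' : t.2.1 ∈ sq L := h4
    have h2' : t.1 ∈ sq L := h2
    rw [mem_sq] at h4' h2'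
    rw [mem_sqT]
    refine ⟨h2', h4', ?_⟩
    obtain ⟨q, hq⟩ := ht.1
    obtain ⟨x, hx⟩ := h2'
    obtain ⟨y, hy⟩ := h4'
    have hx0 : x ≠ 0 := by
      rintro rfl
      exact t.1.ne_zero (by rw [hx, mul_zero])
    have hy0 : y ≠ 0 := by
      rintro rfl
      exact t.2.1.ne_zero (by rw [hy, mul_zero])
    refine ⟨q / (x * y), ?_⟩
    rw [hx, hy] at hq
    field_simp
    linear_combination hq
  have hne' : ((K₄ ⊓ (K₃ ⊓ (K₂ ⊓ K₁))) ⊓ S₀).relIndex S₀ ≠ 0 := by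
    rw [Subgroup.inf_relIndex_right]; exact hne
  have hle := Subgroup.relIndex_le_of_le_left hsub hne'
  rw [Subgroup.inf_relIndex_right, hprod] at hle
  refine ⟨fun h0 => hne' (Subgroup.relIndex_eq_zero_of_le_left hsub h0), hle.trans ?_⟩
  calc _ ≤ (sq L).relIndex (clsA S) * (2 ^ (primesOf α).ncard *
        ((sq L).relIndex (clsB S) * 2 ^ (primesOf (a * c)).ncard)) :=
        Nat.mul_le_mul j4 (Nat.mul_le_mul j3 (Nat.mul_le_mul j2 j1))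
    _ = _ := by rw [pow_add]; ring

end Pool.Agent.H26.SG
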