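import Pool.Agent.H26.SG.Defs

/-!
Primes not above `q` are unramified in subfields of the `q`-th cyclotomic field.

PROOF. `unram`: let `C = CyclotomicField q ℚ`; its discriminant is `± q ^ (q - 2)`
(`IsCyclotomicExtension.Rat.discr_prime` or similar; see `discr_odd` and `two_unramified` in
`Pool.Agent.H5.SW.L5`, whose proofs are the same with `2` in place of `ℓ`), and `discr L ∣ discr C`
(`NumberField.discr_dvd_discr`; make `C` an `L`-algebra through the embedding), so `ℓ` does not
divide `discr L` and is unramified in `L`, that is `ℓ ∉ W ^ 2` for `W ∋ ℓ`: Mathlib has that a prime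
is unramified if and only if it does not divide the discriminant (look at what `two_unramified`
uses). The case of ramification index at least two would give `ℓ ∈ W ^ 2`.

`ram_away`: let `ℓ` be the rational prime below `w` (the characteristic of the residue field;
`exists ℓ` prime with `(ℓ : 𝓞 L) ∈ w`, e.g. `Ideal.exists_..`/`Nat` argument: `w` contains a nonzero
integer, and is prime, so contains a prime number), `ℓ ≠ q` as `q ∉ w`. Then `(ℓ : 𝓞 L2) ∈ W`, and
if the ramification index `e` of `W` over `w` is at least two then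
`(ℓ : 𝓞 L2) ∈ w.map ≤ W ^ e ≤ W ^ 2`, against `unram` for `L2`. The ramification index is at least
one (`W` lies over `w`, both nonzero), so it is one, hence odd.
-/

set_option autoImplicit false
set_option linter.style.haveILetI false
open scoped Classical

open IsDedekindDomain NumberField WithZero

namespace Pool.Agent.H26.SG

open Pool.Agent.H10

theorem unram {q ℓ : ℕ} [Fact q.Prime] (hℓ : ℓ.Prime) (hne : ℓ ≠ q) {L : Type} [Field L]
    [NumberField L] (hL : Nonempty (L →+* CyclotomicField q ℚ)) (W : HeightOneSpectrum (𝓞 L))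
    (hW : (ℓ : 𝓞 L) ∈ W.asIdeal) : (ℓ : 𝓞 L) ∉ W.asIdeal ^ 2 := by
  have hq : q.Prime := Fact.out
  have hz : NeZero q := ⟨hq.ne_zero⟩
  have hz' : NeZero ((q : ℕ) : ℚ) := ⟨Nat.cast_ne_zero.mpr hq.ne_zero⟩
  have hcyc : IsCyclotomicExtension {q} ℚ (CyclotomicField q ℚ) :=
    CyclotomicField.isCyclotomicExtension q ℚ
  obtain ⟨i⟩ := hL
  let _ : Algebra L (CyclotomicField q ℚ) := i.toAlgebra
  have hNF : NumberField (CyclotomicField q ℚ) :=
    IsCyclotomicExtension.numberField {q} ℚ _
  have h1 : NumberField.discr L ∣ NumberField.discr (CyclotomicField q ℚ) :=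
    NumberField.discr_dvd_discr L (CyclotomicField q ℚ)
  have h2 := IsCyclotomicExtension.Rat.discr_prime q (CyclotomicField q ℚ)
  rw [h2] at h1
  have hℓZ : Prime (ℓ : ℤ) := Nat.prime_iff_prime_int.1 hℓ
  have hnd : ¬ (ℓ : ℤ) ∣ NumberField.discr L := by
    intro h
    have h3 := h.trans h1
    rcases hℓZ.dvd_or_dvd h3 with h4 | h4
    · have h5 := hℓZ.dvd_of_dvd_pow h4
      rw [Int.dvd_neg] at h5
      exact hℓZ.not_isUnit (isUnit_of_dvd_one h5)
    · have h5 := hℓZ.dvd_of_dvd_pow h4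
      have h6 : ℓ ∣ q := by exact_mod_cast h5
      exact hne ((Nat.prime_dvd_prime_iff_eq hℓ hq).1 h6)
  have h3 := (NumberField.not_dvd_discr_iff_forall_mem L (𝓞 L) hℓZ).1 hnd W.asIdeal W.isPrime
    (by simpa using hW)
  intro h4
  have hprime := W.isPrime
  have hover : W.asIdeal.LiesOver (Ideal.span {(ℓ : ℤ)}) :=
    (Ideal.liesOver_span_iff W.isPrime.ne_top hℓZ).mpr (by simpa using hW)
  have hsp : (Ideal.span {(ℓ : ℤ)}).IsPrime :=
    (Ideal.span_singleton_prime hℓZ.ne_zero).2 hℓZ
  let := Localization.AtPrime.algebraOfLiesOver (Ideal.span {(ℓ : ℤ)}) W.asIdeal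
  have h5 := ((Algebra.isUnramifiedAt_iff_map_eq ℤ (Ideal.span {(ℓ : ℤ)}) W.asIdeal).mp h3).2
  have h6 : Ideal.map (algebraMap ℤ (𝓞 L)) (Ideal.span {(ℓ : ℤ)}) ≤ W.asIdeal := by
    rw [Ideal.map_span, Ideal.span_le]
    simpa using hW
  have h7 := Ideal.ramificationIdx'_eq_one_of_map_localization h6 W.ne_bot
    W.asIdeal.primeCompl_le_nonZeroDivisors h5
  have h8 : Ideal.map (algebraMap ℤ (𝓞 L)) (Ideal.span {(ℓ : ℤ)}) ≤ W.asIdeal ^ 2 := by
    rw [Ideal.map_span, Ideal.span_le]
    simpa using h4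
  exact (Ideal.ramificationIdx'_ne_one_iff h6).2 h8 h7

lemma CycA_exists_prime {R : Type*} [CommRing R] (P : Ideal R) (hP : P.IsPrime) :
    ∀ n : ℕ, n ≠ 0 → (n : R) ∈ P → ∃ ℓ : ℕ, ℓ.Prime ∧ (ℓ : R) ∈ P := by
  intro n
  induction n using Nat.strong_induction_on with
  | _ n ih =>
    intro hn hmem
    by_cases h1 : n = 1
    · exfalso
      apply hP.ne_top
      rw [Ideal.eq_top_iff_one]
      simpa [h1] using hmem
    · obtain ⟨m, hm⟩ := n.minFac_dvd
      have hp := Nat.minFac_prime h1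
      have hm0 : m ≠ 0 := by
        rintro rfl
        exact hn (by rw [hm, mul_zero])
      have hmem' : ((n.minFac : R)) * (m : R) ∈ P := by
        rw [← Nat.cast_mul, ← hm]
        exact hmem
      rcases hP.mem_or_mem hmem' with h | h
      · exact ⟨n.minFac, hp, h⟩
      · refine ih m ?_ hm0 h
        calc m < n.minFac * m := by
              have := hp.two_le
              have : 0 < m := Nat.pos_of_ne_zero hm0
              nlinarith
          _ = n := hm.symm

theorem ram_away {q : ℕ} [Fact q.Prime] {L L2 : Type} [Field L] [NumberField L] [Field L2]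
    [NumberField L2] [Algebra L L2] (hL2 : Nonempty (L2 →+* CyclotomicField q ℚ))
    (w : HeightOneSpectrum (𝓞 L)) (W : HeightOneSpectrum (𝓞 L2)) [W.asIdeal.LiesOver w.asIdeal]
    (hq : (q : 𝓞 L) ∉ w.asIdeal) : w.asIdeal.ramificationIdx' W.asIdeal = 1 := by
  obtain ⟨ℓ, hℓ, hmem⟩ := CycA_exists_prime w.asIdeal w.isPrime (Ideal.absNorm w.asIdeal)
    (fun h => w.ne_bot (Ideal.absNorm_eq_zero_iff.1 h)) (Ideal.absNorm_mem w.asIdeal)
  have hne : ℓ ≠ q := by
    rintro rfl
    exact hq hmem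
  have hle : w.asIdeal.map (algebraMap (𝓞 L) (𝓞 L2)) ≤ W.asIdeal := by
    rw [Ideal.map_le_iff_le_comap]
    exact (W.asIdeal.over_def w.asIdeal).le
  have hW : (ℓ : 𝓞 L2) ∈ W.asIdeal := by
    have := hle (Ideal.mem_map_of_mem (algebraMap (𝓞 L) (𝓞 L2)) hmem)
    simpa using this
  by_contra hcon
  have h2 := (Ideal.ramificationIdx'_ne_one_iff hle).1 hcon
  have h3 : (ℓ : 𝓞 L2) ∈ W.asIdeal ^ 2 := by
    have := h2 (Ideal.mem_map_of_mem (algebraMap (𝓞 L) (𝓞 L2)) hmem)
    simpa using this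
  exact unram hℓ hne hL2 W hW h3

end Pool.Agent.H26.SG
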