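import Pool.Agent.H26.SG.Defs

/-!
There is one prime above `q` in subfields of the `q`-th cyclotomic field.

PROOF. Let `C = CyclotomicField q ℚ`, a ring homomorphism `L → C` makes `C` an `L`-algebra. In
`𝓞 C` there is only one prime above `q`, generated by `ζ - 1` (Mathlib, file
`NumberTheory/NumberField/Cyclotomic/Ideal.lean`: `IsCyclotomicExtension.Rat.eq_span_zeta_sub_one_of_liesOver`
or similar, for `p ^ (k + 1)` with `k = 0`, and for prime `p`; or by hand: `q` is associated to
`(ζ - 1) ^ (q - 1)`, so a prime containing `q` contains `ζ - 1`, and the ideal generated by `ζ - 1` is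
maximal). Let `v, w` be primes of `𝓞 L` containing `q`, `V, W` primes of `𝓞 C` above them (they exist:
`H68QS.exists_over` in `Pool.Agent.H68.QS.Val`, or `Ideal.nonempty_primesOver`); both contain `q`,
so `V = W`, and `v = V.under = W.under = w`. (See also `Pool.Agent.H5.SW.L4` and `L4b`, where the
same is done for the tower.)
-/

set_option autoImplicit false
set_option linter.style.haveILetI false
open scoped Classical

open IsDedekindDomain NumberField WithZero

namespace Pool.Agent.H26.SG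

open Pool.Agent.H10

theorem CycB_over {C : Type} [Field C] [NumberField C] {q : ℕ} [Fact q.Prime]
    (P : Ideal (𝓞 C)) (hP : P.IsPrime) (hp : (q : 𝓞 C) ∈ P) :
    P.LiesOver (Ideal.span {(q : ℤ)}) := by
  have hmax : (Ideal.span {(q : ℤ)}).IsMaximal := Int.ideal_span_isMaximal_of_prime q
  refine ⟨?_⟩
  apply hmax.eq_of_le
  · exact (Ideal.IsPrime.under ℤ P).ne_top
  · rw [Ideal.span_singleton_le_iff_mem, Ideal.mem_comap]
    simpa using hp

theorem unique_q {q : ℕ} [Fact q.Prime] {L : Type} [Field L] [NumberField L]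
    (hL : Nonempty (L →+* CyclotomicField q ℚ)) (v w : HeightOneSpectrum (𝓞 L))
    (hv : (q : 𝓞 L) ∈ v.asIdeal) (hw : (q : 𝓞 L) ∈ w.asIdeal) : v = w := by
  obtain ⟨φ⟩ := hL
  letI : Algebra L (CyclotomicField q ℚ) := φ.toAlgebra
  have hq : q.Prime := Fact.out
  haveI : NeZero q := ⟨hq.ne_zero⟩
  haveI : IsCyclotomicExtension {q} ℚ (CyclotomicField q ℚ) :=
    CyclotomicField.isCyclotomicExtension q ℚ
  have hζ := IsCyclotomicExtension.zeta_spec q ℚ (CyclotomicField q ℚ)
  have key : ∀ u : HeightOneSpectrum (𝓞 L), (q : 𝓞 L) ∈ u.asIdeal →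
      u.asIdeal = (Ideal.span {hζ.toInteger - 1} : Ideal (𝓞 (CyclotomicField q ℚ))).comap
        (algebraMap (𝓞 L) (𝓞 (CyclotomicField q ℚ))) := by
    intro u hu
    obtain ⟨⟨P, hP1, hP2⟩⟩ := Ideal.nonempty_primesOver
      (S := 𝓞 (CyclotomicField q ℚ)) u.asIdeal
    have h1 : u.asIdeal = P.comap (algebraMap (𝓞 L) (𝓞 (CyclotomicField q ℚ))) := hP2.over
    have h2 : (q : 𝓞 (CyclotomicField q ℚ)) ∈ P := by
      rw [h1, Ideal.mem_comap] at hu
      simpa using hu
    haveI := CycB_over P hP1 h2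
    have h3 := IsCyclotomicExtension.Rat.eq_span_zeta_sub_one_of_liesOver' q
      (CyclotomicField q ℚ) hζ P
    rw [h1, h3]
  exact HeightOneSpectrum.ext ((key v hv).trans (key w hw).symm)

theorem exists_q {q : ℕ} [Fact q.Prime] {L : Type} [Field L] [NumberField L] :
    ∃ v : HeightOneSpectrum (𝓞 L), (q : 𝓞 L) ∈ v.asIdeal := by
  have hq : q.Prime := Fact.out
  haveI hmax : (Ideal.span {(q : ℤ)}).IsMaximal := Int.ideal_span_isMaximal_of_prime q
  obtain ⟨⟨P, hP1, hP2⟩⟩ := Ideal.nonempty_primesOver (S := 𝓞 L) (Ideal.span {(q : ℤ)})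
  have h1 : Ideal.span {(q : ℤ)} = P.comap (algebraMap ℤ (𝓞 L)) := hP2.over
  have h2 : (q : 𝓞 L) ∈ P := by
    have h3 : (q : ℤ) ∈ P.comap (algebraMap ℤ (𝓞 L)) := by
      rw [← h1]
      exact Ideal.mem_span_singleton_self _
    rw [Ideal.mem_comap] at h3
    simpa using h3
  refine ⟨⟨P, hP1, ?_⟩, h2⟩
  rintro rfl
  rw [Ideal.mem_bot] at h2
  exact hq.ne_zero (by exact_mod_cast h2)

end Pool.Agent.H26.SG
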