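import Pool.Agent.H68.QS.Idx

/-!
Subfields of index two.

PROOF. Let `C = CyclotomicField q ℚ`, which is Galois over the rationals with abelian Galois group
(`IsCyclotomicExtension.isGalois`, `IsCyclotomicExtension.Aut.commGroup`/`isMulCommutative..`).
The image of `L` in `C` is an intermediate field `E` (field range of the `ℚ`-algebra map
`RingHom.toRatAlgHom`), which is Galois over the rationals because all subgroups of an abelian group
are normal (`IsGalois.of_fixedField_normal_subgroup`, `IsGalois.fixedField_fixingSubgroup`), and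
`L ≃ₐ[ℚ] E`, so `L` is Galois over the rationals (`IsGalois.of_algEquiv`). So `L` is of two-power
type (`H68QS.TwoPower L`, with `F = L` and the identity), and `H68QS.exists_index_two` applies, as
`2 ^ (k + 1) ≠ 1`.
-/

set_option autoImplicit false
set_option linter.style.haveILetI false
open scoped Classical

open IsDedekindDomain NumberField WithZero

namespace Pool.Agent.H26.SG

open Pool.Agent.H10

theorem galois_sub {q : ℕ} [Fact q.Prime] {L : Type} [Field L] [NumberField L]
    (hL : Nonempty (L →+* CyclotomicField q ℚ)) : IsGalois ℚ L := by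
  obtain ⟨e⟩ := hL
  haveI : NeZero q := ⟨(Fact.out : q.Prime).ne_zero⟩
  haveI : IsCyclotomicExtension {q} ℚ (CyclotomicField q ℚ) := by
    have h1 := CyclotomicField.isCyclotomicExtension q ℚ
    have h2 : (CyclotomicField.algebra q ℚ : Algebra ℚ (CyclotomicField q ℚ)) =
        DivisionRing.toRatAlgebra := Subsingleton.elim _ _
    rw [h2] at h1
    exact h1
  haveI : IsAbelianGalois ℚ (CyclotomicField q ℚ) :=
    IsCyclotomicExtension.isAbelianGalois {q} ℚ (CyclotomicField q ℚ)
  haveI : IsAbelianGalois ℚ L := IsAbelianGalois.of_algHom e.toRatAlgHom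
  exact inferInstance

theorem exists_sub {q : ℕ} [Fact q.Prime] {L : Type} [Field L] [NumberField L]
    (hL : Nonempty (L →+* CyclotomicField q ℚ)) {k : ℕ} (hk : Module.finrank ℚ L = 2 ^ (k + 1)) :
    ∃ F : IntermediateField ℚ L, Module.finrank F L = 2 := by
  haveI : IsGalois ℚ L := galois_sub hL
  refine H68QS.exists_index_two (k := L) ⟨L, inferInstance, inferInstance, inferInstance, ⟨k + 1, hk⟩,
    ⟨RingHom.id L⟩⟩ ?_
  rw [hk]
  have h1 : 1 < 2 ^ (k + 1) := Nat.one_lt_two_pow (Nat.succ_ne_zero k)
  exact h1.ne'

end Pool.Agent.H26.SG
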