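import Pool.Agent.H26.SG.Step
import Pool.Agent.H26.SG.Base0
import Pool.Agent.H26.SG.CycA
import Pool.Agent.H26.SG.CycB
import Pool.Agent.H26.SG.CycC
import Pool.Agent.H68.QS.Asm
import Pool.Agent.H68.QS.Ext

/-!
The totally real fields of degree `2 ^ k` in the `q`-th cyclotomic field have no classes.
-/

set_option autoImplicit false
set_option linter.style.haveILetI false
open scoped Classical

open IsDedekindDomain NumberField WithZero

namespace Pool.Agent.H26.SG

open Pool.Agent.H10

theorem nc_cyclic {q : ℕ} [Fact q.Prime] (hq2 : q ≠ 2) : ∀ (k : ℕ) (L : Type) [Field L]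
    [NumberField L], IsTotallyReal L → Nonempty (L →+* CyclotomicField q ℚ) →
    Module.finrank ℚ L = 2 ^ k → NC L := by
  intro k
  induction k with
  | zero =>
    intro L _ _ _ _ hk
    exact nc_rat (by rw [hk, pow_zero])
  | succ k ih =>
    intro L _ _ hreal hL hk
    obtain ⟨F, hF⟩ := exists_sub hL hk
    have hFL : Nonempty (F →+* CyclotomicField q ℚ) := hL.map fun e => e.comp F.val.toRingHom
    have hmul := Module.finrank_mul_finrank ℚ F L
    rw [hF, hk, pow_succ] at hmul
    have hFk : Module.finrank ℚ F = 2 ^ k := Nat.eq_of_mul_eq_mul_right two_pos hmul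
    have hrealF : IsTotallyReal F := IsTotallyReal.of_algebra F L
    have hNC := ih F hrealF hFL hFk
    have _ : Algebra.IsQuadraticExtension F L := ⟨hF⟩
    obtain ⟨D, δ, hD0, hδ, hadj⟩ := H68QS.exists_delta hF
    have hδ' : ∀ r : F, algebraMap F L r ≠ δ := by
      intro r hr
      have h1 : IntermediateField.adjoin F {δ} = ⊥ := by
        rw [IntermediateField.adjoin_simple_eq_bot_iff, IntermediateField.mem_bot]
        exact ⟨r, hr⟩
      rw [h1] at hadj
      have h2 := IntermediateField.finrank_bot (F := F) (E := L)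
      rw [hadj, IntermediateField.finrank_top', hF] at h2
      norm_num at h2
    obtain ⟨v₀, hv₀⟩ := exists_q (q := q) (L := F)
    refine nc_step hδ hδ' (fun φ => H68QS.exists_ext_real hreal φ) ?_ v₀ ?_ hNC
    · intro w hw
      have h1 := unram (q := q) Nat.prime_two hq2.symm hL w (by exact_mod_cast hw)
      exact_mod_cast h1
    · intro w W hW hne
      rw [ram_away hL w W fun hq => hne (unique_q hFL w v₀ hq hv₀)]
      exact odd_one

end Pool.Agent.H26.SG
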