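import Pool.Agent.H26.SG.Sel

/-!
The standing data: the curve `y^2 = x (x - a) (x - c)` with `c = a + 16 α`, with `a` prime to two
and a square modulo four.
-/

set_option autoImplicit false
set_option linter.style.haveILetI false
open scoped Classical

open WeierstrassCurve IsDedekindDomain NumberField WithZero

namespace Pool.Agent.H26.SG

open Pool.Agent.H10

variable {L : Type} [Field L] [NumberField L]

/-- The standing data. -/
structure Dat (a c α : 𝓞 L) : Prop where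
  hc : c = a + 16 * α
  a0 : a ≠ 0
  c0 : c ≠ 0
  α0 : α ≠ 0
  cop : IsCoprime a 2
  sq4 : ∃ s : 𝓞 L, (4 : 𝓞 L) ∣ a - s ^ 2

/-- The curve. -/
def crv (a c : 𝓞 L) : WeierstrassCurve L := ⟨0, -((a : L) + (c : L)), 0, (a : L) * (c : L), 0⟩

/-- The real embeddings in which zero is the least root. -/
def posSet (a c : 𝓞 L) : Set (L →+* ℝ) := {φ | 0 < φ (a : L) ∧ 0 < φ (c : L)}

/-- The primes which divide `x`. -/
def primesOf (x : 𝓞 L) : Set (HeightOneSpectrum (𝓞 L)) := {w | x ∈ w.asIdeal}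

/-- The subgroup of `clsA`-type classes which moreover are squares modulo four and positive in the
embeddings of `S`. -/
def SetB (S : Set (L →+* ℝ)) : Set Lˣ :=
  {x | (∀ w : HeightOneSpectrum (𝓞 L), Even (log (w.valuation L (x : L)))) ∧ FourSq (x : L) ∧
    ∀ φ ∈ S, 0 < φ (x : L)}

lemma sqm_mul {F : Type*} [Field F] {V : Valuation F (WithZero (Multiplicative ℤ))}
    (h4 : V 4 ≤ 1) {x y : F} (hx : SqModFour V x) (hy : SqModFour V y) : SqModFour V (x * y) := by
  obtain ⟨t, m, ht, hm, h⟩ := hx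
  obtain ⟨t', m', ht', hm', h'⟩ := hy
  refine ⟨t * t', m * m', mul_ne_zero ht ht', by rw [map_mul, hm, hm', one_mul], ?_⟩
  have e : x * y * (t * t') ^ 2 - (m * m') ^ 2 = (x * t ^ 2 - m ^ 2) * (y * t' ^ 2 - m' ^ 2) +
      ((x * t ^ 2 - m ^ 2) * m' ^ 2 + m ^ 2 * (y * t' ^ 2 - m' ^ 2)) := by ring
  rw [e]
  refine (Valuation.map_add _ _ _).trans (max_le ?_ ((Valuation.map_add _ _ _).trans
    (max_le ?_ ?_)))
  · rw [map_mul]
    calc _ ≤ V 4 * 1 := mul_le_mul' h (h'.trans h4)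
      _ = _ := mul_one _
  · rw [map_mul, map_pow, hm', one_pow, mul_one]
    exact h
  · rw [map_mul, map_pow, hm, one_pow, one_mul]
    exact h'

lemma sqm_inv {F : Type*} [Field F] {V : Valuation F (WithZero (Multiplicative ℤ))}
    {x : F} (hx0 : x ≠ 0) (hx : SqModFour V x) : SqModFour V x⁻¹ := by
  obtain ⟨t, m, ht, hm, h⟩ := hx
  refine ⟨x * t, m, mul_ne_zero hx0 ht, hm, ?_⟩
  have e : x⁻¹ * (x * t) ^ 2 - m ^ 2 = x * t ^ 2 - m ^ 2 := by
    field_simp
  rw [e]
  exact h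

lemma val_four_le (w : HeightOneSpectrum (𝓞 L)) : w.valuation L 4 ≤ 1 := by
  have e4 : ((4 : 𝓞 L) : L) = 4 := map_ofNat (algebraMap (𝓞 L) L) 4
  have := w.valuation_le_one (K := L) (4 : 𝓞 L)
  rwa [← e4]

/-- Even valuations, squares modulo four, positive in the embeddings of `S`. -/
def clsB (S : Set (L →+* ℝ)) : Subgroup Lˣ where
  carrier := SetB S
  one_mem' := by
    refine ⟨fun w => by simp, fun w _ => ?_, fun φ _ => by simp⟩
    exact SqModFour.of_sq (s := 1) one_ne_zero (by simp)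
  mul_mem' := by
    intro x y hx hy
    refine ⟨?_, fun w hw => ?_, fun φ hφ => ?_⟩
    · exact mem_evenGrp.mp ((evenGrp L).mul_mem (mem_evenGrp.mpr hx.1) (mem_evenGrp.mpr hy.1))
    · rw [Units.val_mul]
      exact sqm_mul (val_four_le w) (hx.2.1 w hw) (hy.2.1 w hw)
    · exact (posAt φ).mul_mem (hx.2.2 φ hφ) (hy.2.2 φ hφ)
  inv_mem' := by
    intro x hx
    refine ⟨?_, fun w hw => ?_, fun φ hφ => ?_⟩
    · exact mem_evenGrp.mp ((evenGrp L).inv_mem (mem_evenGrp.mpr hx.1))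
    · rw [Units.val_inv_eq_inv_val]
      exact sqm_inv x.ne_zero (hx.2.1 w hw)
    · exact (posAt φ).inv_mem (hx.2.2 φ hφ)

lemma mem_clsB {S : Set (L →+* ℝ)} {x : Lˣ} : x ∈ clsB S ↔
    (∀ w : HeightOneSpectrum (𝓞 L), Even (log (w.valuation L (x : L)))) ∧ FourSq (x : L) ∧
    ∀ φ ∈ S, 0 < φ (x : L) := Iff.rfl

lemma Dat.isCub {a c α : 𝓞 L} (D : Dat a c α) : IsCub (crv a c) 0 (a : L) (c : L) where
  a₁ := rfl
  a₂ := by simp only [crv]; ring
  a₃ := rfl
  a₄ := by simp only [crv]; ring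
  a₆ := by simp only [crv]; ring
  h12 := fun h => D.a0 (RingOfIntegers.coe_eq_zero_iff.mp h.symm)
  h13 := fun h => D.c0 (RingOfIntegers.coe_eq_zero_iff.mp h.symm)
  h23 := fun h => by
    have h1 : a = c := RingOfIntegers.coe_injective h
    have h2 := D.hc
    rw [← h1] at h2
    have h3 : (16 : 𝓞 L) * α = 0 := by linear_combination -h2
    rcases mul_eq_zero.mp h3 with h4 | h4
    · have : (16 : 𝓞 L) ≠ 0 := by norm_num
      exact this h4
    · exact D.α0 h4
  two := two_ne_zero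

end Pool.Agent.H26.SG
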