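import Pool.Agent.H10.SelTors
import Pool.Agent.H10.Semi
import Pool.Agent.H10.Func7

/-!
Selmer groups as subgroups of triples of nonzero elements, and the groups of classes with
conditions on signs.
-/

set_option autoImplicit false
set_option linter.style.haveILetI false
open scoped Classical

open WeierstrassCurve IsDedekindDomain NumberField WithZero

namespace Pool.Agent.H26.SG

open Pool.Agent.H10

variable (L : Type) [Field L] [NumberField L]

omit [NumberField L] in
/-- The squares. -/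
def sq : Subgroup Lˣ := (powMonoidHom 2 : Lˣ →* Lˣ).range

variable {L}

omit [NumberField L] in
lemma mem_sq {x : Lˣ} : x ∈ sq L ↔ IsSquare (x : L) := by
  constructor
  · rintro ⟨y, rfl⟩
    exact ⟨(y : L), by simp [pow_two]⟩
  · rintro ⟨y, hy⟩
    have hy0 : y ≠ 0 := by
      rintro rfl
      exact x.ne_zero (by rw [hy, mul_zero])
    refine ⟨Units.mk0 y hy0, ?_⟩
    apply Units.ext
    simp [hy, pow_two]

omit [NumberField L] in
lemma mul_self_mem_sq (x : Lˣ) : x * x ∈ sq L := ⟨x, by simp [pow_two]⟩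

/-- The elements with even valuation at `w`. -/
def evenAt (w : HeightOneSpectrum (𝓞 L)) : Subgroup Lˣ where
  carrier := {x | Even (log (w.valuation L (x : L)))}
  one_mem' := by simp
  mul_mem' := by
    intro x y hx hy
    change Even (log (w.valuation L ((x * y : Lˣ) : L)))
    rw [Units.val_mul, map_mul, log_mul ((Valuation.ne_zero_iff _).mpr x.ne_zero)
      ((Valuation.ne_zero_iff _).mpr y.ne_zero)]
    exact Even.add hx hy
  inv_mem' := by
    intro x hx
    change Even (log (w.valuation L ((x⁻¹ : Lˣ) : L)))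
    rw [Units.val_inv_eq_inv_val, map_inv₀, log_inv]
    exact Even.neg hx

lemma mem_evenAt {w : HeightOneSpectrum (𝓞 L)} {x : Lˣ} :
    x ∈ evenAt w ↔ Even (log (w.valuation L (x : L))) := Iff.rfl

/-- The elements which are positive in the real embedding `φ`. -/
def posAt (φ : L →+* ℝ) : Subgroup Lˣ where
  carrier := {x | 0 < φ (x : L)}
  one_mem' := by simp
  mul_mem' := by
    intro x y hx hy
    change 0 < φ ((x * y : Lˣ) : L)
    rw [Units.val_mul, map_mul]
    exact mul_pos hx hy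
  inv_mem' := by
    intro x hx
    change 0 < φ ((x⁻¹ : Lˣ) : L)
    rw [Units.val_inv_eq_inv_val, map_inv₀]
    exact inv_pos.mpr hx

omit [NumberField L] in
lemma mem_posAt {φ : L →+* ℝ} {x : Lˣ} : x ∈ posAt φ ↔ 0 < φ (x : L) := Iff.rfl

/-- The elements with even valuations at all primes. -/
def evenGrp (L : Type) [Field L] [NumberField L] : Subgroup Lˣ :=
  ⨅ w : HeightOneSpectrum (𝓞 L), evenAt w

lemma mem_evenGrp {x : Lˣ} :
    x ∈ evenGrp L ↔ ∀ w : HeightOneSpectrum (𝓞 L), Even (log (w.valuation L (x : L))) := by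
  rw [evenGrp, Subgroup.mem_iInf]
  exact Iff.rfl

lemma sq_le_evenGrp : sq L ≤ evenGrp L := by
  intro x hx
  rw [mem_sq] at hx
  obtain ⟨y, hy⟩ := hx
  rw [mem_evenGrp]
  intro w
  rw [hy, map_mul]
  have hy0 : y ≠ 0 := by
    rintro rfl
    exact x.ne_zero (by rw [hy, mul_zero])
  rw [log_mul ((Valuation.ne_zero_iff _).mpr hy0) ((Valuation.ne_zero_iff _).mpr hy0)]
  exact ⟨_, rfl⟩

/-- Even valuations at all primes, and positive in the real embeddings outside `S`. -/
def clsA (S : Set (L →+* ℝ)) : Subgroup Lˣ :=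
  evenGrp L ⊓ ⨅ φ : {φ : L →+* ℝ // φ ∉ S}, posAt φ.1

lemma mem_clsA {S : Set (L →+* ℝ)} {x : Lˣ} :
    x ∈ clsA S ↔ (∀ w : HeightOneSpectrum (𝓞 L), Even (log (w.valuation L (x : L)))) ∧
      ∀ φ : L →+* ℝ, φ ∉ S → 0 < φ (x : L) := by
  rw [clsA, Subgroup.mem_inf, mem_evenGrp, Subgroup.mem_iInf, Subtype.forall]
  exact Iff.rfl

/-- Up to a square, `x` is congruent to the square of a unit modulo four at all primes above
two. -/
def FourSq (x : L) : Prop :=
  ∀ w : HeightOneSpectrum (𝓞 L), (2 : 𝓞 L) ∈ w.asIdeal → SqModFour (w.valuation L) x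

/-- Triples of everywhere soluble classes. -/
def IsSel (e₁ e₂ e₃ : L) (t : Lˣ × Lˣ × Lˣ) : Prop :=
  IsSquare ((t.1 : L) * (t.2.1 : L) * (t.2.2 : L)) ∧
    FinSol L e₁ e₂ e₃ (t.1 : L) (t.2.1 : L) (t.2.2 : L) ∧
    InfSol L e₁ e₂ e₃ (t.1 : L) (t.2.1 : L) (t.2.2 : L)

end Pool.Agent.H26.SG
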