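import Mathlib

/-!
Infinitely many primes `q` for the example.

PROOF. By the Chinese remainder theorem there is `a` with `a ≡ 1` modulo `2 ^ (k + 3)`, `a ≡ 2` modulo
`3`, `a ≡ 3` modulo `7`, `a ≡ 5` modulo `47`, `a ≡ 2` modulo `53`; it is prime to
`N = 2 ^ (k + 3) * 3 * 7 * 47 * 53`. By Dirichlet's theorem (`Nat.setOf_prime_and_eq_mod_infinite`,
`Nat.infinite_setOfPred_prime_and_modEq` or similar) there are infinitely many primes `q ≡ a` modulo `N`.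
Then `q ≡ 1` modulo `2 ^ (k + 1)` and modulo `4`, and by quadratic reciprocity (`q ≡ 1` modulo `4`,
`ZMod.exists_sq_eq_prime_iff_of_mod_four_eq_one` : `IsSquare (p : ZMod q) ↔ IsSquare (q : ZMod p)`)
`3, 7, 47, 53` are not squares modulo `q`, because `q` is `2` modulo `3`, `3` modulo `7`, `5` modulo
`47`, `2` modulo `53`, which are not squares there (`decide`, or Euler's criterion).
-/

set_option autoImplicit false

namespace Pool.Agent.H26.SG

theorem Dir_nsq (q l c : ℕ) [Fact q.Prime] [Fact l.Prime] (hq : q % 4 = 1) (hl : l ≠ 2)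
    (hc : q % l = c % l) (h : ¬ IsSquare ((c : ℕ) : ZMod l)) : ¬ IsSquare ((l : ℕ) : ZMod q) := by
  rw [ZMod.exists_sq_eq_prime_iff_of_mod_four_eq_one hq hl]
  have h1 : ((q : ℕ) : ZMod l) = ((c : ℕ) : ZMod l) :=
    (ZMod.natCast_eq_natCast_iff q c l).2 hc
  rw [h1]
  exact h

theorem Dir_3 : ¬ IsSquare ((2 : ℕ) : ZMod 3) := by decide

theorem Dir_7 : ¬ IsSquare ((3 : ℕ) : ZMod 7) := by decide

theorem Dir_47 : ¬ IsSquare ((5 : ℕ) : ZMod 47) := by decide +kernel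

theorem Dir_53 : ¬ IsSquare ((2 : ℕ) : ZMod 53) := by decide +kernel

theorem infinite_q (k : ℕ) : Set.Infinite {q : ℕ | q.Prime ∧ 2 < q ∧ q % 2 ^ (k + 1) = 1 ∧
    ¬ IsSquare ((3 : ℕ) : ZMod q) ∧ ¬ IsSquare ((7 : ℕ) : ZMod q) ∧
    ¬ IsSquare ((47 : ℕ) : ZMod q) ∧ ¬ IsSquare ((53 : ℕ) : ZMod q)} := by
  have hco : Nat.Coprime (2 ^ (k + 3)) 52311 := by
    apply Nat.Coprime.pow_left
    norm_num
  obtain ⟨a, ha1, ha2⟩ := Nat.chineseRemainder hco 1 46112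
  have hN : 2 ^ (k + 3) * 52311 ≠ 0 := by positivity
  have hc1 : a.Coprime (2 ^ (k + 3)) := by
    have h1 := ha1.gcd_eq
    rw [Nat.gcd_one_left] at h1
    exact h1
  have hc2 : a.Coprime 52311 := by
    have h1 := ha2.gcd_eq
    have h2 : Nat.gcd 46112 52311 = 1 := by norm_num
    rw [h2] at h1
    exact h1
  have hinf := Nat.infinite_setOfPred_prime_and_modEq hN (Nat.Coprime.mul_right hc1 hc2)
  have hinf2 := hinf.sdiff (Set.finite_Iic 2)
  refine hinf2.mono ?_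
  rintro q ⟨⟨hqp, hqa⟩, hq2⟩
  have h2 : 2 < q := by
    by_contra h
    exact hq2 (Set.mem_Iic.2 (not_lt.1 h))
  have hq3 : q ≡ 1 [MOD 2 ^ (k + 3)] :=
    (hqa.of_mul_right _).trans ha1
  have hq4 : q ≡ 46112 [MOD 52311] :=
    (hqa.of_mul_left _).trans ha2
  have hq5 : q % 4 = 1 := by
    have h1 : (4 : ℕ) ∣ 2 ^ (k + 3) := ⟨2 ^ (k + 1), by ring⟩
    exact hq3.of_dvd h1
  have hq6 : q % 2 ^ (k + 1) = 1 := by
    have h1 : 2 ^ (k + 1) ∣ 2 ^ (k + 3) := ⟨4, by ring⟩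
    have h3 : q % 2 ^ (k + 1) = 1 % 2 ^ (k + 1) := hq3.of_dvd h1
    rw [h3]
    exact Nat.mod_eq_of_lt (Nat.one_lt_two_pow (by omega))
  have : Fact q.Prime := ⟨hqp⟩
  have : Fact (Nat.Prime 3) := ⟨by norm_num⟩
  have : Fact (Nat.Prime 7) := ⟨by norm_num⟩
  have : Fact (Nat.Prime 47) := ⟨by norm_num⟩
  have : Fact (Nat.Prime 53) := ⟨by norm_num⟩
  have m3 : q % 3 = 2 % 3 := by
    have h1 : q % 3 = 46112 % 3 := hq4.of_dvd (by norm_num)
    omega
  have m7 : q % 7 = 3 % 7 := by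
    have h1 : q % 7 = 46112 % 7 := hq4.of_dvd (by norm_num)
    omega
  have m47 : q % 47 = 5 % 47 := by
    have h1 : q % 47 = 46112 % 47 := hq4.of_dvd (by norm_num)
    omega
  have m53 : q % 53 = 2 % 53 := by
    have h1 : q % 53 = 46112 % 53 := hq4.of_dvd (by norm_num)
    omega
  refine ⟨hqp, h2, hq6, ?_, ?_, ?_, ?_⟩
  · exact Dir_nsq q 3 2 hq5 (by norm_num) m3 Dir_3
  · exact Dir_nsq q 7 3 hq5 (by norm_num) m7 Dir_7
  · exact Dir_nsq q 47 5 hq5 (by norm_num) m47 Dir_47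
  · exact Dir_nsq q 53 2 hq5 (by norm_num) m53 Dir_53

end Pool.Agent.H26.SG
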