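import Pool.Agent.H26.SG.Dir

/-!
Infinitely many primes modulo which given odd primes are not squares.
-/

set_option autoImplicit false

namespace Pool.Agent.H26.SG

lemma exists_nonres {p : ℕ} [Fact p.Prime] (h2 : p ≠ 2) :
    ∃ c : ℕ, ¬ IsSquare ((c : ℕ) : ZMod p) := by
  obtain ⟨a, ha⟩ := FiniteField.exists_nonsquare (F := ZMod p) (by rwa [ZMod.ringChar_zmod_n])
  refine ⟨a.val, ?_⟩
  rwa [ZMod.natCast_zmod_val]

lemma coprime_of_nonres {p c : ℕ} [Fact p.Prime] (h : ¬ IsSquare ((c : ℕ) : ZMod p)) :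
    c.Coprime p := by
  rw [Nat.coprime_comm]
  refine ((Fact.out : p.Prime).coprime_iff_not_dvd).mpr fun hd => h ?_
  rw [(ZMod.natCast_eq_zero_iff c p).mpr hd]
  exact ⟨0, by simp⟩

theorem infinite_q_of (n : ℕ) (P : Finset ℕ) (hP : ∀ p ∈ P, p.Prime ∧ p ≠ 2) :
    Set.Infinite {q : ℕ | q.Prime ∧ 2 < q ∧ q % 2 ^ (n + 1) = 1 ∧
      ∀ p ∈ P, ¬ IsSquare ((p : ℕ) : ZMod q)} := by
  classical
  have hex : ∀ p : ℕ, ∃ c : ℕ, p ∈ P → ¬ IsSquare ((c : ℕ) : ZMod p) := by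
    intro p
    by_cases hp : p ∈ P
    · have : Fact p.Prime := ⟨(hP p hp).1⟩
      obtain ⟨c, hc⟩ := exists_nonres (hP p hp).2
      exact ⟨c, fun _ => hc⟩
    · exact ⟨0, fun h => absurd h hp⟩
  choose c hc using hex
  have hpair : Set.Pairwise (P : Set ℕ) (Function.onFun Nat.Coprime (id : ℕ → ℕ)) := by
    intro p hp p' hp' hne
    exact (Nat.coprime_primes (hP p hp).1 (hP p' hp').1).mpr hne
  obtain ⟨b, hb⟩ := Nat.chineseRemainderOfFinset c id P (fun p hp => (hP p hp).1.ne_zero) hpair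
  have hbp : ∀ p ∈ P, b.Coprime p := by
    intro p hp
    have : Fact p.Prime := ⟨(hP p hp).1⟩
    have h1 := (hb p hp).gcd_eq
    have h2 := coprime_of_nonres (hc p hp)
    rw [Nat.coprime_iff_gcd_eq_one] at h2 ⊢
    simp only [id] at h1
    rw [h1]
    exact h2
  have hco : Nat.Coprime (2 ^ (n + 3)) (∏ p ∈ P, p) := by
    apply Nat.Coprime.pow_left
    apply Nat.Coprime.prod_right
    intro p hp
    exact (Nat.coprime_primes Nat.prime_two (hP p hp).1).mpr (hP p hp).2.symm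
  have hbprod : b.Coprime (∏ p ∈ P, p) := Nat.Coprime.prod_right hbp
  obtain ⟨a, ha1, ha2⟩ := Nat.chineseRemainder hco 1 b
  have hN : 2 ^ (n + 3) * (∏ p ∈ P, p) ≠ 0 :=
    mul_ne_zero (by positivity) (Finset.prod_ne_zero_iff.mpr fun p hp => (hP p hp).1.ne_zero)
  have hc1 : a.Coprime (2 ^ (n + 3)) := by
    have h1 := ha1.gcd_eq
    rw [Nat.gcd_one_left] at h1
    exact h1
  have hc2 : a.Coprime (∏ p ∈ P, p) := by
    have h1 := ha2.gcd_eq
    rw [Nat.coprime_iff_gcd_eq_one.mp hbprod] at h1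
    exact h1
  have hinf := Nat.infinite_setOfPred_prime_and_modEq hN (Nat.Coprime.mul_right hc1 hc2)
  have hinf2 := hinf.sdiff (Set.finite_Iic 2)
  refine hinf2.mono ?_
  rintro q ⟨⟨hqp, hqa⟩, hq2⟩
  have h2 : 2 < q := by
    by_contra h
    exact hq2 (Set.mem_Iic.2 (not_lt.1 h))
  have hq3 : q ≡ 1 [MOD 2 ^ (n + 3)] :=
    (hqa.of_mul_right _).trans ha1
  have hq4 : q ≡ b [MOD (∏ p ∈ P, p)] :=
    (hqa.of_mul_left _).trans ha2
  have hq5 : q % 4 = 1 := by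
    have h1 : (4 : ℕ) ∣ 2 ^ (n + 3) := ⟨2 ^ (n + 1), by ring⟩
    exact hq3.of_dvd h1
  have hq6 : q % 2 ^ (n + 1) = 1 := by
    have h1 : 2 ^ (n + 1) ∣ 2 ^ (n + 3) := ⟨4, by ring⟩
    have h3 : q % 2 ^ (n + 1) = 1 % 2 ^ (n + 1) := hq3.of_dvd h1
    rw [h3]
    exact Nat.mod_eq_of_lt (Nat.one_lt_two_pow (by omega))
  have : Fact q.Prime := ⟨hqp⟩
  refine ⟨hqp, h2, hq6, fun p hp => ?_⟩
  have : Fact p.Prime := ⟨(hP p hp).1⟩
  refine Dir_nsq q p (c p) hq5 (hP p hp).2 ?_ (hc p hp)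
  exact (hq4.of_dvd (Finset.dvd_prod_of_mem _ hp)).trans (hb p hp)

end Pool.Agent.H26.SG
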