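import Pool.Agent.H26.SG.DirG

/-!
Infinitely many primes modulo which given odd primes are not squares, with a condition modulo nine.
-/

set_option autoImplicit false

namespace Pool.Agent.H26.SG

theorem infinite_q_nine (n : ℕ) (P : Finset ℕ) (hP : ∀ p ∈ P, p.Prime ∧ p ≠ 2) :
    Set.Infinite {q : ℕ | q.Prime ∧ 2 < q ∧ q % 2 ^ (n + 1) = 1 ∧ q % 9 = 2 ∧
      ∀ p ∈ P, ¬ IsSquare ((p : ℕ) : ZMod q)} := by
  classical
  set P' := P.erase 3 with hP'
  have hex : ∀ p : ℕ, ∃ c : ℕ, p ∈ P → ¬ IsSquare ((c : ℕ) : ZMod p) := by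
    intro p
    by_cases hp : p ∈ P
    · have : Fact p.Prime := ⟨(hP p hp).1⟩
      obtain ⟨c, hc⟩ := exists_nonres (hP p hp).2
      exact ⟨c, fun _ => hc⟩
    · exact ⟨0, fun h => absurd h hp⟩
  choose c hc using hex
  have hsub : ∀ p ∈ P', p ∈ P := fun p hp => Finset.mem_of_mem_erase hp
  have h3 : ∀ p ∈ P', p ≠ 3 := fun p hp => Finset.ne_of_mem_erase hp
  have hpair : Set.Pairwise (P' : Set ℕ) (Function.onFun Nat.Coprime (id : ℕ → ℕ)) := by
    intro p hp p' hp' hne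
    exact (Nat.coprime_primes (hP p (hsub p hp)).1 (hP p' (hsub p' hp')).1).mpr hne
  obtain ⟨b, hb⟩ := Nat.chineseRemainderOfFinset c id P'
    (fun p hp => (hP p (hsub p hp)).1.ne_zero) hpair
  have hbp : ∀ p ∈ P', b.Coprime p := by
    intro p hp
    have : Fact p.Prime := ⟨(hP p (hsub p hp)).1⟩
    have h1 := (hb p hp).gcd_eq
    have h2 := coprime_of_nonres (hc p (hsub p hp))
    rw [Nat.coprime_iff_gcd_eq_one] at h2 ⊢
    simp only [id] at h1
    rw [h1]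
    exact h2
  have hco9 : Nat.Coprime 9 (∏ p ∈ P', p) := by
    apply Nat.Coprime.prod_right
    intro p hp
    have h1 : Nat.Coprime 3 p :=
      (Nat.coprime_primes Nat.prime_three (hP p (hsub p hp)).1).mpr (h3 p hp).symm
    have h2 : (9 : ℕ) = 3 ^ 2 := by norm_num
    rw [h2]
    exact Nat.Coprime.pow_left 2 h1
  obtain ⟨b', hb1, hb2⟩ := Nat.chineseRemainder hco9 2 b
  have hbprod : b.Coprime (∏ p ∈ P', p) := Nat.Coprime.prod_right hbp
  have hb'prod : b'.Coprime (9 * ∏ p ∈ P', p) := by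
    apply Nat.Coprime.mul_right
    · have h1 := hb1.gcd_eq
      have h2 : Nat.gcd 2 9 = 1 := by norm_num
      rw [h2] at h1
      exact h1
    · have h1 := hb2.gcd_eq
      rw [Nat.coprime_iff_gcd_eq_one.mp hbprod] at h1
      exact h1
  have hco : Nat.Coprime (2 ^ (n + 3)) (9 * ∏ p ∈ P', p) := by
    apply Nat.Coprime.pow_left
    apply Nat.Coprime.mul_right (by norm_num)
    apply Nat.Coprime.prod_right
    intro p hp
    exact (Nat.coprime_primes Nat.prime_two (hP p (hsub p hp)).1).mpr (hP p (hsub p hp)).2.symm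
  obtain ⟨a, ha1, ha2⟩ := Nat.chineseRemainder hco 1 b'
  have hN : 2 ^ (n + 3) * (9 * ∏ p ∈ P', p) ≠ 0 :=
    mul_ne_zero (by positivity) (mul_ne_zero (by norm_num)
      (Finset.prod_ne_zero_iff.mpr fun p hp => (hP p (hsub p hp)).1.ne_zero))
  have hc1 : a.Coprime (2 ^ (n + 3)) := by
    have h1 := ha1.gcd_eq
    rw [Nat.gcd_one_left] at h1
    exact h1
  have hc2 : a.Coprime (9 * ∏ p ∈ P', p) := by
    have h1 := ha2.gcd_eq
    rw [Nat.coprime_iff_gcd_eq_one.mp hb'prod] at h1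
    exact h1
  have hinf := Nat.infinite_setOfPred_prime_and_modEq hN (Nat.Coprime.mul_right hc1 hc2)
  have hinf2 := hinf.sdiff (Set.finite_Iic 2)
  refine hinf2.mono ?_
  rintro q ⟨⟨hqp, hqa⟩, hq2⟩
  have h2 : 2 < q := by
    by_contra h
    exact hq2 (Set.mem_Iic.2 (not_lt.1 h))
  have hq3 : q ≡ 1 [MOD 2 ^ (n + 3)] :=
    (hqa.of_mul_right _).trans ha1
  have hq4 : q ≡ b' [MOD (9 * ∏ p ∈ P', p)] :=
    (hqa.of_mul_left _).trans ha2
  have hq9 : q ≡ 2 [MOD 9] := (hq4.of_mul_right _).trans hb1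
  have hqb : q ≡ b [MOD (∏ p ∈ P', p)] := (hq4.of_mul_left _).trans hb2
  have hq5 : q % 4 = 1 := by
    have h1 : (4 : ℕ) ∣ 2 ^ (n + 3) := ⟨2 ^ (n + 1), by ring⟩
    exact hq3.of_dvd h1
  have hq6 : q % 2 ^ (n + 1) = 1 := by
    have h1 : 2 ^ (n + 1) ∣ 2 ^ (n + 3) := ⟨4, by ring⟩
    have h3 : q % 2 ^ (n + 1) = 1 % 2 ^ (n + 1) := hq3.of_dvd h1
    rw [h3]
    exact Nat.mod_eq_of_lt (Nat.one_lt_two_pow (by omega))
  have : Fact q.Prime := ⟨hqp⟩
  refine ⟨hqp, h2, hq6, hq9, fun p hp => ?_⟩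
  by_cases hp3 : p = 3
  · subst hp3
    have : Fact (Nat.Prime 3) := ⟨Nat.prime_three⟩
    have h9 : q % 9 = 2 := hq9
    exact Dir_nsq q 3 2 hq5 (by norm_num) (by omega) Dir_3
  · have hp' : p ∈ P' := Finset.mem_erase.mpr ⟨hp3, hp⟩
    have : Fact p.Prime := ⟨(hP p hp).1⟩
    refine Dir_nsq q p (c p) hq5 (hP p hp).2 ?_ (hc p hp)
    exact (hqb.of_dvd (Finset.dvd_prod_of_mem _ hp')).trans (hb p hp')

end Pool.Agent.H26.SG
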