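import Pool.Agent.H26.SG.Defs

/-!
Existence of the cyclic totally real field of degree `2 ^ k`.

PROOF. Let `C = CyclotomicField q ℚ`, Galois over the rationals with group isomorphic to
`(ZMod q)ˣ`, cyclic of order `q - 1` (`IsCyclotomicExtension.autEquivPow`, `IsCyclic (ZMod q)ˣ`).
`2 ^ (k + 1)` divides `q - 1`. Let `H` be the subgroup of order `(q - 1) / 2 ^ k`, which is even; `H`
contains the unique element of order two of the cyclic group, which is complex conjugation
`c` (`c ζ = ζ⁻¹`; `c ≠ 1` since `q > 2`, `c ^ 2 = 1`). Let `L = fixedField H`, of degree `2 ^ k`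
(`IntermediateField.finrank_fixedField_eq_card`, tower law). `L` is totally real: let
`φ : L →+* ℂ`; it extends to `ψ : C →+* ℂ`, and `conj ∘ ψ = ψ ∘ c` because both send `ζ` to the
inverse (conjugate) of the root of unity `ψ ζ`; for `x ∈ L` we have `c x = x`, so `φ x` is real.
(`NumberField.isTotallyReal_iff..`: every infinite place is real, `InfinitePlace.isReal_iff`,
`ComplexEmbedding.isReal_iff`.) Alternatively, `L` is contained in the maximal real subfield of `C`,
which Mathlib knows to be totally real (`NumberField.IsCMField` for cyclotomic fields,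
`maximalRealSubfield`), and subfields of totally real fields are totally real
(`IsTotallyReal.of_algebra`).
-/

set_option autoImplicit false
set_option linter.style.haveILetI false
open scoped Classical

open IsDedekindDomain NumberField WithZero

namespace Pool.Agent.H26.SG

open Pool.Agent.H10

theorem exists_field {q k : ℕ} [Fact q.Prime] (hq : q % 2 ^ (k + 1) = 1) (h2 : 2 < q) :
    ∃ (L : Type) (_ : Field L) (_ : NumberField L), IsTotallyReal L ∧
      Nonempty (L →+* CyclotomicField q ℚ) ∧ Module.finrank ℚ L = 2 ^ k := by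
  have hqp : q.Prime := Fact.out
  haveI : NeZero q := ⟨hqp.ne_zero⟩
  let C : Type := CyclotomicField q ℚ
  haveI : IsCyclotomicExtension {q} ℚ C := CyclotomicField.isCyclotomicExtension q ℚ
  haveI hcm : IsCMField C := IsCyclotomicExtension.Rat.isCMField (S := {q}) C ⟨q, rfl, h2⟩
  haveI hgal : IsGalois ℚ C := IsCyclotomicExtension.isGalois {q} ℚ C
  let κ : (C ≃ₐ[ℚ] C) ≃* (ZMod q)ˣ := IsCyclotomicExtension.Rat.galEquivZMod q C
  let P : Subgroup (ZMod q)ˣ := (powMonoidHom (2 ^ k) : (ZMod q)ˣ →* (ZMod q)ˣ).range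
  have hdvd : 2 ^ (k + 1) ∣ q - 1 := by
    have h1 := Nat.div_add_mod q (2 ^ (k + 1))
    rw [hq] at h1
    exact ⟨q / 2 ^ (k + 1), by omega⟩
  have hcard : Nat.card (ZMod q)ˣ = q - 1 := by
    rw [Nat.card_eq_fintype_card, ZMod.card_units_eq_totient, Nat.totient_prime hqp]
  have hPi : P.index = 2 ^ k := by
    have h1 : P.index = (Nat.card (ZMod q)ˣ).gcd (2 ^ k) := IsCyclic.index_powMonoidHom_range _ (2 ^ k)
    rw [h1, hcard, Nat.gcd_eq_right]
    exact (pow_dvd_pow 2 (Nat.le_succ k)).trans hdvd
  let H : Subgroup (C ≃ₐ[ℚ] C) := P.comap κ.toMonoidHom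
  have hHi : H.index = 2 ^ k := by
    rw [← hPi]
    exact Subgroup.index_comap_of_surjective P κ.surjective
  have hinv : ∀ y : (ZMod q)ˣ, y ^ 2 = 1 → y ∈ P := by
    intro y hy
    obtain ⟨g, hg⟩ := IsCyclic.exists_generator (α := (ZMod q)ˣ)
    obtain ⟨j, hj⟩ := (Submonoid.mem_powers_iff y g).1 (mem_powers_iff_mem_zpowers.2 (hg y))
    have h3 : orderOf g = q - 1 := by
      rw [orderOf_eq_card_of_forall_mem_zpowers hg, hcard]
    have h4 : orderOf g ∣ j * 2 := by
      rw [orderOf_dvd_iff_pow_eq_one, pow_mul, hj, hy]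
    rw [h3] at h4
    have h5 : 2 ^ k * 2 ∣ j * 2 := by
      rw [← pow_succ]
      exact hdvd.trans h4
    obtain ⟨i, hi⟩ := Nat.dvd_of_mul_dvd_mul_right (by norm_num) h5
    refine ⟨g ^ i, ?_⟩
    rw [powMonoidHom_apply, ← pow_mul, mul_comm i, ← hi, hj]
  let L : IntermediateField ℚ C := IntermediateField.fixedField H
  have hfr : Module.finrank ℚ L = 2 ^ k := by
    rw [IntermediateField.finrank_eq_fixingSubgroup_index, IntermediateField.fixingSubgroup_fixedField,
      hHi]
  have hLr : IsTotallyReal L.toSubfield := by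
    rw [isTotallyReal_iff_le_maximalRealSubfield]
    intro x hx
    let c : C ≃ₐ[ℚ] C := (IsCMField.complexConj C).restrictScalars ℚ
    have hc2 : c ^ 2 = 1 := by
      ext y
      exact IsCMField.complexConj_apply_apply C y
    have hcH : c ∈ H := by
      change κ c ∈ P
      refine hinv _ ?_
      rw [← map_pow, hc2, map_one]
    have hx1 : c x = x := (IntermediateField.mem_fixedField_iff H x).1 hx c hcH
    exact (IsCMField.complexConj_eq_self_iff C x).1 hx1
  refine ⟨L, inferInstance, inferInstance, ?_, ⟨algebraMap L C⟩, hfr⟩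
  haveI := hLr
  exact IsTotallyReal.ofRingEquiv (F := L.toSubfield) (K := L) (RingEquiv.refl _)

end Pool.Agent.H26.SG
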