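import Pool.Agent.H26.SG.Defs

/-!
A prime which is not a square modulo `q` has one prime above it.

PROOF. Let `C = CyclotomicField q ℚ`, `ζ` a primitive `q`-th root of unity, `L → C`; `C` becomes an
`L`-algebra. `q` is odd, as `ℓ` is not a square modulo `q`. If `k = 0` then `L` has degree one and
`𝓞 L` is the ring of integers: one prime over `ℓ`; or treat it together with the general case.
(1) There is `σ : C ≃ₐ[ℚ] C` with `σ ζ = ζ ^ ℓ` (`IsCyclotomicExtension.autEquivPow`, `ℓ` is prime to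
`q`). For `x ∈ 𝓞 C` the element `σ x - x ^ ℓ` lies in `ℓ 𝓞 C`: `𝓞 C` is generated by `ζ`
(`IsCyclotomicExtension.Rat.isIntegralClosure_adjoin_singleton_of_prime` or `ringOfIntegers'`/
`IsPrimitiveRoot.integralPowerBasis`), both sides of `σ x ≡ x ^ ℓ` modulo `ℓ` are ring
homomorphisms to `𝓞 C ⧸ (ℓ)` (Frobenius, `CharP` or `ExpChar`; if `ℓ 𝓞 C` is not the unit ideal,
which follows from the existence of a prime over `ℓ`) and agree at `ζ` (and on integers, by Fermat).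
Mathlib may have this: search for `IsArithFrobAt` / `arithFrobAt` for cyclotomic extensions.
(2) Let `P` be a prime of `𝓞 C` containing `ℓ`. Then `σ P = P`: for `x ∈ P`, `σ x ≡ x ^ ℓ ∈ P`, so
`σ P ⊆ P` and both are maximal.
(3) `L` is Galois over the rationals (its image is an intermediate field of an abelian extension) and
stable under `σ`; let `τ ∈ Gal(L/ℚ)` be the restriction of `σ` (`AlgEquiv.restrictNormalHom`). By (2)
`τ` fixes every prime of `𝓞 L` containing `ℓ` (each is the contraction of some `P`).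
(4) `τ` generates `Gal(L/ℚ)`: restriction `Gal(C/ℚ) → Gal(L/ℚ)` is surjective and `Gal(C/ℚ)` is
isomorphic to `(ZMod q)ˣ`, which is cyclic; let `g` be a generator, `ℓ = g ^ j` in `(ZMod q)ˣ`, `j` odd
because `ℓ` is not a square. So `Gal(L/ℚ)` is generated by the image `γ` of `g`, its order is `2 ^ k`,
and `τ = γ ^ j` with `j` odd is a generator too (`Nat.Coprime j (2 ^ k)`;
`Subgroup.zpowers` / `orderOf_pow_coprime`).
(5) `Gal(L/ℚ)` acts transitively on the primes of `𝓞 L` over `ℓ`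
(`Ideal.exists_map_eq_of_isGalois` or `Algebra.IsInvariant.exists_smul_of_under_eq`), and every
element is a power of `τ`, which fixes `v`. So `w = v`. (`(ℓ : 𝓞 L) ∈ v` and `∈ w` say that both lie
over the ideal `(ℓ)` of the integers.)
-/

set_option autoImplicit false
set_option linter.style.haveILetI false
open scoped Classical

open IsDedekindDomain NumberField WithZero
open scoped Pointwise

namespace Pool.Agent.H26.SG

open Pool.Agent.H10

private lemma Frob_cyc {G : Type*} [Group G] [IsCyclic G] (H : Subgroup G) (σ : G)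
    (hσ : ¬ ∃ τ : G, σ = τ * τ) {k : ℕ} (hH : H.index = 2 ^ k) (g : G) :
    ∃ h ∈ H, ∃ m : ℤ, g = h * σ ^ m := by
  obtain ⟨γ, hγ⟩ := IsCyclic.exists_generator (α := G)
  have hcomm : ∀ a b : G, a * b = b * a := by
    intro a b
    obtain ⟨i, rfl⟩ := Subgroup.mem_zpowers_iff.mp (hγ a)
    obtain ⟨j, rfl⟩ := Subgroup.mem_zpowers_iff.mp (hγ b)
    rw [← zpow_add, ← zpow_add, add_comm]
  haveI : H.Normal := ⟨fun n hn g => by
    rw [hcomm g n, mul_inv_cancel_right]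
    exact hn⟩
  have hpow : γ ^ (2 ^ k) ∈ H := by
    rw [← hH]
    exact Subgroup.pow_index_mem H γ
  obtain ⟨j, hj⟩ := Subgroup.mem_zpowers_iff.mp (hγ σ)
  obtain ⟨m, hm⟩ := Subgroup.mem_zpowers_iff.mp (hγ g)
  have hodd : ¬ Even j := by
    rintro ⟨i, hi⟩
    apply hσ
    exact ⟨γ ^ i, by rw [← zpow_add, ← hi, hj]⟩
  have hcop : IsCoprime j ((2 : ℤ) ^ k) := by
    apply IsCoprime.pow_right
    rw [Int.not_even_iff_odd] at hodd
    obtain ⟨i, hi⟩ := hodd
    exact ⟨1, -i, by rw [hi]; ring⟩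
  obtain ⟨a, b, hab⟩ := hcop
  refine ⟨(γ ^ (2 ^ k)) ^ (b * m), H.zpow_mem hpow _, a * m, ?_⟩
  rw [← hj, ← hm, ← zpow_natCast γ, ← zpow_mul, ← zpow_mul, ← zpow_add]
  congr 1
  push_cast
  linear_combination (-m) * hab

private lemma Frob_gen {q ℓ : ℕ} [Fact q.Prime] (hℓ : ℓ.Prime) (hns : ¬ IsSquare ((ℓ : ℕ) : ZMod q))
    {L : Type} [Field L] [NumberField L] {C : Type} [Field C] [NumberField C]
    [IsCyclotomicExtension {q} ℚ C] (f : L →+* C) {k : ℕ}
    (hk : Module.finrank ℚ L = 2 ^ k) (v w : HeightOneSpectrum (𝓞 L))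
    (hv : (ℓ : 𝓞 L) ∈ v.asIdeal) (hw : (ℓ : 𝓞 L) ∈ w.asIdeal) : v = w := by
  letI : Algebra L C := f.toAlgebra
  haveI : IsScalarTower ℚ L C := IsScalarTower.of_algebraMap_eq' (by
    apply Subsingleton.elim)
  haveI : NeZero q := ⟨(Fact.out : q.Prime).ne_zero⟩
  haveI : IsGalois ℚ C := IsCyclotomicExtension.isGalois {q} ℚ _
  have hℓq : ℓ ≠ q := by
    rintro rfl
    exact hns ⟨0, by simp⟩
  -- primes above
  obtain ⟨Q₁, hQ₁m, hQ₁⟩ := Ideal.exists_maximal_ideal_liesOver_of_isIntegral v.asIdeal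
    (S := 𝓞 C)
  obtain ⟨Q₂, hQ₂m, hQ₂⟩ := Ideal.exists_maximal_ideal_liesOver_of_isIntegral w.asIdeal
    (S := 𝓞 C)
  haveI := hQ₁m.isPrime
  haveI := hQ₂m.isPrime
  have hl1 : (ℓ : 𝓞 C) ∈ Q₁ := by
    have h1 := hQ₁.over
    have h2 : (ℓ : 𝓞 L) ∈ Q₁.under (𝓞 L) := by rw [← h1]; exact hv
    rw [Ideal.mem_comap] at h2
    simpa using h2
  have hl2 : (ℓ : 𝓞 C) ∈ Q₂ := by
    have h1 := hQ₂.over
    have h2 : (ℓ : 𝓞 L) ∈ Q₂.under (𝓞 L) := by rw [← h1]; exact hw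
    rw [Ideal.mem_comap] at h2
    simpa using h2
  have hund : ∀ Q : Ideal (𝓞 C), Q.IsPrime →
      (ℓ : 𝓞 C) ∈ Q → Q.under ℤ = Ideal.span {(ℓ : ℤ)} := by
    intro Q hQ hm
    have hp : Prime (ℓ : ℤ) := Nat.prime_iff_prime_int.mp hℓ
    have hmax : (Ideal.span {(ℓ : ℤ)}).IsMaximal :=
      PrincipalIdealRing.isMaximal_of_irreducible hp.irreducible
    refine (hmax.eq_of_le (Ideal.IsPrime.ne_top (Ideal.IsPrime.under ℤ Q)) ?_).symm
    rw [Ideal.span_singleton_le_iff_mem, Ideal.mem_comap]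
    simpa using hm
  have hu1 := hund Q₁ inferInstance hl1
  have hu2 := hund Q₂ inferInstance hl2
  obtain ⟨g, hg⟩ := Algebra.IsInvariant.exists_smul_of_under_eq ℤ (𝓞 C)
    Gal(C/ℚ) Q₁ Q₂ (hu1.trans hu2.symm)
  -- Frobenius
  have hne : Q₁ ≠ ⊥ := by
    rintro rfl
    rw [Ideal.mem_bot] at hl1
    exact hℓ.ne_zero (by exact_mod_cast hl1)
  haveI : Finite (𝓞 C ⧸ Q₁) := Ideal.finiteQuotientOfFreeOfNeBot Q₁ hne
  obtain ⟨σ, hσ⟩ := IsArithFrobAt.exists_of_isInvariant ℤ Gal(C/ℚ) Q₁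
  have hstab : σ • Q₁ = Q₁ := MulAction.mem_stabilizer_iff.mp hσ.mem_stabilizer
  have hcard : Nat.card (ℤ ⧸ Q₁.under ℤ) = ℓ := by
    rw [hu1]
    exact Int.card_ideal_quot ℓ
  have hζ := IsCyclotomicExtension.zeta_spec q ℚ C
  set ζ := IsCyclotomicExtension.zeta q ℚ C with hζd
  haveI : NeZero q := ⟨(Fact.out : q.Prime).ne_zero⟩
  set z : 𝓞 C := hζ.toInteger with hz
  have hzq : z ^ q = 1 := by
    apply NumberField.RingOfIntegers.ext
    exact hζ.pow_eq_one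
  have hqQ : ((q : ℕ) : 𝓞 C) ∉ Q₁ := by
    intro h
    have h2 : (q : ℤ) ∈ Q₁.under ℤ := by
      rw [Ideal.mem_comap]
      simpa using h
    rw [hu1, Ideal.mem_span_singleton] at h2
    have h3 : ℓ ∣ q := by exact_mod_cast h2
    exact hℓq ((Nat.prime_dvd_prime_iff_eq hℓ Fact.out).mp h3)
  have hfrob := AlgHom.IsArithFrobAt.apply_of_pow_eq_one hσ hzq hqQ
  rw [hcard] at hfrob
  have hσζ : σ ζ = ζ ^ ℓ := by
    have h1 := congrArg (algebraMap (𝓞 C) C) hfrob
    rw [map_pow] at h1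
    exact h1
  have hnotsq : ¬ ∃ τ : Gal(C/ℚ), σ = τ * τ := by
    rintro ⟨τ, hτ⟩
    have h1 : (τ ζ) ^ q = 1 := by rw [← map_pow, hζ.pow_eq_one, map_one]
    obtain ⟨i, hi, he⟩ := hζ.eq_pow_of_pow_eq_one h1
    have h2 : ζ ^ (i * i) = ζ ^ ℓ := by
      rw [← hσζ, hτ, AlgEquiv.mul_apply, ← he, map_pow, ← he, ← pow_mul]
    have h3 : i * i ≡ ℓ [MOD q] := by
      have hq0 : 0 < q := (Fact.out : q.Prime).pos
      refine hζ.pow_inj (Nat.mod_lt _ hq0) (Nat.mod_lt _ hq0) ?_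
      have hmod : ∀ n : ℕ, ζ ^ (n % q) = ζ ^ n := by
        intro n
        conv_rhs => rw [← Nat.mod_add_div n q, pow_add, pow_mul, hζ.pow_eq_one, one_pow, mul_one]
      rw [hmod, hmod]
      exact h2
    have h4 := (ZMod.natCast_eq_natCast_iff _ _ q).mpr h3
    apply hns
    exact ⟨(i : ZMod q), by rw [← h4]; push_cast; rfl⟩
  haveI : IsCyclic Gal(C/ℚ) := by
    have e := IsCyclotomicExtension.autEquivPow C
      (Polynomial.cyclotomic.irreducible_rat (Fact.out : q.Prime).pos)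
    exact isCyclic_of_surjective e.symm e.symm.surjective
  set K : IntermediateField ℚ C :=
    (IsScalarTower.toAlgHom ℚ L C).fieldRange with hK
  have hidx : K.fixingSubgroup.index = 2 ^ k := by
    rw [← IntermediateField.finrank_eq_fixingSubgroup_index, ← hk]
    exact (AlgEquiv.ofInjectiveField
      (IsScalarTower.toAlgHom ℚ L C)).toLinearEquiv.finrank_eq.symm
  obtain ⟨h, hh, m, hgm⟩ := Frob_cyc K.fixingSubgroup σ hnotsq hidx g
  have hstab' : (σ ^ m) • Q₁ = Q₁ := by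
    have : σ ^ m ∈ MulAction.stabilizer Gal(C/ℚ) Q₁ :=
      Subgroup.zpow_mem _ (MulAction.mem_stabilizer_iff.mpr hstab) _
    exact MulAction.mem_stabilizer_iff.mp this
  have hQ : Q₂ = h • Q₁ := by rw [hg, hgm, mul_smul, hstab']
  have hfix : ∀ x : 𝓞 L, h • (algebraMap (𝓞 L) (𝓞 C) x) =
      algebraMap (𝓞 L) (𝓞 C) x := by
    intro x
    apply NumberField.RingOfIntegers.ext
    have h1 := (IntermediateField.mem_fixingSubgroup_iff K h).mp hh
      (algebraMap L C (x : L)) ⟨(x : L), rfl⟩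
    exact h1
  apply HeightOneSpectrum.ext
  rw [hQ₁.over, hQ₂.over, hQ]
  ext x
  rw [Ideal.mem_comap, Ideal.mem_comap]
  conv_rhs => rw [← hfix x]
  exact (Ideal.smul_mem_pointwise_smul_iff).symm

theorem unique_l {q ℓ : ℕ} [Fact q.Prime] (hℓ : ℓ.Prime) (hns : ¬ IsSquare ((ℓ : ℕ) : ZMod q))
    {L : Type} [Field L] [NumberField L] (hL : Nonempty (L →+* CyclotomicField q ℚ)) {k : ℕ}
    (hk : Module.finrank ℚ L = 2 ^ k) (v w : HeightOneSpectrum (𝓞 L))
    (hv : (ℓ : 𝓞 L) ∈ v.asIdeal) (hw : (ℓ : 𝓞 L) ∈ w.asIdeal) : v = w := by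
  obtain ⟨f⟩ := hL
  haveI : NeZero ((q : ℕ) : ℚ) := ⟨by exact_mod_cast (Fact.out : q.Prime).ne_zero⟩
  haveI : IsCyclotomicExtension {q} ℚ (CyclotomicField q ℚ) := by
    have h1 := CyclotomicField.isCyclotomicExtension q ℚ
    have e : CyclotomicField.algebra q ℚ =
      (DivisionRing.toRatAlgebra : Algebra ℚ (CyclotomicField q ℚ)) := Subsingleton.elim _ _
    rw [← e]
    exact h1
  exact Frob_gen hℓ hns f hk v w hv hw

end Pool.Agent.H26.SG
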