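import Pool.Agent.H10.GrHen
import Pool.Agent.H26.SG.Iso

/-!
Solubility above two of the classes `(1, d, d)` for units `d`.

PROOF.

`exists_small_root`: `exists_sq_add_self` (file `Pool.Agent.H10.GrHen`) gives `t` with
`t ^ 2 + t = c`, that is `t * (t + 1) = c` with `V c < 1`. If `V t < 1` we are done. Otherwise
`V (t + 1) < 1` (else `V c = V t * V (t + 1) ≥ 1`), and `t' = -1 - t` has `t' ^ 2 + t' = t ^ 2 + t`
and `V t' = V (t + 1) < 1` (`Valuation.map_neg`).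

`two_sol`. We have `V s = 1`: `V (s ^ 2) = V (a - 4 κ) = 1` because `V (4 κ) < 1`. `V h = 1`
because `V (h ^ 2) = V (d + (h ^ 2 - d)) = 1`. Put `δ = (d - h ^ 2) / (s * h)`, `V δ < 1`, and
`m = κ * δ / (s * h)`, `V m < 1`. Let `t` be the small root of `t ^ 2 + t = -m`
(`exists_small_root`), and `w₁ = -t`, so `w₁ - w₁ ^ 2 = m`, `V w₁ < 1`, `V (1 - w₁) = 1`. Put
`ε = δ / (1 - w₁)`, so `V ε < 1`. Then
  (*)  `κ * ε ^ 2 - s * h * ε + (d - h ^ 2) = 0`:
multiply by `(1 - w₁) ^ 2`: `κ δ ^ 2 - s h δ (1 - w₁) + (d - h ^ 2) (1 - w₁) ^ 2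
  = s h δ (m - (1 - w₁) + (1 - w₁) ^ 2) = 0` as `d - h ^ 2 = s h δ` and `m = w₁ (1 - w₁)`.
Next `V (α * ε ^ 2 / d) < 1`; let `t₂` be a root of `t₂ ^ 2 + t₂ = -(α * ε ^ 2 / d)` and
`w = -t₂`, so `w ^ 2 - w = -(α * ε ^ 2 / d)`, i.e. `d * (w - w ^ 2) = α * ε ^ 2`.
The point is `z₀ = ε`, `z₁ = s * ε + 2 * h`, `z₂ = 2`, `z₃ = 2 * (2 * w - 1)`; `z₂ ≠ 0`.
Equation one: `1 * z₁ ^ 2 + 0 = d * 4 + a * ε ^ 2` with `a = s ^ 2 + 4 κ`: the difference is
`4 (s h ε + h ^ 2 - d - κ ε ^ 2) = 0` by (*).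
Equation two: `1 * z₁ ^ 2 + 0 = d * z₃ ^ 2 + (a + 16 α) * ε ^ 2`: here
`d * z₃ ^ 2 = 4 d (1 - 4 (w - w ^ 2)) = 4 d - 16 α ε ^ 2`, so the right hand side is
`4 d + a ε ^ 2` and the claim is equation one.
-/

set_option autoImplicit false
set_option linter.style.haveILetI false

open WithZero

namespace Pool.Agent.H26.SG

open Pool.Agent.H10

variable {F : Type*} [Field F] [Valued F (WithZero (Multiplicative ℤ))] [CompleteSpace F]

theorem exists_small_root {c : F} (hc : Valued.v c < 1) :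
    ∃ t : F, t ^ 2 + t = c ∧ Valued.v t < 1 := by
  obtain ⟨t, ht⟩ := exists_sq_add_self hc
  by_cases h : Valued.v t < 1
  · exact ⟨t, ht, h⟩
  · have h1 : Valued.v (t + 1) < 1 := by
      by_contra h2
      have h3 : Valued.v c = Valued.v t * Valued.v (t + 1) := by
        rw [← map_mul, ← ht]; congr 1; ring
      rw [h3] at hc
      exact absurd hc (not_lt.mpr (one_le_mul (not_lt.mp h) (not_lt.mp h2)))
    refine ⟨-(t + 1), by rw [← ht]; ring, ?_⟩
    rwa [Valuation.map_neg]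

theorem two_sol (h20 : (2 : F) ≠ 0) (h4 : Valued.v (4 : F) < 1) {a s κ α d h : F}
    (ha : a = s ^ 2 + 4 * κ) (hκ : Valued.v κ ≤ 1) (hα : Valued.v α ≤ 1)
    (hva : Valued.v a = 1) (hd : Valued.v d = 1) (hh : Valued.v (h ^ 2 - d) < 1) :
    CPt 0 a (a + 16 * α) 1 d d := by
  have h4κ : Valued.v (4 * κ) < 1 := by
    rw [map_mul]
    exact mul_lt_one_of_lt_of_le h4 hκ
  have hs2 : Valued.v (s ^ 2) = 1 := by
    have e : s ^ 2 = a - 4 * κ := by rw [ha]; ring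
    rw [e, Valuation.map_sub_eq_of_lt_left _ (by rw [hva]; exact h4κ), hva]
  have hs : Valued.v s = 1 := by
    rw [map_pow] at hs2
    exact (pow_eq_one_iff_of_nonneg zero_le two_ne_zero).mp hs2
  have hh2 : Valued.v (h ^ 2) = 1 := by
    have e : h ^ 2 = d + (h ^ 2 - d) := by ring
    rw [e, Valuation.map_add_eq_of_lt_left _ (by rw [hd]; exact hh), hd]
  have hhv : Valued.v h = 1 := by
    rw [map_pow] at hh2
    exact (pow_eq_one_iff_of_nonneg zero_le two_ne_zero).mp hh2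
  have hs0 : s ≠ 0 := by rintro rfl; simp at hs
  have hh0 : h ≠ 0 := by rintro rfl; simp at hhv
  have hd0 : d ≠ 0 := by rintro rfl; simp at hd
  obtain ⟨δ, hδ⟩ : ∃ δ, δ = (d - h ^ 2) / (s * h) := ⟨_, rfl⟩
  have hδv : Valued.v δ < 1 := by
    rw [hδ, map_div₀, map_mul, hs, hhv, mul_one, div_one, Valuation.map_sub_swap]
    exact hh
  have hδe : d - h ^ 2 = s * h * δ := by rw [hδ]; field_simp
  obtain ⟨m, hm⟩ : ∃ m, m = κ * δ / (s * h) := ⟨_, rfl⟩
  have hmv : Valued.v m < 1 := by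
    rw [hm, map_div₀, map_mul, map_mul, hs, hhv, mul_one, div_one]
    exact lt_of_le_of_lt (mul_le_of_le_one_left' hκ) hδv
  have hme : κ * δ = s * h * m := by rw [hm]; field_simp
  obtain ⟨t, ht, htv⟩ := exists_small_root (c := -m) (by rwa [Valuation.map_neg])
  have h1t : Valued.v (1 + t) = 1 := by
    rw [Valuation.map_add_eq_of_lt_left _ (by rw [map_one]; exact htv), map_one]
  have h1t0 : 1 + t ≠ 0 := by
    intro h0
    rw [h0, map_zero] at h1t
    exact zero_ne_one h1t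
  obtain ⟨ε, hε⟩ : ∃ ε, ε = δ / (1 + t) := ⟨_, rfl⟩
  have hεv : Valued.v ε < 1 := by
    rw [hε, map_div₀, h1t, div_one]
    exact hδv
  have hεe : δ = ε * (1 + t) := by rw [hε]; field_simp
  have key : κ * ε ^ 2 - s * h * ε + (d - h ^ 2) = 0 := by
    have h2 : (1 + t) ^ 2 ≠ 0 := pow_ne_zero 2 h1t0
    have h3 : (1 + t) ^ 2 * (κ * ε ^ 2 - s * h * ε + (d - h ^ 2)) = 0 := by
      have e1 : (1 + t) ^ 2 * (κ * ε ^ 2 - s * h * ε + (d - h ^ 2)) =
          κ * (ε * (1 + t)) * (ε * (1 + t)) - s * h * (ε * (1 + t)) * (1 + t)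
            + (d - h ^ 2) * (1 + t) ^ 2 := by ring
      rw [e1, ← hεe, hδe, hme]
      have e2 : m = -(t ^ 2 + t) := by rw [ht]; ring
      rw [e2]; ring
    exact (mul_eq_zero.mp h3).resolve_left h2
  have hcv : Valued.v (-(α * ε ^ 2 / d)) < 1 := by
    rw [Valuation.map_neg, map_div₀, hd, div_one, map_mul, map_pow]
    refine lt_of_le_of_lt (mul_le_of_le_one_left' hα) ?_
    exact pow_lt_one₀ zero_le hεv two_ne_zero
  obtain ⟨u, hu, -⟩ := exists_small_root hcv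
  have hue : α * ε ^ 2 = -(d * (u ^ 2 + u)) := by
    rw [hu]; field_simp
  refine ⟨ε, s * ε + 2 * h, 2, 2 * (2 * u + 1), Or.inr (Or.inr (Or.inl h20)), ?_, ?_⟩
  · rw [ha]
    linear_combination (-4) * key
  · rw [ha]
    linear_combination (-4) * key - 16 * hue

end Pool.Agent.H26.SG
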