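import Pool.Agent.H26.SG.Dat
import Pool.Agent.H26.SG.TwoSol
import Pool.Agent.H10.GrPlace

/-!
Local squares.
-/

set_option autoImplicit false
set_option linter.style.haveILetI false
open scoped Classical

open WeierstrassCurve IsDedekindDomain NumberField WithZero

namespace Pool.Agent.H26.SG

open Pool.Agent.H10

variable {L : Type} [Field L] [NumberField L] 

/-- The elements which are squares in the completion at `w`. -/
noncomputable def locSq (w : HeightOneSpectrum (𝓞 L)) : Subgroup Lˣ :=
  ((powMonoidHom 2 : (w.adicCompletion L)ˣ →* (w.adicCompletion L)ˣ).range).comap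
    (Units.map (algebraMap L (w.adicCompletion L)).toMonoidHom)

lemma mem_locSq {w : HeightOneSpectrum (𝓞 L)} {x : Lˣ} :
    x ∈ locSq w ↔ IsSquare (algebraMap L (w.adicCompletion L) (x : L)) := by
  constructor
  · rintro ⟨y, hy⟩
    have h1 := congrArg Units.val hy
    refine ⟨(y : w.adicCompletion L), ?_⟩
    have h2 : (y : w.adicCompletion L) ^ 2 = algebraMap L (w.adicCompletion L) (x : L) := by
      simpa using h1
    rw [← h2, pow_two]
  · rintro ⟨y, hy⟩
    have hy0 : y ≠ 0 := by
      rintro rfl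
      rw [mul_zero, map_eq_zero] at hy
      exact x.ne_zero hy
    refine ⟨Units.mk0 y hy0, ?_⟩
    apply Units.ext
    simpa [pow_two] using hy.symm

lemma sq_le_locSq (w : HeightOneSpectrum (𝓞 L)) : sq L ≤ locSq w := by
  intro x hx
  rw [mem_sq] at hx
  rw [mem_locSq]
  exact hx.map _

theorem exists_local_unit (w : HeightOneSpectrum (𝓞 L)) {d : Lˣ} (hd : d ∈ evenAt w) :
    ∃ z : w.adicCompletion L, z ≠ 0 ∧
      Valued.v (algebraMap L (w.adicCompletion L) (d : L) * z ^ 2) = 1 := by
  obtain ⟨j, hj⟩ := mem_evenAt.mp hd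
  obtain ⟨z, hz⟩ := w.valuedAdicCompletion_surjective L (exp (-j))
  have hz0 : z ≠ 0 := by
    rintro rfl
    rw [map_zero] at hz
    exact exp_ne_zero hz.symm
  refine ⟨z, hz0, ?_⟩
  rw [map_mul, map_pow, hz, valued_algebraMap,
    ← exp_log ((Valuation.ne_zero_iff (w.valuation L)).mpr d.ne_zero), hj, ← exp_nsmul, ← exp_add,
    ← exp_zero]
  congr 1
  simp only [nsmul_eq_mul, Nat.cast_ofNat]
  ring

end Pool.Agent.H26.SG
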