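import Pool.Agent.H26.SG.ClsTriv

/-!
Number fields without classes.
-/

set_option autoImplicit false
set_option linter.style.haveILetI false
open scoped Classical

open IsDedekindDomain NumberField WithZero

namespace Pool.Agent.H26.SG

open Pool.Agent.H10

/-- Every element with even valuations which is totally positive, or which at all primes above two
is up to squares the square of a unit modulo four, is a square. -/
def NC (L : Type) [Field L] [NumberField L] : Prop :=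
  (∀ x : L, x ≠ 0 → (∀ w : HeightOneSpectrum (𝓞 L), Even (log (w.valuation L x))) →
    (∀ φ : L →+* ℝ, 0 < φ x) → IsSquare x) ∧
  ∀ x : L, x ≠ 0 → (∀ w : HeightOneSpectrum (𝓞 L), Even (log (w.valuation L x))) →
    FourSq x → IsSquare x

variable {L : Type} [Field L] [NumberField L]

lemma NC.clsA_le (h : NC L) : clsA (∅ : Set (L →+* ℝ)) ≤ sq L := by
  intro x hx
  rw [mem_clsA] at hx
  exact mem_sq.mpr (h.1 x x.ne_zero hx.1 fun φ => hx.2 φ (Set.notMem_empty φ))

lemma NC.clsB_le (h : NC L) (S : Set (L →+* ℝ)) : clsB S ≤ sq L := by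
  intro x hx
  exact mem_sq.mpr (h.2 x x.ne_zero hx.1 hx.2.1)

theorem NC.of_units (hcl : Odd (NumberField.classNumber L))
    (hU : ∀ u : (𝓞 L)ˣ, (∀ φ : L →+* ℝ, 0 < φ ((u : 𝓞 L) : L)) → IsSquare u)
    (hV : ∀ u : (𝓞 L)ˣ, (∃ s : 𝓞 L, (4 : 𝓞 L) ∣ (u : 𝓞 L) - s ^ 2) → IsSquare u) : NC L := by
  refine ⟨fun x hx hev hpos => ?_, fun x hx hev h4 => ?_⟩
  · have h1 : Units.mk0 x hx ∈ clsA (∅ : Set (L →+* ℝ)) :=
      mem_clsA.mpr ⟨hev, fun φ _ => hpos φ⟩
    exact mem_sq.mp (clsA_triv hcl hU h1)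
  · have h1 : Units.mk0 x hx ∈ clsB (∅ : Set (L →+* ℝ)) :=
      mem_clsB.mpr ⟨hev, h4, fun φ hφ => absurd hφ (Set.notMem_empty φ)⟩
    exact mem_sq.mp (clsB_triv hcl hV ∅ h1)

end Pool.Agent.H26.SG
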