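import Pool.Agent.H26.SG.QDefs

/-!
Cocycles with values in `{0, T}`.

PROOF. Write `Ω = AlgebraicClosure L`, `hE = h.bc Ω : IsTw (V.baseChange Ω) _ _`, `T = hE.T`,
`i = inv_bc L V : Inv L (V.baseChange Ω)`. Let `K₁ = {f : SelZ L V // ∀ σ, sg (f.1 σ) = 1}`. For
`f ∈ K₁` all values are `0` or `T` (`sg_one hE` with `mem_selZ`), and `kum_T hE i hf hv` (file
`Pool.Agent.H73.IS.Kum`; `hf : IsCoc i f` from `isCocycle_iff`, see `i2` in `Pool.Agent.H73.IS.I2`)
gives `r : Ω`, `d : L`, `r ≠ 0`, `r ^ 2 = d`, with `σ r = r` if `f σ = 0` and `σ r = -r` if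
`f σ = T`. By `loc_b` (file `Pool.Agent.H73.IS.Loc`) `d` is in the group
`Q = qGrp (-2 * a) (a ^ 2 - 4 * b) _ _`, `d ≠ 0` as `r ≠ 0`. Choose `t : K₁ → Lˣ` with
`∃ r ≠ 0, r ^ 2 = t f ∧ ∀ σ, (f σ = 0 → σ r = r) ∧ (f σ = T → σ r = -r)`, and let
`F f = QuotientGroup.mk (t f) : Lˣ ⧸ sq L`.
* `F` is injective: if `F f = F g` then `t f * t g` is a square `y * y`
  (`QuotientGroup.eq`, `mem_sq`), so `r * r' = ± y` is fixed by every `σ` and so
  `σ r / r = σ r' / r'`; if `f σ = 0` then `σ r = r`, so `σ r' = r'`, so `g σ = 0` (otherwise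
  `σ r' = -r' ≠ r'`); and symmetrically. So `f σ = g σ` for all `σ`.
* The range of `F` is the image of `Q`: `F f` is in it; for `x ∈ Q` `exists_coc` (file
  `Pool.Agent.H86.IG.Coc`) gives a cocycle `f`, locally trivial, and `r` with
  `(f σ = 0 ∧ σ r = r) ∨ (f σ = T ∧ σ r = -r)`; its values are killed by two (`T_add_T`) and have
  `sg = 1` (`sg_zero`, `sg_T`), so `f ∈ K₁`, and `t f * x` is a square: with `r'` belonging to
  `t f`, `r * r'` is fixed by all `σ`, so it is in `L` (`fixed_of_galois` as in `triple_sq` in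
  `Pool.Agent.H26.SG.CardA`), `r * r' = algebraMap y` and `t f * x = y ^ 2`.
* So `Nat.card K₁ = Nat.card (Q.map (QuotientGroup.mk' (sq L)))`, which is `(sq L).relIndex Q`
  (`Subgroup.relIndex_ker` with `QuotientGroup.ker_mk'`), see the end of `card_selZ` in
  `Pool.Agent.H26.SG.CardA`.
-/

set_option autoImplicit false
set_option linter.style.haveILetI false
open scoped Classical

open WeierstrassCurve IsDedekindDomain NumberField WithZero

namespace Pool.Agent.H26.SG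

open Pool.Agent.H10

open H73IS

variable {L : Type} [Field L] [NumberField L] {V : WeierstrassCurve L} {a b : L}

omit [NumberField L] in
lemma QCardA_isSq {x y : Lˣ} (hq : (x⁻¹ * y : Lˣ) ∈ sq L) : IsSquare ((x : L) * (y : L)) := by
  obtain ⟨z, hz⟩ := mem_sq.mp hq
  refine ⟨z * x, ?_⟩
  have hx : (x : L) ≠ 0 := x.ne_zero
  rw [Units.val_mul, Units.val_inv_eq_inv_val] at hz
  have : (x : L) * y = ((x : L)⁻¹ * y) * (x : L) ^ 2 := by field_simp
  rw [this, hz]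
  ring

omit [NumberField L] in
lemma QCardA_isSq' {x y : Lˣ} (hq : IsSquare ((x : L) * (y : L))) : (x⁻¹ * y : Lˣ) ∈ sq L := by
  obtain ⟨z, hz⟩ := hq
  refine mem_sq.mpr ⟨z * (x : L)⁻¹, ?_⟩
  have hx : (x : L) ≠ 0 := x.ne_zero
  rw [Units.val_mul, Units.val_inv_eq_inv_val]
  have : (x : L)⁻¹ * y = ((x : L) * y) * ((x : L)⁻¹ * (x : L)⁻¹) := by field_simp
  rw [this, hz]
  ring

/-- A root is attached to a cochain with values in `{0, T}`. -/
def QCardA_At (h : IsTw V a b) (f : Coch L V) (r : AlgebraicClosure L) : Prop :=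
  ∀ σ : AlgebraicClosure L ≃ₐ[L] AlgebraicClosure L, (f σ = 0 ∧ σ r = r) ∨
      (f σ = (h.bc (AlgebraicClosure L)).T ∧ σ r = -r)

lemma QCardA_ne (h : IsTw V a b) {r : AlgebraicClosure L} (hr : r ≠ 0) : r ≠ -r := by
  intro h0
  have h3 : (2 : AlgebraicClosure L) * r = 0 := by linear_combination h0
  rcases mul_eq_zero.1 h3 with h4 | h4
  · exact (h.bc (AlgebraicClosure L)).two h4
  · exact hr h4

lemma QCardA_T (h : IsTw V a b) : (h.bc (AlgebraicClosure L)).T ≠ 0 :=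
  Affine.Point.some_ne_zero _

lemma QCardA_uniq (h : IsTw V a b) {f g : Coch L V} {r r' : AlgebraicClosure L} {d d' : L}
    (hr : r ≠ 0) (hr' : r' ≠ 0) (q : r ^ 2 = algebraMap L (AlgebraicClosure L) d)
    (q' : r' ^ 2 = algebraMap L (AlgebraicClosure L) d') (hf : QCardA_At h f r)
    (hg : QCardA_At h g r') (hs : IsSquare (d * d')) : f = g := by
  obtain ⟨y, hy⟩ := hs
  have h1 : (r * r') ^ 2 = (algebraMap L (AlgebraicClosure L) y) ^ 2 := by
    rw [mul_pow, q, q', ← map_mul, hy, map_mul, pow_two]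
  have h2 : ∀ σ : AlgebraicClosure L ≃ₐ[L] AlgebraicClosure L, σ (r * r') = r * r' := by
    intro σ
    rcases sq_eq_sq_iff_eq_or_eq_neg.mp h1 with h | h
    · rw [h, σ.commutes]
    · rw [h, map_neg, σ.commutes]
  have hne := QCardA_ne h (mul_ne_zero hr hr')
  funext σ
  have h3 := h2 σ
  rw [map_mul] at h3
  rcases hf σ with ⟨e1, e2⟩ | ⟨e1, e2⟩ <;> rcases hg σ with ⟨e3, e4⟩ | ⟨e3, e4⟩
  · rw [e1, e3]
  · exact absurd (by rw [e2, e4] at h3; linear_combination -h3) hne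
  · exact absurd (by rw [e2, e4] at h3; linear_combination -h3) hne
  · rw [e1, e3]

lemma QCardA_sq (h : IsTw V a b) {f : Coch L V} {r r' : AlgebraicClosure L} {d d' : L}
    (q : r ^ 2 = algebraMap L (AlgebraicClosure L) d)
    (q' : r' ^ 2 = algebraMap L (AlgebraicClosure L) d') (hf : QCardA_At h f r)
    (hg : QCardA_At h f r') : IsSquare (d * d') := by
  have hT := QCardA_T h
  obtain ⟨y, hy⟩ := fixed_of_galois (k := L) (r * r') (fun σ => by
    rw [map_mul]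
    rcases hf σ with ⟨e1, e2⟩ | ⟨e1, e2⟩ <;> rcases hg σ with ⟨e3, e4⟩ | ⟨e3, e4⟩
    · rw [e2, e4]
    · exact absurd (e3.symm.trans e1) hT
    · exact absurd (e1.symm.trans e3) hT
    · rw [e2, e4]; ring)
  refine ⟨y, ?_⟩
  apply (algebraMap L (AlgebraicClosure L)).injective
  rw [map_mul, map_mul, hy, ← q, ← q']
  ring

theorem card_kerT (h : IsTw V a b) :
    Nat.card {f : SelZ L V // ∀ σ, sg (f.1 σ) = 1} =
      (sq L).relIndex (qGrp (-2 * a) (a ^ 2 - 4 * b) h.hd (dual_d h.hb)) := by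
  set Q := qGrp (-2 * a) (a ^ 2 - 4 * b) h.hd (dual_d h.hb) with hQ
  have hE := h.bc (AlgebraicClosure L)
  have ex : ∀ f : {f : SelZ L V // ∀ σ, sg (f.1 σ) = 1}, ∃ (t : Lˣ) (r : AlgebraicClosure L),
      r ≠ 0 ∧ r ^ 2 = algebraMap L (AlgebraicClosure L) (t : L) ∧ QCardA_At h f.1.1 r := by
    intro f
    obtain ⟨hf1, hf2, hf3⟩ := mem_selZ.mp f.1.2
    have hv : ∀ σ, f.1.1 σ = 0 ∨ f.1.1 σ = (h.bc (AlgebraicClosure L)).T := fun σ =>
      sg_one (h.bc (AlgebraicClosure L)) (hf3 σ) (f.2 σ)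
    obtain ⟨r, d, hr, hd, hs⟩ := kum_T (h.bc (AlgebraicClosure L)) (inv_bc L V)
      ((isCocycle_iff f.1.1).mp hf1) hv
    have d0 : d ≠ 0 := by
      intro h0
      rw [h0, map_zero] at hd
      exact hr (pow_eq_zero_iff two_ne_zero |>.1 hd)
    refine ⟨Units.mk0 d d0, r, hr, hd, fun σ => ?_⟩
    rcases hv σ with h3 | h3
    · exact Or.inl ⟨h3, (hs σ).1 h3⟩
    · exact Or.inr ⟨h3, (hs σ).2 h3⟩
  choose t r hr hd hs using ex
  have tsel : ∀ f, t f ∈ Q := by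
    intro f
    obtain ⟨hf1, hf2, hf3⟩ := mem_selZ.mp f.1.2
    exact mem_qGrp.mpr (loc_b h hf2 (hr f) (hd f) (hs f))
  set F : {f : SelZ L V // ∀ σ, sg (f.1 σ) = 1} → Lˣ ⧸ sq L :=
    fun f => QuotientGroup.mk (t f) with hF
  have Finj : Function.Injective F := by
    intro f g hfg
    have h1 : (t f)⁻¹ * t g ∈ sq L := QuotientGroup.eq.mp hfg
    exact Subtype.ext (Subtype.ext
      (QCardA_uniq h (hr f) (hr g) (hd f) (hd g) (hs f) (hs g) (QCardA_isSq h1)))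
  have Frange : Set.range F =
      ((Q.map (QuotientGroup.mk' (sq L)) : Subgroup (Lˣ ⧸ sq L)) : Set (Lˣ ⧸ sq L)) := by
    ext z
    rw [SetLike.mem_coe, Subgroup.mem_map]
    constructor
    · rintro ⟨f, rfl⟩
      exact ⟨t f, tsel f, rfl⟩
    · rintro ⟨s, hs', rfl⟩
      obtain ⟨h1, h2⟩ := mem_qGrp.mp hs'
      obtain ⟨f, r', hf1, hf2, hr', hd', hf3⟩ := H86IG.exists_coc h s.ne_zero h1 h2
      have hAt : QCardA_At h f r' := hf3
      have hTT : (h.bc (AlgebraicClosure L)).T + (h.bc (AlgebraicClosure L)).T = 0 :=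
        T_add_T (h.bc (AlgebraicClosure L))
      have hfm : f ∈ SelZ L V := mem_selZ.mpr ⟨hf1, hf2, fun σ => by
        rcases hAt σ with ⟨e1, -⟩ | ⟨e1, -⟩
        · rw [e1, add_zero]
        · rw [e1, hTT]⟩
      have hsg : ∀ σ, sg (f σ) = 1 := fun σ => by
        rcases hAt σ with ⟨e1, -⟩ | ⟨e1, -⟩
        · rw [e1, sg_zero]
        · rw [e1, sg_T]
      refine ⟨⟨⟨f, hfm⟩, hsg⟩, ?_⟩
      rw [hF]
      refine QuotientGroup.eq.mpr ?_
      exact QCardA_isSq' (QCardA_sq h (hd ⟨⟨f, hfm⟩, hsg⟩) hd' (hs ⟨⟨f, hfm⟩, hsg⟩) hAt)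
  have h1 := Subgroup.relIndex_ker Q (QuotientGroup.mk' (sq L))
  rw [QuotientGroup.ker_mk'] at h1
  rw [h1, Nat.card_congr (Equiv.ofInjective F Finj), Frange]
  rfl

end Pool.Agent.H26.SG
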