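import Pool.Agent.H26.SG.QDefs

/-!
The classes of the cocycles.

PROOF. Write `Ω = AlgebraicClosure L`, `hE = h.bc Ω`, `i = inv_bc L V`. For `f ∈ SelZ L V` (see
`mem_selZ`) `kum hE i hf h2` (file `Pool.Agent.H73.IS.Kum`, `isCocycle_iff` for `hf`; see the use in
`i1`, file `Pool.Agent.H73.IS.I1`) gives `r ≠ 0`, `r ^ 2 = d`, `σ r = sg (f σ) * r`. By `loc_a` (file
`Pool.Agent.H73.IS.Loc`) `d` is in `Q = qGrp a b h.hb h.hd`. Choose `t : SelZ L V → Lˣ` with
`P f (t f)` where `P f x = ∃ r ≠ 0, r ^ 2 = x ∧ ∀ σ, σ r = sg (f σ) * r`.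
Facts: (a) if `P f x` and `P f y` then `x * y` is a square (`r * r'` is fixed by all `σ`, so it is
in `L`: `fixed_of_galois`, as in `triple_sq` in `Pool.Agent.H26.SG.CardA`; `sg` is `1` or `-1`).
(b) if `P f x`, `P g y` then `P (f + g) (x * y)` (`sg_add hE`). (c) if `P f x` and `x` is a square
then `sg (f σ) = 1` for all `σ` (`r = ± y` is fixed; `-r ≠ r`); and if `sg (f σ) = 1` for all `σ`
then `t f` is a square (`r` is fixed, so in `L`).
So `F : Multiplicative (SelZ L V) →* Lˣ ⧸ sq L`, `F f = mk (t f)`, is a homomorphism with kernel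
`{f | ∀ σ, sg (f σ) = 1}` (`MonoidHom.mk'` : only multiplicativity is needed: `t (f + g)` and
`t f * t g` differ by a square by (a), (b)). Put `M = F.range.comap (QuotientGroup.mk' (sq L))`.
`sq L ≤ M` (`QuotientGroup.ker_mk'`), `M ≤ Q` (an `x ∈ M` is `t f` times a square, `sq_le_qGrp`).
`Nat.card (SelZ L V) = Nat.card F.ker * Nat.card F.range` (`Subgroup.card_mul_index`,
`Subgroup.index_ker`), `(sq L).relIndex M = Nat.card (M.map (mk' (sq L)))` (`Subgroup.relIndex_ker`,
`ker_mk'`) and `M.map mk' = F.range` (`Subgroup.map_comap_eq`, `mk'` is surjective).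
-/

set_option autoImplicit false
set_option linter.style.haveILetI false
open scoped Classical

open WeierstrassCurve IsDedekindDomain NumberField WithZero

namespace Pool.Agent.H26.SG

open Pool.Agent.H10

open H73IS

variable {L : Type} [Field L] [NumberField L] {V : WeierstrassCurve L} {a b : L}

/-- The relation between a cocycle and its class. -/
def QCardB_P (f : Coch L V) (x : L) : Prop :=
  ∃ r : AlgebraicClosure L, r ≠ 0 ∧ r ^ 2 = algebraMap L (AlgebraicClosure L) x ∧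
    ∀ σ : AlgebraicClosure L ≃ₐ[L] AlgebraicClosure L,
      σ r = ((sg (f σ) : ℤ) : AlgebraicClosure L) * r

lemma QCardB_a {f : Coch L V} {x y : L} (hx : QCardB_P f x) (hy : QCardB_P f y) :
    IsSquare (x * y) := by
  obtain ⟨r, hr0, hr, hs⟩ := hx
  obtain ⟨r', hr0', hr', hs'⟩ := hy
  obtain ⟨z, hz⟩ := fixed_of_galois (k := L) (r * r') (fun σ => by
    rw [map_mul, hs, hs']
    have := units_cast_sq (Ω := AlgebraicClosure L) (sg (f σ))
    linear_combination (r * r') * this)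
  refine ⟨z, ?_⟩
  apply (algebraMap L (AlgebraicClosure L)).injective
  rw [map_mul, map_mul, hz, ← hr, ← hr']
  ring

lemma QCardB_b (h : IsTw V a b) {f g : Coch L V} (hf : ∀ σ, f σ + f σ = 0)
    (hg : ∀ σ, g σ + g σ = 0) {x y : L} (hx : QCardB_P f x) (hy : QCardB_P g y) :
    QCardB_P (f + g) (x * y) := by
  obtain ⟨r, hr0, hr, hs⟩ := hx
  obtain ⟨r', hr0', hr', hs'⟩ := hy
  have hE := h.bc (AlgebraicClosure L)
  refine ⟨r * r', mul_ne_zero hr0 hr0', by rw [mul_pow, hr, hr', map_mul], fun σ => ?_⟩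
  have h1 : sg ((f + g) σ) = sg (f σ) * sg (g σ) := sg_add hE (hf σ) (hg σ)
  rw [map_mul, hs, hs', h1, units_cast_mul]
  ring

lemma QCardB_c {f : Coch L V} {x : L} (hx : QCardB_P f x) :
    IsSquare x ↔ ∀ σ, sg (f σ) = 1 := by
  obtain ⟨r, hr0, hr, hs⟩ := hx
  constructor
  · rintro ⟨y, hy⟩ σ
    have hfix : σ r = r := by
      have h1 : r ^ 2 = (algebraMap L (AlgebraicClosure L) y) ^ 2 := by
        rw [hr, hy, map_mul, pow_two]
      rcases sq_eq_sq_iff_eq_or_eq_neg.1 h1 with h2 | h2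
      · rw [h2, σ.commutes]
      · rw [h2, map_neg, σ.commutes]
    rcases Int.units_eq_one_or (sg (f σ)) with h1 | h1
    · exact h1
    · exfalso
      have h2 := hs σ
      rw [h1, hfix] at h2
      push_cast at h2
      have h3 : (2 : AlgebraicClosure L) * r = 0 := by linear_combination h2
      rcases mul_eq_zero.1 h3 with h4 | h4
      · exact two_ne_zero h4
      · exact hr0 h4
  · intro h1
    obtain ⟨y, hy⟩ := fixed_of_galois (k := L) r (fun σ => by
      rw [hs, h1 σ]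
      push_cast
      rw [one_mul])
    refine ⟨y, ?_⟩
    apply (algebraMap L (AlgebraicClosure L)).injective
    rw [map_mul, hy, ← hr, pow_two]

omit [NumberField L] in
lemma QCardB_isSq {x y : Lˣ} : x⁻¹ * y ∈ sq L ↔ IsSquare ((x : L) * (y : L)) := by
  rw [mem_sq]
  have hx : (x : L) ≠ 0 := x.ne_zero
  constructor
  · rintro ⟨z, hz⟩
    refine ⟨z * x, ?_⟩
    rw [Units.val_mul, Units.val_inv_eq_inv_val] at hz
    have : (x : L) * y = ((x : L)⁻¹ * y) * (x : L) ^ 2 := by field_simp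
    rw [this, hz]
    ring
  · rintro ⟨z, hz⟩
    refine ⟨z * (x : L)⁻¹, ?_⟩
    rw [Units.val_mul, Units.val_inv_eq_inv_val]
    have : (x : L)⁻¹ * y = ((x : L) * y) * ((x : L)⁻¹ * (x : L)⁻¹) := by field_simp
    rw [this, hz]
    ring

lemma QCardB_ex (h : IsTw V a b) (f : SelZ L V) :
    ∃ t : Lˣ, t ∈ qGrp a b h.hb h.hd ∧ QCardB_P f.1 (t : L) := by
  obtain ⟨hf1, hf2, hf3⟩ := mem_selZ.mp f.2
  have hE := h.bc (AlgebraicClosure L)
  obtain ⟨r, d, hr, hd, hs⟩ := kum hE (inv_bc L V) ((isCocycle_iff f.1).1 hf1) hf3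
  have hd0 : d ≠ 0 := by
    intro h0
    rw [h0, map_zero] at hd
    exact hr (pow_eq_zero_iff (two_ne_zero)|>.1 hd)
  exact ⟨Units.mk0 d hd0, mem_qGrp.2 (loc_a h hf2 hf3 hr hd hs), r, hr, hd, hs⟩

theorem card_selZ_dec (h : IsTw V a b) : ∃ M : Subgroup Lˣ, sq L ≤ M ∧
    M ≤ qGrp a b h.hb h.hd ∧ Nat.card (SelZ L V) =
      Nat.card {f : SelZ L V // ∀ σ, sg (f.1 σ) = 1} * (sq L).relIndex M := by
  choose t htQ htP using QCardB_ex h
  have key : ∀ f g : SelZ L V, (t (f + g))⁻¹ * (t f * t g) ∈ sq L := by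
    intro f g
    obtain ⟨-, -, hf3⟩ := mem_selZ.mp f.2
    obtain ⟨-, -, hg3⟩ := mem_selZ.mp g.2
    rw [QCardB_isSq, Units.val_mul]
    exact QCardB_a (htP (f + g)) (QCardB_b h hf3 hg3 (htP f) (htP g))
  let F : Multiplicative (SelZ L V) →* Lˣ ⧸ sq L :=
    MonoidHom.mk' (fun f => QuotientGroup.mk' (sq L) (t (Multiplicative.toAdd f)))
      (fun f g => by
        rw [← map_mul]
        exact QuotientGroup.eq.2 (key (Multiplicative.toAdd f) (Multiplicative.toAdd g)))
  have hF : ∀ f : SelZ L V, F (Multiplicative.ofAdd f) = QuotientGroup.mk' (sq L) (t f) :=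
    fun f => rfl
  have hsurj : Function.Surjective (QuotientGroup.mk' (sq L)) := QuotientGroup.mk'_surjective _
  refine ⟨F.range.comap (QuotientGroup.mk' (sq L)), ?_, ?_, ?_⟩
  · have h1 := Subgroup.ker_le_comap (QuotientGroup.mk' (sq L)) F.range
    rw [QuotientGroup.ker_mk'] at h1
    exact h1
  · rintro x ⟨f, hf⟩
    have h1 : (t (Multiplicative.toAdd f))⁻¹ * x ∈ sq L := QuotientGroup.eq.1 hf
    have h2 : x = t (Multiplicative.toAdd f) * ((t (Multiplicative.toAdd f))⁻¹ * x) :=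
      (mul_inv_cancel_left _ _).symm
    rw [h2]
    exact Subgroup.mul_mem _ (htQ _) (sq_le_qGrp h1)
  · have h1 := Subgroup.card_mul_index F.ker
    rw [Subgroup.index_ker] at h1
    have h2 := Subgroup.relIndex_ker (F.range.comap (QuotientGroup.mk' (sq L)))
      (QuotientGroup.mk' (sq L))
    rw [QuotientGroup.ker_mk', Subgroup.map_comap_eq_self_of_surjective hsurj] at h2
    have h3 : Nat.card (SelZ L V) = Nat.card (Multiplicative (SelZ L V)) :=
      Nat.card_congr Multiplicative.ofAdd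
    have h4 : Nat.card F.ker = Nat.card {f : SelZ L V // ∀ σ, sg (f.1 σ) = 1} := by
      refine Nat.card_congr (Equiv.subtypeEquiv Multiplicative.toAdd fun f => ?_)
      rw [← QCardB_c (htP (Multiplicative.toAdd f)), ← mem_sq]
      show F f = 1 ↔ _
      exact QuotientGroup.eq_one_iff (t (Multiplicative.toAdd f))
    rw [h3, ← h1, h4, h2]

end Pool.Agent.H26.SG
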