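import Pool.Agent.H26.SG.Sel

/-!
The group of everywhere locally trivial cocycles with values in the two-torsion.
-/

set_option autoImplicit false
set_option linter.style.haveILetI false
open scoped Classical

open WeierstrassCurve IsDedekindDomain NumberField WithZero

namespace Pool.Agent.H26.SG

open Pool.Agent.H10

/-- The cocycles with values in the two-torsion which are everywhere locally trivial. -/
noncomputable def SelZ (L : Type) [Field L] [NumberField L] (V : WeierstrassCurve L) :
    AddSubgroup (Coch L V) :=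
  ShaZ L V ⊓ (nsmulAddMonoidHom 2 : Coch L V →+ Coch L V).ker

variable {L : Type} [Field L] [NumberField L] {V : WeierstrassCurve L}

lemma mem_selZ {f : Coch L V} :
    f ∈ SelZ L V ↔ IsCocycle L V f ∧ IsLocTriv L V f ∧ ∀ σ, f σ + f σ = 0 := by
  rw [SelZ, AddSubgroup.mem_inf, AddMonoidHom.mem_ker]
  constructor
  · rintro ⟨⟨h1, h2⟩, h3⟩
    refine ⟨h1, h2, fun σ => ?_⟩
    have h4 := congrFun h3 σ
    rw [← two_nsmul]
    exact h4
  · rintro ⟨h1, h2, h3⟩
    refine ⟨⟨h1, h2⟩, ?_⟩
    funext σ
    change (2 : ℕ) • f σ = 0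
    rw [two_nsmul]
    exact h3 σ

end Pool.Agent.H26.SG
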