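import Pool.Agent.H26.SG.LocUnit
import Pool.Agent.H26.SG.SelZ
import Pool.Agent.H73.IS.Mul
import Pool.Agent.H73.IS.Loc
import Pool.Agent.H73.IS.Kum
import Pool.Agent.H73.IS.Par
import Pool.Agent.H86.IG.Coc

/-!
Two-isogeny descent: the standing data and the groups of soluble classes.
-/

set_option autoImplicit false
set_option linter.style.haveILetI false
open scoped Classical

open WeierstrassCurve IsDedekindDomain NumberField WithZero

namespace Pool.Agent.H26.SG

open Pool.Agent.H10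

open H73IS

variable {L : Type} [Field L] [NumberField L]

/-- The standing data: the curves `y^2 = x (x^2 - 2 u x + u^2 - 64 β)` and
`y^2 = x (x^2 + u x + 16 β)`. -/
structure QDat (u β : 𝓞 L) : Prop where
  β0 : β ≠ 0
  d0 : u ^ 2 - 64 * β ≠ 0
  cop : IsCoprime u 2
  sq4 : ∃ s : 𝓞 L, (4 : 𝓞 L) ∣ u - s ^ 2

/-- The classes for which the quartics are everywhere soluble. -/
def qGrp (a b : L) (hb : b ≠ 0) (hd : a ^ 2 - 4 * b ≠ 0) : Subgroup Lˣ where
  carrier := {x | FinQ L a b (x : L) ∧ InfQ L a b (x : L)}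
  one_mem' := by
    constructor
    · intro v
      rw [Units.val_one, map_one]
      exact QPt.isSquare one_ne_zero ⟨1, by ring⟩
    · intro v
      rw [Units.val_one, map_one]
      exact QPt.isSquare one_ne_zero ⟨1, by ring⟩
  mul_mem' := by
    rintro x y ⟨h1, h2⟩ ⟨h3, h4⟩
    constructor
    · intro v
      have e0 := (map_ne_zero (algebraMap L (v.adicCompletion L))).mpr hb
      have e1 := (map_ne_zero (algebraMap L (v.adicCompletion L))).mpr hd
      rw [map_sub, map_mul, map_pow, map_ofNat] at e1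
      rw [Units.val_mul, map_mul]
      exact (h1 v).mul e0 e1 ((map_ne_zero _).mpr x.ne_zero) ((map_ne_zero _).mpr y.ne_zero) (h3 v)
    · intro v
      have e0 := (map_ne_zero (algebraMap L v.Completion)).mpr hb
      have e1 := (map_ne_zero (algebraMap L v.Completion)).mpr hd
      rw [map_sub, map_mul, map_pow, map_ofNat] at e1
      rw [Units.val_mul, map_mul]
      exact (h2 v).mul e0 e1 ((map_ne_zero _).mpr x.ne_zero) ((map_ne_zero _).mpr y.ne_zero) (h4 v)
  inv_mem' := by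
    rintro x ⟨h1, h2⟩
    have e : ((x⁻¹ : Lˣ) : L) = (x : L) * ((x⁻¹ : Lˣ) : L) ^ 2 := by
      rw [pow_two, ← mul_assoc, Units.mul_inv, one_mul]
    constructor
    · intro v
      rw [e, map_mul, map_pow]
      exact (QPt.sq_mul ((map_ne_zero _).mpr (x⁻¹).ne_zero)).mpr (h1 v)
    · intro v
      rw [e, map_mul, map_pow]
      exact (QPt.sq_mul ((map_ne_zero _).mpr (x⁻¹).ne_zero)).mpr (h2 v)

lemma mem_qGrp {a b : L} {hb : b ≠ 0} {hd : a ^ 2 - 4 * b ≠ 0} {x : Lˣ} :
    x ∈ qGrp a b hb hd ↔ FinQ L a b (x : L) ∧ InfQ L a b (x : L) := Iff.rfl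

lemma sq_le_qGrp {a b : L} {hb : b ≠ 0} {hd : a ^ 2 - 4 * b ≠ 0} : sq L ≤ qGrp a b hb hd := by
  intro x hx
  obtain ⟨y, hy⟩ := mem_sq.mp hx
  constructor
  · intro v
    refine QPt.isSquare ((map_ne_zero _).mpr x.ne_zero) ⟨algebraMap L _ y, ?_⟩
    rw [hy, map_mul]
  · intro v
    refine QPt.isSquare ((map_ne_zero _).mpr x.ne_zero) ⟨algebraMap L _ y, ?_⟩
    rw [hy, map_mul]

lemma dual_d {a b : L} (hb : b ≠ 0) : (-2 * a) ^ 2 - 4 * (a ^ 2 - 4 * b) ≠ 0 := by
  have e : (-2 * a) ^ 2 - 4 * (a ^ 2 - 4 * b) = 16 * b := by ring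
  rw [e]
  exact mul_ne_zero (by norm_num) hb

end Pool.Agent.H26.SG
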