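import Pool.Agent.H26.SG.QFix
import Pool.Agent.H73.IS.Par

/-!
An explicit solution over a complete field above two.

PROOF. Use only the STATEMENT of `exists_fix`. `V h = 1` because
`V (h ^ 2) = V (D + (h ^ 2 - D)) = 1`. Let
`g μ = (D - h ^ 2 + t μ ^ 2 + (β / D) μ ^ 4) / (s h)`. For `V μ < 1` we have `V (g μ) < 1`, and
`g μ - g ν = (μ - ν) (t (μ + ν) + (β / D) (μ + ν) (μ ^ 2 + ν ^ 2)) / (s h)` has valuation at most
`exp (-1) * V (μ - ν)` (`lt_one_le_exp` from `Pool.Agent.H10.GrHen` for `V (μ + ν) < 1`). Let `μ` be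
the fixed point: `s h μ = D - h ^ 2 + t μ ^ 2 + (β / D) μ ^ 4`. The solution is `M = 2`, `e = μ`,
`N = 2 (s μ + 2 h)` (`M ≠ 0`): with `u = s ^ 2 + 4 t`
`D N ^ 2 - (D ^ 2 M ^ 4 + u D M ^ 2 e ^ 2 + 16 β e ^ 4) =
 16 D (s h μ + h ^ 2 - D - t μ ^ 2 - (β / D) μ ^ 4) = 0`.
-/

set_option autoImplicit false
set_option linter.style.haveILetI false

open WithZero

namespace Pool.Agent.H26.SG

open Pool.Agent.H10 H73IS

lemma QTwo_add {F : Type*} [Field F] (V : Valuation F (WithZero (Multiplicative ℤ))) {x y : F}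
    (hx : V x < 1) (hy : V y < 1) : V (x + y) < 1 :=
  (V.map_add _ _).trans_lt (max_lt hx hy)

lemma QTwo_addle {F : Type*} [Field F] (V : Valuation F (WithZero (Multiplicative ℤ))) {x y : F}
    (hx : V x ≤ 1) (hy : V y ≤ 1) : V (x + y) ≤ 1 :=
  (V.map_add _ _).trans (max_le hx hy)

lemma QTwo_mul {F : Type*} [Field F] (V : Valuation F (WithZero (Multiplicative ℤ))) {x y : F}
    (hx : V x ≤ 1) (hy : V y < 1) : V (x * y) < 1 := by
  rw [map_mul]
  exact (mul_le_of_le_one_left' hx).trans_lt hy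

theorem two_solQ {F : Type*} [Field F] [Valued F (WithZero (Multiplicative ℤ))]
    [CompleteSpace F] (h20 : (2 : F) ≠ 0) {u s t β D h : F} (hu : u = s ^ 2 + 4 * t)
    (hs : Valued.v s = 1) (ht : Valued.v t ≤ 1) (hβ : Valued.v β ≤ 1) (hD : Valued.v D = 1)
    (hh : Valued.v (h ^ 2 - D) < 1) : QPt u (16 * β) D := by
  obtain ⟨V, hV⟩ : ∃ V : Valuation F (WithZero (Multiplicative ℤ)), V = Valued.v := ⟨_, rfl⟩
  rw [← hV] at hs ht hβ hD hh
  have hD0 : D ≠ 0 := by
    rintro rfl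
    rw [map_zero] at hD
    exact zero_ne_one hD
  have hs0 : s ≠ 0 := by
    rintro rfl
    rw [map_zero] at hs
    exact zero_ne_one hs
  have hVh : V h = 1 := by
    have h1 : V (h ^ 2) = 1 := by
      have h2 : V (h ^ 2 - D) < V D := by rw [hD]; exact hh
      have h3 := V.map_add_eq_of_lt_left h2
      rw [add_sub_cancel] at h3
      rw [h3, hD]
    rw [map_pow] at h1
    have h0 : V h ≠ 0 := by
      intro h0
      rw [h0, zero_pow two_ne_zero] at h1
      exact zero_ne_one h1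
    have h2 := congrArg log h1
    rw [log_pow, log_one, nsmul_eq_mul] at h2
    have h3 : log (V h) = 0 := by
      push_cast at h2
      omega
    rw [← exp_log h0, h3, exp_zero]
  have hh0 : h ≠ 0 := by
    rintro rfl
    rw [map_zero] at hVh
    exact zero_ne_one hVh
  have hsh : s * h ≠ 0 := mul_ne_zero hs0 hh0
  have hVsh : V (s * h) = 1 := by rw [map_mul, hs, hVh, mul_one]
  have hγ : V (β / D) ≤ 1 := by rw [map_div₀, hD, div_one]; exact hβ
  obtain ⟨γ, hγe⟩ : ∃ γ, γ = β / D := ⟨_, rfl⟩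
  rw [← hγe] at hγ
  have hγD : γ * D = β := by rw [hγe, div_mul_cancel₀ _ hD0]
  obtain ⟨g, hg⟩ : ∃ g : F → F, ∀ μ, g μ = (D - h ^ 2 + t * μ ^ 2 + γ * μ ^ 4) / (s * h) :=
    ⟨_, fun _ => rfl⟩
  obtain ⟨μ, hμ1, hμ⟩ := exists_fix g (by
    intro x hx
    rw [← hV] at hx ⊢
    rw [hg, map_div₀, hVsh, div_one]
    have hx2 : V (x ^ 2) < 1 := by
      rw [sq]
      exact QTwo_mul V hx.le hx
    have hx4 : V (x ^ 4) < 1 := by
      have e : x ^ 4 = x ^ 2 * x ^ 2 := by ring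
      rw [e]
      exact QTwo_mul V hx2.le hx2
    have h1 : V (D - h ^ 2) < 1 := by
      rw [← Valuation.map_neg, neg_sub]
      exact hh
    exact QTwo_add V (QTwo_add V h1 (QTwo_mul V ht hx2)) (QTwo_mul V hγ hx4)) (by
    intro x y hx hy
    rw [← hV] at hx hy ⊢
    have hxy : V (x + y) ≤ exp (-1 : ℤ) := lt_one_le_exp (QTwo_add V hx hy)
    have hx2 : V (x ^ 2) ≤ 1 := by
      rw [sq]
      exact (QTwo_mul V hx.le hx).le
    have hy2 : V (y ^ 2) ≤ 1 := by
      rw [sq]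
      exact (QTwo_mul V hy.le hy).le
    have e : g x - g y = ((t + γ * (x ^ 2 + y ^ 2)) * (x + y) * (x - y)) / (s * h) := by
      rw [hg, hg, ← sub_div]
      congr 1
      ring
    have h1 : V (t + γ * (x ^ 2 + y ^ 2)) ≤ 1 := by
      refine QTwo_addle V ht ?_
      rw [map_mul]
      exact mul_le_one' hγ (QTwo_addle V hx2 hy2)
    rw [e, map_div₀, hVsh, div_one, map_mul, map_mul]
    gcongr
    exact (mul_le_of_le_one_left' h1).trans hxy)
  rw [hg, div_eq_iff hsh] at hμ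
  refine ⟨2, μ, 2 * (s * μ + 2 * h), Or.inl h20, ?_⟩
  rw [hu, ← hγD]
  linear_combination (-16 * D) * hμ

end Pool.Agent.H26.SG
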