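import Pool.Agent.H26.SG.QDefs
import Pool.Agent.H26.SG.QTwo

/-!
Local solubility above two of classes with even valuations.

PROOF. Use only STATEMENTS of imported rows.
Same as `low_two` in `Pool.Agent.H26.SG.LowTwo` (copy): `exists_local_unit` gives `z ≠ 0`
with `V (d z ^ 2) = 1`, `D' = d z ^ 2`; there is `h` with `V (h ^ 2 - D') < 1`; `u = s ^ 2 + 4 κ` in
`𝓞 L` by `D.sq4`; `V u = 1` (coprime to two) so `V s = 1` (`V (s ^ 2) = V (u - 4 κ) = 1`);
`two_solQ` gives `QPt u (16 β) D'`, and `QPt.sq_mul` (file `Pool.Agent.H73.IS.Bas`) removes the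
square.
-/

set_option autoImplicit false
set_option linter.style.haveILetI false
open scoped Classical

open WeierstrassCurve IsDedekindDomain NumberField WithZero

namespace Pool.Agent.H26.SG

open Pool.Agent.H10

open H73IS

variable {L : Type} [Field L] [NumberField L] {u β : 𝓞 L}

theorem qlow_two (D : QDat u β) {d : Lˣ} {w : HeightOneSpectrum (𝓞 L)} (hd : d ∈ evenAt w)
    (hw : (2 : 𝓞 L) ∈ w.asIdeal) :
    QPt (algebraMap L (w.adicCompletion L) (u : L))
      (algebraMap L (w.adicCompletion L) (16 * (β : L)))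
      (algebraMap L (w.adicCompletion L) (d : L)) := by
  obtain ⟨z, hz0, hz⟩ := exists_local_unit w hd
  obtain ⟨k, _, _, ρ, hρs, hρ⟩ := exists_resid w
  have v2 : Valued.v (2 : w.adicCompletion L) < 1 := by
    rw [valued_ofNat w 2]
    have e2 : algebraMap (𝓞 L) L 2 = 2 := map_ofNat (algebraMap (𝓞 L) L) 2
    have h1 : w.valuation L (algebraMap (𝓞 L) L 2) < 1 :=
      (w.valuation_lt_one_iff_mem (K := L) 2).mpr hw
    rw [e2] at h1
    exact h1
  have v4 : Valued.v (4 : w.adicCompletion L) < 1 := by
    have e4 : (4 : w.adicCompletion L) = 2 * 2 := by norm_num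
    rw [e4, map_mul]
    exact mul_lt_one_of_nonneg_of_lt_one_left zero_le v2 v2.le
  have hch : CharP k 2 := by
    have h : ρ 2 = 0 := by
      rw [hρ]
      exact v2
    rw [map_ofNat] at h
    exact CharTwo.of_one_ne_zero_of_two_eq_zero one_ne_zero h
  -- the square root modulo the maximal ideal
  obtain ⟨h, hh⟩ : ∃ h : w.adicCompletion L,
      Valued.v (h ^ 2 - algebraMap L (w.adicCompletion L) (d : L) * z ^ 2) < 1 := by
    obtain ⟨r, hr⟩ := FiniteField.isSquare_of_char_two (ringChar.eq k 2)
      (ρ ⟨algebraMap L (w.adicCompletion L) (d : L) * z ^ 2, hz.le⟩)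
    obtain ⟨s, rfl⟩ := hρs r
    refine ⟨s, ?_⟩
    have := (hρ (s ^ 2 - ⟨algebraMap L (w.adicCompletion L) (d : L) * z ^ 2, hz.le⟩)).1 (by
      rw [map_sub, map_pow, hr, pow_two, sub_self])
    exact this
  obtain ⟨s, κ, hκ⟩ := D.sq4
  have int_le : ∀ x : 𝓞 L, Valued.v (algebraMap L (w.adicCompletion L) (x : L)) ≤ 1 := by
    intro x
    rw [valued_algebraMap]
    exact w.valuation_le_one (K := L) x
  have hu : algebraMap L (w.adicCompletion L) (u : L) =
      algebraMap L (w.adicCompletion L) (s : L) ^ 2 +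
        4 * algebraMap L (w.adicCompletion L) (κ : L) := by
    have h1 : u = s ^ 2 + 4 * κ := by linear_combination hκ
    have h2 : (u : L) = (s : L) ^ 2 + 4 * (κ : L) := by
      have := congrArg (algebraMap (𝓞 L) L) h1
      rw [map_add, map_pow, map_mul, map_ofNat] at this
      exact this
    rw [h2, map_add, map_pow, map_mul, map_ofNat]
  have hna : u ∉ w.asIdeal := by
    intro h3
    obtain ⟨u', v, huv⟩ := D.cop
    apply w.isPrime.ne_top
    rw [Ideal.eq_top_iff_one, ← huv]
    exact Ideal.add_mem _ (Ideal.mul_mem_left _ _ h3) (Ideal.mul_mem_left _ _ hw)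
  have hvu : Valued.v (algebraMap L (w.adicCompletion L) (u : L)) = 1 := by
    rw [valued_algebraMap]
    exact val_eq_one_of_notMem hna
  have h4κ : Valued.v (4 * algebraMap L (w.adicCompletion L) (κ : L)) < 1 := by
    rw [map_mul]
    exact mul_lt_one_of_nonneg_of_lt_one_left zero_le v4 (int_le κ)
  have hvs : Valued.v (algebraMap L (w.adicCompletion L) (s : L)) = 1 := by
    have e : algebraMap L (w.adicCompletion L) (s : L) ^ 2 =
        algebraMap L (w.adicCompletion L) (u : L) -
          4 * algebraMap L (w.adicCompletion L) (κ : L) := by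
      rw [hu]
      ring
    have h1 : Valued.v (algebraMap L (w.adicCompletion L) (s : L) ^ 2) = 1 := by
      rw [e, Valuation.map_sub_eq_of_lt_left, hvu]
      rw [hvu]
      exact h4κ
    rw [map_pow] at h1
    exact (pow_eq_one_iff_of_nonneg (zero_le) two_ne_zero).mp h1
  have hsol := two_solQ (F := w.adicCompletion L) two_ne_zero hu hvs (int_le κ) (int_le β) hz hh
  rw [QPt.sq_mul hz0] at hsol
  have e16 : algebraMap L (w.adicCompletion L) (16 * (β : L)) =
      16 * algebraMap L (w.adicCompletion L) (β : L) := by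
    rw [map_mul, map_ofNat]
  rw [e16]
  exact hsol

end Pool.Agent.H26.SG
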