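import Pool.Agent.H26.SG.QDefs
import Pool.Agent.H86.IG.Gd
import Pool.Agent.H86.IK.Arb

/-!
Local solubility at the good primes and at infinity of classes with even valuations.

PROOF. Use only STATEMENTS of imported rows.

`qlow_good`. `exists_local_unit`, `exists_resid w` gives the finite residue field `k` and `ρ`;
`qpt_good` (file `Pool.Agent.H86.IG.Gd`; its hypothesis `hS`: `1 + x` is a square if `V x < 1`, at
`w` not above two: see how it is obtained in `unit_goodK` in `Pool.Agent.H86.IK.Plc`, which is the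
model of this lemma) applied with `a = u`, `b = 16 β`, unit `d z ^ 2`: `ρ (16 β) ≠ 0` and
`ρ (u ^ 2 - 4 * (16 β)) ≠ 0` since `2, β, u ^ 2 - 64 β ∉ w`. Then `QPt.sq_mul`.

`qlow_inf`. `unit_infK` (file `Pool.Agent.H86.IK.Arb`) with `a = -2 u`, `b = u ^ 2 - 64 β` gives
`QPt (-2 * (-2 u)) ((-2 u) ^ 2 - 4 (u ^ 2 - 64 β)) x = QPt (2 ^ 2 * u) (2 ^ 4 * (16 β)) x` over the
completion, and `QPt.scale` with `r = 2` gives the claim.
-/

set_option autoImplicit false
set_option linter.style.haveILetI false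
open scoped Classical

open WeierstrassCurve IsDedekindDomain NumberField WithZero

namespace Pool.Agent.H26.SG

open Pool.Agent.H10

open H73IS

variable {L : Type} [Field L] [NumberField L] {u β : 𝓞 L}

theorem qlow_good {d : Lˣ} {w : HeightOneSpectrum (𝓞 L)} (hd : d ∈ evenAt w)
    (h2 : (2 : 𝓞 L) ∉ w.asIdeal) (hβ : β ∉ w.asIdeal) (hδ : u ^ 2 - 64 * β ∉ w.asIdeal) :
    QPt (algebraMap L (w.adicCompletion L) (u : L))
      (algebraMap L (w.adicCompletion L) (16 * (β : L)))
      (algebraMap L (w.adicCompletion L) (d : L)) := by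
  obtain ⟨z, hz0, hz⟩ := exists_local_unit w hd
  obtain ⟨k, _, _, ρ, hρs, hρ⟩ := exists_resid w
  let V : Valuation (w.adicCompletion L) (WithZero (Multiplicative ℤ)) := Valued.v
  have h2k := res_two w hρ h2
  let D : V.integer := ⟨algebraMap L (w.adicCompletion L) (d : L) * z ^ 2, hz.le⟩
  have hD : ρ D ≠ 0 := by
    intro h
    rw [hρ] at h
    exact absurd hz h.ne
  let A : V.integer := ⟨H86IK.ii w u, H86IK.ii_le w u⟩
  let B : V.integer := ⟨H86IK.ii w β, H86IK.ii_le w β⟩
  have hB : ρ (16 * B) ≠ 0 := by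
    have e : (16 : V.integer) = 2 ^ 4 := by norm_num
    rw [map_mul, e, map_pow, map_ofNat]
    exact mul_ne_zero (pow_ne_zero _ h2k) (H86IK.ii_res w hρ β hβ)
  have h64 : H86IK.ii w (64 : 𝓞 L) = 64 := by
    have h4 : ((64 : 𝓞 L) : L) = 64 := map_ofNat (algebraMap (𝓞 L) L) 64
    rw [H86IK.ii, h4, map_ofNat]
  have hA : ρ (A ^ 2 - 4 * (16 * B)) ≠ 0 := by
    have e : A ^ 2 - 4 * (16 * B) =
        ⟨H86IK.ii w (u ^ 2 - 64 * β), H86IK.ii_le w _⟩ := by
      apply Subtype.ext
      change H86IK.ii w u ^ 2 - 4 * (16 * H86IK.ii w β) = H86IK.ii w (u ^ 2 - 64 * β)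
      rw [H86IK.ii_sub, H86IK.ii_mul, H86IK.ii_pow, h64]
      ring
    rw [e]
    exact H86IK.ii_res w hρ _ hδ
  have key := H86IG.qpt_good (V := V) (ρ := ρ) hρs hρ (hS_odd w h2) h2k (a := A) (b := 16 * B)
    (u := D) hB hA hD
  have key' : QPt (algebraMap L (w.adicCompletion L) (u : L))
      (16 * algebraMap L (w.adicCompletion L) (β : L))
      (algebraMap L (w.adicCompletion L) (d : L) * z ^ 2) := key
  rw [QPt.sq_mul hz0] at key'
  rw [map_mul, map_ofNat]
  exact key'

theorem qlow_inf {d : Lˣ} (v : InfinitePlace L)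
    (h : ∀ φ : L →+* ℝ, H86IK.RAt (-2 * (u : L)) ((u : L) ^ 2 - 64 * (β : L)) φ ∨ 0 < φ (d : L)) :
    QPt (algebraMap L v.Completion (u : L)) (algebraMap L v.Completion (16 * (β : L)))
      (algebraMap L v.Completion (d : L)) := by
  have key := H86IK.unit_infK v d.ne_zero h
  have h20 : (2 : v.Completion) ≠ 0 := by
    have : (2 : v.Completion) = algebraMap L v.Completion 2 := (map_ofNat _ 2).symm
    rw [this, Ne, map_eq_zero]
    exact two_ne_zero
  have e1 : -2 * algebraMap L v.Completion (-2 * (u : L)) =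
      2 ^ 2 * algebraMap L v.Completion (u : L) := by
    rw [map_mul, map_neg, map_ofNat]
    ring
  have e2 : algebraMap L v.Completion (-2 * (u : L)) ^ 2 -
      4 * algebraMap L v.Completion ((u : L) ^ 2 - 64 * (β : L)) =
      2 ^ 4 * algebraMap L v.Completion (16 * (β : L)) := by
    rw [map_mul, map_neg, map_ofNat, map_sub, map_pow, map_mul, map_mul, map_ofNat, map_ofNat]
    ring
  rw [e1, e2, QPt.scale h20] at key
  exact key

end Pool.Agent.H26.SG
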