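import Pool.Agent.H26.SG.QDefs
import Pool.Agent.H26.SG.CardG
import Pool.Agent.H26.SG.GrpFG
import Pool.Agent.H26.SG.TwoTors
import Pool.Agent.H26.SG.CardB
import Pool.Agent.H73.IS.Asm

/-!
The number of cocycles with values in the two-torsion.

PROOF. `isCub_closed`: over an algebraically closed field (characteristic not two) the polynomial
`X ^ 2 + a X + b` has a root `e₂`, and with `e₃ = -a - e₂` we have `e₂ e₃ = b`, `e₂ + e₃ = -a`,
`e₂ ≠ 0 ≠ e₃` as `b ≠ 0`, `e₂ ≠ e₃` as `(e₂ - e₃)^2 = a^2 - 4 b ≠ 0`. (`IsAlgClosed.exists_pow_nat_eq`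
for the square root of `a^2 - 4 b`.)

`card_selZ_tw`: apply `CardG_abs` as in `card_selZ_sha` in `Pool.Agent.H26.SG.CardB` (with
`A = (V.baseChange Ω).Point`, `M = V.Point`, `Z = ShaZ L V`, `B = ShaB L V`); the divisibility
`hH` from `(isCub_closed (h.bc Ω)).exists_two_nsmul` and `h4` from `card_two_torsion`. The index of
the doubles is `2 ^ finrank * card {x // x + x = 0}` (`index_double`; finitely generated by
`Pool.Agent.H11.mordell_weil` with `IsTw.isElliptic` from `Pool.Agent.H73.IS.Asm`), and
`card {x : V.Point // x + x = 0}` is not zero (it embeds in the four-element set over `Ω`; or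
`Nat.card_pos` with finiteness from finite generation) so it cancels.
`2 ^ finrank * 4 = 2 ^ (finrank + 2)`.
-/

set_option autoImplicit false
set_option linter.style.haveILetI false
open scoped Classical

open WeierstrassCurve IsDedekindDomain NumberField WithZero

namespace Pool.Agent.H26.SG

open Pool.Agent.H10

open H73IS

theorem isCub_closed {Ω : Type*} [Field Ω] [IsAlgClosed Ω] {E : WeierstrassCurve Ω} {a b : Ω}
    (h : IsTw E a b) : ∃ e₂ e₃ : Ω, IsCub E 0 e₂ e₃ := by
  obtain ⟨s, hs⟩ := IsAlgClosed.exists_pow_nat_eq (a ^ 2 - 4 * b) (n := 2) (by norm_num)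
  have h2 := h.two
  have hs0 : s ≠ 0 := by
    intro h0
    apply h.hd
    rw [← hs, h0]
    ring
  have e1 : 2 * ((-a + s) / 2) = -a + s := by field_simp
  have e2 : 2 * ((-a - s) / 2) = -a - s := by field_simp
  obtain ⟨e₂, he₂⟩ : ∃ e, e = (-a + s) / 2 := ⟨_, rfl⟩
  obtain ⟨e₃, he₃⟩ : ∃ e, e = (-a - s) / 2 := ⟨_, rfl⟩
  rw [← he₂] at e1
  rw [← he₃] at e2
  have hsum : e₂ + e₃ = -a := by
    apply mul_left_cancel₀ h2
    linear_combination e1 + e2
  have hprod : e₂ * e₃ = b := by
    apply mul_left_cancel₀ (mul_ne_zero h2 h2)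
    have h3 : (2 * e₂) * (2 * e₃) = (-a + s) * (-a - s) := by rw [e1, e2]
    linear_combination h3 - hs
  refine ⟨e₂, e₃, ?_⟩
  refine
    { a₁ := h.a₁
      a₂ := ?_
      a₃ := h.a₃
      a₄ := ?_
      a₆ := ?_
      h12 := ?_
      h13 := ?_
      h23 := ?_
      two := h2 }
  · rw [h.a₂]; linear_combination hsum
  · rw [h.a₄]; linear_combination -hprod
  · rw [h.a₆]; ring
  · intro h0
    apply h.hb
    rw [← hprod, ← h0, zero_mul]
  · intro h0
    apply h.hb
    rw [← hprod, ← h0, mul_zero]
  · intro h0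
    apply hs0
    apply mul_left_cancel₀ h2
    rw [h0] at e1
    linear_combination e2 - e1

theorem card_selZ_tw {L : Type} [Field L] [NumberField L] {V : WeierstrassCurve L} {a b : L}
    (h : IsTw V a b) :
    AddGroup.FG V.toAffine.Point ∧ Nat.card (SelZ L V) =
      2 ^ (Module.finrank ℤ V.toAffine.Point + 2) * Nat.card {x : Sha L V // x + x = 0} := by
  have hell := h.isElliptic
  have hfg : AddGroup.FG V.toAffine.Point := Pool.Agent.H11.mordell_weil V
  refine ⟨hfg, ?_⟩
  have hL : V.map (algebraMap L (AlgebraicClosure L)) = V.baseChange (AlgebraicClosure L) := rfl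
  obtain ⟨e₂, e₃, hc⟩ := isCub_closed (h.bc (AlgebraicClosure L))
  have hj : Function.Injective (pm (algebraMap L (AlgebraicClosure L)) hL) := pm_injective _ _
  have h4 := card_two_torsion hc
  have key := CardG_abs (act (inv_bc (Ω := AlgebraicClosure L) L V))
    (pm (algebraMap L (AlgebraicClosure L)) hL) hj
    (fun σ Y => by
      unfold act
      rw [pm_pm]
      exact pm_congr _ _ (fun x => σ.commutes x) _)
    (fun R hR => pm_descent hL (inv_bc (Ω := AlgebraicClosure L) L V) R hR)
    (fun Q => by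
      obtain ⟨R, hR⟩ := hc.exists_two_nsmul Q
      exact ⟨R, hR⟩)
    h4 (ShaZ L V) (ShaB L V) (fun f => isCobound_iff f) (shaB_le L V)
  have hfin : Finite {x : (V.baseChange (AlgebraicClosure L)).toAffine.Point // x + x = 0} :=
    Nat.finite_of_card_ne_zero (by rw [h4]; norm_num)
  have hfin2 : Finite {x : V.toAffine.Point // x + x = 0} := by
    refine Finite.of_injective (fun x : {x : V.toAffine.Point // x + x = 0} =>
      (⟨pm (algebraMap L (AlgebraicClosure L)) hL x, by rw [← map_add, x.2, map_zero]⟩ :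
        {x : (V.baseChange (AlgebraicClosure L)).toAffine.Point // x + x = 0})) ?_
    intro x y hxy
    apply Subtype.ext
    exact hj (Subtype.ext_iff.1 hxy)
  have hne : Nonempty {x : V.toAffine.Point // x + x = 0} := ⟨⟨0, add_zero 0⟩⟩
  have hpos : 0 < Nat.card {x : V.toAffine.Point // x + x = 0} := Nat.card_pos
  have hidx := index_double V.toAffine.Point
  rw [hidx] at key
  apply Nat.eq_of_mul_eq_mul_right hpos
  refine key.trans ?_
  change _ * _ * 4 * Nat.card {x : Sha L V // x + x = 0} = _
  rw [pow_add]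
  ring

end Pool.Agent.H26.SG
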