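import Pool.Agent.H73.IS.Par

/-!
Even valuations above two.

PROOF. Write `V 2 ≠ 0`, all valuations `exp` of integers; `V 16 = V 2 ^ 4`, `V 4 = V 2 ^ 2`,
`V u = 1` (`u = s ^ 2 + 4 t`). Suppose that `log (V d)` is odd. Let `M, e, N` be the solution of
`d N ^ 2 = d ^ 2 M ^ 4 + u d M ^ 2 e ^ 2 + 16 β e ^ 4`.
* `e = 0`: then `M ≠ 0`, `N ^ 2 = d M ^ 4`, so `V d` is the valuation of `(N / M ^ 2) ^ 2`, even.
* `M = 0`: then `e ≠ 0`, `d N ^ 2 = 16 β e ^ 4`, `N ≠ 0`, `V d = V (4 e ^ 2 / N) ^ 2` is even.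
* Both nonzero: `x = d M ^ 2 / e ^ 2` has `log (V x)` odd, and `z = N / (M e)` satisfies
  `z ^ 2 = x + u + 16 β / x` (divide the equation by `d M ^ 2 e ^ 2`). Put `ξ = log (V x)`,
  `τ = log (V 2) < 0`, so `log (V (16 β / x)) = 4 τ - ξ`, odd too. `z ≠ 0` in the cases below
  because the right hand side has nonzero valuation.
  - `ξ > 0`: `V x > 1 = V u`, `V (16 β / x) < 1`, so `V (z ^ 2) = V x`, odd: contradiction.
  - `ξ < 4 τ`: `V (16 β / x) > 1 = V u > V x`, so `V (z ^ 2) = V (16 β / x)`, odd: contradiction.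
  - otherwise `4 τ < ξ < 0` (as `ξ` is odd, not `0` and not `4 τ`). Then
    `z ^ 2 - s ^ 2 = R`, `R = 4 t + x + 16 β / x`. As `ξ ≠ 2 τ` and `ξ + (4 τ - ξ) = 4 τ`, one of
    `ξ`, `4 τ - ξ` is greater than `2 τ = log (V 4)` and the other is smaller; let `ρ` be the
    greater one, odd, `2 τ < ρ < 0`; `V (4 t) ≤ V 4`; so `V R = exp ρ`
    (`Valuation.map_add_eq_of_lt_left/right`). On the other side
    `z ^ 2 - s ^ 2 = (z - s) ^ 2 + 2 s (z - s)`. If `V (z - s) > V 2` then the valuation is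
    `V (z - s) ^ 2`, even: contradiction. If `V (z - s) ≤ V 2` then the valuation is at most
    `V 2 ^ 2 = exp (2 τ) < exp ρ`: contradiction.
(See `even_of_qpt` in `Pool.Agent.H73.IS.Par` for the style.)
-/

set_option autoImplicit false

open WithZero

namespace Pool.Agent.H26.SG

open H73IS

theorem QEv_log_pow {F : Type*} [Field F] (V : Valuation F (WithZero (Multiplicative ℤ))) (x : F) (n : ℕ) :
    log (V (x ^ n)) = n * log (V x) := by
  rw [map_pow, log_pow, nsmul_eq_mul]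

theorem QEv_log_mul {F : Type*} [Field F] (V : Valuation F (WithZero (Multiplicative ℤ))) {x y : F}
    (hx : x ≠ 0) (hy : y ≠ 0) : log (V (x * y)) = log (V x) + log (V y) := by
  rw [map_mul, log_mul ((Valuation.ne_zero_iff V).2 hx) ((Valuation.ne_zero_iff V).2 hy)]

theorem QEv_exp {F : Type*} [Field F] (V : Valuation F (WithZero (Multiplicative ℤ))) {x : F}
    (hx : x ≠ 0) : V x = exp (log (V x)) := by
  rw [exp_log ((Valuation.ne_zero_iff V).2 hx)]

theorem QEv_core {F : Type*} [Field F] (V : Valuation F (WithZero (Multiplicative ℤ)))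
    {u s t x y z : F} (hu : u = s ^ 2 + 4 * t) (hs : V s = 1) (ht : V t ≤ 1)
    (h20 : (2 : F) ≠ 0) (hx : x ≠ 0) (hy : y ≠ 0)
    (hxy : log (V x) + log (V y) = 4 * log (V 2)) (hodd : Odd (log (V x)))
    (hgt : 2 * log (V 2) < log (V x)) (hz : z ^ 2 = x + u + y) : False := by
  have h4 : V (4 : F) = exp (2 * log (V 2)) := by
    have e : (4 : F) = 2 ^ 2 := by norm_num
    have h40 : (4 : F) ≠ 0 := by rw [e]; exact pow_ne_zero 2 h20
    rw [QEv_exp V h40]
    congr 1
    rw [e, QEv_log_pow]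
    norm_num
  have hVx := QEv_exp V hx
  have hVy := QEv_exp V hy
  have h1 : V (y + 4 * t) < V x := by
    refine lt_of_le_of_lt (V.map_add _ _) (max_lt ?_ ?_)
    · rw [hVx, hVy, exp_lt_exp]
      omega
    · rw [map_mul]
      refine lt_of_le_of_lt (mul_le_of_le_one_right' ht) ?_
      rw [h4, hVx, exp_lt_exp]
      exact hgt
  have h2 : V (z ^ 2 - s ^ 2) = V x := by
    have e : z ^ 2 - s ^ 2 = x + (y + 4 * t) := by
      rw [hz, hu]
      ring
    rw [e]
    exact Valuation.map_add_eq_of_lt_left V h1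
  have h3 : z ^ 2 - s ^ 2 = (z - s) * ((z - s) + 2 * s) := by ring
  have hs2 : V (2 * s) = V 2 := by rw [map_mul, hs, mul_one]
  by_cases hw : V 2 < V (z - s)
  · have h5 : V ((z - s) + 2 * s) = V (z - s) := by
      refine Valuation.map_add_eq_of_lt_left V ?_
      rw [hs2]
      exact hw
    rw [h3, map_mul, h5, ← map_mul, ← pow_two] at h2
    have h6 := congrArg log h2
    rw [QEv_log_pow] at h6
    rw [Int.odd_iff] at hodd
    push_cast at h6
    omega
  · rw [not_lt] at hw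
    have h5 : V ((z - s) + 2 * s) ≤ V 2 := by
      refine le_trans (V.map_add _ _) (max_le hw ?_)
      rw [hs2]
    have h6 : V x ≤ V 2 * V 2 := by
      rw [← h2, h3, map_mul]
      exact mul_le_mul' hw h5
    rw [hVx, QEv_exp V h20, ← exp_add, exp_le_exp] at h6
    omega

theorem even_two {F : Type*} [Field F] (V : Valuation F (WithZero (Multiplicative ℤ)))
    {u s t β d : F} (hu : u = s ^ 2 + 4 * t) (hs : V s = 1) (ht : V t ≤ 1) (hβ : V β = 1)
    (h20 : (2 : F) ≠ 0) (h2 : V 2 < 1) (hd : d ≠ 0) (H : QPt u (16 * β) d) :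
    Even (log (V d)) := by
  by_contra hne
  rw [Int.not_even_iff_odd] at hne
  obtain ⟨M, e, N, hz, H⟩ := H
  have hβ0 : β ≠ 0 := by
    rintro rfl
    rw [map_zero] at hβ
    exact zero_ne_one hβ
  have hlβ : log (V β) = 0 := by rw [hβ, log_one]
  have h160 : (16 : F) ≠ 0 := by
    have e : (16 : F) = 2 ^ 4 := by norm_num
    rw [e]
    exact pow_ne_zero 4 h20
  have hl16 : log (V (16 : F)) = 4 * log (V 2) := by
    have e : (16 : F) = 2 ^ 4 := by norm_num
    rw [e, QEv_log_pow]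
    norm_num
  by_cases he : e = 0
  · have hM : M ≠ 0 := by
      rcases hz with h | h
      · exact h
      · exact absurd he h
    have h1 : N ^ 2 = d * M ^ 4 := by
      apply mul_left_cancel₀ hd
      rw [H, he]
      ring
    have h3 := congrArg (fun x => log (V x)) h1
    rw [QEv_log_pow, QEv_log_mul V hd (pow_ne_zero 4 hM), QEv_log_pow] at h3
    rw [Int.odd_iff] at hne
    push_cast at h3
    omega
  by_cases hM : M = 0
  · have h1 : d * N ^ 2 = (16 * β) * e ^ 4 := by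
      rw [H, hM]
      ring
    have hN : N ≠ 0 := by
      rintro rfl
      have h4 : (16 * β) * e ^ 4 = 0 := by
        rw [← h1]
        ring
      exact mul_ne_zero (mul_ne_zero h160 hβ0) (pow_ne_zero 4 he) h4
    have h3 := congrArg (fun x => log (V x)) h1
    rw [QEv_log_mul V hd (pow_ne_zero 2 hN), QEv_log_pow, QEv_log_mul V (mul_ne_zero h160 hβ0) (pow_ne_zero 4 he),
      QEv_log_mul V h160 hβ0, QEv_log_pow, hlβ, hl16] at h3
    rw [Int.odd_iff] at hne
    push_cast at h3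
    omega
  have hx : d * M ^ 2 / e ^ 2 ≠ 0 := div_ne_zero (mul_ne_zero hd (pow_ne_zero 2 hM)) (pow_ne_zero 2 he)
  have hy : 16 * β * e ^ 2 / (d * M ^ 2) ≠ 0 :=
    div_ne_zero (mul_ne_zero (mul_ne_zero h160 hβ0) (pow_ne_zero 2 he)) (mul_ne_zero hd (pow_ne_zero 2 hM))
  have hlx : log (V (d * M ^ 2 / e ^ 2)) + 2 * log (V e) = log (V d) + 2 * log (V M) := by
    have h1 : (d * M ^ 2 / e ^ 2) * e ^ 2 = d * M ^ 2 := div_mul_cancel₀ _ (pow_ne_zero 2 he)
    have h3 := congrArg (fun x => log (V x)) h1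
    rw [QEv_log_mul V hx (pow_ne_zero 2 he), QEv_log_pow, QEv_log_mul V hd (pow_ne_zero 2 hM), QEv_log_pow] at h3
    push_cast at h3
    exact h3
  have hxy : log (V (d * M ^ 2 / e ^ 2)) + log (V (16 * β * e ^ 2 / (d * M ^ 2))) = 4 * log (V 2) := by
    rw [← QEv_log_mul V hx hy]
    have h1 : (d * M ^ 2 / e ^ 2) * (16 * β * e ^ 2 / (d * M ^ 2)) = 16 * β := by
      field_simp
    rw [h1, QEv_log_mul V h160 hβ0, hlβ, hl16, add_zero]
  have hodd : Odd (log (V (d * M ^ 2 / e ^ 2))) := by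
    rw [Int.odd_iff] at hne ⊢
    omega
  have hzz : (N / (M * e)) ^ 2 = d * M ^ 2 / e ^ 2 + u + 16 * β * e ^ 2 / (d * M ^ 2) := by
    have h1 : d * (N / (M * e)) ^ 2 * (M ^ 2 * e ^ 2) =
        d * (d * M ^ 2 / e ^ 2 + u + 16 * β * e ^ 2 / (d * M ^ 2)) * (M ^ 2 * e ^ 2) := by
      have e1 : d * (N / (M * e)) ^ 2 * (M ^ 2 * e ^ 2) = d * N ^ 2 := by
        field_simp
      have e2 : d * (d * M ^ 2 / e ^ 2 + u + 16 * β * e ^ 2 / (d * M ^ 2)) * (M ^ 2 * e ^ 2) =
          d ^ 2 * M ^ 4 + u * d * M ^ 2 * e ^ 2 + 16 * β * e ^ 4 := by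
        field_simp
      rw [e1, e2, H]
    have h3 := mul_right_cancel₀ (mul_ne_zero (pow_ne_zero 2 hM) (pow_ne_zero 2 he)) h1
    exact mul_left_cancel₀ hd h3
  rcases lt_trichotomy (2 * log (V 2)) (log (V (d * M ^ 2 / e ^ 2))) with h | h | h
  · exact QEv_core V hu hs ht h20 hx hy hxy hodd h hzz
  · rw [Int.odd_iff] at hodd
    omega
  · refine QEv_core V hu hs ht h20 hy hx (by rw [add_comm]; exact hxy) ?_ ?_
      (show (N / (M * e)) ^ 2 = 16 * β * e ^ 2 / (d * M ^ 2) + u + d * M ^ 2 / e ^ 2 by rw [hzz]; ring)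
    · rw [Int.odd_iff] at hodd ⊢
      omega
    · omega

end Pool.Agent.H26.SG
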