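import Pool.Agent.H73.IS.Par
import Pool.Agent.H10.SemiTwo

/-!
Squares modulo four.

PROOF. Let `M, e, N` be the solution, so
`d N ^ 2 = (d M ^ 2 - u e ^ 2) ^ 2 - 64 β e ^ 4`.
* `e = 0`: then `M ≠ 0` and `N ^ 2 = d M ^ 4`, so `d = (N / M ^ 2) ^ 2` and `SqModFour.of_sq`.
* `e ≠ 0`: put `Y = d M ^ 2 / e ^ 2 - u`, `n = N / e ^ 2`: `d n ^ 2 = Y ^ 2 - 64 β`.
  - If `V 4 ≤ V Y`: `Y ≠ 0`, `d (n / Y) ^ 2 - 1 ^ 2 = -(64 β / Y ^ 2)` has valuation at most
    `V 64 / V 16 = V 4`. So `t = n / Y`, `m = 1`; `n ≠ 0`, for otherwise `V 1 ≤ V 4 < 1`.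
  - If `V Y < V 4`: `d (M / e) ^ 2 - s ^ 2 = u + Y - s ^ 2 = 4 t + Y`, valuation at most `V 4`. So
    `M / e` and `m = s`; `M ≠ 0`, for otherwise `V s ^ 2 = V (4 t + Y) ≤ V 4 < 1`.
-/

set_option autoImplicit false

open WithZero

namespace Pool.Agent.H26.SG

open H73IS Pool.Agent.H10

theorem sq_two {F : Type*} [Field F] (V : Valuation F (WithZero (Multiplicative ℤ)))
    {u s t β d : F} (hu : u = s ^ 2 + 4 * t) (hs : V s = 1) (ht : V t ≤ 1) (hβ : V β ≤ 1)
    (h20 : (2 : F) ≠ 0) (h2 : V 2 < 1) (hd : d ≠ 0) (H : QPt (-2 * u) (u ^ 2 - 64 * β) d) :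
    SqModFour V d := by
  obtain ⟨M, e, N, hz, H⟩ := H
  have h4e : V 4 = V 2 * V 2 := by rw [← map_mul]; norm_num
  have h64 : V 64 = V 4 * (V 4 * V 4) := by rw [← map_mul, ← map_mul]; norm_num
  have h4 : V 4 < 1 := by
    rw [h4e]
    exact (mul_le_of_le_one_left' h2.le).trans_lt h2
  have h40 : V 4 ≠ 0 := by
    rw [h4e]
    have := (Valuation.ne_zero_iff V).2 h20
    exact mul_ne_zero this this
  by_cases he : e = 0
  · have hM : M ≠ 0 := by
      rcases hz with h | h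
      · exact h
      · exact absurd he h
    have h1 : d * N ^ 2 = d * (d * M ^ 4) := by rw [H, he]; ring
    have h2' : N ^ 2 = d * M ^ 4 := mul_left_cancel₀ hd h1
    have hN : N ≠ 0 := by
      rintro rfl
      rw [zero_pow two_ne_zero] at h2'
      exact mul_ne_zero hd (pow_ne_zero 4 hM) h2'.symm
    refine SqModFour.of_sq (s := N / M ^ 2) (div_ne_zero hN (pow_ne_zero 2 hM)) ?_
    rw [div_pow, h2']
    field_simp
  set Y : F := d * M ^ 2 / e ^ 2 - u with hY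
  set n : F := N / e ^ 2 with hn
  have hdn : d * n ^ 2 = Y ^ 2 - 64 * β := by
    rw [hn, hY, div_pow]
    have h1 : d * (N ^ 2 / (e ^ 2) ^ 2) = (d * N ^ 2) / (e ^ 2) ^ 2 := by ring
    rw [h1, H]
    field_simp
    ring
  by_cases hVY : V 4 ≤ V Y
  · have hY0 : Y ≠ 0 := by
      intro h
      rw [h, map_zero] at hVY
      exact h40 (le_zero_iff.1 hVY)
    have hVY0 : V (Y ^ 2) ≠ 0 := (Valuation.ne_zero_iff V).2 (pow_ne_zero 2 hY0)
    have hb : V (64 * β) ≤ V 4 * V (Y ^ 2) := by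
      rw [map_mul, h64, pow_two, map_mul]
      calc V 4 * (V 4 * V 4) * V β ≤ V 4 * (V 4 * V 4) := mul_le_of_le_one_right' hβ
        _ ≤ V 4 * (V Y * V Y) := mul_le_mul' le_rfl (mul_le_mul' hVY hVY)
    have hn0 : n ≠ 0 := by
      intro h
      rw [h, zero_pow two_ne_zero, mul_zero] at hdn
      have h1 : V (Y ^ 2) ≤ V 4 * V (Y ^ 2) := by
        have : Y ^ 2 = 64 * β := (sub_eq_zero.1 hdn.symm)
        rw [this] at hb ⊢
        exact hb
      have h3 : V 4 * V (Y ^ 2) < 1 * V (Y ^ 2) :=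
        (mul_lt_mul_iff_left₀ (zero_lt_iff.2 hVY0)).2 h4
      rw [one_mul] at h3
      exact absurd h1 (not_le.2 h3)
    refine ⟨n / Y, 1, div_ne_zero hn0 hY0, map_one V, ?_⟩
    have h1 : d * (n / Y) ^ 2 - 1 ^ 2 = -(64 * β / Y ^ 2) := by
      rw [div_pow, mul_div_assoc', hdn]
      field_simp
      ring
    rw [h1, Valuation.map_neg, map_div₀]
    exact (div_le_iff₀ (zero_lt_iff.2 hVY0)).2 hb
  · rw [not_le] at hVY
    have hV : V (4 * t + Y) ≤ V 4 := by
      refine (Valuation.map_add _ _ _).trans (max_le ?_ hVY.le)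
      rw [map_mul]
      exact mul_le_of_le_one_right' ht
    have hdM : d * (M / e) ^ 2 = u + Y := by rw [hY, div_pow]; ring
    have hM : M ≠ 0 := by
      intro h
      rw [h, zero_div, zero_pow two_ne_zero, mul_zero] at hdM
      have h1 : s ^ 2 = -(4 * t + Y) := by
        have : s ^ 2 + 4 * t + Y = 0 := by rw [← hu, ← hdM]
        linear_combination this
      have h3 : V (s ^ 2) ≤ V 4 := by rw [h1, Valuation.map_neg]; exact hV
      rw [map_pow, hs, one_pow] at h3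
      exact absurd h3 (not_le.2 h4)
    refine ⟨M / e, s, div_ne_zero hM he, hs, ?_⟩
    have h1 : d * (M / e) ^ 2 - s ^ 2 = 4 * t + Y := by rw [hdM, hu]; ring
    rw [h1]
    exact hV

end Pool.Agent.H26.SG
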