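import Pool.Agent.H26.SG.QDefs
import Pool.Agent.H26.SG.QEv
import Pool.Agent.H26.SG.QSq

/-!
Local conditions on soluble classes (finite places).

PROOF. Use only STATEMENTS of imported rows. For a prime `w` work in `F = w.adicCompletion L` with
the valuation `Valued.v`, `valued_algebraMap w x : Valued.v (algebraMap L F x) = w.valuation L x`;
integers have valuation at most one (`w.valuation_le_one`), those not in `w` have valuation one
(`val_eq_one_of_notMem`), `Valued.v 2 < 1` if `2 ∈ w` (see `low_two` in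
`Pool.Agent.H26.SG.LowTwo`, also for `u = s ^ 2 + 4 κ` and `V s = 1`: `V (s ^ 2) = V (u - 4 κ) = 1`).

`qup_one`: `even_of_qpt` (file `Pool.Agent.H73.IS.Par`) with `a = -2 u`, `b = u ^ 2 - 64 β`.
`qup_two`: `sq_two` in the completion, and then back to `L`: this is the same descent as in
`up_two` in `Pool.Agent.H26.SG.UpA` (see there how `SqModFour` in the completion gives
`SqModFour (w.valuation L) x`).
`qup_three`: if `2 ∉ w`: `even_of_qpt` with `a = u`, `b = 16 β`, `V (16 β) = 1`. If `2 ∈ w`: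
`even_two`.
-/

set_option autoImplicit false
set_option linter.style.haveILetI false
open scoped Classical

open WeierstrassCurve IsDedekindDomain NumberField WithZero

namespace Pool.Agent.H26.SG

open Pool.Agent.H10

open H73IS

variable {L : Type} [Field L] [NumberField L] {u β : 𝓞 L}

private lemma int_le (w : HeightOneSpectrum (𝓞 L)) (x : 𝓞 L) :
    Valued.v (algebraMap L (w.adicCompletion L) (x : L)) ≤ 1 := by
  rw [valued_algebraMap]
  exact w.valuation_le_one (K := L) x

private lemma v_two {w : HeightOneSpectrum (𝓞 L)} (hw : (2 : 𝓞 L) ∈ w.asIdeal) :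
    w.valuation L 2 < 1 := by
  have e2 : ((2 : 𝓞 L) : L) = 2 := map_ofNat (algebraMap (𝓞 L) L) 2
  have : w.valuation L ((2 : 𝓞 L) : L) < 1 :=
    (w.valuation_lt_one_iff_mem (K := L) (2 : 𝓞 L)).mpr hw
  rwa [e2] at this

/-- The decomposition of `u` in the completion. -/
private lemma dec (D : QDat u β) {w : HeightOneSpectrum (𝓞 L)} (hw : (2 : 𝓞 L) ∈ w.asIdeal) :
    ∃ s t : w.adicCompletion L, algebraMap L (w.adicCompletion L) (u : L) = s ^ 2 + 4 * t ∧
      Valued.v s = 1 ∧ Valued.v t ≤ 1 := by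
  obtain ⟨s, r, hr⟩ := D.sq4
  have h1 : u = s ^ 2 + 4 * r := by linear_combination hr
  have h2 : (u : L) = (s : L) ^ 2 + 4 * (r : L) := by
    have := congrArg (algebraMap (𝓞 L) L) h1
    rw [map_add, map_pow, map_mul, map_ofNat] at this
    exact this
  have hu : u ∉ w.asIdeal := by
    intro h3
    obtain ⟨p, q, hpq⟩ := D.cop
    apply w.isPrime.ne_top
    rw [Ideal.eq_top_iff_one, ← hpq]
    exact Ideal.add_mem _ (Ideal.mul_mem_left _ _ h3) (Ideal.mul_mem_left _ _ hw)
  have hs : s ∉ w.asIdeal := by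
    intro h3
    apply hu
    rw [h1]
    have e : s ^ 2 + 4 * r = s * s + (2 * r) * 2 := by ring
    rw [e]
    exact Ideal.add_mem _ (Ideal.mul_mem_left _ _ h3) (Ideal.mul_mem_left _ _ hw)
  refine ⟨algebraMap L _ (s : L), algebraMap L _ (r : L), ?_, ?_, int_le w r⟩
  · rw [h2, map_add, map_pow, map_mul, map_ofNat]
  · rw [valued_algebraMap]
    exact val_eq_one_of_notMem hs

theorem qup_one {x : Lˣ} (hx : FinQ L (-2 * (u : L)) ((u : L) ^ 2 - 64 * (β : L)) (x : L))
    {w : HeightOneSpectrum (𝓞 L)} (hw : u ^ 2 - 64 * β ∉ w.asIdeal) : x ∈ evenAt w := by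
  rw [mem_evenAt, ← valued_algebraMap]
  have e1 : (-2 * (u : L)) = ((-2 * u : 𝓞 L) : L) := by
    change _ = algebraMap (𝓞 L) L (-2 * u)
    rw [map_mul, map_neg, map_ofNat]
  have e2 : ((u : L) ^ 2 - 64 * (β : L)) = ((u ^ 2 - 64 * β : 𝓞 L) : L) := by
    change _ = algebraMap (𝓞 L) L (u ^ 2 - 64 * β)
    rw [map_sub, map_pow, map_mul, map_ofNat]
  refine even_of_qpt (F := w.adicCompletion L) Valued.v ?_ ?_
    ((map_ne_zero _).mpr x.ne_zero) (hx w)
  · rw [e1]
    exact int_le w _
  · rw [e2, valued_algebraMap]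
    exact val_eq_one_of_notMem hw

theorem qup_two (D : QDat u β) {x : Lˣ}
    (hx : FinQ L (-2 * (u : L)) ((u : L) ^ 2 - 64 * (β : L)) (x : L)) : FourSq (x : L) := by
  intro w hw
  have v2 := v_two hw
  have v4 : w.valuation L 4 = w.valuation L 2 * w.valuation L 2 := by
    rw [← map_mul]; norm_num
  have h4 : w.valuation L 4 < 1 := by
    rw [v4]; exact mul_lt_one_of_lt_of_le v2 v2.le
  have h40 : w.valuation L 4 ≠ 0 := by
    rw [Valuation.ne_zero_iff]; norm_num
  refine SqModFour.descend w h40 h4 ?_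
  obtain ⟨s, t, hu, hs, ht⟩ := dec D hw
  have H := hx w
  rw [map_mul, map_neg, map_ofNat, map_sub, map_pow, map_mul, map_ofNat] at H
  refine sq_two (F := w.adicCompletion L) Valued.v hu hs ht (int_le w β) two_ne_zero ?_
    ((map_ne_zero _).mpr x.ne_zero) H
  rw [valued_ofNat]
  exact v2

theorem qup_three (D : QDat u β) {x : Lˣ} (hx : FinQ L (u : L) (16 * (β : L)) (x : L))
    {w : HeightOneSpectrum (𝓞 L)} (hw : β ∉ w.asIdeal) : x ∈ evenAt w := by
  rw [mem_evenAt, ← valued_algebraMap]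
  have H := hx w
  have hβ : Valued.v (algebraMap L (w.adicCompletion L) (β : L)) = 1 := by
    rw [valued_algebraMap]
    exact val_eq_one_of_notMem hw
  by_cases h2 : (2 : 𝓞 L) ∈ w.asIdeal
  · obtain ⟨s, t, hu, hs, ht⟩ := dec D h2
    rw [map_mul, map_ofNat] at H
    refine even_two (F := w.adicCompletion L) Valued.v hu hs ht hβ two_ne_zero ?_
      ((map_ne_zero _).mpr x.ne_zero) H
    rw [valued_ofNat]
    exact v_two h2
  · refine even_of_qpt (F := w.adicCompletion L) Valued.v (int_le w u) ?_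
      ((map_ne_zero _).mpr x.ne_zero) H
    have e16 : (16 : L) = ((2 : 𝓞 L) : L) ^ 4 := by
      change _ = algebraMap (𝓞 L) L 2 ^ 4
      rw [map_ofNat]; norm_num
    rw [map_mul, map_mul, hβ, mul_one, e16, map_pow, map_pow, valued_algebraMap,
      val_eq_one_of_notMem h2, one_pow]

end Pool.Agent.H26.SG
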