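import Pool.Agent.H26.SG.QDefs
import Pool.Agent.H73.IS.KNq
import Pool.Agent.H86.IK.Arb

/-!
Real conditions on soluble classes.

PROOF. `qup_four`, `qup_five`: `exists_completion φ` gives `v, ψ`, and `QPt.map` with `ψ` gives
`QPt (φ u) (16 φ β) (φ x)` resp. `QPt (-2 φ u) (φ u ^ 2 - 64 φ β) (φ x)` over the reals.
`qup_four`: `posK` (file `Pool.Agent.H73.IS.KNq`) with `a = -2 φ u`, `b = φ u ^ 2 - 64 φ β`:
`RAt` says exactly `a ^ 2 < 4 b ∨ (0 < b ∧ a < 0)`.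
`qup_five`: put `p = φ u`, `q = φ β`, `d = φ x ≠ 0`, and suppose `d < 0`. `M, e, N` with
`d N ^ 2 = X ^ 2 + p X e ^ 2 + 16 q e ^ 4`, `X = d M ^ 2 ≤ 0`. `e ≠ 0` (else `X = 0`, `M = 0`).
`¬ RAt`: `4 p ^ 2 ≥ 4 (p ^ 2 - 64 q)`, so `q ≥ 0`, `q > 0` as `β ≠ 0`; and
`p ^ 2 - 64 q ≤ 0 ∨ p ≤ 0` and in fact `p ^ 2 - 64 q < 0 ∨ p ≤ 0` as it is not zero. If `p ≤ 0` then
`X ^ 2 + p X e ^ 2 + 16 q e ^ 4 > 0`. If `p ^ 2 < 64 q` then
`X ^ 2 + p X e ^ 2 + 16 q e ^ 4 = (X + p e ^ 2 / 2) ^ 2 + (64 q - p ^ 2) e ^ 4 / 4 > 0`. Both against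
`d N ^ 2 ≤ 0`.
-/

set_option autoImplicit false
set_option linter.style.haveILetI false
open scoped Classical

open WeierstrassCurve IsDedekindDomain NumberField WithZero

namespace Pool.Agent.H26.SG

open Pool.Agent.H10

open H73IS

variable {L : Type} [Field L] [NumberField L] {u β : 𝓞 L}

theorem qup_four {x : Lˣ} (hx : InfQ L (-2 * (u : L)) ((u : L) ^ 2 - 64 * (β : L)) (x : L))
    {φ : L →+* ℝ} (hφ : H86IK.RAt (-2 * (u : L)) ((u : L) ^ 2 - 64 * (β : L)) φ) :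
    0 < φ (x : L) := by
  obtain ⟨v, ψ, hψ⟩ := exists_completion φ
  have h1 := (hx v).map ψ
  rw [hψ, hψ, hψ] at h1
  refine posK hφ ?_ h1
  rw [Ne, map_eq_zero]
  exact x.ne_zero

theorem qup_five (D : QDat u β) {x : Lˣ} (hx : InfQ L (u : L) (16 * (β : L)) (x : L))
    {φ : L →+* ℝ} (hφ : ¬ H86IK.RAt (-2 * (u : L)) ((u : L) ^ 2 - 64 * (β : L)) φ) :
    0 < φ (x : L) := by
  obtain ⟨v, ψ, hψ⟩ := exists_completion φ
  have h1 := (hx v).map ψ
  rw [hψ, hψ, hψ] at h1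
  obtain ⟨p, hp⟩ : ∃ p : ℝ, p = φ (u : L) := ⟨_, rfl⟩
  obtain ⟨q, hq⟩ : ∃ q : ℝ, q = φ (β : L) := ⟨_, rfl⟩
  obtain ⟨d, hd⟩ : ∃ d : ℝ, d = φ (x : L) := ⟨_, rfl⟩
  have hd0 : d ≠ 0 := by
    rw [hd, Ne, map_eq_zero]
    exact x.ne_zero
  have hβ : (β : L) ≠ 0 := by
    intro h
    apply D.β0
    apply RingOfIntegers.coe_injective
    rw [map_zero]
    exact h
  have hq0 : q ≠ 0 := by
    rw [hq, Ne, map_eq_zero]
    exact hβ
  have hdd : (u : L) ^ 2 - 64 * (β : L) ≠ 0 := by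
    intro h
    apply D.d0
    apply RingOfIntegers.coe_injective
    rw [map_zero, map_sub, map_pow, map_mul, map_ofNat]
    exact h
  have hpq : p ^ 2 - 64 * q ≠ 0 := by
    have h2 : p ^ 2 - 64 * q = φ ((u : L) ^ 2 - 64 * (β : L)) := by
      rw [map_sub, map_pow, map_mul, map_ofNat, hp, hq]
    rw [h2, Ne, map_eq_zero]
    exact hdd
  unfold H86IK.RAt at hφ
  rw [map_mul, map_sub, map_pow, map_mul, map_neg, map_ofNat, map_ofNat, ← hp, ← hq] at hφ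
  rw [map_mul, map_ofNat, ← hp, ← hq, ← hd] at h1
  rw [← hd]
  rw [not_or, not_lt, not_and_or, not_lt, not_lt] at hφ
  obtain ⟨f1, f2⟩ := hφ
  have hq1 : 0 < q := lt_of_le_of_ne (by nlinarith) (Ne.symm hq0)
  obtain ⟨M, e, N, hne, hE⟩ := h1
  by_contra hcon
  have hdn : d < 0 := lt_of_le_of_ne (not_lt.mp hcon) hd0
  have hL : d * N ^ 2 ≤ 0 := mul_nonpos_of_nonpos_of_nonneg hdn.le (sq_nonneg N)
  have hpos : 0 < d ^ 2 * M ^ 4 + p * d * M ^ 2 * e ^ 2 + 16 * q * e ^ 4 := by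
    by_cases he : e = 0
    · have hM : M ≠ 0 := by
        rcases hne with h2 | h2
        · exact h2
        · exact absurd he h2
      have h2 : 0 < d ^ 2 * M ^ 4 := by positivity
      rw [he]
      linarith
    · have he4 : 0 < e ^ 4 := by positivity
      rcases f2 with h2 | h2
      · have h3 : 0 < (64 * q - p ^ 2) * e ^ 4 :=
          mul_pos (lt_of_le_of_ne (by linarith) (fun h => hpq (by linarith))) he4
        nlinarith [sq_nonneg (2 * d * M ^ 2 + p * e ^ 2)]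
      · have h4 : p ≤ 0 := by linarith
        have h5 : 0 ≤ p * d := mul_nonneg_of_nonpos_of_nonpos h4 hdn.le
        have h6 : 0 ≤ p * d * M ^ 2 * e ^ 2 := by positivity
        have h7 : 0 ≤ d ^ 2 * M ^ 4 := by positivity
        have h8 : 0 < 16 * q * e ^ 4 := by positivity
        linarith
  linarith

end Pool.Agent.H26.SG
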