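import Pool.Agent.H26.SG.ChainLow
import Pool.Agent.H26.SG.Asm
import Pool.Agent.H26.SG.QDefs
import Pool.Agent.H26.SG.QSha
import Pool.Agent.H26.SG.QCardA
import Pool.Agent.H26.SG.QCardB
import Pool.Agent.H26.SG.QUpA
import Pool.Agent.H26.SG.QUpB
import Pool.Agent.H26.SG.QLowA
import Pool.Agent.H26.SG.QLowB

/-!
The estimates for curves with one rational point of order two.
-/

set_option autoImplicit false
set_option linter.style.haveILetI false
open scoped Classical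

open WeierstrassCurve IsDedekindDomain NumberField WithZero

namespace Pool.Agent.H26.SG

open Pool.Agent.H10 H73IS

variable {L : Type} [Field L] [NumberField L] {u β : 𝓞 L}

/-- The real embeddings in which zero is the least or the only real root. -/
def qS (u β : 𝓞 L) : Set (L →+* ℝ) :=
  {φ | H86IK.RAt (-2 * (u : L)) ((u : L) ^ 2 - 64 * (β : L)) φ}

/-- The two curves. -/
def crv1 (u β : 𝓞 L) : WeierstrassCurve L :=
  ⟨0, -2 * (u : L), 0, (u : L) ^ 2 - 64 * (β : L), 0⟩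

def crv2 (u β : 𝓞 L) : WeierstrassCurve L := ⟨0, (u : L), 0, 16 * (β : L), 0⟩

lemma QDat.β0' (D : QDat u β) : (β : L) ≠ 0 := fun h => D.β0 (RingOfIntegers.coe_eq_zero_iff.mp h)

lemma QDat.d0' (D : QDat u β) : (u : L) ^ 2 - 64 * (β : L) ≠ 0 := by
  intro h
  apply D.d0
  apply RingOfIntegers.coe_eq_zero_iff.mp
  rw [← h]
  push_cast
  rfl

lemma QDat.tw1 (D : QDat u β) : IsTw (crv1 u β) (-2 * (u : L)) ((u : L) ^ 2 - 64 * (β : L)) where
  a₁ := rfl
  a₂ := rfl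
  a₃ := rfl
  a₄ := rfl
  a₆ := rfl
  hb := D.d0'
  hd := by
    have e : (-2 * (u : L)) ^ 2 - 4 * ((u : L) ^ 2 - 64 * (β : L)) = 256 * (β : L) := by ring
    rw [e]
    exact mul_ne_zero (by norm_num) D.β0'
  two := two_ne_zero

lemma QDat.tw2 (D : QDat u β) : IsTw (crv2 u β) (u : L) (16 * (β : L)) where
  a₁ := rfl
  a₂ := rfl
  a₃ := rfl
  a₄ := rfl
  a₆ := rfl
  hb := mul_ne_zero (by norm_num) D.β0'
  hd := by
    have e : (u : L) ^ 2 - 4 * (16 * (β : L)) = (u : L) ^ 2 - 64 * (β : L) := by ring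
    rw [e]
    exact D.d0'
  two := two_ne_zero

lemma qGrp_scale {a b a' b' r : L} (hr : r ≠ 0) (ha : a = r ^ 2 * a') (hb' : b = r ^ 4 * b')
    (hb : b ≠ 0) (hd : a ^ 2 - 4 * b ≠ 0) (h2 : b' ≠ 0) (h3 : a' ^ 2 - 4 * b' ≠ 0) :
    qGrp a b hb hd = qGrp a' b' h2 h3 := by
  ext x
  rw [mem_qGrp, mem_qGrp]
  subst ha
  subst hb'
  have e : ∀ {F : Type} [Field F] (f : L →+* F),
      QPt (f (r ^ 2 * a')) (f (r ^ 4 * b')) (f (x : L)) ↔ QPt (f a') (f b') (f (x : L)) := by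
    intro F _ f
    rw [map_mul, map_mul, map_pow, map_pow]
    exact QPt.scale ((map_ne_zero f).mpr hr)
  constructor
  · rintro ⟨h4, h5⟩
    exact ⟨fun v => (e _).mp (h4 v), fun v => (e _).mp (h5 v)⟩
  · rintro ⟨h4, h5⟩
    exact ⟨fun v => (e _).mpr (h4 v), fun v => (e _).mpr (h5 v)⟩

/-- The two groups of classes. -/
noncomputable def Q1 (D : QDat u β) : Subgroup Lˣ :=
  qGrp (-2 * (u : L)) ((u : L) ^ 2 - 64 * (β : L)) D.tw1.hb D.tw1.hd

noncomputable def Q2 (D : QDat u β) : Subgroup Lˣ :=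
  qGrp (u : L) (16 * (β : L)) D.tw2.hb D.tw2.hd

lemma chain_up {Q C : Subgroup Lˣ} {P : Set (HeightOneSpectrum (𝓞 L))} (hP : P.Finite)
    (hsq : sq L ≤ Q) (hC : (sq L).relIndex C ≠ 0)
    (h : ∀ x ∈ Q, (∀ w ∈ P, x ∈ evenAt w) → x ∈ C) :
    (sq L).relIndex Q ≠ 0 ∧ (sq L).relIndex Q ≤ 2 ^ P.ncard * (sq L).relIndex C := by
  set E : Subgroup Lˣ := ⨅ w : P, evenAt w.1 with hE
  have h1 := evenAt_iInf P hP Q
  have hEQ : E ⊓ Q ≤ C := by
    rintro x ⟨hx1, hx2⟩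
    refine h x hx2 fun w hw => ?_
    have hx1' : x ∈ E := hx1
    rw [hE, Subgroup.mem_iInf] at hx1'
    exact hx1' ⟨w, hw⟩
  have hle : sq L ≤ E ⊓ Q := by
    refine le_inf ?_ hsq
    rw [hE]
    refine le_iInf fun w => ?_
    intro x hx
    exact mem_evenAt.mpr (mem_evenGrp.mp (sq_le_evenGrp hx) w.1)
  have h2 := Subgroup.relIndex_mul_relIndex (sq L) (E ⊓ Q) Q hle inf_le_right
  rw [Subgroup.inf_relIndex_right] at h2
  have h3 : (sq L).relIndex (E ⊓ Q) ≠ 0 :=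
    fun h0 => hC (Subgroup.relIndex_eq_zero_of_le_right hEQ h0)
  have h4 := Subgroup.relIndex_le_of_le_right hEQ hC
  rw [← h2]
  refine ⟨mul_ne_zero h3 h1.1, ?_⟩
  rw [mul_comm]
  exact Nat.mul_le_mul h1.2 h4

lemma Q1_upper (D : QDat u β) : (sq L).relIndex (Q1 D) ≠ 0 ∧ (sq L).relIndex (Q1 D) ≤
    2 ^ (primesOf (u ^ 2 - 64 * β)).ncard * (sq L).relIndex (clsB (qS u β)) := by
  apply chain_up (primesOf_finite D.d0) sq_le_qGrp (relIndex_clsB_ne_zero _)
  intro x hx hev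
  obtain ⟨h1, h2⟩ := mem_qGrp.mp hx
  refine mem_clsB.mpr ⟨fun w => ?_, qup_two D h1, fun φ hφ => qup_four h2 hφ⟩
  by_cases hw : u ^ 2 - 64 * β ∈ w.asIdeal
  · exact mem_evenAt.mp (hev w hw)
  · exact mem_evenAt.mp (qup_one h1 hw)

lemma Q2_upper (D : QDat u β) : (sq L).relIndex (Q2 D) ≠ 0 ∧ (sq L).relIndex (Q2 D) ≤
    2 ^ (primesOf β).ncard * (sq L).relIndex (clsA (qS u β)) := by
  apply chain_up (primesOf_finite D.β0) sq_le_qGrp (relIndex_clsA_ne_zero _)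
  intro x hx hev
  obtain ⟨h1, h2⟩ := mem_qGrp.mp hx
  refine mem_clsA.mpr ⟨fun w => ?_, fun φ hφ => qup_five D h2 hφ⟩
  by_cases hw : β ∈ w.asIdeal
  · exact mem_evenAt.mp (hev w hw)
  · exact mem_evenAt.mp (qup_three D h1 hw)

/-- The bad odd primes. -/
def qBad (u β : 𝓞 L) : Set (HeightOneSpectrum (𝓞 L)) :=
  {w | (2 : 𝓞 L) ∉ w.asIdeal ∧ (β ∈ w.asIdeal ∨ u ^ 2 - 64 * β ∈ w.asIdeal)}

lemma qBad_ncard (D : QDat u β) : (qBad u β).Finite ∧
    (qBad u β).ncard ≤ (primesOf β).ncard + (primesOf (u ^ 2 - 64 * β)).ncard := by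
  have h1 := (primesOf_finite D.β0).union (primesOf_finite D.d0)
  have hsub : qBad u β ⊆ primesOf β ∪ primesOf (u ^ 2 - 64 * β) := fun _ h => h.2
  refine ⟨h1.subset hsub, ?_⟩
  exact (Set.ncard_le_ncard hsub h1).trans (Set.ncard_union_le _ _)

lemma Q2_lower (D : QDat u β) : (sq L).relIndex (clsA (qS u β)) ≤
    2 ^ ((primesOf β).ncard + (primesOf (u ^ 2 - 64 * β)).ncard) * (sq L).relIndex (Q2 D) := by
  set A := clsA (qS u β) with hA
  set Q : Subgroup Lˣ := ⨅ w : qBad u β, locSq w.1 with hQ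
  obtain ⟨hfin, hcard⟩ := qBad_ncard D
  have : Finite (qBad u β) := hfin
  have h1 : Q.relIndex (evenGrp L) ≠ 0 ∧ Q.relIndex (evenGrp L) ≤ 2 ^ (qBad u β).ncard :=
    relIndex_iInf_two (fun w : qBad u β => locSq w.1) (evenGrp L)
      fun w => locSq_index w.2.1
  have h2 : Q.relIndex A ≤ 2 ^ ((primesOf β).ncard + (primesOf (u ^ 2 - 64 * β)).ncard) :=
    ((Subgroup.relIndex_le_of_le_right (clsA_le _) h1.1).trans h1.2).trans
      (Nat.pow_le_pow_right (by norm_num) hcard)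
  have hle : sq L ≤ Q ⊓ A := by
    refine le_inf ?_ ?_
    · rw [hQ]
      exact le_iInf fun w => sq_le_locSq w.1
    · intro x hx
      refine mem_clsA.mpr ⟨mem_evenGrp.mp (sq_le_evenGrp hx), fun φ _ => ?_⟩
      obtain ⟨y, hy⟩ := mem_sq.mp hx
      have hy0 : φ y ≠ 0 := by
        rw [Ne, map_eq_zero]
        rintro rfl
        exact x.ne_zero (by rw [hy, mul_zero])
      rw [hy, map_mul]
      exact mul_self_pos.mpr hy0
  have h3 : (sq L).relIndex (Q ⊓ A) ≤ (sq L).relIndex (Q2 D) := by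
    apply Subgroup.relIndex_le_of_le_right _ (Q2_upper D).1
    rintro d ⟨hdQ, hdA⟩
    have hdA' := mem_clsA.mp hdA
    refine mem_qGrp.mpr ⟨fun w => ?_, fun v => qlow_inf v fun φ => ?_⟩
    · have hdw : d ∈ evenAt w := mem_evenAt.mpr (hdA'.1 w)
      by_cases h2 : (2 : 𝓞 L) ∈ w.asIdeal
      · exact qlow_two D hdw h2
      · by_cases hbad : β ∈ w.asIdeal ∨ u ^ 2 - 64 * β ∈ w.asIdeal
        · have hdQ' : d ∈ Q := hdQ
          rw [hQ, Subgroup.mem_iInf] at hdQ'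
          exact QPt.isSquare ((map_ne_zero _).mpr d.ne_zero) (mem_locSq.mp (hdQ' ⟨w, h2, hbad⟩))
        · rw [not_or] at hbad
          exact qlow_good hdw h2 hbad.1 hbad.2
    · by_cases hφ : φ ∈ qS u β
      · exact Or.inl hφ
      · exact Or.inr (hdA'.2 φ hφ)
  have h4 := Subgroup.relIndex_mul_relIndex (sq L) (Q ⊓ A) A hle inf_le_right
  rw [Subgroup.inf_relIndex_right] at h4
  rw [← h4, mul_comm]
  exact Nat.mul_le_mul h2 h3

/-- The number of two-torsion cocycles for both curves. -/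
theorem card_tw {V : WeierstrassCurve L} {a b : L} (h : IsTw V a b) {QA QB : Subgroup Lˣ}
    (hA : qGrp a b h.hb h.hd = QA)
    (hB : qGrp (-2 * a) (a ^ 2 - 4 * b) h.hd (dual_d h.hb) = QB)
    (hA0 : (sq L).relIndex QA ≠ 0) (hB0 : (sq L).relIndex QB ≠ 0) :
    AddGroup.FG V.toAffine.Point ∧ Nat.card {x : Sha L V // x + x = 0} ≠ 0 ∧
    2 ^ (Module.finrank ℤ V.toAffine.Point + 2) * Nat.card {x : Sha L V // x + x = 0} ≤
      (sq L).relIndex QA * (sq L).relIndex QB ∧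
    (sq L).relIndex QB ≤
      2 ^ (Module.finrank ℤ V.toAffine.Point + 2) * Nat.card {x : Sha L V // x + x = 0} := by
  obtain ⟨hfg, h1⟩ := card_selZ_tw h
  obtain ⟨M, hM1, hM2, h2⟩ := card_selZ_dec h
  rw [card_kerT h, hB] at h2
  rw [hA] at hM2
  have hM0 : (sq L).relIndex M ≠ 0 := fun h0 =>
    hA0 (Subgroup.relIndex_eq_zero_of_le_right hM2 h0)
  have hM3 := Subgroup.relIndex_le_of_le_right hM2 hA0
  have hpos : Nat.card (SelZ L V) ≠ 0 := by
    rw [h2]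
    exact mul_ne_zero hB0 hM0
  refine ⟨hfg, ?_, ?_, ?_⟩
  · intro h0
    rw [h1, h0, mul_zero] at hpos
    exact hpos rfl
  · rw [← h1, h2, mul_comm]
    exact Nat.mul_le_mul hM3 le_rfl
  · rw [← h1, h2]
    exact Nat.le_mul_of_pos_right _ (Nat.pos_of_ne_zero hM0)

lemma dual1 (D : QDat u β) : qGrp (-2 * (-2 * (u : L)))
    ((-2 * (u : L)) ^ 2 - 4 * ((u : L) ^ 2 - 64 * (β : L))) D.tw1.hd (dual_d D.tw1.hb) = Q2 D :=
  qGrp_scale (r := 2) two_ne_zero (by ring) (by ring) _ _ _ _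

lemma dual2 (D : QDat u β) : qGrp (-2 * (u : L))
    ((u : L) ^ 2 - 4 * (16 * (β : L))) D.tw2.hd (dual_d D.tw2.hb) = Q1 D :=
  qGrp_scale (r := 1) one_ne_zero (by ring) (by ring) _ _ _ _

/-- The rank and the two-torsion of the Tate-Shafarevich group. -/
noncomputable def rs (V : WeierstrassCurve L) : ℕ :=
  2 ^ (Module.finrank ℤ V.toAffine.Point + 2) * Nat.card {x : Sha L V // x + x = 0}

/-- The upper bound for both curves. -/
theorem qEst_up (D : QDat u β) {V : WeierstrassCurve L} (hV : V = crv1 u β ∨ V = crv2 u β) :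
    AddGroup.FG V.toAffine.Point ∧ Nat.card {x : Sha L V // x + x = 0} ≠ 0 ∧
    rs V ≤ 2 ^ ((primesOf β).ncard + (primesOf (u ^ 2 - 64 * β)).ncard) *
        ((sq L).relIndex (clsA (qS u β)) * (sq L).relIndex (clsB (qS u β))) := by
  obtain ⟨h1, h2⟩ := Q1_upper D
  obtain ⟨h3, h4⟩ := Q2_upper D
  have key : (sq L).relIndex (Q1 D) * (sq L).relIndex (Q2 D) ≤
      2 ^ ((primesOf β).ncard + (primesOf (u ^ 2 - 64 * β)).ncard) *
        ((sq L).relIndex (clsA (qS u β)) * (sq L).relIndex (clsB (qS u β))) := by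
    refine (Nat.mul_le_mul h2 h4).trans (le_of_eq ?_)
    rw [pow_add]
    ring
  rcases hV with rfl | rfl
  · obtain ⟨a1, a2, a3, -⟩ := card_tw D.tw1 (QA := Q1 D) rfl (dual1 D) h1 h3
    exact ⟨a1, a2, a3.trans key⟩
  · obtain ⟨a1, a2, a3, -⟩ := card_tw D.tw2 (QA := Q2 D) rfl (dual2 D) h3 h1
    refine ⟨a1, a2, a3.trans ?_⟩
    rw [mul_comm]
    exact key

/-- The lower bound for the first curve. -/
theorem qEst_low (D : QDat u β) :
    (sq L).relIndex (clsA (qS u β)) ≤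
      2 ^ ((primesOf β).ncard + (primesOf (u ^ 2 - 64 * β)).ncard) * rs (crv1 u β) := by
  obtain ⟨h1, -⟩ := Q1_upper D
  obtain ⟨h3, -⟩ := Q2_upper D
  obtain ⟨-, -, -, a4⟩ := card_tw D.tw1 (QA := Q1 D) rfl (dual1 D) h1 h3
  exact (Q2_lower D).trans (Nat.mul_le_mul le_rfl a4)

/-- If the Selmer group is not larger than the contribution of the points of a subgroup of rank
`r`, there is no Tate-Shafarevich group and the rank is `r`. -/
theorem of_rs_le {V : WeierstrassCurve L} {r : ℕ}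
    (hr : r ≤ Module.finrank ℤ V.toAffine.Point)
    (h0 : Nat.card {x : Sha L V // x + x = 0} ≠ 0)
    (h : rs V ≤ 2 ^ (r + 2)) : Module.finrank ℤ V.toAffine.Point = r ∧ Sha2Trivial L V := by
  unfold rs at h
  set X := Nat.card {x : Sha L V // x + x = 0} with hX
  set n := Module.finrank ℤ V.toAffine.Point with hn
  have hX1 : 1 ≤ X := Nat.one_le_iff_ne_zero.mpr h0
  have h1 : 2 ^ (n + 2) ≤ 2 ^ (r + 2) := by
    calc 2 ^ (n + 2) = 2 ^ (n + 2) * 1 := (mul_one _).symm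
      _ ≤ 2 ^ (n + 2) * X := Nat.mul_le_mul le_rfl hX1
      _ ≤ 2 ^ (r + 2) := h
  have h2 : n + 2 ≤ r + 2 := (Nat.pow_le_pow_iff_right (by norm_num)).mp h1
  have h3 : n = r := by omega
  refine ⟨h3, sha2Trivial_of_card ?_⟩
  rw [h3] at h
  have h4 : 2 ^ (r + 2) * X ≤ 2 ^ (r + 2) * 1 := by rw [mul_one]; exact h
  have h5 : X ≤ 1 := Nat.le_of_mul_le_mul_left h4 (by positivity)
  exact le_antisymm h5 hX1

end Pool.Agent.H26.SG
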