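import Pool.Agent.H10.GrHen

/-!
A fixed point in a complete discretely valued field.

PROOF. Model: `exists_sq_add_self` in `Pool.Agent.H10.GrHen`. Let `x 0 = 0`, `x (n + 1) = g (x n)`.
All `x n` have valuation `< 1`; `V (x (n + 1) - x n) ≤ exp (-(n + 1))` by induction (for `n = 0`:
`V (g 0) < 1`, `lt_one_le_exp`). So `V (x (m + k) - x m) ≤ exp (-(m + 1))` and the sequence is
Cauchy, as in the model; let `ℓ` be its limit. `V (ℓ - x n) ≤ exp (-(n+1))` for all `n` (the ball is
closed; or as in the model), in particular `V ℓ < 1`. Then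
`V (g ℓ - ℓ) ≤ max (V (g ℓ - g (x n))) (V (x (n + 1) - ℓ)) ≤ exp (-(n + 1))` for all `n`, so
`g ℓ = ℓ` (`exists_exp_neg_natCast_lt` for a nonzero value).
-/

set_option autoImplicit false
set_option linter.style.haveILetI false

open WithZero Topology Filter

namespace Pool.Agent.H26.SG

open Pool.Agent.H10

theorem exists_fix {F : Type*} [Field F] [Valued F (WithZero (Multiplicative ℤ))]
    [CompleteSpace F] (g : F → F) (hg : ∀ x, Valued.v x < 1 → Valued.v (g x) < 1)
    (hc : ∀ x y, Valued.v x < 1 → Valued.v y < 1 →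
      Valued.v (g x - g y) ≤ exp (-1 : ℤ) * Valued.v (x - y)) :
    ∃ x : F, Valued.v x < 1 ∧ g x = x := by
  let x : ℕ → F := fun n => g^[n] 0
  have hxs : ∀ n, x (n + 1) = g (x n) := fun n => Function.iterate_succ_apply' g n 0
  have hx1 : ∀ n, Valued.v (x n) < 1 := by
    intro n
    induction n with
    | zero =>
      change Valued.v (0 : F) < 1
      rw [map_zero]
      exact zero_lt_one
    | succ n ih =>
      rw [hxs]
      exact hg _ ih
  have hstep : ∀ n, Valued.v (x (n + 1) - x n) ≤ exp (-((n + 1 : ℕ) : ℤ)) := by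
    intro n
    induction n with
    | zero =>
      have h0 : x (0 + 1) - x 0 = x 1 := by
        change x 1 - 0 = x 1
        exact sub_zero _
      rw [h0]
      exact_mod_cast lt_one_le_exp (hx1 1)
    | succ n ih =>
      rw [hxs (n + 1)]
      have h1 : Valued.v (g (x (n + 1)) - x (n + 1)) = Valued.v (g (x (n + 1)) - g (x n)) := by
        rw [← hxs n]
      rw [h1]
      refine (hc _ _ (hx1 _) (hx1 _)).trans ?_
      calc exp (-1 : ℤ) * Valued.v (x (n + 1) - x n)
          ≤ exp (-1 : ℤ) * exp (-((n + 1 : ℕ) : ℤ)) := mul_le_mul' le_rfl ih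
        _ = exp (-((n + 1 + 1 : ℕ) : ℤ)) := by
          rw [← exp_add]
          congr 1
          push_cast
          ring
  have hsub : ∀ n k, Valued.v (x (n + k) - x n) ≤ exp (-((n + 1 : ℕ) : ℤ)) := by
    intro n k
    induction k with
    | zero => rw [add_zero, sub_self, map_zero]; exact zero_le
    | succ k ih =>
      have e : x (n + (k + 1)) - x n = (x (n + k + 1) - x (n + k)) + (x (n + k) - x n) := by
        rw [← add_assoc]; ring
      rw [e]
      refine (Valuation.map_add _ _ _).trans (max_le ((hstep _).trans ?_) ih)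
      rw [exp_le_exp]
      push_cast
      omega
  have hcau : CauchySeq x := by
    rw [CauchySeq, Valued.cauchy_iff]
    refine ⟨inferInstance, fun γ => ?_⟩
    obtain ⟨N, hN⟩ := exists_exp_neg_natCast_lt
      (x := MonoidWithZeroHom.ValueGroup₀.embedding γ.1) (by simp)
    refine ⟨x '' Set.Ici N, Filter.image_mem_map (Filter.Ici_mem_atTop N), ?_⟩
    rintro _ ⟨m, hm, rfl⟩ _ ⟨n, hn, rfl⟩
    rw [Valuation.restrict_lt_iff_lt_embedding]
    refine lt_of_le_of_lt ?_ hN
    have h1 := hsub N (m - N)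
    have h2 := hsub N (n - N)
    rw [Nat.add_sub_cancel' hm] at h1
    rw [Nat.add_sub_cancel' hn] at h2
    have e : x n - x m = (x n - x N) - (x m - x N) := by ring
    rw [e]
    refine (Valuation.map_sub _ _ _).trans (max_le (h2.trans ?_) (h1.trans ?_)) <;>
    · rw [exp_le_exp]; push_cast; omega
  obtain ⟨l, hl⟩ := cauchySeq_tendsto_of_complete hcau
  have hlim : ∀ n, Valued.v (l - x n) ≤ exp (-((n + 1 : ℕ) : ℤ)) := by
    intro n
    by_contra hlt
    rw [not_le] at hlt
    have hpos : Valued.v (l - x n) ≠ 0 := (zero_le.trans_lt hlt).ne'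
    have hopen := Valued.isOpen_ball F (Valued.v.restrict (l - x n))
    have h0 : Tendsto (fun k => x (k + n) - l) atTop (𝓝 (l - l)) :=
      (hl.comp (tendsto_add_atTop_nat n)).sub tendsto_const_nhds
    rw [sub_self] at h0
    have hmem : (0 : F) ∈ {y : F | Valued.v.restrict y < Valued.v.restrict (l - x n)} := by
      rw [Set.mem_ofPred_eq, Valuation.restrict_lt_iff, map_zero]
      exact zero_lt_iff.mpr hpos
    obtain ⟨k, hk⟩ := (h0.eventually (hopen.mem_nhds hmem)).exists
    have hk' : Valued.v (x (k + n) - l) < Valued.v (l - x n) := by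
      have hk2 : Valued.v.restrict (x (k + n) - l) < Valued.v.restrict (l - x n) := hk
      rwa [Valuation.restrict_lt_iff] at hk2
    have e : l - x n = (x (k + n) - x n) - (x (k + n) - l) := by ring
    have h2 := hsub n k
    rw [add_comm n k] at h2
    have h3 : Valued.v (l - x n) ≤ max (Valued.v (x (k + n) - x n)) (Valued.v (x (k + n) - l)) := by
      conv_lhs => rw [e]
      exact Valuation.map_sub _ _ _
    rcases le_max_iff.mp h3 with h4 | h4
    · exact absurd hlt (not_lt.mpr (h4.trans h2))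
    · exact absurd hk' (not_lt.mpr h4)
  have hl1 : Valued.v l < 1 := by
    have h0 := hlim 0
    have h1 : l - x 0 = l := by
      change l - 0 = l
      exact sub_zero _
    rw [h1] at h0
    refine lt_of_le_of_lt h0 ?_
    rw [← exp_zero, exp_lt_exp]
    simp
  refine ⟨l, hl1, ?_⟩
  by_contra hne
  have hv : Valued.v (g l - l) ≠ 0 := (Valuation.ne_zero_iff _).mpr (sub_ne_zero.mpr hne)
  obtain ⟨N, hN⟩ := exists_exp_neg_natCast_lt (x := Valued.v (g l - l)) hv
  have h1 : Valued.v (g l - g (x N)) ≤ exp (-((N + 1 : ℕ) : ℤ)) := by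
    refine (hc _ _ hl1 (hx1 N)).trans ?_
    calc exp (-1 : ℤ) * Valued.v (l - x N) ≤ 1 * exp (-((N + 1 : ℕ) : ℤ)) :=
          mul_le_mul' (by rw [← exp_zero, exp_le_exp]; simp) (hlim N)
      _ = _ := one_mul _
  have h2 : Valued.v (x (N + 1) - l) ≤ exp (-((N + 1 : ℕ) : ℤ)) := by
    rw [Valuation.map_sub_swap]
    refine (hlim (N + 1)).trans ?_
    rw [exp_le_exp]
    push_cast
    omega
  have e : g l - l = (g l - g (x N)) + (x (N + 1) - l) := by
    rw [hxs N]; ring
  have h3 : Valued.v (g l - l) ≤ exp (-((N + 1 : ℕ) : ℤ)) := by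
    rw [e]
    exact (Valuation.map_add _ _ _).trans (max_le h1 h2)
  have h4 : exp (-((N + 1 : ℕ) : ℤ)) ≤ exp (-(N : ℤ)) := by
    rw [exp_le_exp]; push_cast; omega
  exact absurd hN (not_lt.mpr (h3.trans h4))

end Pool.Agent.H26.SG
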