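import Pool.Agent.H26.SG.Defs

/-!
The Selmer group as a subgroup.
-/

set_option autoImplicit false
set_option linter.style.haveILetI false
open scoped Classical

open WeierstrassCurve IsDedekindDomain NumberField WithZero

namespace Pool.Agent.H26.SG

open Pool.Agent.H10

section

variable {k : Type*} [Field k]

lemma CPt.one (e₁ e₂ e₃ : k) : CPt e₁ e₂ e₃ 1 1 1 :=
  ⟨0, 1, 1, 1, Or.inr (Or.inl one_ne_zero), by ring, by ring⟩

lemma CPt.inv {e₁ e₂ e₃ d₁ d₂ d₃ : k} (h1 : d₁ ≠ 0) (h2 : d₂ ≠ 0) (h3 : d₃ ≠ 0)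
    (H : CPt e₁ e₂ e₃ d₁ d₂ d₃) : CPt e₁ e₂ e₃ d₁⁻¹ d₂⁻¹ d₃⁻¹ := by
  refine H.congr (inv_ne_zero h1) (inv_ne_zero h2) (inv_ne_zero h3) ?_ ?_ ?_ <;> field_simp

end

variable {L : Type} [Field L] [NumberField L] {V : WeierstrassCurve L} {e₁ e₂ e₃ : L}

omit [NumberField L] in
lemma isSquare_triple {t : Lˣ × Lˣ × Lˣ} (h : IsSquare ((t.1 : L) * (t.2.1 : L) * (t.2.2 : L))) :
    ∃ c : L, c ≠ 0 ∧ (t.1 : L) * (t.2.1 : L) * (t.2.2 : L) = c ^ 2 := by
  obtain ⟨c, hc⟩ := h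
  refine ⟨c, ?_, by rw [hc, pow_two]⟩
  rintro rfl
  exact mul_ne_zero (mul_ne_zero t.1.ne_zero t.2.1.ne_zero) t.2.2.ne_zero (by rw [hc, mul_zero])

/-- The two-Selmer group, as a group of triples. -/
def selT (h : IsCub V e₁ e₂ e₃) : Subgroup (Lˣ × Lˣ × Lˣ) where
  carrier := {t | IsSel e₁ e₂ e₃ t}
  one_mem' := by
    refine ⟨⟨1, by simp⟩, fun v => ?_, fun v => ?_⟩
    · simp only [Prod.fst_one, Prod.snd_one, Units.val_one, map_one]
      exact CPt.one _ _ _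
    · simp only [Prod.fst_one, Prod.snd_one, Units.val_one, map_one]
      exact CPt.one _ _ _
  mul_mem' := by
    intro x y hx hy
    obtain ⟨c, hc, ec⟩ := isSquare_triple hx.1
    obtain ⟨c', hc', ec'⟩ := isSquare_triple hy.1
    have key : ∀ {F : Type} [Field F] [CharZero F] [Algebra L F],
        CPt (algebraMap L F e₁) (algebraMap L F e₂) (algebraMap L F e₃) (algebraMap L F (x.1 : L))
          (algebraMap L F (x.2.1 : L)) (algebraMap L F (x.2.2 : L)) →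
        CPt (algebraMap L F e₁) (algebraMap L F e₂) (algebraMap L F e₃) (algebraMap L F (y.1 : L))
          (algebraMap L F (y.2.1 : L)) (algebraMap L F (y.2.2 : L)) →
        CPt (algebraMap L F e₁) (algebraMap L F e₂) (algebraMap L F e₃)
          (algebraMap L F ((x * y).1 : L)) (algebraMap L F ((x * y).2.1 : L))
          (algebraMap L F ((x * y).2.2 : L)) := by
      intro F _ _ _ H H'
      simp only [Prod.fst_mul, Prod.snd_mul, Units.val_mul, map_mul]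
      refine CPt.mul (c := algebraMap L F c) (c' := algebraMap L F c')
        (fun e => h.h12 ((algebraMap L F).injective e))
        (fun e => h.h13 ((algebraMap L F).injective e))
        (fun e => h.h23 ((algebraMap L F).injective e)) two_ne_zero ?_ ?_ ?_ ?_ H H'
      · rw [← map_mul, ← map_mul, ec, map_pow]
      · rw [Ne, map_eq_zero]; exact hc
      · rw [← map_mul, ← map_mul, ec', map_pow]
      · rw [Ne, map_eq_zero]; exact hc'
    refine ⟨?_, fun v => key (hx.2.1 v) (hy.2.1 v), fun v => key (hx.2.2 v) (hy.2.2 v)⟩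
    refine ⟨c * c', ?_⟩
    simp only [Prod.fst_mul, Prod.snd_mul, Units.val_mul]
    linear_combination ((y.1 : L) * y.2.1 * y.2.2) * ec + c ^ 2 * ec'
  inv_mem' := by
    intro x hx
    obtain ⟨c, hc, ec⟩ := isSquare_triple hx.1
    have key : ∀ {F : Type} [Field F] [Algebra L F],
        CPt (algebraMap L F e₁) (algebraMap L F e₂) (algebraMap L F e₃) (algebraMap L F (x.1 : L))
          (algebraMap L F (x.2.1 : L)) (algebraMap L F (x.2.2 : L)) →
        CPt (algebraMap L F e₁) (algebraMap L F e₂) (algebraMap L F e₃)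
          (algebraMap L F ((x⁻¹).1 : L)) (algebraMap L F ((x⁻¹).2.1 : L))
          (algebraMap L F ((x⁻¹).2.2 : L)) := by
      intro F _ _ H
      simp only [Prod.fst_inv, Prod.snd_inv, Units.val_inv_eq_inv_val, map_inv₀]
      refine CPt.inv ?_ ?_ ?_ H <;> · rw [Ne, map_eq_zero]; exact Units.ne_zero _
    refine ⟨?_, fun v => key (hx.2.1 v), fun v => key (hx.2.2 v)⟩
    refine ⟨c⁻¹, ?_⟩
    simp only [Prod.fst_inv, Prod.snd_inv, Units.val_inv_eq_inv_val]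
    rw [← mul_inv, ← mul_inv, ec, pow_two, mul_inv]

lemma mem_selT {h : IsCub V e₁ e₂ e₃} {t : Lˣ × Lˣ × Lˣ} : t ∈ selT h ↔ IsSel e₁ e₂ e₃ t := Iff.rfl

variable (L) in
omit [NumberField L] in
/-- The triples of squares. -/
def sqT : Subgroup (Lˣ × Lˣ × Lˣ) := (sq L).prod ((sq L).prod (sq L))

omit [NumberField L] in
lemma mem_sqT {t : Lˣ × Lˣ × Lˣ} : t ∈ sqT L ↔
    IsSquare (t.1 : L) ∧ IsSquare (t.2.1 : L) ∧ IsSquare (t.2.2 : L) := by
  rw [sqT, Subgroup.mem_prod, Subgroup.mem_prod, mem_sq, mem_sq, mem_sq]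

lemma cpt_of_squares {F : Type*} [Field F] {e₁ e₂ e₃ d₁ d₂ d₃ : F} (n1 : d₁ ≠ 0) (n2 : d₂ ≠ 0)
    (n3 : d₃ ≠ 0) (h1 : IsSquare d₁) (h2 : IsSquare d₂) (h3 : IsSquare d₃) :
    CPt e₁ e₂ e₃ d₁ d₂ d₃ := by
  obtain ⟨a, rfl⟩ := h1
  obtain ⟨b, rfl⟩ := h2
  obtain ⟨c, rfl⟩ := h3
  have na : a ≠ 0 := by rintro rfl; exact n1 (mul_zero _)
  have nb : b ≠ 0 := by rintro rfl; exact n2 (mul_zero _)
  have nc : c ≠ 0 := by rintro rfl; exact n3 (mul_zero _)
  refine (CPt.one e₁ e₂ e₃).congr na nb nc ?_ ?_ ?_ <;> ring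

lemma sqT_le_selT (h : IsCub V e₁ e₂ e₃) : sqT L ≤ selT h := by
  intro t ht
  rw [mem_sqT] at ht
  obtain ⟨h1, h2, h3⟩ := ht
  refine ⟨(h1.mul h2).mul h3, fun v => ?_, fun v => ?_⟩
  · refine cpt_of_squares ?_ ?_ ?_ (h1.map _) (h2.map _) (h3.map _) <;>
      · rw [Ne, map_eq_zero]; exact Units.ne_zero _
  · refine cpt_of_squares ?_ ?_ ?_ (h1.map _) (h2.map _) (h3.map _) <;>
      · rw [Ne, map_eq_zero]; exact Units.ne_zero _

end Pool.Agent.H26.SG
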