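import Pool.Agent.H26.SG.GrpFG
import Pool.Agent.H26.SG.TwoTors
import Pool.Agent.H26.SG.Sel
import Pool.Agent.H11.MW

/-!
The curve `y^2 = x (x + 35) (x + 211)` has rank at least two (same proof as in the file `Rank2`).
-/

set_option autoImplicit false
set_option linter.style.haveILetI false
open scoped Classical

open IsDedekindDomain NumberField WithZero

namespace Pool.Agent.H26.SG

open Pool.Agent.H10

open WeierstrassCurve

private lemma RankB_double {k : Type*} [Field k] [DecidableEq k] {V : WeierstrassCurve k} {e₁ e₂ e₃ : k}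
    (h : IsCub V e₁ e₂ e₃) {x y : k} {hxy : V.toAffine.Nonsingular x y} {R : V.toAffine.Point}
    (hR : Affine.Point.some x y hxy = R + R) :
    IsSquare (x - e₁) ∧ IsSquare (x - e₂) ∧ IsSquare (x - e₃) := by
  match R, hR with
  | 0, hR => rw [add_zero] at hR; exact absurd hR (by simp)
  | Affine.Point.some X Y hns, hR =>
    have hY : Y ≠ 0 := by
      rintro rfl
      rw [Affine.Point.add_self_of_Y_eq (by rw [h.negY_eq, neg_zero])] at hR
      exact absurd hR (by simp)
    obtain ⟨x', s₁, s₂, s₃, h1, h2, h3, hR', -, -, -⟩ := h.exists_half hns hY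
    have hns' : V.toAffine.Nonsingular x' (s₁ * s₂ * s₃) := h.nonsingular (by
      rw [← h1, ← h2, ← h3]; ring)
    rw [hR', h.half_add_half h1 h2 h3 hns'] at hR
    have hx : x = x' := (Affine.Point.some.inj hR).1
    subst hx
    exact ⟨⟨s₁, by rw [← h1]; ring⟩, ⟨s₂, by rw [← h2]; ring⟩, ⟨s₃, by rw [← h3]; ring⟩⟩

private lemma RankB_card {k : Type*} [Field k] [inst : DecidableEq k] {V : WeierstrassCurve k}
    {e₁ e₂ e₃ : k} (h : IsCub V e₁ e₂ e₃) :
    Nat.card {P : V.toAffine.Point // P + P = 0} = 4 := by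
  have hi : inst = fun a b => Classical.propDecidable (a = b) := Subsingleton.elim _ _
  subst hi
  exact card_two_torsion h

private lemma RankB_idx {A : Type*} [AddCommGroup A] (D : AddSubgroup A) (hD : ∀ x, x + x ∈ D)
    (hi : D.index ≠ 0) (g₁ g₂ g₃ g₄ : A)
    (H : ∀ a b c d : Bool, ((if a = true then g₁ else 0) + (if b = true then g₂ else 0)) +
      ((if c = true then g₃ else 0) + (if d = true then g₄ else 0)) ∈ D →
        a = false ∧ b = false ∧ c = false ∧ d = false) : 16 ≤ D.index := by
  have hf : Finite (A ⧸ D) := Nat.finite_of_card_ne_zero (by rwa [AddSubgroup.index] at hi)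
  let f : Bool × Bool × Bool × Bool → A ⧸ D := fun p =>
    (((if p.1 = true then g₁ else 0) + (if p.2.1 = true then g₂ else 0)) +
      ((if p.2.2.1 = true then g₃ else 0) + (if p.2.2.2 = true then g₄ else 0)) : A)
  have key : ∀ (g : A) (a b : Bool), (if (a ^^ b) = true then g else 0) -
      (-(if a = true then g else 0) + (if b = true then g else 0)) ∈ D := by
    intro g a b
    cases a <;> cases b <;> simp [hD g, D.zero_mem]
  have hinj : Function.Injective f := by
    rintro ⟨a, b, c, d⟩ ⟨a', b', c', d'⟩ hab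
    have h1 := QuotientAddGroup.eq.mp hab
    have h2 := D.add_mem (D.add_mem (D.add_mem (key g₁ a a') (key g₂ b b'))
      (D.add_mem (key g₃ c c') (key g₄ d d'))) h1
    have h3 := H (a ^^ a') (b ^^ b') (c ^^ c') (d ^^ d') (by
      convert h2 using 1
      simp only
      abel)
    obtain ⟨h4, h5, h6, h7⟩ := h3
    have hx : ∀ u v : Bool, (u ^^ v) = false → u = v := by decide
    have e4 := hx _ _ h4
    have e5 := hx _ _ h5
    have e6 := hx _ _ h6
    have e7 := hx _ _ h7
    subst e4 e5 e6 e7
    rfl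
  have := Nat.card_le_card_of_injective f hinj
  rw [Nat.card_eq_fintype_card] at this
  exact this

private lemma RankB_add {x₁ y₁ x₂ y₂ x₃ y₃ : ℚ}
    (h₁ : (⟨0, 246, 0, 7385, 0⟩ : WeierstrassCurve ℚ).toAffine.Nonsingular x₁ y₁)
    (h₂ : (⟨0, 246, 0, 7385, 0⟩ : WeierstrassCurve ℚ).toAffine.Nonsingular x₂ y₂)
    (h₃ : (⟨0, 246, 0, 7385, 0⟩ : WeierstrassCurve ℚ).toAffine.Nonsingular x₃ y₃)
    (hx : x₁ ≠ x₂) (l : ℚ) (hl : y₁ - y₂ = l * (x₁ - x₂)) (e1 : x₃ = l ^ 2 - 246 - x₁ - x₂)
    (e2 : y₃ = -(l * (x₃ - x₁) + y₁)) :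
    Affine.Point.some x₁ y₁ h₁ + Affine.Point.some x₂ y₂ h₂ = Affine.Point.some x₃ y₃ h₃ := by
  have hs : (⟨0, 246, 0, 7385, 0⟩ : WeierstrassCurve ℚ).toAffine.slope x₁ x₂ y₁ y₂ = l := by
    rw [Affine.slope_of_X_ne hx, hl, mul_div_cancel_right₀ _ (sub_ne_zero.mpr hx)]
  rw [Affine.Point.add_of_X_ne hx, Affine.Point.some.injEq, hs]
  have hX : (⟨0, 246, 0, 7385, 0⟩ : WeierstrassCurve ℚ).toAffine.addX x₁ x₂ l = x₃ := by
    rw [e1]
    simp only [Affine.addX]
    ring
  refine ⟨hX, ?_⟩
  rw [Affine.addY, Affine.negAddY, hX, e2]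
  simp only [Affine.negY]
  ring

private lemma RankB_cub : IsCub (⟨0, 246, 0, 7385, 0⟩ : WeierstrassCurve ℚ) 0 (-35) (-211) where
  a₁ := rfl
  a₂ := by norm_num
  a₃ := rfl
  a₄ := by norm_num
  a₆ := by norm_num
  h12 := by norm_num
  h13 := by norm_num
  h23 := by norm_num
  two := by norm_num

private lemma RankB_nd {x y : ℚ}
    {hxy : (⟨0, 246, 0, 7385, 0⟩ : WeierstrassCurve ℚ).toAffine.Nonsingular x y}
    (H : x < 0 ∨ ¬ IsSquare x ∨ ¬ IsSquare (x + 35)) :
    Affine.Point.some x y hxy ∉ (nsmulAddMonoidHom 2 :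
      (⟨0, 246, 0, 7385, 0⟩ : WeierstrassCurve ℚ).toAffine.Point →+
      (⟨0, 246, 0, 7385, 0⟩ : WeierstrassCurve ℚ).toAffine.Point).range := by
  rintro ⟨R, hR⟩
  rw [nsmulAddMonoidHom_apply, two_nsmul] at hR
  obtain ⟨h1, h2, -⟩ := RankB_double RankB_cub hR.symm
  rw [sub_zero] at h1
  rw [sub_neg_eq_add] at h2
  rcases H with H | H | H
  · exact absurd h1.nonneg (not_le.mpr H)
  · exact H h1
  · exact H h2

theorem rank_two_b :
    2 ≤ Module.finrank ℤ (⟨0, 246, 0, 7385, 0⟩ : WeierstrassCurve ℚ).toAffine.Point := by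
  have h := RankB_cub
  haveI := h.isElliptic
  haveI : AddGroup.FG (⟨0, 246, 0, 7385, 0⟩ : WeierstrassCurve ℚ).toAffine.Point :=
    Pool.Agent.H11.mordell_weil _
  have hi := index_double (⟨0, 246, 0, 7385, 0⟩ : WeierstrassCurve ℚ).toAffine.Point
  rw [RankB_card h] at hi
  set D := (nsmulAddMonoidHom 2 :
      (⟨0, 246, 0, 7385, 0⟩ : WeierstrassCurve ℚ).toAffine.Point →+
      (⟨0, 246, 0, 7385, 0⟩ : WeierstrassCurve ℚ).toAffine.Point).range with hDdef
  have hi0 : D.index ≠ 0 := by rw [hi]; positivity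
  have hD : ∀ x, x + x ∈ D := fun x => ⟨x, by rw [nsmulAddMonoidHom_apply, two_nsmul]⟩
  have nT1 := h.nonsingular (x := 0) (y := 0) (by norm_num)
  have nT2 := h.nonsingular (x := -35) (y := 0) (by norm_num)
  have nT3 := h.nonsingular (x := -211) (y := 0) (by norm_num)
  have nP1 := h.nonsingular (x := -112) (y := 924) (by norm_num)
  have nP2 := h.nonsingular (x := 64) (y := 1320) (by norm_num)
  have nQ := h.nonsingular (x := -3087/16) (y := -47481/64) (by norm_num)
  have nP11 := h.nonsingular (x := -1055/16) (y := -34815/64) (by norm_num)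
  have nP12 := h.nonsingular (x := 45) (y := 960) (by norm_num)
  have nP13 := h.nonsingular (x := 1477/9) (y := -94528/27) (by norm_num)
  have nP21 := h.nonsingular (x := 7385/64) (y := -1218525/512) (by norm_num)
  have nP22 := h.nonsingular (x := -875/9) (y := 22400/27) (by norm_num)
  have nP23 := h.nonsingular (x := -1899/25) (y := -81024/125) (by norm_num)
  have nQ1 := h.nonsingular (x := -16880/441) (y := 1363060/9261) (by norm_num)
  have nQ2 := h.nonsingular (x := 1445/361) (y := -1256640/6859) (by norm_num)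
  have nQ3 := h.nonsingular (x := 533197/289) (y := 414883392/4913) (by norm_num)
  have aT := RankB_add nT1 nT2 nT3 (by norm_num) (0) (by norm_num) (by norm_num)
    (by norm_num)
  have aQ := RankB_add nP1 nP2 nQ (by norm_num) (9/4) (by norm_num) (by norm_num)
    (by norm_num)
  have a11 := RankB_add nT1 nP1 nP11 (by norm_num) (-33/4) (by norm_num) (by norm_num)
    (by norm_num)
  have a12 := RankB_add nT2 nP1 nP12 (by norm_num) (-12) (by norm_num) (by norm_num)
    (by norm_num)
  have a13 := RankB_add nT3 nP1 nP13 (by norm_num) (28/3) (by norm_num) (by norm_num)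
    (by norm_num)
  have a21 := RankB_add nT1 nP2 nP21 (by norm_num) (165/8) (by norm_num) (by norm_num)
    (by norm_num)
  have a22 := RankB_add nT2 nP2 nP22 (by norm_num) (40/3) (by norm_num) (by norm_num)
    (by norm_num)
  have a23 := RankB_add nT3 nP2 nP23 (by norm_num) (24/5) (by norm_num) (by norm_num)
    (by norm_num)
  have a31 := RankB_add nT1 nQ nQ1 (by norm_num) (323/84) (by norm_num) (by norm_num)
    (by norm_num)
  have a32 := RankB_add nT2 nQ nQ2 (by norm_num) (357/76) (by norm_num) (by norm_num)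
    (by norm_num)
  have a33 := RankB_add nT3 nQ nQ3 (by norm_num) (-2793/68) (by norm_num) (by norm_num)
    (by norm_num)
  have h16 : 16 ≤ D.index := by
    refine RankB_idx D hD hi0 (Affine.Point.some _ _ nT1) (Affine.Point.some _ _ nT2)
      (Affine.Point.some _ _ nP1) (Affine.Point.some _ _ nP2) ?_
    intro a b c d hm
    have m01 := RankB_nd (hxy := nT1) (by right; right; norm_num)
    have m02 := RankB_nd (hxy := nT2) (by left; norm_num)
    have m03 := RankB_nd (hxy := nT3) (by left; norm_num)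
    have m10 := RankB_nd (hxy := nP1) (by left; norm_num)
    have m11 := RankB_nd (hxy := nP11) (by left; norm_num)
    have m12 := RankB_nd (hxy := nP12) (by right; left; norm_num)
    have m13 := RankB_nd (hxy := nP13) (by right; left; norm_num)
    have m20 := RankB_nd (hxy := nP2) (by right; right; norm_num)
    have m21 := RankB_nd (hxy := nP21) (by right; left; norm_num)
    have m22 := RankB_nd (hxy := nP22) (by left; norm_num)
    have m23 := RankB_nd (hxy := nP23) (by left; norm_num)
    have m30 := RankB_nd (hxy := nQ) (by left; norm_num)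
    have m31 := RankB_nd (hxy := nQ1) (by left; norm_num)
    have m32 := RankB_nd (hxy := nQ2) (by right; left; norm_num)
    have m33 := RankB_nd (hxy := nQ3) (by right; left; norm_num)
    cases a <;> cases b <;> cases c <;> cases d <;>
      simp only [if_true, if_false, Bool.false_eq_true, zero_add, add_zero, aT, aQ, a11, a12, a13,
        a21, a22, a23, a31, a32, a33] at hm
    · exact ⟨rfl, rfl, rfl, rfl⟩
    · exact absurd hm m20
    · exact absurd hm m10
    · exact absurd hm m30
    · exact absurd hm m02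
    · exact absurd hm m22
    · exact absurd hm m12
    · exact absurd hm m32
    · exact absurd hm m01
    · exact absurd hm m21
    · exact absurd hm m11
    · exact absurd hm m31
    · exact absurd hm m03
    · exact absurd hm m23
    · exact absurd hm m13
    · exact absurd hm m33
  rw [hi] at h16
  by_contra hc
  rw [not_le] at hc
  have : 2 ^ Module.finrank ℤ (⟨0, 246, 0, 7385, 0⟩ : WeierstrassCurve ℚ).toAffine.Point ≤ 2 ^ 1 :=
    Nat.pow_le_pow_right (by norm_num) (by omega)
  omega

/-- The same for any decidability instance. -/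
theorem rank_two_c (hd : DecidableEq ℚ) :
    2 ≤ letI := hd
      Module.finrank ℤ (⟨0, 246, 0, 7385, 0⟩ : WeierstrassCurve ℚ).toAffine.Point := by
  have e : hd = instDecidableEqRat := Subsingleton.elim _ _
  subst e
  exact rank_two_b

end Pool.Agent.H26.SG
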