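import Pool.Agent.H10.Func7

/-!
The elements of the Tate-Shafarevich group which are killed by two, as classes of cocycles.
-/

set_option autoImplicit false
set_option linter.style.haveILetI false
open scoped Classical

open WeierstrassCurve IsDedekindDomain NumberField

namespace Pool.Agent.H26.SG

open Pool.Agent.H10

/-- The locally trivial cocycles whose double is a coboundary. -/
abbrev TwoCoc (L : Type) [Field L] [NumberField L] (E : WeierstrassCurve L) : Type :=
  {f : (AlgebraicClosure L ≃ₐ[L] AlgebraicClosure L) →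
      (E.baseChange (AlgebraicClosure L)).toAffine.Point //
    IsCocycle L E f ∧ IsLocTriv L E f ∧ IsCobound L E fun σ => f σ + f σ}

lemma mk_add {L : Type} [Field L] [NumberField L] {E : WeierstrassCurve L} (f g : ShaZ L E) :
    Sha.mk (f + g) = Sha.mk f + Sha.mk g :=
  map_add (QuotientAddGroup.mk' ((ShaB L E).addSubgroupOf (ShaZ L E))) f g

lemma mk_sub {L : Type} [Field L] [NumberField L] {E : WeierstrassCurve L} (f g : ShaZ L E) :
    Sha.mk (f - g) = Sha.mk f - Sha.mk g :=
  map_sub (QuotientAddGroup.mk' ((ShaB L E).addSubgroupOf (ShaZ L E))) f g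

theorem sha_quot (L : Type) [Field L] [NumberField L] (E : WeierstrassCurve L) :
    Nonempty (Quot (fun f g : TwoCoc L E => IsCobound L E fun σ => f.1 σ - g.1 σ) ≃
      {x : Sha L E // x + x = 0}) := by
  let F : TwoCoc L E → {x : Sha L E // x + x = 0} := fun f =>
    ⟨Sha.mk ⟨f.1, f.2.1, f.2.2.1⟩, by
      rw [← mk_add, Sha.mk_eq_zero]
      exact f.2.2.2⟩
  have hF : ∀ f g : TwoCoc L E, F f = F g ↔ IsCobound L E fun σ => f.1 σ - g.1 σ := by
    intro f g
    rw [Subtype.ext_iff]
    change Sha.mk _ = Sha.mk _ ↔ _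
    rw [← sub_eq_zero, ← mk_sub, Sha.mk_eq_zero]
    rfl
  refine ⟨Equiv.ofBijective (Quot.lift F fun f g h => (hF f g).mpr h) ⟨?_, ?_⟩⟩
  · rintro ⟨f⟩ ⟨g⟩ h
    exact Quot.sound ((hF f g).mp h)
  · rintro ⟨x, hx⟩
    obtain ⟨f, rfl⟩ := Sha.mk_surjective x
    have h2 : IsCobound L E fun σ => f.1 σ + f.1 σ := by
      rw [← mk_add, Sha.mk_eq_zero] at hx
      exact hx
    exact ⟨Quot.mk _ ⟨f.1, f.2.1, f.2.2, h2⟩, rfl⟩

end Pool.Agent.H26.SG
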