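import Pool.Agent.H26.SG.Asm
import Pool.Agent.H26.SG.NC
import Pool.Agent.H26.SG.Frob

/-!
Stability of the rank.
-/

set_option autoImplicit false
set_option linter.style.haveILetI false
open scoped Classical

open WeierstrassCurve IsDedekindDomain NumberField WithZero

namespace Pool.Agent.H26.SG

open Pool.Agent.H10

/-- The rank does not decrease in extensions. -/
theorem finrank_le_map {K L : Type} [Field K] [Field L] (f : K →+* L) (V : WeierstrassCurve K)
    (V' : WeierstrassCurve L) (h : V' = V.map f) [AddGroup.FG V'.toAffine.Point] :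
    Module.finrank ℤ V.toAffine.Point ≤ Module.finrank ℤ V'.toAffine.Point := by
  subst h
  let _ : Algebra K L := f.toAlgebra
  have e : V.map (algebraMap K K) = V := V.map_id
  have h1 : Module.Finite ℤ (V.map f).toAffine.Point :=
    Module.Finite.iff_addGroup_fg.mpr inferInstance
  have h2 : Module.finrank ℤ (V.map (algebraMap K K)).toAffine.Point ≤
      Module.finrank ℤ (V.map f).toAffine.Point := by
    let g : (V.map (algebraMap K K)).toAffine.Point →+ (V.map f).toAffine.Point :=
      Affine.Point.map (W' := V) (Algebra.ofId K L)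
    exact LinearMap.finrank_le_finrank_of_injective (f := g.toIntLinearMap)
      (Affine.Point.map_injective (W' := V) (Algebra.ofId K L))
  rwa [e] at h2

variable {L : Type} [Field L] [NumberField L]

/-- If the Selmer group is not larger than the contribution of the points of a subgroup of rank
`r`, there is no Tate-Shafarevich group and the rank is `r`. -/
theorem of_le {V : WeierstrassCurve L} {e₁ e₂ e₃ : L} {r : ℕ}
    (hr : r ≤ Module.finrank ℤ V.toAffine.Point)
    (h0 : Nat.card {x : Sha L V // x + x = 0} ≠ 0) (_h : IsCub V e₁ e₂ e₃)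
    (h : 2 ^ (Module.finrank ℤ V.toAffine.Point + 2) * Nat.card {x : Sha L V // x + x = 0} ≤
      2 ^ (r + 2)) : Module.finrank ℤ V.toAffine.Point = r ∧ Sha2Trivial L V := by
  set X := Nat.card {x : Sha L V // x + x = 0} with hX
  set n := Module.finrank ℤ V.toAffine.Point with hn
  have hX1 : 1 ≤ X := Nat.one_le_iff_ne_zero.mpr h0
  have h1 : 2 ^ (n + 2) ≤ 2 ^ (r + 2) := by
    calc 2 ^ (n + 2) = 2 ^ (n + 2) * 1 := (mul_one _).symm
      _ ≤ 2 ^ (n + 2) * X := Nat.mul_le_mul le_rfl hX1
      _ ≤ 2 ^ (r + 2) := h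
  have h2 : n + 2 ≤ r + 2 := (Nat.pow_le_pow_iff_right (by norm_num)).mp h1
  have h3 : n = r := by omega
  refine ⟨h3, sha2Trivial_of_card ?_⟩
  rw [h3] at h
  have h4 : 2 ^ (r + 2) * X ≤ 2 ^ (r + 2) * 1 := by rw [mul_one]; exact h
  have h5 : X ≤ 1 := Nat.le_of_mul_le_mul_left h4 (by positivity)
  exact le_antisymm h5 hX1

/-- The number of primes which contain an integer all whose prime factors have at most one prime
above them. -/
theorem primes_le {m : ℤ} (hm : m ≠ 0)
    (h : ∀ p ∈ m.natAbs.primeFactors, ∀ v w : HeightOneSpectrum (𝓞 L),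
      ((p : ℕ) : 𝓞 L) ∈ v.asIdeal → ((p : ℕ) : 𝓞 L) ∈ w.asIdeal → v = w) :
    {w : HeightOneSpectrum (𝓞 L) | ((m : ℤ) : 𝓞 L) ∈ w.asIdeal}.ncard ≤
      m.natAbs.primeFactors.card := by
  have key : ∀ w : HeightOneSpectrum (𝓞 L), ((m : ℤ) : 𝓞 L) ∈ w.asIdeal →
      ∃ p ∈ m.natAbs.primeFactors, ((p : ℕ) : 𝓞 L) ∈ w.asIdeal := by
    intro w hw
    have h1 : ((m.natAbs : ℕ) : 𝓞 L) ∈ w.asIdeal := by
      rcases Int.natAbs_eq m with h2 | h2
      · rw [h2] at hw
        simpa using hw
      · rw [h2] at hw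
        simpa using neg_mem hw
    have h0 : m.natAbs ≠ 0 := Int.natAbs_ne_zero.mpr hm
    have h2 : ((m.natAbs.primeFactorsList.prod : ℕ) : 𝓞 L) ∈ w.asIdeal := by
      rw [Nat.prod_primeFactorsList h0]; exact h1
    have h3 : ∀ l : List ℕ, ((l.prod : ℕ) : 𝓞 L) ∈ w.asIdeal →
        ∃ p ∈ l, ((p : ℕ) : 𝓞 L) ∈ w.asIdeal := by
      intro l
      induction l with
      | nil =>
        intro h4
        exfalso
        apply w.isPrime.ne_top
        rw [Ideal.eq_top_iff_one]
        simpa using h4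
      | cons p l ih =>
        intro h4
        rw [List.prod_cons, Nat.cast_mul] at h4
        rcases w.isPrime.mem_or_mem h4 with h5 | h5
        · exact ⟨p, List.mem_cons_self, h5⟩
        · obtain ⟨p', hp', h6⟩ := ih h5
          exact ⟨p', List.mem_cons_of_mem _ hp', h6⟩
    obtain ⟨p, hp, h4⟩ := h3 _ h2
    exact ⟨p, Nat.mem_primeFactors_iff_mem_primeFactorsList.mpr hp, h4⟩
  choose! g hg using key
  have := Set.ncard_le_ncard_of_injOn (s := {w : HeightOneSpectrum (𝓞 L) |
    ((m : ℤ) : 𝓞 L) ∈ w.asIdeal}) (t := (m.natAbs.primeFactors : Set ℕ)) g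
    (fun w hw => (hg w hw).1) (fun v hv w hw hvw => by
      refine h (g v) (hg v hv).1 v w (hg v hv).2 ?_
      rw [hvw]
      exact (hg w hw).2) (Finset.finite_toSet _)
  rwa [Set.ncard_coe_finset] at this

end Pool.Agent.H26.SG
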