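import Pool.Agent.H26.SG.NC
import Pool.Agent.H68.QS.Main

/-!
The quadratic step for fields without classes.

PROOF. This is an absolute version of `noNewPositive_quad` and `noNewUnramified_quad` in
`Pool.Agent.H68.QS.Main` (copy these two proofs; everything about the norm to `K` disappears, and
`core` is replaced by the following).

(0) For every `w : HeightOneSpectrum (𝓞 L)` there is `W` over `w` (`exists_over`), and for `y ∈ L`,
`y ≠ 0`, `W.valuation L2 (algebraMap y) = (w.valuation L y) ^ e`, `e = ramificationIdx'`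
(`HeightOneSpectrum.valuation_liesOver`); if `w ≠ v₀` then `e` is odd, so the valuation of `y` at
`w` is even if and only if the one at `W` is even (see the end of the proof of `core`).
(1) `D`: it is not zero (`hδ'` for `r = 0`). In every real embedding `φ` of `L` it is positive:
`φ D = ψ (δ) ^ 2` with `ψ` from `hext`. At every prime above two it is up to squares the square of
a unit modulo four provided that its valuation there is even: `descend_two` at `W` over `w`, as
`algebraMap D = δ ^ 2` (`SqModFour.of_sq`). Its valuation at every `w ≠ v₀` is even by (0).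
(2) Let `x ∈ L2`, `x ≠ 0`, have even valuations and be totally positive (case P) or square modulo
four above two (case U). As in the two proofs of `H68/QS/Main`, `Algebra.norm L x` has even
valuations (`even_norm`) and is totally positive, respectively a square modulo four above two; so it
is a square by `h`. `descend_of_norm_sq` gives `t ∈ L`, `z ∈ L2` not zero with `x = t * z ^ 2`. By (0)
the valuation of `t` is even at all `w ≠ v₀`. `t` is totally positive in case P (as in the proof).
(3) If the valuation of `t` at `v₀` is even: `t` has even valuations; in case U it is a square modulo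
four above two by `descend_two` (as in the proof); so `t` is a square by `h`, and `x` is a square.
(4) If it is odd: then the valuation of `D` at `v₀` is odd, because otherwise `D` would have even
valuations, be totally positive (case P) or a square modulo four above two (case U, by (1)), so by
`h` `D = r ^ 2`, `δ = ± r`, against `hδ'`. So `t' = t * D` has even valuations; it is totally
positive in case P. In case U: `algebraMap t' = x * (δ / z) ^ 2`, so `descend_two` applies to `t'` at
all primes above two as in (3) (with `t₁` replaced by `t₁ * z / δ`). So `t' = s ^ 2` in `L`, and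
`x = t * z ^ 2 = (s * z / δ) ^ 2`.
-/

set_option autoImplicit false
set_option linter.style.haveILetI false
open scoped Classical

open IsDedekindDomain NumberField WithZero

namespace Pool.Agent.H26.SG

open Pool.Agent.H10

section

variable {L L2 : Type} [Field L] [NumberField L] [Field L2] [NumberField L2]
  [Algebra L L2]

/-- Parity of a valuation can be checked above, if the ramification index is odd. -/
lemma Step_even_of_odd {w : HeightOneSpectrum (𝓞 L)} {W : HeightOneSpectrum (𝓞 L2)}
    [W.asIdeal.LiesOver w.asIdeal] (hr : Odd (w.asIdeal.ramificationIdx' W.asIdeal)) {y : L}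
    (h : Even (log (W.valuation L2 (algebraMap L L2 y)))) : Even (log (w.valuation L y)) := by
  rw [← HeightOneSpectrum.valuation_liesOver (K := L) L2 w W, log_pow, nsmul_eq_mul,
    Int.even_mul] at h
  rcases h with h3 | h3
  · exfalso
    rw [Int.even_coe_nat] at h3
    exact (Nat.not_even_iff_odd.mpr hr) h3
  · exact h3

variable [Algebra.IsQuadraticExtension L L2]

/-- Common part of the two halves of the quadratic step. -/
theorem Step_core {D : L} {δ : L2}
    (hδ : δ ^ 2 = algebraMap L L2 D) (hδ' : ∀ r : L, algebraMap L L2 r ≠ δ)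
    (v₀ : HeightOneSpectrum (𝓞 L))
    (hram : ∀ (w : HeightOneSpectrum (𝓞 L)) (W : HeightOneSpectrum (𝓞 L2))
      [W.asIdeal.LiesOver w.asIdeal], w ≠ v₀ → Odd (w.asIdeal.ramificationIdx' W.asIdeal))
    (C : L → Prop) (hC : ∀ y : L, y ≠ 0 →
      (∀ w : HeightOneSpectrum (𝓞 L), Even (log (w.valuation L y))) → C y → IsSquare y)
    (hCD : D ≠ 0 → (∀ w : HeightOneSpectrum (𝓞 L), Even (log (w.valuation L D))) → C D)
    {x : L2} (hx : x ≠ 0) (hev : ∀ w : HeightOneSpectrum (𝓞 L2), Even (log (w.valuation L2 x)))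
    (hCn : C (Algebra.norm L x))
    (hCt : ∀ t : L, t ≠ 0 → (∀ w : HeightOneSpectrum (𝓞 L), Even (log (w.valuation L t))) →
      (∃ z : L2, z ≠ 0 ∧ x = algebraMap L L2 t * z ^ 2) → C t) : IsSquare x := by
  have hδ0 : δ ≠ 0 := by
    intro h0
    exact hδ' 0 (by rw [map_zero, h0])
  have hD0 : D ≠ 0 := by
    intro h0
    rw [h0, map_zero] at hδ
    exact hδ0 ((pow_eq_zero_iff two_ne_zero).mp hδ)
  have hnx : Algebra.norm L x ≠ 0 := by rw [Ne, Algebra.norm_eq_zero_iff]; exact hx
  obtain ⟨y, hy⟩ : IsSquare (Algebra.norm L x) :=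
    hC _ hnx (fun w => H68QS.even_norm hx hev w) hCn
  obtain ⟨t, z, ht, hz, hxt⟩ := H68QS.descend_of_norm_sq (L := L) hx (y := y) (by rw [hy, pow_two])
  have hevt : ∀ w : HeightOneSpectrum (𝓞 L), w ≠ v₀ → Even (log (w.valuation L t)) := by
    intro w hw
    obtain ⟨W, hW⟩ := H68QS.exists_over (L2 := L2) w
    refine Step_even_of_odd (hram w W hw) ?_
    have h3 := hev W
    have vt := (Valuation.ne_zero_iff (W.valuation L2)).mpr
      (show algebraMap L L2 t ≠ 0 by rw [Ne, map_eq_zero]; exact ht)
    have vz := (Valuation.ne_zero_iff (W.valuation L2)).mpr hz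
    rw [hxt, map_mul, map_pow, log_mul vt (pow_ne_zero 2 vz), log_pow, nsmul_eq_mul] at h3
    have h4 := h3.sub (even_two_mul (log (W.valuation L2 z)))
    push_cast at h4
    rwa [add_sub_cancel_right] at h4
  have hevD : ∀ w : HeightOneSpectrum (𝓞 L), w ≠ v₀ → Even (log (w.valuation L D)) := by
    intro w hw
    obtain ⟨W, hW⟩ := H68QS.exists_over (L2 := L2) w
    refine Step_even_of_odd (hram w W hw) ?_
    rw [← hδ, map_pow, log_pow, nsmul_eq_mul]
    push_cast
    exact even_two_mul _
  by_cases hv : Even (log (v₀.valuation L t))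
  · have hall : ∀ w : HeightOneSpectrum (𝓞 L), Even (log (w.valuation L t)) := by
      intro w
      by_cases hw : w = v₀
      · rw [hw]; exact hv
      · exact hevt w hw
    obtain ⟨u, hu⟩ := hC t ht hall (hCt t ht hall ⟨z, hz, hxt⟩)
    refine ⟨algebraMap L L2 u * z, ?_⟩
    rw [hxt, hu, map_mul]
    ring
  · have hvD : ¬ Even (log (v₀.valuation L D)) := by
      intro hcon
      have hall : ∀ w : HeightOneSpectrum (𝓞 L), Even (log (w.valuation L D)) := by
        intro w
        by_cases hw : w = v₀
        · rw [hw]; exact hcon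
        · exact hevD w hw
      obtain ⟨r, hr⟩ := hC D hD0 hall (hCD hD0 hall)
      have h2 : δ ^ 2 = (algebraMap L L2 r) ^ 2 := by rw [hδ, hr, map_mul, pow_two]
      rcases sq_eq_sq_iff_eq_or_eq_neg.mp h2 with h3 | h3
      · exact hδ' r h3.symm
      · exact hδ' (-r) (by rw [map_neg, h3])
    have htD : t * D ≠ 0 := mul_ne_zero ht hD0
    have hall : ∀ w : HeightOneSpectrum (𝓞 L), Even (log (w.valuation L (t * D))) := by
      intro w
      rw [map_mul, log_mul ((Valuation.ne_zero_iff _).mpr ht) ((Valuation.ne_zero_iff _).mpr hD0)]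
      by_cases hw : w = v₀
      · rw [hw]
        exact (Int.not_even_iff_odd.mp hv).add_odd (Int.not_even_iff_odd.mp hvD)
      · exact (hevt w hw).add (hevD w hw)
    have hz' : z / δ ≠ 0 := div_ne_zero hz hδ0
    have hxt' : x = algebraMap L L2 (t * D) * (z / δ) ^ 2 := by
      rw [hxt, map_mul, ← hδ, div_pow]
      field_simp
    obtain ⟨u, hu⟩ := hC (t * D) htD hall (hCt _ htD hall ⟨z / δ, hz', hxt'⟩)
    refine ⟨algebraMap L L2 u * (z / δ), ?_⟩
    rw [hxt', hu, map_mul]
    ring

end

theorem nc_step {L L2 : Type} [Field L] [NumberField L] [Field L2] [NumberField L2]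
    [Algebra L L2] [Algebra.IsQuadraticExtension L L2] {D : L} {δ : L2}
    (hδ : δ ^ 2 = algebraMap L L2 D) (hδ' : ∀ r : L, algebraMap L L2 r ≠ δ)
    (hext : ∀ φ : L →+* ℝ, ∃ ψ : L2 →+* ℝ, ∀ y, ψ (algebraMap L L2 y) = φ y)
    (hunr : ∀ w : HeightOneSpectrum (𝓞 L2), (2 : 𝓞 L2) ∈ w.asIdeal →
      (2 : 𝓞 L2) ∉ w.asIdeal ^ 2)
    (v₀ : HeightOneSpectrum (𝓞 L))
    (hram : ∀ (w : HeightOneSpectrum (𝓞 L)) (W : HeightOneSpectrum (𝓞 L2))
      [W.asIdeal.LiesOver w.asIdeal], w ≠ v₀ → Odd (w.asIdeal.ramificationIdx' W.asIdeal))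
    (h : NC L) : NC L2 := by
  obtain ⟨s, hss, hNs, -⟩ := H68QS.exists_invol (L := L) (L2 := L2)
  have hδ0 : δ ≠ 0 := by
    intro h0
    exact hδ' 0 (by rw [map_zero, h0])
  refine ⟨fun x hx hev hpos => ?_, fun x hx hev hloc => ?_⟩
  · refine Step_core hδ hδ' v₀ hram (fun y => ∀ φ : L →+* ℝ, 0 < φ y) h.1 ?_ hx hev ?_ ?_
    · intro hD0 _ φ
      obtain ⟨ψ, hψ⟩ := hext φ
      rw [← hψ, ← hδ, map_pow]
      have : ψ δ ≠ 0 := by rw [Ne, map_eq_zero]; exact hδ0
      positivity
    · intro φ
      obtain ⟨ψ, hψ⟩ := hext φ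
      rw [← hψ, hNs, map_mul]
      exact mul_pos (hpos ψ) (hpos (ψ.comp (s : L2 →+* L2)))
    · rintro t ht - ⟨z, hz, hxt⟩ φ
      obtain ⟨ψ, hψ⟩ := hext φ
      have h1 := hpos ψ
      rw [hxt, map_mul, map_pow, hψ] at h1
      exact (pos_iff_pos_of_mul_pos h1).mpr (by
        have : ψ z ≠ 0 := by rw [Ne, map_eq_zero]; exact hz
        positivity)
  · have hnx : Algebra.norm L x ≠ 0 := by rw [Ne, Algebra.norm_eq_zero_iff]; exact hx
    have over2 : ∀ w : HeightOneSpectrum (𝓞 L), (2 : 𝓞 L) ∈ w.asIdeal →
        ∀ W : HeightOneSpectrum (𝓞 L2), W.asIdeal.LiesOver w.asIdeal → (2 : 𝓞 L2) ∈ W.asIdeal := by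
      intro w hw W hW
      rw [hW.over] at hw
      have : algebraMap (𝓞 L) (𝓞 L2) 2 ∈ W.asIdeal := hw
      rwa [map_ofNat] at this
    refine Step_core hδ hδ' v₀ hram (fun y => FourSq y) h.2 ?_ hx hev ?_ ?_
    · intro hD0 hevD w hw
      obtain ⟨W, hW⟩ := H68QS.exists_over (L2 := L2) w
      have h2W := over2 w hw W hW
      have hv2 := val_two_of_unram h2W (hunr W h2W)
      refine H68QS.descend_two (w := w) (W := W) hv2 hD0 ?_ ⟨δ⁻¹, 1, inv_ne_zero hδ0, map_one _, ?_⟩
      · rw [← HeightOneSpectrum.valuation_liesOver (K := L) L2 w W, log_pow, nsmul_eq_mul]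
        exact (hevD w).mul_left _
      · have : algebraMap L L2 D * δ⁻¹ ^ 2 - 1 ^ 2 = 0 := by
          rw [← hδ]; field_simp; ring
        rw [this, map_zero]
        exact zero_le
    · intro w hw
      obtain ⟨W, hW⟩ := H68QS.exists_over (L2 := L2) w
      have h2W := over2 w hw W hW
      have hv2 := val_two_of_unram h2W (hunr W h2W)
      obtain ⟨W', hW', hmem⟩ := exists_conj s W
      have h2W' : (2 : 𝓞 L2) ∈ W'.asIdeal := by
        have h1 : algebraMap (𝓞 L) (𝓞 L2) 2 ∈ W.asIdeal := by rw [map_ofNat]; exact h2W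
        have h3 := (hmem 2).mpr h1
        rwa [map_ofNat] at h3
      obtain ⟨t, m, ht, hm, h⟩ := hloc W h2W
      obtain ⟨t', m', ht', hm', h'⟩ := hloc W' h2W'
      have h4 : W.valuation L2 4 < 1 := by
        have : (4 : L2) = 2 * 2 := by norm_num
        rw [this, map_mul, hv2, ← exp_add, ← exp_zero, exp_lt_exp]
        norm_num
      have hs4 : W'.valuation L2 4 = W.valuation L2 4 := by
        rw [← hW', map_ofNat]
      rw [← hW'] at hm'
      rw [hs4, ← hW', map_sub, map_mul, map_pow, map_pow] at h'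
      have hst' : s t' ≠ 0 := by rw [Ne, map_eq_zero]; exact ht'
      have hxt : W.valuation L2 (x * t ^ 2) = 1 := by
        have : x * t ^ 2 = (x * t ^ 2 - m ^ 2) + m ^ 2 := by ring
        rw [this, Valuation.map_add_eq_of_lt_right, map_pow, hm, one_pow]
        rw [map_pow, hm, one_pow]
        exact h.trans_lt h4
      refine H68QS.descend_two (w := w) (W := W) hv2 hnx ?_
        ⟨t * s t', m * s m', mul_ne_zero ht hst', ?_, ?_⟩
      · rw [hNs, map_mul, log_mul ((Valuation.ne_zero_iff _).mpr hx)
          ((Valuation.ne_zero_iff _).mpr (by rw [Ne, map_eq_zero]; exact hx))]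
        exact (hev W).add (even_conj s hev W)
      · rw [map_mul, hm, hm', one_mul]
      · rw [hNs]
        have : x * s x * (t * s t') ^ 2 - (m * s m') ^ 2 =
            (x * t ^ 2) * (s x * s t' ^ 2 - s m' ^ 2) + (s m') ^ 2 * (x * t ^ 2 - m ^ 2) := by ring
        rw [this]
        refine (Valuation.map_add _ _ _).trans (max_le ?_ ?_)
        · rw [map_mul, hxt, one_mul]; exact h'
        · rw [map_mul, map_pow, hm', one_pow, one_mul]; exact h
    · rintro t ht hevt ⟨z, hz, hxt⟩ w hw
      obtain ⟨W, hW⟩ := H68QS.exists_over (L2 := L2) w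
      have h2W := over2 w hw W hW
      have hv2 := val_two_of_unram h2W (hunr W h2W)
      obtain ⟨t₁, m₁, ht₁, hm₁, h⟩ := hloc W h2W
      refine H68QS.descend_two (w := w) (W := W) hv2 ht ?_ ⟨z * t₁, m₁, mul_ne_zero hz ht₁, hm₁, ?_⟩
      · rw [← HeightOneSpectrum.valuation_liesOver (K := L) L2 w W, log_pow, nsmul_eq_mul]
        exact (hevt w).mul_left _
      · have : algebraMap L L2 t * (z * t₁) ^ 2 - m₁ ^ 2 = x * t₁ ^ 2 - m₁ ^ 2 := by
          rw [hxt]; ring
        rw [this]
        exact h

end Pool.Agent.H26.SG
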