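import Pool.Agent.H68.QS.Lay
import Pool.Agent.H5.SW.Three

/-!
Layers over a field of two-power degree are composita.

PROOF. `hL : IsLay 3 N L` is `IsTotallyReal L ∧ ∃ n, Nonempty (L →ₐ[N] CyclotomicField (3 ^ (n + 1)) N)`.
Apply `H68QS.decompose` (file `Pool.Agent.H68.QS.Dec`; statement only) with `k = K = N`,
`p = 3`: it gives `K', L'`, `C : Comp N K' L' N L`, `IsR 3 L'`. Take `M = L'` and `C.h : L' →+* L`.
Degrees: `C.genL` says that `L` is generated over the rationals by the ranges of
`x ↦ algebraMap N L (C.f x)` and `C.h`, and `H68QS.finrank_comp` (file `Pool.Agent.H68.QS.Lay`), with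
the algebra structure `C.h.toAlgebra` (see its use in `lay_sub`), gives `[L : L'] ≤ [N : ℚ]`, so
`[L : ℚ] = [L' : ℚ] [L : L'] ≤ [L' : ℚ] [N : ℚ]`. Conversely `[L' : ℚ]` and `[N : ℚ]` divide
`[L : ℚ]` and are coprime (`finrank_three`: a power of three; `hN`), so the product divides.
-/

set_option autoImplicit false
set_option linter.style.haveILetI false
open scoped Classical

open IsDedekindDomain NumberField WithZero

namespace Pool.Agent.H26.SG

open Pool.Agent.H10

open H5SW

theorem lay_three {N L : Type} [Field N] [NumberField N] [Field L] [NumberField L] [Algebra N L]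
    (hL : H73IS.IsLay 3 N L) (hN : ∃ r : ℕ, Module.finrank ℚ N = 2 ^ r) :
    ∃ (M : Type) (_ : Field M) (_ : NumberField M), IsR 3 M ∧ Nonempty (M →+* L) ∧
      Module.finrank ℚ L = Module.finrank ℚ M * Module.finrank ℚ N := by
  obtain ⟨hreal, n, ⟨φ⟩⟩ := hL
  obtain ⟨K', L', _, _, _, _, _, ⟨C⟩, hR, -, -⟩ := H68QS.decompose (k := N) (K := N) (L := L)
    (p := 3) (by norm_num) φ hreal hN
  refine ⟨L', inferInstance, inferInstance, hR, ⟨C.h⟩, ?_⟩
  letI := C.h.toAlgebra
  have h1 : Module.finrank L' L ≤ Module.finrank ℚ N :=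
    H68QS.finrank_comp ((algebraMap N L).comp C.f) C.genL
  have h2 : Module.finrank ℚ L' * Module.finrank L' L = Module.finrank ℚ L :=
    Module.finrank_mul_finrank ℚ L' L
  have h3 : Module.finrank ℚ N ∣ Module.finrank ℚ L :=
    Dvd.intro _ (Module.finrank_mul_finrank ℚ N L)
  have h4 : Module.finrank ℚ L' ∣ Module.finrank ℚ L := Dvd.intro _ h2
  obtain ⟨r, hr⟩ := hN
  obtain ⟨i, hi⟩ := finrank_three hR
  have hco : Nat.Coprime (Module.finrank ℚ L') (Module.finrank ℚ N) := by
    rw [hi, hr]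
    exact Nat.Coprime.pow _ _ (by norm_num)
  have h5 := hco.mul_dvd_of_dvd_of_dvd h4 h3
  have hpos : 0 < Module.finrank ℚ L := Module.finrank_pos
  apply le_antisymm
  · rw [← h2]
    exact Nat.mul_le_mul_left _ h1
  · exact Nat.le_of_dvd hpos h5

end Pool.Agent.H26.SG
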