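import Pool.Agent.H26.SG.NC
import Pool.Agent.H5.SW.Three

/-!
Facts on the layers of the cyclotomic `ℤ_3`-extension of the rationals.

PROOF. `H5SW.three_facts` gives that `2` is prime in `𝓞 M` and the uniqueness of the primes over `q`
with `¬ 9 ∣ q ^ 2 - 1` (`UniqueAbove`, translate it with `HeightOneSpectrum.ext`), and
`finrank_three` the degree.
`IsGalois ℚ M`: `M` embeds in a cyclotomic field (`hM.2`), whose Galois group is abelian; copy the
proof of `galois_sub` in `Pool.Agent.H26.SG.CycC`.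
`2 ∉ w ^ 2`: as `2` is prime, `w` is generated by `2` (a nonzero prime ideal is maximal), and
`2 ∈ (2) ^ 2` would give `2 = 4 c`, `1 = 2 c`, impossible.
-/

set_option autoImplicit false
set_option linter.style.haveILetI false
open scoped Classical

open IsDedekindDomain NumberField WithZero

namespace Pool.Agent.H26.SG

open Pool.Agent.H10

open H5SW

theorem TNcA_gal {q : ℕ} [NeZero q] {L : Type} [Field L] [NumberField L]
    (hL : Nonempty (L →+* CyclotomicField q ℚ)) : IsGalois ℚ L := by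
  obtain ⟨e⟩ := hL
  haveI : IsCyclotomicExtension {q} ℚ (CyclotomicField q ℚ) := by
    have h1 := CyclotomicField.isCyclotomicExtension q ℚ
    have h2 : (CyclotomicField.algebra q ℚ : Algebra ℚ (CyclotomicField q ℚ)) =
        DivisionRing.toRatAlgebra := Subsingleton.elim _ _
    rw [h2] at h1
    exact h1
  haveI : IsAbelianGalois ℚ (CyclotomicField q ℚ) :=
    IsCyclotomicExtension.isAbelianGalois {q} ℚ (CyclotomicField q ℚ)
  haveI : IsAbelianGalois ℚ L := IsAbelianGalois.of_algHom e.toRatAlgHom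
  exact inferInstance

theorem TNcA_two {L : Type} [Field L] [NumberField L] (h2 : Prime (2 : 𝓞 L)) (w : HeightOneSpectrum (𝓞 L))
    (hw : (2 : 𝓞 L) ∈ w.asIdeal) : (2 : 𝓞 L) ∉ w.asIdeal ^ 2 := by
  intro h
  have hp : (Ideal.span {(2 : 𝓞 L)}).IsPrime := (Ideal.span_singleton_prime h2.ne_zero).2 h2
  have hne : Ideal.span {(2 : 𝓞 L)} ≠ ⊥ := by
    intro h0
    exact h2.ne_zero ((Ideal.span_singleton_eq_bot).1 h0)
  have hmax : (Ideal.span {(2 : 𝓞 L)}).IsMaximal := hp.isMaximal hne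
  have hle : Ideal.span {(2 : 𝓞 L)} ≤ w.asIdeal := (Ideal.span_singleton_le_iff_mem _).2 hw
  have heq : Ideal.span {(2 : 𝓞 L)} = w.asIdeal := hmax.eq_of_le w.isPrime.ne_top hle
  rw [← heq, Ideal.span_singleton_pow, Ideal.mem_span_singleton] at h
  obtain ⟨c, hc⟩ := h
  have h3 : (2 : 𝓞 L) * (2 * c) = 2 * 1 := by
    rw [mul_one, ← mul_assoc, ← pow_two]
    exact hc.symm
  have h4 := mul_left_cancel₀ h2.ne_zero h3
  exact h2.not_unit (IsUnit.of_mul_eq_one _ h4)

theorem facts_three {M : Type} [Field M] [NumberField M] (hM : IsR 3 M) :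
    IsGalois ℚ M ∧ (∃ i : ℕ, Module.finrank ℚ M = 3 ^ i) ∧
    (∀ w : HeightOneSpectrum (𝓞 M), (2 : 𝓞 M) ∈ w.asIdeal → (2 : 𝓞 M) ∉ w.asIdeal ^ 2) ∧
    ∀ q : ℕ, q.Prime → ¬ 9 ∣ q ^ 2 - 1 → ∀ v w : HeightOneSpectrum (𝓞 M),
      (q : 𝓞 M) ∈ v.asIdeal → (q : 𝓞 M) ∈ w.asIdeal → v = w := by
  obtain ⟨-, -, h2, hu⟩ := three_facts hM
  refine ⟨?_, finrank_three hM, fun w hw => TNcA_two h2 w hw, ?_⟩
  · obtain ⟨n, hn⟩ := hM.2
    haveI : NeZero (3 ^ (n + 1)) := ⟨(pow_pos (by norm_num) _).ne'⟩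
    exact TNcA_gal hn
  · intro q hq h9 v w hv hw
    exact HeightOneSpectrum.ext (hu q hq h9 v.asIdeal w.asIdeal v.isPrime w.isPrime hv hw)

end Pool.Agent.H26.SG
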