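import Pool.Agent.H26.SG.NC
import Pool.Agent.H5.SW.Three
import Pool.Agent.H10.Q.Step
import Pool.Agent.H10.RatSel2
import Pool.Agent.H10.Inert

/-!
No classes from the conditions relative to the rationals.

PROOF. Let `x ∈ M`, `x ≠ 0`, with even valuations, `n = Algebra.norm ℚ x`; as `M` is Galois
`algebraMap n = ∏ σ x` over `σ : M ≃ₐ[ℚ] M` (`Algebra.norm_eq_prod_automorphisms`). `n` has even
valuations at all primes of `𝓞 ℚ` (every `σ x` has even valuations at all `w`, so
`algebraMap n` has even valuation at `w` over `v`, and the ramification index is odd, being a divisor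
of the degree (Galois); or use a lemma on the valuation of a norm; compare `even_norm` in
`Pool.Agent.H68.QS.Val` and search for `norm` and `Even` in `Pool.Agent.H10`), so `|n|` is a
square of a rational number.
(a) If `x` is totally positive then `φ (σ x) > 0` for a real embedding `φ` of `M` (`M` is totally
real), so `n > 0`, `n` is a square and `R1` applies.
(b) If `FourSq x`: as `2` is prime in `𝓞 M` there is only one prime `w` above two, so `σ x` is also up
to squares the square of a unit modulo four (transport by `σ`), and so is the product `n`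
(`sqm_mul`). If `n` were negative, `n = -r ^ 2`, then `-1` would be up to squares the square of a unit
modulo four: `V (-t ^ 2 - m ^ 2) ≤ V 4`, `V m = 1`, so `V t = 1`. With `z = t - m`:
`t ^ 2 + m ^ 2 = z ^ 2 + 2 m z + 2 m ^ 2`, of valuation `≤ V 4 < V 2`. So `V (z ^ 2) ≤ V 2 < 1`,
`V z < 1`, so `V z ≤ V 2` (`2` is a uniformiser at `w`: `val_two_of_unram` or
`w.valuation` of a prime element), so `V (z ^ 2 + 2 m z) ≤ V 4` and `V (2 m ^ 2) ≤ V 4`, a
contradiction. So `n` is a square and `R2` applies.
-/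

set_option autoImplicit false
set_option linter.style.haveILetI false
open scoped Classical

open IsDedekindDomain NumberField WithZero

namespace Pool.Agent.H26.SG

open Pool.Agent.H10

open H5SW

/-- `-1` is not up to squares the square of a unit modulo four. -/
lemma neg_one_TNcB {F : Type*} [Field F] {V : Valuation F (WithZero (Multiplicative ℤ))}
    (h2 : V 2 = exp (-1 : ℤ)) {T m : F} (hm : V m = 1) (h : V (-T ^ 2 - m ^ 2) ≤ V 4) : False := by
  have h4 : V 4 = exp (-1 : ℤ) * exp (-1 : ℤ) := by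
    have e : (4 : F) = 2 * 2 := by norm_num
    rw [e, map_mul, h2]
  have hlt : exp (-1 : ℤ) * exp (-1 : ℤ) < (exp (-1 : ℤ) : WithZero (Multiplicative ℤ)) := by
    rw [← exp_add, exp_lt_exp]
    norm_num
  have h2m : V (2 * m) = exp (-1 : ℤ) := by rw [map_mul, h2, hm, mul_one]
  have hprod : V ((T - m) * ((T - m) + 2 * m)) = exp (-1 : ℤ) := by
    have e : (T - m) * ((T - m) + 2 * m) = -((-T ^ 2 - m ^ 2) + 2 * m ^ 2) := by ring
    have h2m2 : V (2 * m ^ 2) = exp (-1 : ℤ) := by rw [map_mul, map_pow, h2, hm, one_pow, mul_one]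
    rw [e, Valuation.map_neg, Valuation.map_add_eq_of_lt_right, h2m2]
    rw [h2m2]
    exact (h.trans h4.le).trans_lt hlt
  rcases le_or_gt (V (T - m)) (exp (-1 : ℤ)) with hc | hc
  · have h5 : V ((T - m) + 2 * m) ≤ exp (-1 : ℤ) :=
      (Valuation.map_add _ _ _).trans (max_le hc h2m.le)
    rw [map_mul] at hprod
    have h6 : V (T - m) * V ((T - m) + 2 * m) ≤ exp (-1 : ℤ) * exp (-1 : ℤ) := mul_le_mul' hc h5
    rw [hprod] at h6
    exact absurd (h6.trans_lt hlt) (lt_irrefl _)
  · have h5 : V ((T - m) + 2 * m) = V (T - m) :=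
      Valuation.map_add_eq_of_lt_left _ (by rw [h2m]; exact hc)
    have hz : V (T - m) ≠ 0 := by
      intro h0
      rw [h0] at hc
      exact not_lt_zero hc
    rw [map_mul, h5] at hprod
    have h6 := congrArg log hprod
    rw [log_mul hz hz, log_exp] at h6
    omega

theorem nc_of_rel {M : Type} [Field M] [NumberField M] [IsGalois ℚ M] (hreal : IsTotallyReal M)
    (hodd : Odd (Module.finrank ℚ M)) (h2 : Prime (2 : 𝓞 M)) (R1 : NoNewPositive ℚ M)
    (R2 : NoNewUnramified ℚ M) : NC M := by
  have key : ∀ x : M, x ≠ 0 → (∀ w : HeightOneSpectrum (𝓞 M), Even (log (w.valuation M x))) →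
      ∃ c : ℚ, c ≠ 0 ∧ (Algebra.norm ℚ x = c ^ 2 ∨ Algebra.norm ℚ x = -c ^ 2) := by
    intro x hx hev
    have hNx : Algebra.norm ℚ x ≠ 0 := by rw [Ne, Algebra.norm_eq_zero_iff]; exact hx
    obtain ⟨ε, c, hc, h⟩ := exists_unit_mul_sq odd_classNumber_rat hNx (Q.norm_even hx hev)
    refine ⟨c, hc, ?_⟩
    rcases unit_rat ε with hε | hε
    · left
      rw [h, hε, one_mul]
    · right
      rw [h, hε]
      ring
  refine ⟨fun x hx hev hpos => ?_, fun x hx hev h4 => ?_⟩
  · obtain ⟨c, hc, h | h⟩ := key x hx hev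
    · exact R1 x hx hev ⟨c, by rw [h]; ring⟩ hpos
    · exfalso
      obtain ⟨ψ, hψ⟩ := Q.exists_ext (E := M) (algebraMap ℚ ℝ)
      have h1 : 0 < ψ (algebraMap ℚ M (Algebra.norm ℚ x)) := by
        rw [Algebra.norm_eq_prod_automorphisms, map_prod]
        exact Finset.prod_pos fun σ _ => hpos (ψ.comp (σ : M →+* M))
      rw [hψ, h] at h1
      have h3 : (0 : ℝ) ≤ (c : ℝ) ^ 2 := sq_nonneg _
      have h5 : algebraMap ℚ ℝ (-c ^ 2) = -(c : ℝ) ^ 2 := by
        rw [eq_ratCast]
        push_cast
        ring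
      rw [h5] at h1
      linarith
  · obtain ⟨c, hc, h | h⟩ := key x hx hev
    · exact R2 x hx hev ⟨c, by rw [h]; ring⟩ h4
    · exfalso
      have hw2 : (2 : 𝓞 M) ∈ (primeTwo h2).asIdeal := Ideal.mem_span_singleton_self _
      have hprod : ∀ s : Finset (M ≃ₐ[ℚ] M), Q.Sq4 (primeTwo h2) (∏ σ ∈ s, σ x) := by
        intro s
        induction s using Finset.induction_on with
        | empty =>
          rw [Finset.prod_empty]
          refine ⟨1, 1, one_ne_zero, map_one _, ?_⟩
          rw [one_mul, sub_self, map_zero]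
          exact zero_le
        | insert σ s hσ ih =>
          rw [Finset.prod_insert hσ]
          exact Q.Sq4.mul (Q.Sq4.conj σ h4 (primeTwo h2) hw2) ih (Q.val_four_le _ _)
      have h1 := hprod Finset.univ
      rw [← Algebra.norm_eq_prod_automorphisms, h] at h1
      obtain ⟨t, m, ht, hm, hle⟩ := h1
      refine neg_one_TNcB (V := (primeTwo h2).valuation M) (val_two h2)
        (T := algebraMap ℚ M c * t) hm ?_
      have e : -(algebraMap ℚ M c * t) ^ 2 - m ^ 2 = algebraMap ℚ M (-c ^ 2) * t ^ 2 - m ^ 2 := by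
        rw [map_neg, map_pow]
        ring
      rw [e]
      exact hle

end Pool.Agent.H26.SG
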