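import Mathlib

/-!
Ramification in a compositum.

PROOF. All ramification indices are `Ideal.ramificationIdx'` (see its API in Mathlib; it is equal to
`ramificationIdx` for a prime lying over: look for lemmas which translate), multiplicative in towers.
(1) For a Galois extension `L / K` of number fields and `W` over `w` the index `e(W | w)` divides
`[L : K]`: `Ideal.ncard_primesOver_mul_ramificationIdxIn_mul_inertiaDegIn` and
`Ideal.ramificationIdxIn_eq_ramificationIdx` or similar.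
(2) If `ℓ ∈ V`, `ℓ ∉ V ^ 2` for a prime `V` of `𝓞 N` then `e(V | ℓ) = 1` (over the prime `(ℓ)` of the
integers): at least one since `(ℓ) ≤ V`, and `(ℓ) ≤ V ^ 2` would follow from `e ≥ 2`. Conversely
`e(W | ℓ) = 1` gives `ℓ ∉ W ^ 2`.

`ram_odd`: let `V = W ∩ 𝓞 N`. `e(W | ℓ) = e(W | V) * e(V | ℓ) = e(W | V)`, a divisor of `[L : N]`, odd.
And `e(W | ℓ) = e(W | w) * e(w | ℓ)`, so `e(W | w)` is odd.
`unr_comp`: `e(W | ℓ)` divides `[L : M]` and `[L : N]`, so it is one.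
-/

set_option autoImplicit false
open scoped Classical

open IsDedekindDomain NumberField

namespace Pool.Agent.H26.SG

private theorem TR_e1 {N : Type} [Field N] [NumberField N] {ℓ : ℕ}
    (p0 : Ideal ℤ) (V : Ideal (𝓞 N)) [V.IsPrime] [V.LiesOver p0] (hl : (ℓ : ℤ) ∈ p0)
    (hN : (ℓ : 𝓞 N) ∉ V ^ 2) : p0.ramificationIdx' V = 1 := by
  by_contra h
  have h1 : Ideal.map (algebraMap ℤ (𝓞 N)) p0 ≤ V :=
    Ideal.map_le_iff_le_comap.2 (le_of_eq (Ideal.over_def V p0))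
  have h2 := (Ideal.ramificationIdx'_ne_one_iff h1).1 h
  apply hN
  apply h2
  have h3 := Ideal.mem_map_of_mem (algebraMap ℤ (𝓞 N)) hl
  rwa [map_natCast] at h3

private theorem TR_dvd {N L : Type} [Field N] [NumberField N] [Field L] [NumberField L]
    [Algebra N L] [IsGalois N L] (V : Ideal (𝓞 N)) (W : Ideal (𝓞 L)) [V.IsPrime] [W.IsPrime]
    [W.LiesOver V] (hV : V ≠ ⊥) :
    V.ramificationIdx' W ∣ Module.finrank N L := by
  have h1 := Ideal.ncard_primesOver_mul_ramificationIdxIn_mul_inertiaDegIn V (𝓞 L)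
    (L ≃ₐ[N] L)
  rw [Ideal.ramificationIdxIn_eq_ramificationIdx V W (L ≃ₐ[N] L),
    ← Ideal.ramificationIdx'_eq_ramificationIdx V W hV] at h1
  have h2 : Nat.card (L ≃ₐ[N] L) = Module.finrank N L := IsGalois.card_aut_eq_finrank N L
  rw [h2] at h1
  rw [← h1]
  exact (Dvd.intro _ rfl).mul_left _

/-- the ideal of `𝓞 N` below `W` -/
private theorem TR_below {N L : Type} [Field N] [NumberField N] [Field L] [NumberField L]
    [Algebra N L] [IsGalois N L] (W : HeightOneSpectrum (𝓞 L)) {ℓ : ℕ} (hℓ : ℓ.Prime)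
    (hW : (ℓ : 𝓞 L) ∈ W.asIdeal)
    (hN : ∀ v : HeightOneSpectrum (𝓞 N), (ℓ : 𝓞 N) ∈ v.asIdeal → (ℓ : 𝓞 N) ∉ v.asIdeal ^ 2) :
    (W.asIdeal.under ℤ).ramificationIdx' W.asIdeal ∣ Module.finrank N L := by
  have hmem : (ℓ : 𝓞 N) ∈ W.asIdeal.under (𝓞 N) := by
    rw [Ideal.under_def, Ideal.mem_comap, map_natCast]
    exact hW
  have hmemZ : (ℓ : ℤ) ∈ W.asIdeal.under ℤ := by
    rw [Ideal.under_def, Ideal.mem_comap, map_natCast]
    exact hW
  have hne : W.asIdeal.under (𝓞 N) ≠ ⊥ := by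
    intro h
    rw [h, Ideal.mem_bot] at hmem
    exact hℓ.ne_zero (by exact_mod_cast hmem)
  obtain ⟨v, hv⟩ : ∃ v : HeightOneSpectrum (𝓞 N), v.asIdeal = W.asIdeal.under (𝓞 N) :=
    ⟨⟨W.asIdeal.under (𝓞 N), inferInstance, hne⟩, rfl⟩
  have hN' := hN v (by rw [hv]; exact hmem)
  rw [hv] at hN'
  have hlo : (W.asIdeal.under (𝓞 N)).LiesOver (W.asIdeal.under ℤ) := by
    constructor
    rw [Ideal.under_under]
  have h1 : (W.asIdeal.under ℤ).ramificationIdx' (W.asIdeal.under (𝓞 N)) = 1 :=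
    TR_e1 (ℓ := ℓ) _ _ hmemZ hN'
  have h2 := Ideal.ramificationIdx'_algebra_tower' (W.asIdeal.under ℤ)
    (W.asIdeal.under (𝓞 N)) W.asIdeal
  rw [h1, one_mul] at h2
  rw [h2]
  exact TR_dvd _ _ hne

theorem ram_odd {N L' L : Type} [Field N] [NumberField N] [Field L'] [NumberField L'] [Field L]
    [NumberField L] [Algebra N L] [IsGalois N L] (hodd : Odd (Module.finrank N L)) [Algebra L' L]
    (w : HeightOneSpectrum (𝓞 L')) (W : HeightOneSpectrum (𝓞 L)) [W.asIdeal.LiesOver w.asIdeal]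
    {ℓ : ℕ} (hℓ : ℓ.Prime) (hW : (ℓ : 𝓞 L) ∈ W.asIdeal)
    (hN : ∀ v : HeightOneSpectrum (𝓞 N), (ℓ : 𝓞 N) ∈ v.asIdeal → (ℓ : 𝓞 N) ∉ v.asIdeal ^ 2) :
    Odd (w.asIdeal.ramificationIdx' W.asIdeal) := by
  have h1 := TR_below (N := N) W hℓ hW hN
  have hlo : w.asIdeal.LiesOver (W.asIdeal.under ℤ) := by
    constructor
    rw [Ideal.over_def W.asIdeal w.asIdeal, Ideal.under_under]
  have h2 := Ideal.ramificationIdx'_algebra_tower' (W.asIdeal.under ℤ) w.asIdeal W.asIdeal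
  exact (hodd.of_dvd_nat h1).of_dvd_nat (Dvd.intro_left _ h2.symm)

theorem unr_comp {M N L : Type} [Field M] [NumberField M] [Field N] [NumberField N] [Field L]
    [NumberField L] [Algebra M L] [IsGalois M L] [Algebra N L] [IsGalois N L]
    (hcop : Nat.Coprime (Module.finrank M L) (Module.finrank N L)) {ℓ : ℕ} (hℓ : ℓ.Prime)
    (hM : ∀ v : HeightOneSpectrum (𝓞 M), (ℓ : 𝓞 M) ∈ v.asIdeal → (ℓ : 𝓞 M) ∉ v.asIdeal ^ 2)
    (hN : ∀ v : HeightOneSpectrum (𝓞 N), (ℓ : 𝓞 N) ∈ v.asIdeal → (ℓ : 𝓞 N) ∉ v.asIdeal ^ 2)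
    (W : HeightOneSpectrum (𝓞 L)) (hW : (ℓ : 𝓞 L) ∈ W.asIdeal) : (ℓ : 𝓞 L) ∉ W.asIdeal ^ 2 := by
  have h1 := TR_below (N := M) W hℓ hW hM
  have h2 := TR_below (N := N) W hℓ hW hN
  have h3 : (W.asIdeal.under ℤ).ramificationIdx' W.asIdeal = 1 :=
    Nat.dvd_one.1 (by
      have h4 := Nat.dvd_gcd h1 h2
      rwa [hcop.gcd_eq_one] at h4)
  intro hc
  have hmemZ : (ℓ : ℤ) ∈ W.asIdeal.under ℤ := by
    rw [Ideal.under_def, Ideal.mem_comap, map_natCast]
    exact hW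
  have hspan : W.asIdeal.under ℤ = Ideal.span {(ℓ : ℤ)} := by
    have hmax : (Ideal.span {(ℓ : ℤ)}).IsMaximal :=
      PrincipalIdealRing.isMaximal_of_irreducible (Nat.prime_iff_prime_int.1 hℓ).irreducible
    refine (hmax.eq_of_le ?_ ?_).symm
    · exact (inferInstance : (W.asIdeal.under ℤ).IsPrime).ne_top
    · rw [Ideal.span_singleton_le_iff_mem]
      exact hmemZ
  have h5 : Ideal.map (algebraMap ℤ (𝓞 L)) (W.asIdeal.under ℤ) ≤ W.asIdeal :=
    Ideal.map_le_iff_le_comap.2 le_rfl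
  refine (Ideal.ramificationIdx'_ne_one_iff h5).2 ?_ h3
  rw [hspan, Ideal.map_span, Ideal.span_le, Set.image_singleton, Set.singleton_subset_iff,
    map_natCast]
  exact hc

end Pool.Agent.H26.SG
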