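import Mathlib

/-!
Subfields of a compositum of fields of coprime degrees.

PROOF. Let `φ = f.toRatAlgHom : M →ₐ[ℚ] L`, `ψ` the one for `g`, `E = φ.fieldRange`,
`G = ψ.fieldRange`, intermediate fields of degrees `m = [M : ℚ]`, `n = [N : ℚ]`.
`gal_comp`: the degree of `E ⊔ G` is a multiple of `m` and of `n` (tower law,
`IntermediateField.finrank_dvd_of_le_right`/`Dvd`), so it is a multiple of `m n = [L : ℚ]`, so
`E ⊔ G = ⊤` (`IntermediateField.eq_of_le_of_finrank_le` or similar). `E` and `G` are normal over the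
rationals (`Normal.of_algEquiv` with `M ≃ₐ E`), so `E ⊔ G` is normal (`IntermediateField.normal_sup`),
so `L` is (`⊤ ≃ₐ L`), and it is separable (characteristic zero).
`sub_comp`: `G' = (ψ restricted to N')` has degree `n' = [N' : ℚ]`, a divisor of `n`, so coprime to
`m`. Take `L' = E ⊔ G'` where `G' = N'.map ψ`. Its degree is a multiple of `m` and `n'`, so of
`m n'`, and at most `m n'` (`IntermediateField.finrank_sup_le`). The maps are the obvious inclusions.
-/

set_option autoImplicit false
open scoped Classical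

open NumberField

namespace Pool.Agent.H26.SG

private theorem TSub_fin {M L : Type} [Field M] [NumberField M] [Field L] [NumberField L] (φ : M →ₐ[ℚ] L) :
    Module.finrank ℚ φ.fieldRange = Module.finrank ℚ M :=
  (LinearEquiv.finrank_eq (AlgEquiv.ofInjectiveField φ).toLinearEquiv).symm

private theorem TSub_normal {K M N L : Type} [Field K] [Field M] [Field N] [Field L] [Algebra K M] [Algebra K N]
    [Algebra K L] (φ : M →ₐ[K] L) (ψ : N →ₐ[K] L) [Normal K M] [Normal K N]
    (h : φ.fieldRange ⊔ ψ.fieldRange = ⊤) : Normal K L := by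
  have hn1 : Normal K φ.fieldRange := Normal.of_algEquiv (AlgEquiv.ofInjectiveField φ)
  have hn2 : Normal K ψ.fieldRange := Normal.of_algEquiv (AlgEquiv.ofInjectiveField ψ)
  have h5 : Normal K (φ.fieldRange ⊔ ψ.fieldRange : IntermediateField K L) := inferInstance
  rw [h] at h5
  exact Normal.of_algEquiv IntermediateField.topEquiv

theorem gal_comp {M N L : Type} [Field M] [NumberField M] [Field N] [NumberField N] [Field L]
    [NumberField L] (f : M →+* L) (g : N →+* L)
    (hdeg : Module.finrank ℚ L = Module.finrank ℚ M * Module.finrank ℚ N)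
    (hcop : Nat.Coprime (Module.finrank ℚ M) (Module.finrank ℚ N)) [IsGalois ℚ M] [IsGalois ℚ N] :
    IsGalois ℚ L := by
  let φ : M →ₐ[ℚ] L := f.toRatAlgHom
  let ψ : N →ₐ[ℚ] L := g.toRatAlgHom
  have h1 : Module.finrank ℚ M ∣ Module.finrank ℚ (φ.fieldRange ⊔ ψ.fieldRange : IntermediateField ℚ L) := by
    rw [← TSub_fin φ]
    exact IntermediateField.finrank_dvd_of_le_right le_sup_left
  have h2 : Module.finrank ℚ N ∣ Module.finrank ℚ (φ.fieldRange ⊔ ψ.fieldRange : IntermediateField ℚ L) := by
    rw [← TSub_fin ψ]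
    exact IntermediateField.finrank_dvd_of_le_right le_sup_right
  have h3 := hcop.mul_dvd_of_dvd_of_dvd h1 h2
  have h4 : φ.fieldRange ⊔ ψ.fieldRange = ⊤ :=
    IntermediateField.eq_of_le_of_finrank_le le_top (by
      rw [IntermediateField.finrank_top', hdeg]
      exact Nat.le_of_dvd Module.finrank_pos h3)
  have h6 : Normal ℚ L := TSub_normal φ ψ h4
  exact ⟨⟩

theorem sub_comp {M N L : Type} [Field M] [NumberField M] [Field N] [NumberField N] [Field L]
    [NumberField L] (f : M →+* L) (g : N →+* L)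
    (hdeg : Module.finrank ℚ L = Module.finrank ℚ M * Module.finrank ℚ N)
    (hcop : Nat.Coprime (Module.finrank ℚ M) (Module.finrank ℚ N)) (N' : IntermediateField ℚ N) :
    ∃ L' : IntermediateField ℚ L, Nonempty (M →+* L') ∧ Nonempty (N' →+* L') ∧
      Module.finrank ℚ L' = Module.finrank ℚ M * Module.finrank ℚ N' := by
  let φ : M →ₐ[ℚ] L := f.toRatAlgHom
  let ψ : N →ₐ[ℚ] L := g.toRatAlgHom
  have hG : Module.finrank ℚ (N'.map ψ) = Module.finrank ℚ N' :=
    (LinearEquiv.finrank_eq (IntermediateField.equivMap N' ψ).toLinearEquiv).symm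
  have hN' : Module.finrank ℚ N' ∣ Module.finrank ℚ N := ⟨_, (Module.finrank_mul_finrank ℚ N' N).symm⟩
  refine ⟨φ.fieldRange ⊔ N'.map ψ, ⟨?_⟩, ⟨?_⟩, ?_⟩
  · exact (IntermediateField.inclusion (le_sup_left : φ.fieldRange ≤ φ.fieldRange ⊔ N'.map ψ)).toRingHom.comp
      (AlgEquiv.ofInjectiveField φ).toAlgHom.toRingHom
  · exact (IntermediateField.inclusion (le_sup_right : N'.map ψ ≤ φ.fieldRange ⊔ N'.map ψ)).toRingHom.comp
      (IntermediateField.equivMap N' ψ).toAlgHom.toRingHom
  · apply le_antisymm
    · rw [← TSub_fin φ, ← hG]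
      exact IntermediateField.finrank_sup_le _ _
    · apply Nat.le_of_dvd Module.finrank_pos
      apply (Nat.Coprime.coprime_dvd_right hN' hcop).mul_dvd_of_dvd_of_dvd
      · rw [← TSub_fin φ]
        exact IntermediateField.finrank_dvd_of_le_right le_sup_left
      · rw [← hG]
        exact IntermediateField.finrank_dvd_of_le_right le_sup_right

end Pool.Agent.H26.SG
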