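import Mathlib

/-!
Primes in a compositum of fields of coprime degrees.

PROOF. For a number field `F` and a prime `w` of `𝓞 F` containing `ℓ` (so over the prime `(ℓ)` of
the integers) let `n_w = e f` be the product of ramification index and inertia degree over `(ℓ)`.
The sum of the `n_w` is the degree `[F : ℚ]` (`Ideal.sum_ramification_inertia`; base ring the
integers, `(ℓ)` maximal and nonzero). So if there is one prime only then `n_w = [F : ℚ]`. Let `w` be a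
prime of `𝓞 L` containing `ℓ`. With `M → L` as algebra structure, `n_w` is a multiple of `n_v`, `v`
the prime of `𝓞 M` below `w` (multiplicativity of `e` and `f` in towers: `Ideal.ramificationIdx_tower`,
`Ideal.inertiaDeg_tower` or similar names), which is `[M : ℚ]`. In the same way it is a multiple of
`[N : ℚ]`. These are coprime, so `[L : ℚ]` divides `n_w`, and `n_w > 0`, so `n_w ≥ [L : ℚ]`. Two
different primes would give a sum at least `2 [L : ℚ]`.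
-/

set_option autoImplicit false
open scoped Classical

open IsDedekindDomain NumberField

namespace Pool.Agent.H26.SG

private theorem tu_prime {ℓ : ℕ} (hℓ : ℓ.Prime) :
    (Ideal.span {(ℓ : ℤ)}).IsPrime := by
  rw [Ideal.span_singleton_prime (by exact_mod_cast hℓ.ne_zero)]
  exact Nat.prime_iff_prime_int.mp hℓ

private theorem tu_liesOver {F : Type} [Field F] [NumberField F] {ℓ : ℕ} (hℓ : ℓ.Prime)
    (v : HeightOneSpectrum (𝓞 F)) (hv : (ℓ : 𝓞 F) ∈ v.asIdeal) :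
    v.asIdeal.LiesOver (Ideal.span {(ℓ : ℤ)}) := by
  have hp := tu_prime hℓ
  have hmax : (Ideal.span {(ℓ : ℤ)}).IsMaximal := by
    refine hp.isMaximal ?_
    rw [Ne, Ideal.span_singleton_eq_bot]
    exact_mod_cast hℓ.ne_zero
  refine ⟨?_⟩
  have hvp := v.isPrime
  refine hmax.eq_of_le ?_ ?_
  · exact Ideal.IsPrime.ne_top (Ideal.IsPrime.under ℤ v.asIdeal)
  · rw [Ideal.span_singleton_le_iff_mem]
    change algebraMap ℤ (𝓞 F) (ℓ : ℤ) ∈ v.asIdeal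
    simpa using hv

private theorem tu_ne_bot {F : Type} [Field F] [NumberField F] {ℓ : ℕ} (hℓ : ℓ.Prime)
    (P : Ideal (𝓞 F)) (h : (ℓ : 𝓞 F) ∈ P) : P ≠ ⊥ := by
  rintro rfl
  rw [Ideal.mem_bot] at h
  exact hℓ.ne_zero (by exact_mod_cast h)

private theorem tu_mem {F : Type} [Field F] [NumberField F] {ℓ : ℕ}
    (P : Ideal (𝓞 F)) [P.LiesOver (Ideal.span {(ℓ : ℤ)})] : (ℓ : 𝓞 F) ∈ P := by
  have h := (Ideal.mem_of_liesOver P (Ideal.span {(ℓ : ℤ)}) (ℓ : ℤ)).mp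
    (Ideal.mem_span_singleton_self _)
  simpa using h

private noncomputable def tu_n {F : Type} [Field F] [NumberField F] (v : HeightOneSpectrum (𝓞 F)) :
    ℕ := v.asIdeal.ramificationIdx ℤ * v.asIdeal.inertiaDeg ℤ

private theorem tu_pos {F : Type} [Field F] [NumberField F] (v : HeightOneSpectrum (𝓞 F)) :
    0 < tu_n v := by
  have := v.isPrime
  exact Nat.mul_pos (Ideal.ramificationIdx_pos _ _) (Ideal.inertiaDeg_pos _ _)

private theorem tu_le {F : Type} [Field F] [NumberField F] {ℓ : ℕ} (hℓ : ℓ.Prime)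
    (v w : HeightOneSpectrum (𝓞 F)) (hv : (ℓ : 𝓞 F) ∈ v.asIdeal) (hw : (ℓ : 𝓞 F) ∈ w.asIdeal)
    (hne : v ≠ w) : tu_n v + tu_n w ≤ Module.finrank ℚ F := by
  have hp := tu_prime hℓ
  have hfin : Finite ((Ideal.span {(ℓ : ℤ)}).primesOver (𝓞 F)) :=
    Algebra.QuasiFinite.finite_primesOver (Ideal.span {(ℓ : ℤ)})
  let _ : Fintype ((Ideal.span {(ℓ : ℤ)}).primesOver (𝓞 F)) := Fintype.ofFinite _
  have h := Ideal.sum_ramification_inertia_eq_finrank (Ideal.span {(ℓ : ℤ)}) (𝓞 F)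
  rw [RingOfIntegers.rank] at h
  rw [← h]
  set V : (Ideal.span {(ℓ : ℤ)}).primesOver (𝓞 F) := ⟨v.asIdeal, v.isPrime, tu_liesOver hℓ v hv⟩
  set W : (Ideal.span {(ℓ : ℤ)}).primesOver (𝓞 F) := ⟨w.asIdeal, w.isPrime, tu_liesOver hℓ w hw⟩
  have hVW : V ≠ W := by
    intro h
    apply hne
    exact HeightOneSpectrum.ext (Subtype.ext_iff.mp h)
  have h2 : ∑ q ∈ ({V, W} : Finset _), (q : Ideal (𝓞 F)).ramificationIdx ℤ *
      (q : Ideal (𝓞 F)).inertiaDeg ℤ ≤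
      ∑ q : (Ideal.span {(ℓ : ℤ)}).primesOver (𝓞 F), (q : Ideal (𝓞 F)).ramificationIdx ℤ *
      (q : Ideal (𝓞 F)).inertiaDeg ℤ :=
    Finset.sum_le_sum_of_subset (Finset.subset_univ _)
  rw [Finset.sum_pair hVW] at h2
  exact h2

private theorem tu_eq {F : Type} [Field F] [NumberField F] {ℓ : ℕ} (hℓ : ℓ.Prime)
    (hF : ∀ v w : HeightOneSpectrum (𝓞 F), (ℓ : 𝓞 F) ∈ v.asIdeal → (ℓ : 𝓞 F) ∈ w.asIdeal → v = w)
    (v : HeightOneSpectrum (𝓞 F)) (hv : (ℓ : 𝓞 F) ∈ v.asIdeal) :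
    tu_n v = Module.finrank ℚ F := by
  have hp := tu_prime hℓ
  have hfin : Finite ((Ideal.span {(ℓ : ℤ)}).primesOver (𝓞 F)) :=
    Algebra.QuasiFinite.finite_primesOver (Ideal.span {(ℓ : ℤ)})
  let _ : Fintype ((Ideal.span {(ℓ : ℤ)}).primesOver (𝓞 F)) := Fintype.ofFinite _
  have h := Ideal.sum_ramification_inertia_eq_finrank (Ideal.span {(ℓ : ℤ)}) (𝓞 F)
  rw [RingOfIntegers.rank] at h
  rw [← h]
  set V : (Ideal.span {(ℓ : ℤ)}).primesOver (𝓞 F) := ⟨v.asIdeal, v.isPrime, tu_liesOver hℓ v hv⟩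
  have huniq : ∀ W : (Ideal.span {(ℓ : ℤ)}).primesOver (𝓞 F), W = V := by
    rintro ⟨P, hP, hPl⟩
    have hmem : (ℓ : 𝓞 F) ∈ P := tu_mem P
    have := hF ⟨P, hP, tu_ne_bot hℓ P hmem⟩ v hmem hv
    exact Subtype.ext (congrArg HeightOneSpectrum.asIdeal this)
  rw [Finset.sum_eq_single V (fun b _ hb => absurd (huniq b) hb)
    (fun h => absurd (Finset.mem_univ _) h)]
  rfl

private theorem tu_dvd {M L : Type} [Field M] [NumberField M] [Field L]
    [NumberField L] (f : M →+* L) {ℓ : ℕ} (hℓ : ℓ.Prime)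
    (hM : ∀ v w : HeightOneSpectrum (𝓞 M), (ℓ : 𝓞 M) ∈ v.asIdeal → (ℓ : 𝓞 M) ∈ w.asIdeal → v = w)
    (w : HeightOneSpectrum (𝓞 L)) (hw : (ℓ : 𝓞 L) ∈ w.asIdeal) :
    Module.finrank ℚ M ∣ tu_n w := by
  let _ : Algebra M L := f.toAlgebra
  have hpw := w.isPrime
  have hpl := tu_liesOver hℓ w hw
  set P : Ideal (𝓞 M) := w.asIdeal.under (𝓞 M) with hP
  have hPp : P.IsPrime := Ideal.IsPrime.under (𝓞 M) w.asIdeal
  have hmem : (ℓ : 𝓞 M) ∈ P := by
    rw [hP, Ideal.mem_under]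
    simpa using hw
  have hPw : w.asIdeal.LiesOver P := ⟨rfl⟩
  have h1 : P.ramificationIdx ℤ ∣ w.asIdeal.ramificationIdx ℤ :=
    Ideal.ramificationIdx_below_dvd P w.asIdeal
  have h2 : P.inertiaDeg ℤ ∣ w.asIdeal.inertiaDeg ℤ :=
    Ideal.inertiaDeg_below_dvd P w.asIdeal
  have h3 := tu_eq hℓ hM ⟨P, hPp, tu_ne_bot hℓ P hmem⟩ hmem
  rw [← h3]
  exact Nat.mul_dvd_mul h1 h2

theorem unique_comp {M N L : Type} [Field M] [NumberField M] [Field N] [NumberField N] [Field L]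
    [NumberField L] (f : M →+* L) (g : N →+* L)
    (hdeg : Module.finrank ℚ L = Module.finrank ℚ M * Module.finrank ℚ N)
    (hcop : Nat.Coprime (Module.finrank ℚ M) (Module.finrank ℚ N)) {ℓ : ℕ} (hℓ : ℓ.Prime)
    (hM : ∀ v w : HeightOneSpectrum (𝓞 M), (ℓ : 𝓞 M) ∈ v.asIdeal → (ℓ : 𝓞 M) ∈ w.asIdeal → v = w)
    (hN : ∀ v w : HeightOneSpectrum (𝓞 N), (ℓ : 𝓞 N) ∈ v.asIdeal → (ℓ : 𝓞 N) ∈ w.asIdeal → v = w)
    (v w : HeightOneSpectrum (𝓞 L)) (hv : (ℓ : 𝓞 L) ∈ v.asIdeal) (hw : (ℓ : 𝓞 L) ∈ w.asIdeal) :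
    v = w := by
  by_contra hne
  have h1 := tu_le hℓ v w hv hw hne
  have h2 : ∀ u : HeightOneSpectrum (𝓞 L), (ℓ : 𝓞 L) ∈ u.asIdeal →
      Module.finrank ℚ L ≤ tu_n u := by
    intro u hu
    refine Nat.le_of_dvd (tu_pos u) ?_
    rw [hdeg]
    exact hcop.mul_dvd_of_dvd_of_dvd (tu_dvd f hℓ hM u hu) (tu_dvd g hℓ hN u hu)
  have h3 := h2 v hv
  have h4 := h2 w hw
  have h5 : 0 < Module.finrank ℚ L := Module.finrank_pos
  omega

end Pool.Agent.H26.SG
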