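import Pool.Agent.H26.SG.CycInd
import Pool.Agent.H26.SG.Frob
import Pool.Agent.H26.SG.TNcA
import Pool.Agent.H26.SG.TNcB
import Pool.Agent.H26.SG.TUniq
import Pool.Agent.H26.SG.TRam
import Pool.Agent.H26.SG.TSub
import Pool.Agent.H26.SG.TLay

/-!
The layers of the cyclotomic `ℤ_3`-extension of the cyclic fields of two-power degree have no
classes.
-/

set_option autoImplicit false
set_option linter.style.haveILetI false
open scoped Classical

open IsDedekindDomain NumberField WithZero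

namespace Pool.Agent.H26.SG

open Pool.Agent.H10 H5SW

lemma nc_three {M : Type} [Field M] [NumberField M] (hM : IsR 3 M) : NC M := by
  obtain ⟨⟨R1, R2⟩, hodd, h2, -⟩ := three_facts hM
  obtain ⟨h1, -⟩ := facts_three hM
  exact nc_of_rel hM.1 hodd h2 R1 R2

lemma cop_three {i n : ℕ} : Nat.Coprime (3 ^ i) (2 ^ n) :=
  Nat.Coprime.pow _ _ (by norm_num)

/-- The degrees over the rationals and the relative degree. -/
lemma finrank_rel {M N L : Type} [Field M] [NumberField M] [Field N] [NumberField N] [Field L]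
    [NumberField L] [Algebra N L]
    (hdeg : Module.finrank ℚ L = Module.finrank ℚ M * Module.finrank ℚ N) :
    Module.finrank N L = Module.finrank ℚ M := by
  have h1 := Module.finrank_mul_finrank ℚ N L
  have h2 : 0 < Module.finrank ℚ N := Module.finrank_pos
  rw [hdeg, mul_comm] at h1
  exact Nat.eq_of_mul_eq_mul_right h2 h1

theorem nc_comp {q : ℕ} [Fact q.Prime] (hq2 : q ≠ 2) (hq9 : ¬ 9 ∣ q ^ 2 - 1) :
    ∀ (n : ℕ) (M N L : Type) [Field M] [NumberField M] [Field N] [NumberField N] [Field L]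
    [NumberField L], IsR 3 M → Nonempty (N →+* CyclotomicField q ℚ) →
    Module.finrank ℚ N = 2 ^ n → Nonempty (M →+* L) → Nonempty (N →+* L) →
    Module.finrank ℚ L = Module.finrank ℚ M * Module.finrank ℚ N → IsTotallyReal L → NC L := by
  intro n
  induction n with
  | zero =>
    intro M N L _ _ _ _ _ _ hM _ hN ⟨f⟩ _ hdeg hreal
    have hdeg' : Module.finrank ℚ M = Module.finrank ℚ L := by
      rw [hdeg, hN, pow_zero, mul_one]
    obtain ⟨-, m, ⟨ι⟩⟩ := hM
    let φ : M →ₐ[ℚ] L := f.toRatAlgHom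
    have hbij : Function.Bijective φ := by
      have h1 : Function.Injective φ.toLinearMap := φ.toRingHom.injective
      refine ⟨φ.toRingHom.injective, ?_⟩
      exact (LinearMap.injective_iff_surjective_of_finrank_eq_finrank hdeg').mp h1
    let e : M ≃ₐ[ℚ] L := AlgEquiv.ofBijective φ hbij
    exact nc_three ⟨hreal, m, ⟨ι.comp (e.symm : L →+* M)⟩⟩
  | succ n ih =>
    intro M N L _ _ _ _ _ _ hM hNq hN ⟨f⟩ ⟨g⟩ hdeg hreal
    obtain ⟨hGM, ⟨i, hi⟩, hM2, hMu⟩ := facts_three hM
    have hGN : IsGalois ℚ N := galois_sub hNq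
    have hcop : Nat.Coprime (Module.finrank ℚ M) (Module.finrank ℚ N) := by
      rw [hi, hN]; exact cop_three
    have hGL : IsGalois ℚ L := gal_comp f g hdeg hcop
    obtain ⟨N', hN'⟩ := exists_sub hNq hN
    have hN'k : Module.finrank ℚ N' = 2 ^ n := by
      have hmul := Module.finrank_mul_finrank ℚ N' N
      rw [hN', hN, pow_succ] at hmul
      exact Nat.eq_of_mul_eq_mul_right two_pos hmul
    have hN'q : Nonempty (N' →+* CyclotomicField q ℚ) :=
      hNq.map fun e => e.comp N'.val.toRingHom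
    obtain ⟨L', hM', ⟨g'⟩, hL'⟩ := sub_comp f g hdeg hcop N'
    have hrealL' : IsTotallyReal L' := IsTotallyReal.of_algebra L' L
    have hNC : NC L' := ih M N' L' hM hN'q hN'k hM' ⟨g'⟩ hL' hrealL'
    have h2 : Module.finrank L' L = 2 := by
      have h3 := Module.finrank_mul_finrank ℚ L' L
      rw [hL', hdeg, hN, hN'k, pow_succ, ← mul_assoc] at h3
      have h4 : 0 < Module.finrank ℚ M * 2 ^ n :=
        Nat.mul_pos Module.finrank_pos (by positivity)
      exact Nat.eq_of_mul_eq_mul_left h4 h3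
    have _ : Algebra.IsQuadraticExtension L' L := ⟨h2⟩
    obtain ⟨D, δ, hD0, hδ, hadj⟩ := H68QS.exists_delta h2
    have hδ' : ∀ r : L', algebraMap L' L r ≠ δ := by
      intro r hr
      have h1 : IntermediateField.adjoin L' {δ} = ⊥ := by
        rw [IntermediateField.adjoin_simple_eq_bot_iff, IntermediateField.mem_bot]
        exact ⟨r, hr⟩
      rw [h1] at hadj
      have h3 := IntermediateField.finrank_bot (F := L') (E := L)
      rw [hadj, IntermediateField.finrank_top', h2] at h3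
      norm_num at h3
    letI aN : Algebra N L := g.toAlgebra
    letI aM : Algebra M L := f.toAlgebra
    have hGNL : IsGalois N L := IsGalois.tower_top_of_isGalois ℚ N L
    have hGML : IsGalois M L := IsGalois.tower_top_of_isGalois ℚ M L
    have hNL : Module.finrank N L = Module.finrank ℚ M := finrank_rel hdeg
    have hML : Module.finrank M L = Module.finrank ℚ N :=
      finrank_rel (by rw [hdeg, mul_comm])
    have hodd : Odd (Module.finrank N L) := by
      rw [hNL, hi]
      exact (by decide : Odd 3).pow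
    have hcop' : Nat.Coprime (Module.finrank M L) (Module.finrank N L) := by
      rw [hNL, hML]
      exact hcop.symm
    have hNunr : ∀ ℓ : ℕ, ℓ.Prime → ℓ ≠ q → ∀ v : HeightOneSpectrum (𝓞 N),
        (ℓ : 𝓞 N) ∈ v.asIdeal → (ℓ : 𝓞 N) ∉ v.asIdeal ^ 2 :=
      fun ℓ hℓ hne v hv => unram hℓ hne hNq v hv
    obtain ⟨v₀, hv₀⟩ := exists_q (q := q) (L := L')
    refine nc_step hδ hδ' (fun φ => H68QS.exists_ext_real hreal φ) ?_ v₀ ?_ hNC
    · intro W hW
      have h1 := unr_comp hcop' Nat.prime_two (fun v hv => by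
        have h5 := hM2 v (by exact_mod_cast hv)
        exact_mod_cast h5) (hNunr 2 Nat.prime_two hq2.symm) W (by exact_mod_cast hW)
      exact_mod_cast h1
    · intro w W hW hne
      obtain ⟨ℓ, hℓ, hmem⟩ := CycA_exists_prime w.asIdeal w.isPrime (Ideal.absNorm w.asIdeal)
        (fun h => w.ne_bot (Ideal.absNorm_eq_zero_iff.1 h)) (Ideal.absNorm_mem w.asIdeal)
      have hne' : ℓ ≠ q := by
        rintro rfl
        apply hne
        obtain ⟨f'⟩ := hM'
        have hcop2 : Nat.Coprime (Module.finrank ℚ M) (Module.finrank ℚ N') := by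
          rw [hi, hN'k]; exact cop_three
        exact unique_comp f' g' hL' hcop2 hℓ (hMu ℓ hℓ hq9) (fun v w hv hw =>
          unique_q hN'q v w hv hw) w v₀ hmem hv₀
      have hWℓ : (ℓ : 𝓞 L) ∈ W.asIdeal := by
        have hle : w.asIdeal.map (algebraMap (𝓞 L') (𝓞 L)) ≤ W.asIdeal := by
          rw [Ideal.map_le_iff_le_comap]
          exact (W.asIdeal.over_def w.asIdeal).le
        have := hle (Ideal.mem_map_of_mem (algebraMap (𝓞 L') (𝓞 L)) hmem)
        simpa using this
      exact ram_odd hodd w W hℓ hWℓ (hNunr ℓ hℓ hne')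

/-- The facts on the layers over the cyclic fields. -/
theorem layer_facts {q n : ℕ} [Fact q.Prime] (hq2 : q ≠ 2) (hq9 : ¬ 9 ∣ q ^ 2 - 1)
    {N L : Type} [Field N] [NumberField N] [Field L] [NumberField L] [Algebra N L]
    (hNq : Nonempty (N →+* CyclotomicField q ℚ)) (hN : Module.finrank ℚ N = 2 ^ n)
    (hL : H73IS.IsLay 3 N L) : NC L ∧ ∀ ℓ : ℕ, ℓ.Prime → ¬ 9 ∣ ℓ ^ 2 - 1 →
      ¬ IsSquare ((ℓ : ℕ) : ZMod q) → ∀ v w : HeightOneSpectrum (𝓞 L),
      (ℓ : 𝓞 L) ∈ v.asIdeal → (ℓ : 𝓞 L) ∈ w.asIdeal → v = w := by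
  obtain ⟨M, _, _, hM, ⟨f⟩, hdeg⟩ := lay_three hL ⟨n, hN⟩
  obtain ⟨hGM, ⟨i, hi⟩, hM2, hMu⟩ := facts_three hM
  have hcop : Nat.Coprime (Module.finrank ℚ M) (Module.finrank ℚ N) := by
    rw [hi, hN]; exact cop_three
  refine ⟨nc_comp hq2 hq9 n M N L hM hNq hN ⟨f⟩ ⟨algebraMap N L⟩ hdeg hL.1, ?_⟩
  intro ℓ hℓ h9 hns v w hv hw
  exact unique_comp f (algebraMap N L) hdeg hcop hℓ (hMu ℓ hℓ h9)
    (fun v w hv hw => unique_l hℓ hns hNq hN v w hv hw) v w hv hw

end Pool.Agent.H26.SG
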