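import Pool.Agent.H26.SG.Dat
import Pool.Agent.H26.SG.Iso

/-!
The first component of an element of the Selmer group at the finite places.

NOTATION. Let `t ∈ selT D.isCub`, `d₁ = t.1`, `d₂ = t.2.1`, `d₃ = t.2.2` (elements of `L`
which are not zero), with `d₁ d₂ d₃ = q ^ 2`, `q ≠ 0` (`isSquare_triple`; `mem_selT`, `IsSel`). The
place `w` gives `CPt 0 a c d₁ d₂ d₃` over `F = w.adicCompletion L` (all through `algebraMap L F`,
first `map_zero`); the valuation of `F` restricts to `w.valuation L` (`valued_algebraMap`). The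
file `Pool.Agent.H10.Semi` (proof of `newTrivial_semi`) is a model for all the translations between
`F` and `L`. As `c = a + 16 α` (`D.hc`), in `L`: `(c : L) = a + 16 * α`.

PROOF of `up_one`: if `a * c ∉ w` then `a ∉ w` and `c ∉ w`, so `V a = V c = 1`
(`val_eq_one_of_notMem`) and `even_of_isolated` with roots `0, a, c` gives that `log V d₁` is even.

PROOF of `up_two`: let `2 ∈ w`. Then `a ∉ w` (coprime to two), so `V a = 1`. Rotate (`CPt.rot`):
`CPt a c 0 d₂ d₃ d₁`, and shift by `-a` (`CPt.shift`): `CPt 0 (16 α) (-a) d₂ d₃ d₁`. Apply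
`sqModFour_of_cpt` (`Pool.Agent.H10.SemiTwo`) with `a := 16 α`, `b := -a`, and `s` with
`4 ∣ a - s ^ 2`: `V (-a + s ^ 2) ≤ V 4`. It gives `SqModFour Valued.v d₁`, and `SqModFour.descend`
(`Pool.Agent.H10.Semi`) gives `SqModFour (w.valuation L) d₁`. Every step is as in the proof of
`hloc` inside `newTrivial_semi`.
-/

set_option autoImplicit false
set_option linter.style.haveILetI false
open scoped Classical

open WeierstrassCurve IsDedekindDomain NumberField WithZero

namespace Pool.Agent.H26.SG

open Pool.Agent.H10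

variable {L : Type} [Field L] [NumberField L] {a c α : 𝓞 L}

theorem up_one (D : Dat a c α) {t : Lˣ × Lˣ × Lˣ} (ht : t ∈ selT D.isCub)
    {w : HeightOneSpectrum (𝓞 L)} (hw : a * c ∉ w.asIdeal) : t.1 ∈ evenAt w := by
  have ha : a ∉ w.asIdeal := fun h => hw (Ideal.mul_mem_right _ _ h)
  have hc' : c ∉ w.asIdeal := fun h => hw (Ideal.mul_mem_left _ _ h)
  have vA := val_eq_one_of_notMem ha
  have vC := val_eq_one_of_notMem hc'
  rw [mem_selT] at ht
  obtain ⟨q, hq, hd⟩ := isSquare_triple ht.1
  rw [mem_evenAt, ← valued_algebraMap]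
  refine even_of_isolated (F := w.adicCompletion L) Valued.v ?_ ?_
    (c := algebraMap L (w.adicCompletion L) q) ?_ ?_ (ht.2.1 w)
  · rw [← map_sub, sub_zero, valued_algebraMap, vA]
  · rw [← map_sub, sub_zero, valued_algebraMap, vC]
  · rw [← map_mul, ← map_mul, hd, map_pow]
  · rw [Ne, map_eq_zero]; exact hq

theorem up_two (D : Dat a c α) {t : Lˣ × Lˣ × Lˣ} (ht : t ∈ selT D.isCub) :
    FourSq (t.1 : L) := by
  intro w hw
  rw [mem_selT] at ht
  obtain ⟨q, hq, hd⟩ := isSquare_triple ht.1
  obtain ⟨s, hs⟩ := D.sq4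
  have e2 : ((2 : 𝓞 L) : L) = 2 := map_ofNat (algebraMap (𝓞 L) L) 2
  have v2 : w.valuation L 2 < 1 := by
    have : w.valuation L ((2 : 𝓞 L) : L) < 1 :=
      (w.valuation_lt_one_iff_mem (K := L) (2 : 𝓞 L)).mpr hw
    rwa [e2] at this
  have v4 : w.valuation L 4 = w.valuation L 2 * w.valuation L 2 := by
    rw [← map_mul]; norm_num
  have h4 : w.valuation L 4 < 1 := by
    rw [v4]; exact mul_lt_one_of_lt_of_le v2 v2.le
  have h40 : w.valuation L 4 ≠ 0 := by
    rw [Valuation.ne_zero_iff]; norm_num
  have vA : w.valuation L (a : L) = 1 := by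
    apply val_eq_one_of_notMem
    intro hmem
    obtain ⟨p, r, hpr⟩ := D.cop
    apply w.isPrime.ne_top
    rw [Ideal.eq_top_iff_one, ← hpr]
    exact Ideal.add_mem _ (Ideal.mul_mem_left _ _ hmem) (Ideal.mul_mem_left _ _ hw)
  have hs' : w.valuation L (-(a : L) + (s : L) ^ 2) ≤ w.valuation L 4 := by
    obtain ⟨r, hr⟩ := hs
    have h3 : -(a : L) + (s : L) ^ 2 = -(4 * (r : L)) := by
      have := congrArg (algebraMap (𝓞 L) L) hr
      rw [map_sub, map_pow, map_mul, map_ofNat] at this
      linear_combination -this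
    rw [h3, Valuation.map_neg, map_mul]
    exact mul_le_of_le_one_right' (w.valuation_le_one (K := L) _)
  have hcL : (c : L) = (a : L) + 16 * (α : L) := by
    have := congrArg (algebraMap (𝓞 L) L) D.hc
    rw [map_add, map_mul, map_ofNat] at this
    exact this
  refine SqModFour.descend w h40 h4 ?_
  have H := Pool.Agent.H26.SG.CPt.shift (Pool.Agent.H26.SG.CPt.rot (ht.2.1 w))
    (-(algebraMap L (w.adicCompletion L) (a : L)))
  have k1 : algebraMap L (w.adicCompletion L) (a : L) +
      -(algebraMap L (w.adicCompletion L) (a : L)) = 0 := by ring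
  have k2 : algebraMap L (w.adicCompletion L) (c : L) +
      -(algebraMap L (w.adicCompletion L) (a : L)) =
      algebraMap L (w.adicCompletion L) (16 * (α : L)) := by
    rw [← map_neg, ← map_add, hcL]
    congr 1
    ring
  have k3 : algebraMap L (w.adicCompletion L) (0 : L) +
      -(algebraMap L (w.adicCompletion L) (a : L)) =
      algebraMap L (w.adicCompletion L) (-(a : L)) := by
    rw [← map_neg, ← map_add, zero_add]
  rw [k1, k2, k3] at H
  refine sqModFour_of_cpt (V := Valued.v) (s := algebraMap L (w.adicCompletion L) (s : L))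
    (c := algebraMap L (w.adicCompletion L) q) ?_ ?_ ?_ ?_ ?_ ?_ H
  · rw [valued_ofNat]; exact h4
  · rw [valued_ofNat, valued_algebraMap, map_mul]
    exact mul_le_of_le_one_right' (w.valuation_le_one (K := L) _)
  · rw [valued_algebraMap, Valuation.map_neg]; exact vA
  · rw [valued_ofNat, ← map_pow, ← map_add, valued_algebraMap]; exact hs'
  · rw [← map_mul, ← map_mul, ← map_pow, ← hd]
    congr 1
    ring
  · rw [Ne, map_eq_zero]; exact hq

end Pool.Agent.H26.SG
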